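import Mathlib
import Pool.Agent.Helper760.Profile

set_option autoImplicit false

namespace Pool.Agent.Helper760.EP

open Encodable
open Pool.Agent.Helper760.Kolm

/-- error unit -/
def lam (N : ℕ) : ℕ := Nat.size N + 1

/-- equal up to `e` -/
def ap (e a b : ℕ) : Prop := a ≤ b + e ∧ b ≤ a + e

/-- a part of the tuple `W` -/
def tup (W : Fin 5 → List Bool) (S : Finset (Fin 5)) : List (Option (List Bool)) :=
  (List.finRange 5).map (fun i => if i ∈ S then some (W i) else none)

/-- complexity of a part of the tuple `W` -/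
noncomputable def H (W : Fin 5 → List Bool) (S : Finset (Fin 5)) : ℕ := K (tup W S) ()

/-- a pair as a string -/
def enc (a b : List Bool) : List Bool := (List.range (encode (a, b))).map (fun _ => true)

/-- the toolkit: Shannon inequalities with error `e` for the parts of the tuple `W`, and the
conditional complexities as differences -/
structure Tk (e M : ℕ) (W : Fin 5 → List Bool) : Prop where
  mono : ∀ S T : Finset (Fin 5), S ⊆ T → H W S ≤ H W T + e
  sub : ∀ S T : Finset (Fin 5), H W (S ∪ T) + H W (S ∩ T) ≤ H W S + H W T + e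
  bd : ∀ S : Finset (Fin 5), H W S ≤ M
  cd : ∀ S T : Finset (Fin 5), ap e (K (tup W S) (tup W T) + H W T) (H W (S ∪ T))
  c1 : ∀ i, ap e (K (W i) ()) (H W {i})
  c2 : ∀ i j, ap e (K (W i, W j) ()) (H W {i, j})
  c3 : ∀ i j k, ap e (K (W i, W j, W k) ()) (H W {i, j, k})
  c11 : ∀ i j, ap e (K (W i) (W j) + H W {j}) (H W {i, j})
  c21 : ∀ i j k, ap e (K (W i, W j) (W k) + H W {k}) (H W {i, j, k})
  c12 : ∀ i j k, ap e (K (W i) (W j, W k) + H W {j, k}) (H W {i, j, k})
  c22 : ∀ i j k l, ap e (K (W i, W j) (W k, W l) + H W {k, l}) (H W {i, j, k, l})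

/-- elements in large fibres for many hash functions -/
def badset (N t l : ℕ) (h : ℕ → ℕ → ℕ) (S : Finset ℕ) : Finset ℕ :=
  S.filter (fun j => N + 1 ≤ 4 * ((Finset.range (N + 1)).filter
    (fun i => 2 ^ (12 + l) < 2 ^ t * (S.filter (fun j' => h i j' = h i j)).card)).card)

/-- a good family of hash functions -/
def GoodH (N t : ℕ) (h : ℕ → ℕ → ℕ) : Prop :=
  ∀ (S : Finset ℕ) (l : ℕ), S ⊆ Finset.range (2 ^ N) → S.card ≤ 2 ^ l →
    (badset N t l h S).card < 2 ^ t

/-- everything simulated by `q` for `(x, y)` is simulated by some `q'` for `(x', y')` -/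
def GWsub (s : ℕ) (x y x' y' : List Bool) : Prop :=
  ∀ q : List Bool, ∃ q' : List Bool, K q' () ≤ K q () + s ∧ K x' q' ≤ K x q + s ∧
    K y' q' ≤ K y q + s

/-- the complexity profile of a triple -/
noncomputable def profK (x y q : List Bool) : Fin 7 → ℕ :=
  ![K x (), K y (), K q (), K (x, y) (), K (x, q) (), K (y, q) (), K (x, y, q) ()]

/-- string of the `w` lowest bits of `a` -/
def bw (w a : ℕ) : List Bool := (List.range w).map (fun i => a.testBit i)

end Pool.Agent.Helper760.EP
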