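import Mathlib

set_option autoImplicit false

namespace Pool.Agent.Helper760.EP

/-- Optimal plain machines: `U` is computable (its domain need not contain all strings), and every
such machine is simulated with programs longer by at most a constant. -/
def OptPlain (U : List Bool →. List Bool) : Prop :=
  Partrec U ∧ ∀ V : List Bool →. List Bool, Partrec V →
    ∃ c : ℕ, ∀ p s : List Bool, s ∈ V p → ∃ q : List Bool, s ∈ U q ∧ q.length ≤ p.length + c

/-- Optimal conditional machines; the second argument is the condition. -/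
def OptCond (D : List Bool → List Bool →. List Bool) : Prop :=
  Partrec₂ D ∧ ∀ E : List Bool → List Bool →. List Bool, Partrec₂ E →
    ∃ c : ℕ, ∀ p y s : List Bool, s ∈ E p y → ∃ q : List Bool, s ∈ D q y ∧ q.length ≤ p.length + c

/-- Plain complexity `C(s)`: the least length of a program printing `s`. -/
noncomputable def CU (U : List Bool →. List Bool) (s : List Bool) : ℕ :=
  sInf {m : ℕ | ∃ p : List Bool, s ∈ U p ∧ p.length = m}

/-- Conditional complexity `C(s | y)`: the least length of a program printing `s` given `y`. -/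
noncomputable def CD (D : List Bool → List Bool →. List Bool) (s y : List Bool) : ℕ :=
  sInf {m : ℕ | ∃ p : List Bool, s ∈ D p y ∧ p.length = m}

/-- A computable encoding of pairs of strings by strings. -/
def PairCode (pr : List Bool → List Bool → List Bool) : Prop :=
  Computable₂ pr ∧ ∀ x y x' y', pr x y = pr x' y' → x = x' ∧ y = y'

/-- The Gray–Wyner profile of `(x, y)`: triples `(α, β, γ)`. -/
def GWp (U : List Bool →. List Bool) (D : List Bool → List Bool →. List Bool) (x y : List Bool) :
    Set (Fin 3 → ℤ) :=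
  {t | ∃ q : List Bool, (CU U q : ℤ) ≤ t 2 ∧ (CD D x q : ℤ) ≤ t 0 ∧ (CD D y q : ℤ) ≤ t 1}

/-- The Wyner profile of `(x, y)`: pairs `(α, β)`. -/
def Wp (U : List Bool →. List Bool) (D : List Bool → List Bool →. List Bool)
    (pr : List Bool → List Bool → List Bool) (x y : List Bool) : Set (Fin 2 → ℤ) :=
  {t | ∃ q : List Bool, (CU U q : ℤ) ≤ t 0 ∧
    (CD D x q : ℤ) + (CD D y q : ℤ) - (CD D (pr x y) q : ℤ) ≤ t 1}

/-- The complexity profile of the triple `(x, y, q)`: complexities of `x`, `y`, `q`, `(x, y)`,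
`(x, q)`, `(y, q)`, `(x, y, q)`. -/
noncomputable def prof (U : List Bool →. List Bool) (pr : List Bool → List Bool → List Bool)
    (x y q : List Bool) : Fin 7 → ℤ :=
  ![(CU U x : ℤ), (CU U y : ℤ), (CU U q : ℤ), (CU U (pr x y) : ℤ), (CU U (pr x q) : ℤ),
    (CU U (pr y q) : ℤ), (CU U (pr x (pr y q)) : ℤ)]

/-- The extended profile of `(x, y)`. -/
def Ep (U : List Bool →. List Bool) (pr : List Bool → List Bool → List Bool) (x y : List Bool) :
    Set (Fin 7 → ℤ) :=
  {t | ∃ q : List Bool, t = prof U pr x y q}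

/-- The part of the extended profile given by the strings `q` of complexity at most `B`. -/
def EpB (U : List Bool →. List Bool) (pr : List Bool → List Bool → List Bool) (B : ℕ)
    (x y : List Bool) : Set (Fin 7 → ℤ) :=
  {t | ∃ q : List Bool, CU U q ≤ B ∧ t = prof U pr x y q}

/-- The Wyner profile of `(x, y)` together with the complexities of `x`, `y` and `(x, y)`. -/
def WCp (U : List Bool →. List Bool) (D : List Bool → List Bool →. List Bool)
    (pr : List Bool → List Bool → List Bool) (x y : List Bool) : Set (Fin 5 → ℤ) :=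
  {t | ![t 0, t 1] ∈ Wp U D pr x y ∧ t 2 = (CU U x : ℤ) ∧ t 3 = (CU U y : ℤ) ∧
    t 4 = (CU U (pr x y) : ℤ)}

/-- Two sets of integer vectors are `δ`-close: every point of each is within sup-distance `δ` of
some point of the other. -/
def Close {d : ℕ} (δ : ℝ) (S T : Set (Fin d → ℤ)) : Prop :=
  (∀ s ∈ S, ∃ t ∈ T, ∀ i, |(s i : ℝ) - (t i : ℝ)| ≤ δ) ∧
    ∀ t ∈ T, ∃ s ∈ S, ∀ i, |(s i : ℝ) - (t i : ℝ)| ≤ δ

/-- The profile `P` determines the profile `P'`. The profiles may depend on the bound `n` for the
lengths of the strings. -/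
def Determines {d d' : ℕ} (P : ℕ → List Bool → List Bool → Set (Fin d → ℤ))
    (P' : ℕ → List Bool → List Bool → Set (Fin d' → ℤ)) : Prop :=
  ∀ c : ℝ, 0 < c → ∃ c' : ℝ, 0 < c' ∧ ∀ n : ℕ, 2 ≤ n → ∀ x y x' y' : List Bool,
    x.length ≤ n → y.length ≤ n → x'.length ≤ n → y'.length ≤ n →
    Close (c * Real.logb 2 n) (P n x y) (P n x' y') →
    Close (c' * Real.logb 2 n) (P' n x y) (P' n x' y')

end Pool.Agent.Helper760.EP
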