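import Mathlib
import Pool.Agent.Helper760.EP.Core
import Pool.Agent.Helper760.EP.Defs

set_option autoImplicit false

namespace Pool.Agent.Helper760.EP.J4278

open Encodable
open Pool.Agent.Helper760.Kolm

theorem tp_primrec_mapfix {α β ι : Type*} [Primcodable α] [Primcodable β] (is : List ι)
    (g : ι → α → β) (hg : ∀ i, Primrec (g i)) : Primrec (fun a => is.map (fun i => g i a)) := by
  induction is with
  | nil => exact Primrec.const []
  | cons i is ih => exact Primrec.list_cons.comp (hg i) ih

/-- masking -/
def tp_mask (S : Finset (Fin 5)) (l : List (Option (List Bool))) : List (Option (List Bool)) :=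
  (List.finRange 5).map (fun i => if i ∈ S then l.getD i.val none else none)

/-- merging -/
def tp_merge (T : Finset (Fin 5)) (d b : List (Option (List Bool))) : List (Option (List Bool)) :=
  (List.finRange 5).map (fun i => if i ∈ T then b.getD i.val none else d.getD i.val none)

theorem tp_getD (W : Fin 5 → List Bool) (T : Finset (Fin 5)) (i : Fin 5) :
    (tup W T).getD i.val none = if i ∈ T then some (W i) else none := by
  unfold tup
  fin_cases i <;> rfl

theorem tp_mask_tup (W : Fin 5 → List Bool) (S T : Finset (Fin 5)) (h : S ⊆ T) :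
    tp_mask S (tup W T) = tup W S := by
  unfold tp_mask
  simp only [tp_getD]
  unfold tup
  apply List.map_congr_left
  intro i _
  by_cases hi : i ∈ S
  · simp [hi, h hi]
  · simp [hi]

theorem tp_merge_tup (W : Fin 5 → List Bool) (S T : Finset (Fin 5)) :
    tp_merge T (tup W S) (tup W T) = tup W (S ∪ T) := by
  unfold tp_merge
  simp only [tp_getD]
  unfold tup
  apply List.map_congr_left
  intro i _
  by_cases hi : i ∈ T <;> by_cases hj : i ∈ S <;> simp [hi, hj]

theorem tp_primrec_mask (S : Finset (Fin 5)) : Primrec (tp_mask S) := by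
  unfold tp_mask
  apply tp_primrec_mapfix
  intro i
  by_cases hi : i ∈ S
  · simp only [hi, if_true]
    exact (Primrec.list_getD none).comp Primrec.id (Primrec.const i.val)
  · simp only [hi, if_false]
    exact Primrec.const none

theorem tp_primrec_merge (T : Finset (Fin 5)) :
    Primrec (fun x : List (Option (List Bool)) × List (Option (List Bool)) =>
      tp_merge T x.1 x.2) := by
  unfold tp_merge
  apply tp_primrec_mapfix
  intro i
  by_cases hi : i ∈ T
  · simp only [hi, if_true]
    exact (Primrec.list_getD none).comp Primrec.snd (Primrec.const i.val)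
  · simp only [hi, if_false]
    exact (Primrec.list_getD none).comp Primrec.fst (Primrec.const i.val)

theorem tup_a {β : Type*} [Primcodable β] : ∃ C : ℕ, ∀ (W : Fin 5 → List Bool)
    (S T : Finset (Fin 5)), S ⊆ T → ∀ z : β, K (tup W S) z ≤ K (tup W T) z + C := by
  have h : ∀ S : Finset (Fin 5), ∃ c : ℕ, ∀ (d : List (Option (List Bool))) (b : β),
      K (tp_mask S d) b ≤ K d b + c := fun S =>
    K_comp (fun (d : List (Option (List Bool))) (_ : β) => tp_mask S d)
      ((tp_primrec_mask S).comp Primrec.fst).to_comp.to₂ (fun b : β => b) Computable.id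
  choose c hc using h
  refine ⟨∑ S : Finset (Fin 5), c S, fun W S T hST z => ?_⟩
  have h1 := hc S (tup W T) z
  rw [tp_mask_tup W S T hST] at h1
  have h2 : c S ≤ ∑ S : Finset (Fin 5), c S :=
    Finset.single_le_sum (fun _ _ => Nat.zero_le _) (Finset.mem_univ S)
  omega

theorem tup_b {β : Type*} [Primcodable β] : ∃ C : ℕ, ∀ (W : Fin 5 → List Bool)
    (S T : Finset (Fin 5)), S ⊆ T → ∀ a : β, K a (tup W T) ≤ K a (tup W S) + C := by
  have h : ∀ S : Finset (Fin 5), ∃ c : ℕ, ∀ (d : β) (b : List (Option (List Bool))),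
      K d b ≤ K d (tp_mask S b) + c := fun S =>
    K_comp (fun (d : β) (_ : List (Option (List Bool))) => d)
      (Computable.fst).to₂ (tp_mask S) (tp_primrec_mask S).to_comp
  choose c hc using h
  refine ⟨∑ S : Finset (Fin 5), c S, fun W S T hST z => ?_⟩
  have h1 := hc S z (tup W T)
  rw [tp_mask_tup W S T hST] at h1
  have h2 : c S ≤ ∑ S : Finset (Fin 5), c S :=
    Finset.single_le_sum (fun _ _ => Nat.zero_le _) (Finset.mem_univ S)
  omega

theorem tup_c : ∃ C : ℕ, ∀ (W : Fin 5 → List Bool) (S T : Finset (Fin 5)),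
    K (tup W (S ∪ T)) (tup W T) ≤ K (tup W S) (tup W T) + C := by
  have h : ∀ T : Finset (Fin 5), ∃ c : ℕ, ∀ (d : List (Option (List Bool)))
      (b : List (Option (List Bool))), K (tp_merge T d b) b ≤ K d b + c := fun T =>
    K_comp (fun (d : List (Option (List Bool))) (b : List (Option (List Bool))) => tp_merge T d b)
      (tp_primrec_merge T).to_comp.to₂ (fun b : List (Option (List Bool)) => b) Computable.id
  choose c hc using h
  refine ⟨∑ T : Finset (Fin 5), c T, fun W S T => ?_⟩
  have h1 := hc T (tup W S) (tup W T)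
  rw [tp_merge_tup W S T] at h1
  have h2 : c T ≤ ∑ T : Finset (Fin 5), c T :=
    Finset.single_le_sum (fun _ _ => Nat.zero_le _) (Finset.mem_univ T)
  omega

theorem tup_d : ∃ C : ℕ, ∀ (W : Fin 5 → List Bool) (S T : Finset (Fin 5)), S ⊆ T →
    K (tup W S) () + K (tup W T) (tup W S) ≤
      K (tup W T) () + 6 * Nat.size (K (tup W T) ()) + C := by
  have h : ∀ S : Finset (Fin 5), ∃ c : ℕ, ∀ (b : List (Option (List Bool))),
      K (tp_mask S b) () + K b (tp_mask S b) ≤ K b () + 6 * Nat.size (K b ()) + c := fun S =>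
    K_hard0 (tp_mask S) (tp_primrec_mask S)
  choose c hc using h
  refine ⟨∑ S : Finset (Fin 5), c S, fun W S T hST => ?_⟩
  have h1 := hc S (tup W T)
  rw [tp_mask_tup W S T hST] at h1
  have h2 : c S ≤ ∑ S : Finset (Fin 5), c S :=
    Finset.single_le_sum (fun _ _ => Nat.zero_le _) (Finset.mem_univ S)
  omega

end Pool.Agent.Helper760.EP.J4278
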