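import Mathlib
import Pool.Agent.Helper760.EP.Core
import Pool.Agent.Helper760.EP.Defs

set_option autoImplicit false

namespace Pool.Agent.Helper760.EP.J4279

open Encodable
open Pool.Agent.Helper760.Kolm

theorem K_pair_le {α β : Type*} [Primcodable α] [Primcodable β] : ∃ c : ℕ, ∀ (a : α) (b : β),
    K (a, b) () ≤ 3 * K a () + K b () + c := by
  obtain ⟨c1, h1⟩ := K_chain0 (α := α) (β := α × β)
  obtain ⟨c2, h2⟩ := K_comp (fun (b : β) (a : α) => (a, b))
    (Computable.pair Computable.snd Computable.fst).to₂ (fun _ : α => ()) (Computable.const ())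
  refine ⟨c1 + c2, fun a b => ?_⟩
  have e1 := h1 a (a, b)
  have e2 : K (a, b) a ≤ K b () + c2 := h2 b a
  have e3 := size_le_self (K a ())
  omega

/-- five strings -/
abbrev L5 := List Bool × List Bool × List Bool × List Bool × List Bool

/-- optional value -/
def opt (b : Bool) (x : List Bool) : Option (List Bool) := if b then some x else none

theorem primrec_opt (b : Bool) : Primrec (opt b) := by
  cases b
  · exact (Primrec.const none).of_eq (fun x => by simp [opt])
  · exact Primrec.option_some.of_eq (fun x => by simp [opt])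

/-- the part of a five-tuple -/
def part5 (S : Finset (Fin 5)) (x : L5) : List (Option (List Bool)) :=
  [opt (decide (0 ∈ S)) x.1, opt (decide (1 ∈ S)) x.2.1, opt (decide (2 ∈ S)) x.2.2.1,
    opt (decide (3 ∈ S)) x.2.2.2.1, opt (decide (4 ∈ S)) x.2.2.2.2]

theorem primrec_part5 (S : Finset (Fin 5)) : Primrec (part5 S) := by
  unfold part5
  have h0 : Primrec (fun x : L5 => x.1) := Primrec.fst
  have h1 : Primrec (fun x : L5 => x.2.1) := Primrec.fst.comp Primrec.snd
  have h2 : Primrec (fun x : L5 => x.2.2.1) := Primrec.fst.comp (Primrec.snd.comp Primrec.snd)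
  have h3 : Primrec (fun x : L5 => x.2.2.2.1) :=
    Primrec.fst.comp (Primrec.snd.comp (Primrec.snd.comp Primrec.snd))
  have h4 : Primrec (fun x : L5 => x.2.2.2.2) :=
    Primrec.snd.comp (Primrec.snd.comp (Primrec.snd.comp Primrec.snd))
  exact Primrec.list_cons.comp ((primrec_opt _).comp h0)
    (Primrec.list_cons.comp ((primrec_opt _).comp h1)
    (Primrec.list_cons.comp ((primrec_opt _).comp h2)
    (Primrec.list_cons.comp ((primrec_opt _).comp h3)
    (Primrec.list_cons.comp ((primrec_opt _).comp h4) (Primrec.const [])))))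

theorem tup_eq (W : Fin 5 → List Bool) (S : Finset (Fin 5)) :
    tup W S = part5 S (W 0, W 1, W 2, W 3, W 4) := by
  unfold tup part5 opt
  simp [List.finRange_succ]

theorem tup_bd : ∃ C : ℕ, ∀ (N : ℕ) (W : Fin 5 → List Bool), (∀ i, K (W i) () ≤ N) →
    ∀ S : Finset (Fin 5), H W S ≤ C * (N + 1) := by
  obtain ⟨c1, h1⟩ := K_pair_le (α := List Bool) (β := List Bool)
  obtain ⟨c2, h2⟩ := K_pair_le (α := List Bool) (β := List Bool × List Bool)
  obtain ⟨c3, h3⟩ := K_pair_le (α := List Bool) (β := List Bool × List Bool × List Bool)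
  obtain ⟨c4, h4⟩ := K_pair_le (α := List Bool) (β := List Bool × List Bool × List Bool × List Bool)
  have hS : ∀ S : Finset (Fin 5), ∃ c : ℕ, ∀ x : L5, K (part5 S x) () ≤ K x () + c := by
    intro S
    obtain ⟨c, hc⟩ := K_comp (fun (x : L5) (_ : Unit) => part5 S x)
      ((primrec_part5 S).to_comp.comp Computable.fst).to₂ (fun y : Unit => y) Computable.id
    exact ⟨c, fun x => hc x ()⟩
  choose c hc using hS
  refine ⟨13 + c1 + c2 + c3 + c4 + ∑ S : Finset (Fin 5), c S, ?_⟩
  intro N W hW S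
  have e0 : H W S ≤ K ((W 0, W 1, W 2, W 3, W 4) : L5) () + c S := by
    unfold H
    rw [tup_eq]
    exact hc S _
  have e1 := h1 (W 3) (W 4)
  have e2 := h2 (W 2) (W 3, W 4)
  have e3 := h3 (W 1) (W 2, W 3, W 4)
  have e4 := h4 (W 0) (W 1, W 2, W 3, W 4)
  have hcS : c S ≤ ∑ S : Finset (Fin 5), c S :=
    Finset.single_le_sum (f := c) (fun _ _ => Nat.zero_le _) (Finset.mem_univ S)
  have w0 := hW 0
  have w1 := hW 1
  have w2 := hW 2
  have w3 := hW 3
  have w4 := hW 4
  have e5 : H W S ≤ 13 * N + (c1 + c2 + c3 + c4 + ∑ S : Finset (Fin 5), c S) := by omega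
  refine e5.trans ?_
  obtain ⟨D, hD⟩ : ∃ D, D = c1 + c2 + c3 + c4 + ∑ S : Finset (Fin 5), c S := ⟨_, rfl⟩
  have e6 : 13 + c1 + c2 + c3 + c4 + ∑ S : Finset (Fin 5), c S = 13 + D := by rw [hD]; ring
  rw [e6, ← hD]
  nlinarith

end Pool.Agent.Helper760.EP.J4279
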