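import Mathlib
import Pool.Agent.Helper760.EP.Core
import Pool.Agent.Helper760.EP.Defs

set_option autoImplicit false

namespace Pool.Agent.Helper760.EP.J4280

open Encodable
open Pool.Agent.Helper760.Kolm

section conv
variable {α β α' β' : Type} [Primcodable α] [Primcodable β] [Primcodable α'] [Primcodable β']

theorem tc_le (f : α → α') (hf : Primrec f) (g : β' → β) (hg : Primrec g) :
    ∃ c : ℕ, ∀ (a : α) (b' : β'), K (f a) b' ≤ K a (g b') + c := by
  obtain ⟨c, hc⟩ := K_comp (fun (d : α) (_ : β') => f d) (hf.comp Primrec.fst).to_comp.to₂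
    g hg.to_comp
  exact ⟨c, fun a b' => hc a b'⟩

theorem tc_conv {X : Type} (a : X → α) (a' : X → α') (b : X → β) (b' : X → β')
    (f : α → α') (hf : Primrec f) (f' : α' → α) (hf' : Primrec f')
    (g : β → β') (hg : Primrec g) (g' : β' → β) (hg' : Primrec g')
    (e1 : ∀ w, f (a w) = a' w) (e2 : ∀ w, f' (a' w) = a w)
    (e3 : ∀ w, g (b w) = b' w) (e4 : ∀ w, g' (b' w) = b w) :
    ∃ C : ℕ, ∀ w, ap C (K (a w) (b w)) (K (a' w) (b' w)) := by
  obtain ⟨c1, h1⟩ := tc_le f' hf' g hg
  obtain ⟨c2, h2⟩ := tc_le f hf g' hg'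
  refine ⟨c1 + c2, fun w => ⟨?_, ?_⟩⟩
  · have := h1 (a' w) (b w)
    rw [e2, e3] at this
    omega
  · have := h2 (a w) (b' w)
    rw [e1, e4] at this
    omega

end conv

/-- entry of a tuple -/
def tget (i : Fin 5) (l : List (Option (List Bool))) : List Bool := ((l[i.val]?).getD none).getD []

theorem primrec_tget (i : Fin 5) : Primrec (tget i) := by
  unfold tget
  exact Primrec.option_getD.comp (Primrec.option_getD.comp
    (Primrec.list_getElem?.comp Primrec.id (Primrec.const i.val)) (Primrec.const none)) (Primrec.const [])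

theorem tget_tup (W : Fin 5 → List Bool) (S : Finset (Fin 5)) (i : Fin 5) (hi : i ∈ S) :
    tget i (tup W S) = W i := by
  have h : (tup W S)[i.val]? = some (if i ∈ S then some (W i) else none) := by
    unfold tup
    fin_cases i <;> rfl
  unfold tget
  rw [h]
  simp [hi]

/-- tuple with one entry -/
def tmk1 (i : Fin 5) (x : List Bool) : List (Option (List Bool)) :=
  (List.finRange 5).map (fun k => if k = i then some x else none)

def tmk2 (i j : Fin 5) (x : List Bool × List Bool) : List (Option (List Bool)) :=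
  (List.finRange 5).map (fun k => if k = i then some x.1 else if k = j then some x.2 else none)

def tmk3 (i j l : Fin 5) (x : List Bool × List Bool × List Bool) : List (Option (List Bool)) :=
  (List.finRange 5).map (fun k => if k = i then some x.1 else if k = j then some x.2.1 else
    if k = l then some x.2.2 else none)

theorem primrec_tmk1 (i : Fin 5) : Primrec (tmk1 i) := by
  unfold tmk1
  refine Primrec.list_map (Primrec.const (List.finRange 5)) ?_
  exact Primrec.ite (Primrec.eq.comp Primrec.snd (Primrec.const i))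
    (Primrec.option_some.comp Primrec.fst) (Primrec.const none)

theorem primrec_tmk2 (i j : Fin 5) : Primrec (tmk2 i j) := by
  unfold tmk2
  refine Primrec.list_map (Primrec.const (List.finRange 5)) ?_
  exact Primrec.ite (Primrec.eq.comp Primrec.snd (Primrec.const i))
    (Primrec.option_some.comp (Primrec.fst.comp Primrec.fst))
    (Primrec.ite (Primrec.eq.comp Primrec.snd (Primrec.const j))
      (Primrec.option_some.comp (Primrec.snd.comp Primrec.fst)) (Primrec.const none))

theorem primrec_tmk3 (i j l : Fin 5) : Primrec (tmk3 i j l) := by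
  unfold tmk3
  refine Primrec.list_map (Primrec.const (List.finRange 5)) ?_
  exact Primrec.ite (Primrec.eq.comp Primrec.snd (Primrec.const i))
    (Primrec.option_some.comp (Primrec.fst.comp Primrec.fst))
    (Primrec.ite (Primrec.eq.comp Primrec.snd (Primrec.const j))
      (Primrec.option_some.comp (Primrec.fst.comp (Primrec.snd.comp Primrec.fst)))
      (Primrec.ite (Primrec.eq.comp Primrec.snd (Primrec.const l))
        (Primrec.option_some.comp (Primrec.snd.comp (Primrec.snd.comp Primrec.fst)))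
        (Primrec.const none)))

theorem tmk1_eq (W : Fin 5 → List Bool) (i : Fin 5) : tmk1 i (W i) = tup W {i} := by
  unfold tmk1 tup
  refine List.map_congr_left fun k _ => ?_
  by_cases h : k = i
  · subst h; simp
  · simp [h]

theorem tmk2_eq (W : Fin 5 → List Bool) (i j : Fin 5) : tmk2 i j (W i, W j) = tup W {i, j} := by
  unfold tmk2 tup
  refine List.map_congr_left fun k _ => ?_
  by_cases h : k = i
  · subst h; simp
  · by_cases h' : k = j
    · subst h'; simp [h]
    · simp [h, h']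

theorem tmk3_eq (W : Fin 5 → List Bool) (i j l : Fin 5) :
    tmk3 i j l (W i, W j, W l) = tup W {i, j, l} := by
  unfold tmk3 tup
  refine List.map_congr_left fun k _ => ?_
  by_cases h : k = i
  · subst h; simp
  · by_cases h' : k = j
    · subst h'; simp [h]
    · by_cases h'' : k = l
      · subst h''; simp [h, h']
      · simp [h, h', h'']

def tg1 (i : Fin 5) (l : List (Option (List Bool))) : List Bool := tget i l
def tg2 (i j : Fin 5) (l : List (Option (List Bool))) : List Bool × List Bool := (tget i l, tget j l)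
def tg3 (i j k : Fin 5) (l : List (Option (List Bool))) : List Bool × List Bool × List Bool :=
  (tget i l, tget j l, tget k l)

theorem primrec_tg1 (i : Fin 5) : Primrec (tg1 i) := primrec_tget i
theorem primrec_tg2 (i j : Fin 5) : Primrec (tg2 i j) := Primrec.pair (primrec_tget i) (primrec_tget j)
theorem primrec_tg3 (i j k : Fin 5) : Primrec (tg3 i j k) :=
  Primrec.pair (primrec_tget i) (Primrec.pair (primrec_tget j) (primrec_tget k))

theorem tg1_eq (W : Fin 5 → List Bool) (i : Fin 5) : tg1 i (tup W {i}) = W i :=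
  tget_tup W _ i (by simp)

theorem tg2_eq (W : Fin 5 → List Bool) (i j : Fin 5) : tg2 i j (tup W {i, j}) = (W i, W j) := by
  unfold tg2
  rw [tget_tup W _ i (by simp), tget_tup W _ j (by simp)]

theorem tg3_eq (W : Fin 5 → List Bool) (i j k : Fin 5) :
    tg3 i j k (tup W {i, j, k}) = (W i, W j, W k) := by
  unfold tg3
  rw [tget_tup W _ i (by simp), tget_tup W _ j (by simp), tget_tup W _ k (by simp)]

theorem ap_mono {C C' a b : ℕ} (h : C ≤ C') (hab : ap C a b) : ap C' a b :=
  ⟨hab.1.trans (by omega), hab.2.trans (by omega)⟩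

theorem unif {ι : Type} [Finite ι] {X : Type} (P : ι → ℕ → X → Prop)
    (hmono : ∀ i C C' x, C ≤ C' → P i C x → P i C' x) (h : ∀ i, ∃ C, ∀ x, P i C x) :
    ∃ C, ∀ x i, P i C x := by
  haveI := Fintype.ofFinite ι
  choose c hc using h
  exact ⟨∑ i, c i, fun x i => hmono i _ _ x
    (Finset.single_le_sum (f := c) (fun _ _ => Nat.zero_le _) (Finset.mem_univ i)) (hc i x)⟩

theorem tup_conv : ∃ C : ℕ, ∀ W : Fin 5 → List Bool,
    (∀ i, ap C (K (W i) ()) (K (tup W {i}) ())) ∧
    (∀ i j, ap C (K (W i, W j) ()) (K (tup W {i, j}) ())) ∧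
    (∀ i j k, ap C (K (W i, W j, W k) ()) (K (tup W {i, j, k}) ())) ∧
    (∀ i j, ap C (K (W i) (W j)) (K (tup W {i}) (tup W {j}))) ∧
    (∀ i j k, ap C (K (W i, W j) (W k)) (K (tup W {i, j}) (tup W {k}))) ∧
    (∀ i j k, ap C (K (W i) (W j, W k)) (K (tup W {i}) (tup W {j, k}))) ∧
    ∀ i j k l, ap C (K (W i, W j) (W k, W l)) (K (tup W {i, j}) (tup W {k, l})) := by
  have hu : Primrec (fun _ : Unit => ()) := Primrec.const ()
  obtain ⟨C1, h1⟩ := unif (ι := Fin 5)
    (P := fun i C (W : Fin 5 → List Bool) => ap C (K (W i) ()) (K (tup W {i}) ()))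
    (fun _ _ _ _ => ap_mono) (fun i => tc_conv (fun W : Fin 5 → List Bool => W i) (fun W => tup W {i})
      (fun _ => ()) (fun _ => ()) (tmk1 i) (primrec_tmk1 i) (tg1 i) (primrec_tg1 i) (fun _ => ()) hu
      (fun _ => ()) hu (fun W => tmk1_eq W i) (fun W => tg1_eq W i) (fun _ => rfl) (fun _ => rfl))
  obtain ⟨C2, h2⟩ := unif (ι := Fin 5 × Fin 5)
    (P := fun i C (W : Fin 5 → List Bool) => ap C (K (W i.1, W i.2) ()) (K (tup W {i.1, i.2}) ()))
    (fun _ _ _ _ => ap_mono) (fun i => tc_conv (fun W : Fin 5 → List Bool => (W i.1, W i.2))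
      (fun W => tup W {i.1, i.2})
      (fun _ => ()) (fun _ => ()) (tmk2 i.1 i.2) (primrec_tmk2 _ _) (tg2 i.1 i.2) (primrec_tg2 _ _) (fun _ => ()) hu
      (fun _ => ()) hu (fun W => tmk2_eq W _ _) (fun W => tg2_eq W _ _) (fun _ => rfl) (fun _ => rfl))
  obtain ⟨C3, h3⟩ := unif (ι := Fin 5 × Fin 5 × Fin 5)
    (P := fun i C (W : Fin 5 → List Bool) => ap C (K (W i.1, W i.2.1, W i.2.2) ())
      (K (tup W {i.1, i.2.1, i.2.2}) ()))
    (fun _ _ _ _ => ap_mono) (fun i => tc_conv (fun W : Fin 5 → List Bool => (W i.1, W i.2.1, W i.2.2))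
      (fun W => tup W {i.1, i.2.1, i.2.2})
      (fun _ => ()) (fun _ => ()) (tmk3 i.1 i.2.1 i.2.2) (primrec_tmk3 _ _ _) (tg3 i.1 i.2.1 i.2.2)
      (primrec_tg3 _ _ _) (fun _ => ()) hu
      (fun _ => ()) hu (fun W => tmk3_eq W _ _ _) (fun W => tg3_eq W _ _ _) (fun _ => rfl) (fun _ => rfl))
  obtain ⟨C4, h4⟩ := unif (ι := Fin 5 × Fin 5)
    (P := fun i C (W : Fin 5 → List Bool) => ap C (K (W i.1) (W i.2)) (K (tup W {i.1}) (tup W {i.2})))
    (fun _ _ _ _ => ap_mono) (fun i => tc_conv (fun W : Fin 5 → List Bool => W i.1) (fun W => tup W {i.1})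
      (fun W => W i.2) (fun W => tup W {i.2}) (tmk1 i.1) (primrec_tmk1 _) (tg1 i.1) (primrec_tg1 _)
      (tmk1 i.2) (primrec_tmk1 _) (tg1 i.2) (primrec_tg1 _)
      (fun W => tmk1_eq W _) (fun W => tg1_eq W _) (fun W => tmk1_eq W _) (fun W => tg1_eq W _))
  obtain ⟨C5, h5⟩ := unif (ι := Fin 5 × Fin 5 × Fin 5)
    (P := fun i C (W : Fin 5 → List Bool) => ap C (K (W i.1, W i.2.1) (W i.2.2))
      (K (tup W {i.1, i.2.1}) (tup W {i.2.2})))
    (fun _ _ _ _ => ap_mono) (fun i => tc_conv (fun W : Fin 5 → List Bool => (W i.1, W i.2.1))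
      (fun W => tup W {i.1, i.2.1})
      (fun W => W i.2.2) (fun W => tup W {i.2.2}) (tmk2 _ _) (primrec_tmk2 _ _) (tg2 _ _) (primrec_tg2 _ _)
      (tmk1 _) (primrec_tmk1 _) (tg1 _) (primrec_tg1 _)
      (fun W => tmk2_eq W _ _) (fun W => tg2_eq W _ _) (fun W => tmk1_eq W _) (fun W => tg1_eq W _))
  obtain ⟨C6, h6⟩ := unif (ι := Fin 5 × Fin 5 × Fin 5)
    (P := fun i C (W : Fin 5 → List Bool) => ap C (K (W i.1) (W i.2.1, W i.2.2))
      (K (tup W {i.1}) (tup W {i.2.1, i.2.2})))
    (fun _ _ _ _ => ap_mono) (fun i => tc_conv (fun W : Fin 5 → List Bool => W i.1)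
      (fun W => tup W {i.1})
      (fun W => (W i.2.1, W i.2.2)) (fun W => tup W {i.2.1, i.2.2}) (tmk1 _) (primrec_tmk1 _) (tg1 _) (primrec_tg1 _)
      (tmk2 _ _) (primrec_tmk2 _ _) (tg2 _ _) (primrec_tg2 _ _)
      (fun W => tmk1_eq W _) (fun W => tg1_eq W _) (fun W => tmk2_eq W _ _) (fun W => tg2_eq W _ _))
  obtain ⟨C7, h7⟩ := unif (ι := Fin 5 × Fin 5 × Fin 5 × Fin 5)
    (P := fun i C (W : Fin 5 → List Bool) => ap C (K (W i.1, W i.2.1) (W i.2.2.1, W i.2.2.2))
      (K (tup W {i.1, i.2.1}) (tup W {i.2.2.1, i.2.2.2})))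
    (fun _ _ _ _ => ap_mono) (fun i => tc_conv (fun W : Fin 5 → List Bool => (W i.1, W i.2.1))
      (fun W => tup W {i.1, i.2.1})
      (fun W => (W i.2.2.1, W i.2.2.2)) (fun W => tup W {i.2.2.1, i.2.2.2}) (tmk2 _ _) (primrec_tmk2 _ _)
      (tg2 _ _) (primrec_tg2 _ _)
      (tmk2 _ _) (primrec_tmk2 _ _) (tg2 _ _) (primrec_tg2 _ _)
      (fun W => tmk2_eq W _ _) (fun W => tg2_eq W _ _) (fun W => tmk2_eq W _ _) (fun W => tg2_eq W _ _))
  refine ⟨C1 + C2 + C3 + C4 + C5 + C6 + C7, fun W => ⟨fun i => ?_, fun i j => ?_, fun i j k => ?_,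
    fun i j => ?_, fun i j k => ?_, fun i j k => ?_, fun i j k l => ?_⟩⟩
  · exact ap_mono (by omega) (h1 W i)
  · exact ap_mono (by omega) (h2 W (i, j))
  · exact ap_mono (by omega) (h3 W (i, j, k))
  · exact ap_mono (by omega) (h4 W (i, j))
  · exact ap_mono (by omega) (h5 W (i, j, k))
  · exact ap_mono (by omega) (h6 W (i, j, k))
  · exact ap_mono (by omega) (h7 W (i, j, k, l))

end Pool.Agent.Helper760.EP.J4280
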