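import Mathlib
import Pool.Agent.Helper760.EP.Core
import Pool.Agent.Helper760.EP.Defs

set_option autoImplicit false

namespace Pool.Agent.Helper760.EP.J4281

open Encodable
open Pool.Agent.Helper760.Kolm

theorem lam_le (C N : ℕ) : lam (C * (N + 1)) ≤ (Nat.size C + 2) * lam N := by
  unfold lam
  rcases Nat.eq_zero_or_pos N with h0 | h0
  · subst h0
    simp
  · have h1 := size_mul_le C (N + 1)
    have h2 := size_add_le N 1
    have h3 : 1 ≤ Nat.size N := Nat.size_pos.2 h0
    rw [Nat.size_one, max_eq_left h3] at h2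
    have h4 : 0 ≤ Nat.size C * Nat.size N := Nat.zero_le _
    nlinarith

theorem lam_facts : (∀ N, 1 ≤ lam N) ∧ (∀ M N, M ≤ N → lam M ≤ lam N) ∧
    (∀ M N, lam (M + N) ≤ lam M + lam N) ∧ ∀ N, lam N ≤ N + 1 := by
  unfold lam
  refine ⟨fun N => Nat.le_add_left 1 _, fun M N h => Nat.add_le_add_right (size_mono h) 1, ?_, ?_⟩
  · intro M N
    have h := size_add_le M N
    have h1 : max (Nat.size M) (Nat.size N) ≤ Nat.size M + Nat.size N := by omega
    omega
  · intro N
    exact Nat.add_le_add_right (size_le_self N) 1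

end Pool.Agent.Helper760.EP.J4281
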