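import Mathlib
import Pool.Agent.Helper760.EP.Core
import Pool.Agent.Helper760.EP.Defs

set_option autoImplicit false

namespace Pool.Agent.Helper760.EP.J4283

open Encodable
open Pool.Agent.Helper760.Kolm

/-- pairs to strings -/
def encF (x : List Bool × List Bool) : List Bool := enc x.1 x.2

/-- strings to pairs -/
def decF (l : List Bool) : List Bool × List Bool :=
  (decode (α := List Bool × List Bool) l.length).getD ([], [])

theorem decF_enc (u p : List Bool) : decF (enc u p) = (u, p) := by
  unfold decF enc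
  rw [List.length_map, List.length_range, encodek]
  rfl

theorem primrec_encF : Primrec encF := by
  unfold encF enc
  exact Primrec.list_map (Primrec.list_range.comp (Primrec.encode.comp Primrec.id))
    (Primrec.const true).to₂

theorem primrec_decF : Primrec decF := by
  unfold decF
  exact Primrec.option_getD.comp (Primrec.decode.comp Primrec.list_length) (Primrec.const ([], []))

theorem convA {γ : Type*} [Primcodable γ] : ∃ C : ℕ, ∀ (u p : List Bool) (z : γ),
    ap C (K (enc u p) z) (K (u, p) z) := by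
  obtain ⟨c1, h1⟩ := K_comp (fun (d : List Bool × List Bool) (_ : γ) => encF d)
    (primrec_encF.to_comp.comp Computable.fst).to₂ (fun z : γ => z) Computable.id
  obtain ⟨c2, h2⟩ := K_comp (fun (d : List Bool) (_ : γ) => decF d)
    (primrec_decF.to_comp.comp Computable.fst).to₂ (fun z : γ => z) Computable.id
  refine ⟨c1 + c2, fun u p z => ?_⟩
  have e1 : K (enc u p) z ≤ K (u, p) z + c1 := h1 (u, p) z
  have e2 : K (decF (enc u p)) z ≤ K (enc u p) z + c2 := h2 (enc u p) z
  rw [decF_enc] at e2
  constructor <;> omega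

theorem convB {γ : Type*} [Primcodable γ] : ∃ C : ℕ, ∀ (u p : List Bool) (z : γ),
    ap C (K z (enc u p)) (K z (u, p)) := by
  obtain ⟨c1, h1⟩ := K_comp (fun (d : γ) (_ : List Bool) => d)
    Computable.fst.to₂ decF primrec_decF.to_comp
  obtain ⟨c2, h2⟩ := K_comp (fun (d : γ) (_ : List Bool × List Bool) => d)
    Computable.fst.to₂ encF primrec_encF.to_comp
  refine ⟨c1 + c2, fun u p z => ?_⟩
  have e1 : K z (enc u p) ≤ K z (decF (enc u p)) + c1 := h1 z (enc u p)
  rw [decF_enc] at e1
  have e2 : K z (u, p) ≤ K z (enc u p) + c2 := h2 z (u, p)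
  constructor <;> omega

theorem enc_conv : ∃ C : ℕ, ∀ u p : List Bool,
    ap C (K (enc u p) ()) (K (u, p) ()) ∧
    (∀ z : List Bool × List Bool, ap C (K (enc u p) z) (K (u, p) z)) ∧
    (∀ z : List Bool, ap C (K (enc u p) z) (K (u, p) z)) ∧
    (∀ z : List Bool, ap C (K z (enc u p)) (K z (u, p))) ∧
    ∀ z : List Bool × List Bool, ap C (K z (enc u p)) (K z (u, p)) := by
  obtain ⟨C1, h1⟩ := convA (γ := Unit)
  obtain ⟨C2, h2⟩ := convA (γ := List Bool × List Bool)
  obtain ⟨C3, h3⟩ := convA (γ := List Bool)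
  obtain ⟨C4, h4⟩ := convB (γ := List Bool)
  obtain ⟨C5, h5⟩ := convB (γ := List Bool × List Bool)
  have mono : ∀ {e e' a b : ℕ}, ap e a b → e ≤ e' → ap e' a b := by
    intro e e' a b h he
    exact ⟨h.1.trans (by omega), h.2.trans (by omega)⟩
  refine ⟨C1 + C2 + C3 + C4 + C5, fun u p => ⟨mono (h1 u p ()) (by omega),
    fun z => mono (h2 u p z) (by omega), fun z => mono (h3 u p z) (by omega),
    fun z => mono (h4 u p z) (by omega), fun z => mono (h5 u p z) (by omega)⟩⟩

end Pool.Agent.Helper760.EP.J4283
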