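import Mathlib
import Pool.Agent.Helper760.EP.Core
import Pool.Agent.Helper760.EP.Defs

set_option autoImplicit false

namespace Pool.Agent.Helper760.EP.J4284


theorem column_count (N t : ℕ) (Hs : Fin (N + 1) → Finset (Fin (2 ^ t)))
    (hH : ∀ i, (Hs i).card * 2 ^ 12 ≤ 2 ^ t) :
    ((Finset.univ : Finset (Fin (N + 1) → Fin (2 ^ t))).filter (fun c => N + 1 ≤
      4 * ((Finset.univ : Finset (Fin (N + 1))).filter (fun i => c i ∈ Hs i)).card)).card *
        2 ^ (2 * (N + 1)) ≤ (2 ^ t) ^ (N + 1) := by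
  classical
  set T : Finset (Finset (Fin (N + 1))) :=
    (Finset.univ : Finset (Fin (N + 1))).powerset.filter (fun I => N + 1 ≤ 4 * I.card) with hT
  let F : Finset (Fin (N + 1)) → Finset (Fin (N + 1) → Fin (2 ^ t)) := fun I =>
    Fintype.piFinset (fun i => if i ∈ I then Hs i else Finset.univ)
  have hsub : (Finset.univ : Finset (Fin (N + 1) → Fin (2 ^ t))).filter (fun c => N + 1 ≤
      4 * ((Finset.univ : Finset (Fin (N + 1))).filter (fun i => c i ∈ Hs i)).card) ⊆
      T.biUnion F := by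
    intro c hc
    rw [Finset.mem_filter] at hc
    rw [Finset.mem_biUnion]
    refine ⟨(Finset.univ : Finset (Fin (N + 1))).filter (fun i => c i ∈ Hs i), ?_, ?_⟩
    · rw [hT, Finset.mem_filter]
      exact ⟨Finset.mem_powerset.2 (Finset.subset_univ _), hc.2⟩
    · simp only [F, Fintype.mem_piFinset]
      intro i
      by_cases hi : c i ∈ Hs i
      · simp [hi]
      · simp [hi]
  have hI : ∀ I ∈ T, (F I).card * 2 ^ (3 * (N + 1)) ≤ (2 ^ t) ^ (N + 1) := by
    intro I hI
    rw [hT, Finset.mem_filter] at hI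
    have h1 : (2 : ℕ) ^ (3 * (N + 1)) ≤ (2 ^ 12) ^ I.card := by
      rw [← pow_mul]
      exact Nat.pow_le_pow_right (by norm_num) (by omega)
    have h2 : (F I).card * (2 ^ 12) ^ I.card ≤ (2 ^ t) ^ (N + 1) := by
      have hc : (F I).card = ∏ i, (if i ∈ I then (Hs i).card else 2 ^ t) := by
        simp only [F, Fintype.card_piFinset]
        refine Finset.prod_congr rfl ?_
        intro i _
        split_ifs
        · rfl
        · simp
      have hp : ((2 : ℕ) ^ 12) ^ I.card = ∏ i, (if i ∈ I then 2 ^ 12 else 1) := by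
        rw [Finset.prod_ite_mem, Finset.univ_inter, Finset.prod_const]
      rw [hc, hp, ← Finset.prod_mul_distrib]
      calc ∏ i : Fin (N + 1), ((if i ∈ I then (Hs i).card else 2 ^ t) * (if i ∈ I then 2 ^ 12 else 1))
          ≤ ∏ _i : Fin (N + 1), 2 ^ t := by
            refine Finset.prod_le_prod' ?_
            intro i _
            split_ifs
            · exact hH i
            · simp
        _ = (2 ^ t) ^ (N + 1) := by simp
    exact le_trans (Nat.mul_le_mul_left _ h1) h2
  have hcardT : T.card ≤ 2 ^ (N + 1) := by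
    refine le_trans (Finset.card_filter_le _ _) ?_
    rw [Finset.card_powerset]
    simp
  have htot : ((Finset.univ : Finset (Fin (N + 1) → Fin (2 ^ t))).filter (fun c => N + 1 ≤
      4 * ((Finset.univ : Finset (Fin (N + 1))).filter (fun i => c i ∈ Hs i)).card)).card *
        2 ^ (3 * (N + 1)) ≤ 2 ^ (N + 1) * (2 ^ t) ^ (N + 1) := by
    calc _ ≤ (∑ I ∈ T, (F I).card) * 2 ^ (3 * (N + 1)) :=
          Nat.mul_le_mul_right _ (le_trans (Finset.card_le_card hsub) Finset.card_biUnion_le)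
      _ = ∑ I ∈ T, (F I).card * 2 ^ (3 * (N + 1)) := by rw [Finset.sum_mul]
      _ ≤ ∑ _I ∈ T, (2 ^ t) ^ (N + 1) := Finset.sum_le_sum hI
      _ = T.card * (2 ^ t) ^ (N + 1) := by simp
      _ ≤ 2 ^ (N + 1) * (2 ^ t) ^ (N + 1) := Nat.mul_le_mul_right _ hcardT
  have hsplit : (2 : ℕ) ^ (3 * (N + 1)) = 2 ^ (N + 1) * 2 ^ (2 * (N + 1)) := by
    rw [← pow_add]; congr 1; ring
  rw [hsplit] at htot
  have hpos : 0 < (2 : ℕ) ^ (N + 1) := by positivity
  refine Nat.le_of_mul_le_mul_left ?_ hpos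
  calc _ = _ := by ring
    _ ≤ _ := htot

end Pool.Agent.Helper760.EP.J4284
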