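import Mathlib
import Pool.Agent.Helper760.EP.Core
import Pool.Agent.Helper760.EP.Defs

set_option autoImplicit false

namespace Pool.Agent.Helper760.EP.J4300


theorem edge_bonf {ι α : Type*} [DecidableEq ι] [DecidableEq α] (N : ι → Finset α) (D : ℕ)
    (H : Finset ι) (hD : ∀ h ∈ H, D ≤ (N h).card)
    (hI : ∀ h ∈ H, ∀ h' ∈ H, h ≠ h' → (N h ∩ N h').card ≤ 1) :
    2 * (H.card * D) ≤ 2 * (H.biUnion N).card + H.card * H.card := by
  induction H using Finset.induction_on with
  | empty => simp
  | insert a H ha ih =>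
    have ih' := ih (fun h hh => hD h (Finset.mem_insert_of_mem hh))
      (fun h hh h' hh' => hI h (Finset.mem_insert_of_mem hh) h' (Finset.mem_insert_of_mem hh'))
    have h1 : (N a ∩ H.biUnion N).card ≤ H.card := by
      rw [Finset.inter_biUnion]
      refine le_trans Finset.card_biUnion_le ?_
      calc ∑ h ∈ H, (N a ∩ N h).card ≤ ∑ _h ∈ H, 1 :=
            Finset.sum_le_sum (fun h hh => hI a (Finset.mem_insert_self _ _) h
              (Finset.mem_insert_of_mem hh) (fun e => ha (e ▸ hh)))
        _ = H.card := by simp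
    have h2 := Finset.card_union_add_card_inter (N a) (H.biUnion N)
    have h3 := hD a (Finset.mem_insert_self _ _)
    rw [Finset.biUnion_insert, Finset.card_insert_of_notMem ha]
    nlinarith

theorem edge_bound (n β τ : ℕ) (A : Finset (ℕ × ℕ × ℕ)) (B : Finset (ℕ × ℕ))
    (hA : ∀ x ∈ A, x.2.2 < 2 ^ n) (hB : B.card ≤ 2 ^ (β + 1)) (hτ : 2 * τ + 3 ≤ β) :
    ((A ×ˢ B).filter (fun e => e.1.2.1 = e.2.1 + e.1.1 * e.2.2)).card ≤
      A.card * 2 ^ (β - τ) + 2 ^ (τ + 2) * 2 ^ n * 2 ^ (β + 1) := by
  classical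
  set D := 2 ^ (β - τ) with hDdef
  let N : ℕ × ℕ → Finset (ℕ × ℕ) := fun h => B.filter (fun y => h.2 = y.1 + h.1 * y.2)
  have hNB : ∀ h, N h ⊆ B := fun h => Finset.filter_subset _ _
  have hinter : ∀ h h' : ℕ × ℕ, h ≠ h' → (N h ∩ N h').card ≤ 1 := by
    intro h h' hne
    rw [Finset.card_le_one]
    intro y hy y' hy'
    simp only [N, Finset.mem_inter, Finset.mem_filter] at hy hy'
    obtain ⟨⟨-, e1⟩, -, e2⟩ := hy
    obtain ⟨⟨-, e3⟩, -, e4⟩ := hy'
    by_cases hs : h.1 = h'.1
    · exfalso
      apply hne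
      apply Prod.ext hs
      rw [e1, e2, hs]
    · have e5 : ((h.1 : ℤ) - h'.1) * ((y.2 : ℤ) - y'.2) = 0 := by
        have e1' : (h.2 : ℤ) = y.1 + h.1 * y.2 := by exact_mod_cast e1
        have e2' : (h'.2 : ℤ) = y.1 + h'.1 * y.2 := by exact_mod_cast e2
        have e3' : (h.2 : ℤ) = y'.1 + h.1 * y'.2 := by exact_mod_cast e3
        have e4' : (h'.2 : ℤ) = y'.1 + h'.1 * y'.2 := by exact_mod_cast e4
        linarith
      have e6 : (y.2 : ℤ) = y'.2 := by
        rcases mul_eq_zero.mp e5 with h0 | h0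
        · exfalso
          apply hs
          exact_mod_cast sub_eq_zero.mp h0
        · exact sub_eq_zero.mp h0
      have e7 : y.2 = y'.2 := by exact_mod_cast e6
      apply Prod.ext _ e7
      rw [e7] at e1
      omega
  set Heavy := (A.image (fun x => (x.1, x.2.1))).filter (fun h => D < (N h).card) with hHeavy
  have hH : Heavy.card ≤ 2 ^ (τ + 2) := by
    by_contra hcon
    push Not at hcon
    obtain ⟨H, hHs, hHc⟩ := Finset.exists_subset_card_eq hcon.le
    have hb := edge_bonf N (D + 1) H (fun h hh => by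
        have := hHs hh
        rw [hHeavy, Finset.mem_filter] at this
        exact this.2) (fun h _ h' _ hne => hinter h h' hne)
    have hU : (H.biUnion N).card ≤ 2 ^ (β + 1) := by
      refine le_trans (Finset.card_le_card ?_) hB
      intro y hy
      rw [Finset.mem_biUnion] at hy
      obtain ⟨h, -, hy⟩ := hy
      exact hNB h hy
    rw [hHc] at hb
    have p1 : 2 * (2 ^ (τ + 2) * D) = 2 ^ (β + 3) := by
      rw [hDdef]
      obtain ⟨γ, rfl⟩ : ∃ γ, β = τ + γ := ⟨β - τ, by omega⟩
      rw [Nat.add_sub_cancel_left]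
      ring
    have p2 : 2 ^ (τ + 2) * 2 ^ (τ + 2) ≤ 2 ^ (β + 1) := by
      rw [← pow_add]
      exact Nat.pow_le_pow_right (by norm_num) (by omega)
    have p3 : 2 ^ (β + 3) = 8 * 2 ^ β := by ring
    have p4 : 2 ^ (β + 1) = 2 * 2 ^ β := by ring
    have p5 : 0 < 2 ^ (τ + 2) := by positivity
    nlinarith
  have hcard : ((A ×ˢ B).filter (fun e => e.1.2.1 = e.2.1 + e.1.1 * e.2.2)).card =
      ∑ x ∈ A, (N (x.1, x.2.1)).card := by
    rw [Finset.card_filter, Finset.sum_product]
    refine Finset.sum_congr rfl (fun x _ => ?_)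
    rw [Finset.card_filter]
  rw [hcard, ← Finset.sum_filter_add_sum_filter_not A (fun x => D < (N (x.1, x.2.1)).card), add_comm]
  apply Nat.add_le_add
  · calc ∑ x ∈ A.filter (fun x => ¬ D < (N (x.1, x.2.1)).card), (N (x.1, x.2.1)).card
        ≤ ∑ x ∈ A.filter (fun x => ¬ D < (N (x.1, x.2.1)).card), D :=
          Finset.sum_le_sum (fun x hx => not_lt.mp (Finset.mem_filter.mp hx).2)
      _ = (A.filter (fun x => ¬ D < (N (x.1, x.2.1)).card)).card * D := by
          rw [Finset.sum_const, smul_eq_mul]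
      _ ≤ A.card * D := Nat.mul_le_mul_right _ (Finset.card_filter_le _ _)
  · calc ∑ x ∈ A.filter (fun x => D < (N (x.1, x.2.1)).card), (N (x.1, x.2.1)).card
        ≤ ∑ x ∈ A.filter (fun x => D < (N (x.1, x.2.1)).card), 2 ^ (β + 1) :=
          Finset.sum_le_sum (fun x hx => le_trans (Finset.card_le_card (hNB _)) hB)
      _ = (A.filter (fun x => D < (N (x.1, x.2.1)).card)).card * 2 ^ (β + 1) := by
          rw [Finset.sum_const, smul_eq_mul]
      _ ≤ 2 ^ (τ + 2) * 2 ^ n * 2 ^ (β + 1) := by
          apply Nat.mul_le_mul_right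
          have hle : (A.filter (fun x => D < (N (x.1, x.2.1)).card)).card ≤
              (Heavy ×ˢ Finset.range (2 ^ n)).card := by
            apply Finset.card_le_card_of_injOn (fun x => ((x.1, x.2.1), x.2.2))
            · intro x hx
              rw [Finset.mem_coe, Finset.mem_filter] at hx
              rw [Finset.mem_coe, Finset.mem_product, hHeavy, Finset.mem_filter, Finset.mem_range]
              exact ⟨⟨Finset.mem_image_of_mem _ hx.1, hx.2⟩, hA x hx.1⟩
            · intro x _ y _ hxy
              simp only [Prod.mk.injEq] at hxy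
              ext
              · exact hxy.1.1
              · exact hxy.1.2
              · exact hxy.2
          rw [Finset.card_product, Finset.card_range] at hle
          exact le_trans hle (Nat.mul_le_mul_right _ hH)

end Pool.Agent.Helper760.EP.J4300
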