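import Mathlib
import Pool.Agent.Helper760.EP.Core
import Pool.Agent.Helper760.EP.Defs

set_option autoImplicit false

namespace Pool.Agent.Helper760.EP.J4305

open Encodable
open Pool.Agent.Helper760.Kolm

theorem auxLL_partrecV : Partrec (fun p : List Bool =>
    (M p 0).bind (fun n => (Part.ofOption (decode (α := List Bool) n) : Part (List Bool)))) := by
  refine Partrec.bind ?_ ?_
  · exact partrec_M.comp Computable.id (Computable.const 0)
  · exact (Computable.decode.comp Computable.snd).ofOption

theorem auxLL_partrecD : Partrec₂ (fun (p y : List Bool) =>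
    (M p (encode y)).bind (fun n => (Part.ofOption (decode (α := List Bool) n) : Part (List Bool)))) := by
  refine Partrec.bind ?_ ?_
  · exact partrec_M.comp Computable.fst (Computable.encode.comp Computable.snd)
  · exact (Computable.decode.comp Computable.snd).ofOption

theorem plain_K (U : List Bool →. List Bool) (hU : OptPlain U) :
    ∃ c : ℕ, ∀ s : List Bool, ap c (CU U s) (K s ()) := by
  obtain ⟨hU1, hU2⟩ := hU
  obtain ⟨c1, hc1⟩ := hU2 _ auxLL_partrecV
  have hφ : Partrec (fun x : Unit × List Bool × Unit => U x.2.1) :=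
    hU1.comp (Computable.fst.comp Computable.snd)
  obtain ⟨c2, hc2⟩ := K_param _ hφ
  refine ⟨c1 + c2, fun s => ?_⟩
  obtain ⟨p, hp, hl⟩ := K_spec s ()
  obtain ⟨q, hq, hql⟩ := hc1 p s (by
    simp only [Part.mem_bind_iff]
    exact ⟨encode s, hp, by simp⟩)
  have h1 : CU U s ≤ q.length := Nat.sInf_le ⟨q, hq, rfl⟩
  have hne : {m : ℕ | ∃ p : List Bool, s ∈ U p ∧ p.length = m}.Nonempty := ⟨q.length, q, hq, rfl⟩
  obtain ⟨r, hr, hrl⟩ := Nat.sInf_mem hne
  have h2 := hc2 () r () s hr
  rw [size_encode_unit] at h2
  have h3 : r.length = CU U s := hrl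
  constructor
  · omega
  · omega

theorem cond_K (D : List Bool → List Bool →. List Bool) (hD : OptCond D) :
    ∃ c : ℕ, ∀ s y : List Bool, ap c (CD D s y) (K s y) := by
  obtain ⟨hU1, hU2⟩ := hD
  obtain ⟨c1, hc1⟩ := hU2 _ auxLL_partrecD
  have hφ : Partrec (fun x : Unit × List Bool × List Bool => D x.2.1 x.2.2) :=
    hU1.comp (Computable.fst.comp Computable.snd) (Computable.snd.comp Computable.snd)
  obtain ⟨c2, hc2⟩ := K_param _ hφ
  refine ⟨c1 + c2, fun s y => ?_⟩
  obtain ⟨p, hp, hl⟩ := K_spec s y
  obtain ⟨q, hq, hql⟩ := hc1 p y s (by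
    simp only [Part.mem_bind_iff]
    exact ⟨encode s, hp, by simp⟩)
  have h1 : CD D s y ≤ q.length := Nat.sInf_le ⟨q, hq, rfl⟩
  have hne : {m : ℕ | ∃ p : List Bool, s ∈ D p y ∧ p.length = m}.Nonempty := ⟨q.length, q, hq, rfl⟩
  obtain ⟨r, hr, hrl⟩ := Nat.sInf_mem hne
  have h2 := hc2 () r y s hr
  rw [size_encode_unit] at h2
  have h3 : r.length = CD D s y := hrl
  constructor
  · omega
  · omega

theorem auxLL_part {α β δ : Type*} [Primcodable α] [Primcodable β] [Primcodable δ]
    (g : δ →. α) (hg : Partrec g) : ∃ c : ℕ, ∀ (d : δ) (a : α) (z : β), a ∈ g d →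
      K a z ≤ K d z + c := by
  have hφ : Partrec (fun x : Unit × List Bool × β =>
      (M x.2.1 (encode x.2.2)).bind fun d' =>
        (Part.ofOption (decode (α := δ) d') : Part δ).bind fun d => g d) := by
    refine Partrec.bind ?_ (Partrec.bind ?_ ?_)
    · exact partrec_M.comp (Computable.fst.comp Computable.snd)
        (Computable.encode.comp (Computable.snd.comp Computable.snd))
    · exact (Computable.decode.comp Computable.snd).ofOption
    · exact (hg.comp Computable.snd).to₂
  obtain ⟨c, hc⟩ := K_param _ hφ
  refine ⟨c, fun d a z h => ?_⟩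
  obtain ⟨p, hp, hl⟩ := K_spec d z
  have h2 := hc () p z a (by
    simp only [Part.mem_bind_iff]
    exact ⟨encode d, hp, d, by simp, h⟩)
  rw [size_encode_unit] at h2
  omega

theorem auxLL_un (pr : List Bool → List Bool → List Bool) (hpr : PairCode pr) :
    ∃ un : List Bool →. List Bool × List Bool, Partrec un ∧ ∀ x y, (x, y) ∈ un (pr x y) := by
  obtain ⟨h1, h2⟩ := hpr
  let f : List Bool → ℕ → Option (List Bool × List Bool) := fun w n =>
    (decode (α := List Bool × List Bool) n).bind fun xy =>
      if pr xy.1 xy.2 = w then some xy else none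
  have hf : Computable₂ f := by
    refine Computable.option_bind (Computable.decode.comp Computable.snd) ?_
    have hc : Computable (fun x : (List Bool × ℕ) × (List Bool × List Bool) =>
        decide (pr x.2.1 x.2.2 = x.1.1)) := by
      have he : Primrec₂ (fun a b : List Bool => decide (a = b)) :=
        (Primrec.eq (α := List Bool)).decide
      exact he.to_comp.comp (h1.comp (Computable.fst.comp Computable.snd)
        (Computable.snd.comp Computable.snd)) (Computable.fst.comp Computable.fst)
    have h3 : Computable (fun x : (List Bool × ℕ) × (List Bool × List Bool) =>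
        if pr x.2.1 x.2.2 = x.1.1 then some x.2 else none) := by
      refine (Computable.cond hc (Computable.option_some.comp Computable.snd)
        (Computable.const none)).of_eq ?_
      intro x
      by_cases hx : pr x.2.1 x.2.2 = x.1.1
      · simp [hx]
      · simp [hx]
    exact h3
  refine ⟨fun w => Nat.rfindOpt (f w), Partrec.rfindOpt hf, ?_⟩
  intro x y
  have hd : (Nat.rfindOpt (f (pr x y))).Dom := by
    rw [Nat.rfindOpt_dom]
    refine ⟨encode (x, y), (x, y), ?_⟩
    simp [f]
  obtain ⟨v, hv⟩ := Part.dom_iff_mem.1 hd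
  obtain ⟨n, hn⟩ := Nat.rfindOpt_spec hv
  have hn' : f (pr x y) n = some v := hn
  simp only [f, Option.bind_eq_some_iff] at hn'
  obtain ⟨z, _, hz⟩ := hn'
  split_ifs at hz with hh
  cases hz
  obtain ⟨e1, e2⟩ := h2 _ _ _ _ hh
  have : v = (x, y) := Prod.ext e1 e2
  rw [← this]
  exact hv

theorem pair_K (pr : List Bool → List Bool → List Bool) (hpr : PairCode pr) :
    ∃ c : ℕ, ∀ x y : List Bool, ap c (K (pr x y) ()) (K (x, y) ()) ∧
      (∀ z : List Bool, ap c (K (pr x y) z) (K (x, y) z)) ∧
      ∀ q : List Bool, ap c (K (pr x (pr y q)) ()) (K (x, y, q) ()) := by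
  obtain ⟨un, hun, hun2⟩ := auxLL_un pr hpr
  have h1 := hpr.1
  obtain ⟨c1, hc1⟩ := K_comp (α := List Bool) (β := Unit) (γ := Unit)
    (fun (d : List Bool × List Bool) (_ : Unit) => pr d.1 d.2)
    (h1.comp (Computable.fst.comp Computable.fst) (Computable.snd.comp Computable.fst)).to₂
    id Computable.id
  obtain ⟨c2, hc2⟩ := K_comp (α := List Bool) (β := List Bool) (γ := List Bool)
    (fun (d : List Bool × List Bool) (_ : List Bool) => pr d.1 d.2)
    (h1.comp (Computable.fst.comp Computable.fst) (Computable.snd.comp Computable.fst)).to₂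
    id Computable.id
  obtain ⟨c3, hc3⟩ := K_comp (α := List Bool) (β := Unit) (γ := Unit)
    (fun (d : List Bool × List Bool × List Bool) (_ : Unit) => pr d.1 (pr d.2.1 d.2.2))
    (h1.comp (Computable.fst.comp Computable.fst)
      (h1.comp (Computable.fst.comp (Computable.snd.comp Computable.fst))
        (Computable.snd.comp (Computable.snd.comp Computable.fst)))).to₂
    id Computable.id
  obtain ⟨c4, hc4⟩ := auxLL_part (β := Unit) un hun
  obtain ⟨c5, hc5⟩ := auxLL_part (β := List Bool) un hun
  have hg : Partrec (fun w : List Bool => (un w).bind fun v =>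
      (un v.2).map fun u => (v.1, u.1, u.2)) := by
    refine Partrec.bind hun (Partrec.map (hun.comp (Computable.snd.comp Computable.snd)) ?_)
    exact (Computable.pair (Computable.fst.comp (Computable.snd.comp Computable.fst))
      Computable.snd).to₂
  obtain ⟨c6, hc6⟩ := auxLL_part (β := Unit) _ hg
  refine ⟨c1 + c2 + c3 + c4 + c5 + c6, fun x y => ⟨?_, ?_, ?_⟩⟩
  · have e1 := hc1 (x, y) ()
    have e2 := hc4 (pr x y) (x, y) () (hun2 x y)
    simp only [id] at e1
    constructor
    · omega
    · omega
  · intro z
    have e1 := hc2 (x, y) z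
    have e2 := hc5 (pr x y) (x, y) z (hun2 x y)
    simp only [id] at e1
    constructor
    · omega
    · omega
  · intro q
    have e1 := hc3 (x, y, q) ()
    have e2 := hc6 (pr x (pr y q)) (x, y, q) () (by
      simp only [Part.mem_bind_iff, Part.mem_map_iff]
      exact ⟨(x, pr y q), hun2 _ _, (y, q), hun2 _ _, rfl⟩)
    simp only [id] at e1
    constructor
    · omega
    · omega

theorem exist_all : (∃ U, OptPlain U) ∧ (∃ D, OptCond D) ∧ ∃ pr, PairCode pr := by
  refine ⟨⟨_, auxLL_partrecV, ?_⟩, ⟨_, auxLL_partrecD, ?_⟩, ⟨enc, ?_, ?_⟩⟩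
  · intro V hV
    have hφ : Partrec₂ (fun (p : List Bool) (_ : ℕ) => (V p).map encode) := by
      refine Partrec.map (hV.comp Computable.fst) ?_
      exact (Computable.encode.comp Computable.snd).to₂
    obtain ⟨c, hc⟩ := M_opt _ hφ
    refine ⟨c + 1, fun p s hs => ?_⟩
    refine ⟨List.replicate c true ++ false :: p, ?_, ?_⟩
    · simp only [Part.mem_bind_iff]
      refine ⟨encode s, hc p 0 (encode s) (Part.mem_map encode hs), by simp⟩
    · simp; omega
  · intro E hE
    have hφ : Partrec₂ (fun (p : List Bool) (n : ℕ) =>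
        (Part.ofOption (decode (α := List Bool) n) : Part (List Bool)).bind fun y =>
          (E p y).map encode) := by
      refine Partrec.bind (Computable.decode.comp Computable.snd).ofOption (Partrec.map ?_ ?_)
      · exact hE.comp (Computable.fst.comp Computable.fst) Computable.snd
      · exact (Computable.encode.comp Computable.snd).to₂
    obtain ⟨c, hc⟩ := M_opt _ hφ
    refine ⟨c + 1, fun p y s hs => ?_⟩
    refine ⟨List.replicate c true ++ false :: p, ?_, ?_⟩
    · simp only [Part.mem_bind_iff]
      refine ⟨encode s, hc p (encode y) (encode s) ?_, by simp⟩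
      simp only [Part.mem_bind_iff]
      exact ⟨y, by simp, Part.mem_map encode hs⟩
    · simp; omega
  · have h : Primrec (fun x : List Bool × List Bool =>
        (List.range (encode x)).map (fun _ => true)) := by
      refine Primrec.list_map (Primrec.list_range.comp Primrec.encode) ?_
      exact (Primrec.const true).to₂
    exact h.to_comp
  · intro x y x' y' h
    have h1 := congrArg List.length h
    simp only [enc, List.length_map, List.length_range] at h1
    have h2 := encode_injective h1
    exact Prod.ext_iff.1 h2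

end Pool.Agent.Helper760.EP.J4305
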