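import Mathlib
import Pool.Agent.Helper760.EP.Core
import Pool.Agent.Helper760.EP.Defs

set_option autoImplicit false

namespace Pool.Agent.Helper760.EP.J4311

open Encodable
open Pool.Agent.Helper760.Kolm

theorem weak_of_strong (U : List Bool →. List Bool) (D : List Bool → List Bool →. List Bool)
    (pr : List Bool → List Bool → List Bool) {d : ℕ}
    (P : ℕ → List Bool → List Bool → Set (Fin d → ℤ))
    (h : Determines (fun _ => Wp U D pr) P) : Determines (fun _ => WCp U D pr) P := by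
  intro c hc
  obtain ⟨c', hc', h'⟩ := h c hc
  refine ⟨c', hc', ?_⟩
  intro n hn x y x' y' hx hy hx' hy' hcl
  refine h' n hn x y x' y' hx hy hx' hy' ?_
  obtain ⟨h1, h2⟩ := hcl
  constructor
  · intro s hs
    obtain ⟨t, ht, hd⟩ := h1 ![s 0, s 1, (CU U x : ℤ), (CU U y : ℤ), (CU U (pr x y) : ℤ)] (by
      refine ⟨?_, rfl, rfl, rfl⟩
      have e : ![![s 0, s 1, (CU U x : ℤ), (CU U y : ℤ), (CU U (pr x y) : ℤ)] 0,
        ![s 0, s 1, (CU U x : ℤ), (CU U y : ℤ), (CU U (pr x y) : ℤ)] 1] = s := by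
        ext i
        fin_cases i <;> rfl
      rw [e]
      exact hs)
    refine ⟨![t 0, t 1], ht.1, ?_⟩
    intro i
    fin_cases i
    · exact hd 0
    · exact hd 1
  · intro t ht
    obtain ⟨s, hs, hd⟩ := h2 ![t 0, t 1, (CU U x' : ℤ), (CU U y' : ℤ), (CU U (pr x' y') : ℤ)] (by
      refine ⟨?_, rfl, rfl, rfl⟩
      have e : ![![t 0, t 1, (CU U x' : ℤ), (CU U y' : ℤ), (CU U (pr x' y') : ℤ)] 0,
        ![t 0, t 1, (CU U x' : ℤ), (CU U y' : ℤ), (CU U (pr x' y') : ℤ)] 1] = t := by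
        ext i
        fin_cases i <;> rfl
      rw [e]
      exact ht)
    refine ⟨![s 0, s 1], hs.1, ?_⟩
    intro i
    fin_cases i
    · exact hd 0
    · exact hd 1

end Pool.Agent.Helper760.EP.J4311
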