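import Mathlib
import Pool.Agent.Helper760.EP.Core
import Pool.Agent.Helper760.GW.Base2

set_option autoImplicit false

namespace Pool.Agent.Helper760.EP

open Encodable
open Pool.Agent.Helper760.Kolm

/-- time bounded run of the machine without oracle, in the form used by the game -/
def Gf (ρ : List Bool) (a : List Bool × List Bool) : Option (List Bool) :=
  (MS ρ.length a.1 (encode a.2)).bind (fun n => decode n)

/-- parameters of the game -/
def prm2 (z : ℕ × ℕ × ℕ × ℕ × ℕ) : ℕ × ℕ × ℕ × ℕ :=
  (z.1 + z.2.1 + z.2.2.1 + z.2.2.2.1 + z.2.2.2.2 + 5, z.2.1 + 1, z.2.2.1 + 1, z.2.2.2.2)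

end Pool.Agent.Helper760.EP
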