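import Mathlib
import Pool.Agent.Helper760.EP.Core
import Pool.Agent.Helper760.EP.Defs
import Pool.Agent.Helper760.EP.UDefs

set_option autoImplicit false

namespace Pool.Agent.Helper760.EP.J4312

open Encodable
open Pool.Agent.Helper760.Kolm

theorem Gf_facts : Primrec₂ Gf ∧ Pool.Agent.Helper760.GW.MonB Gf ∧ Primrec prm2 := by
  refine ⟨?_, ?_, ?_⟩
  · unfold Gf
    have h1 : Primrec (fun x : List Bool × (List Bool × List Bool) =>
        MS x.1.length x.2.1 (encode x.2.2)) :=
      primrec_MS.comp (Primrec.pair (Primrec.list_length.comp Primrec.fst)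
        (Primrec.pair (Primrec.fst.comp Primrec.snd)
          (Primrec.encode.comp (Primrec.snd.comp Primrec.snd))))
    exact Primrec.option_bind h1 (Primrec.decode.comp Primrec.snd).to₂
  · intro σ τ a b hst h
    unfold Gf at h ⊢
    rw [Option.bind_eq_some_iff] at h ⊢
    obtain ⟨n, hn, hd⟩ := h
    exact ⟨n, MS_mono hst.length_le hn, hd⟩
  · have f1 : Primrec (fun z : ℕ × ℕ × ℕ × ℕ × ℕ => z.1) := Primrec.fst
    have f2 : Primrec (fun z : ℕ × ℕ × ℕ × ℕ × ℕ => z.2.1) := Primrec.fst.comp Primrec.snd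
    have f3 : Primrec (fun z : ℕ × ℕ × ℕ × ℕ × ℕ => z.2.2.1) :=
      Primrec.fst.comp (Primrec.snd.comp Primrec.snd)
    have f4 : Primrec (fun z : ℕ × ℕ × ℕ × ℕ × ℕ => z.2.2.2.1) :=
      Primrec.fst.comp (Primrec.snd.comp (Primrec.snd.comp Primrec.snd))
    have f5 : Primrec (fun z : ℕ × ℕ × ℕ × ℕ × ℕ => z.2.2.2.2) :=
      Primrec.snd.comp (Primrec.snd.comp (Primrec.snd.comp Primrec.snd))
    unfold prm2
    refine Primrec.pair ?_ (Primrec.pair ?_ (Primrec.pair ?_ f5))
    · exact Primrec.nat_add.comp (Primrec.nat_add.comp (Primrec.nat_add.comp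
        (Primrec.nat_add.comp (Primrec.nat_add.comp f1 f2) f3) f4) f5) (Primrec.const 5)
    · exact Primrec.nat_add.comp f2 (Primrec.const 1)
    · exact Primrec.nat_add.comp f3 (Primrec.const 1)

end Pool.Agent.Helper760.EP.J4312
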