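import Mathlib
import Pool.Agent.Helper760.EP.Core
import Pool.Agent.Helper760.EP.Defs
import Pool.Agent.Helper760.EP.UDefs

set_option autoImplicit false

namespace Pool.Agent.Helper760.EP.J4314

open Encodable
open Pool.Agent.Helper760.Kolm

/-- index in a list -/
def ix {α : Type*} [DecidableEq α] (w : α) (L : List α) : ℕ := L.idxOf w

theorem ix_primrec {α : Type*} [DecidableEq α] [Primcodable α] : Primrec₂ (ix (α := α)) := Primrec.list_idxOf

theorem ix_get {α : Type*} [DecidableEq α] (w : α) (L : List α) (hw : w ∈ L) : L[ix w L]? = some w := by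
  unfold ix
  rw [List.getElem?_eq_some_iff]
  exact ⟨List.idxOf_lt_length_iff.mpr hw, List.getElem_idxOf _⟩

theorem ix_eq {α : Type*} [DecidableEq α] (w : α) (L : List α) (hL : L.Nodup) (k : ℕ) (hk : L[k]? = some w) :
    w ∈ L ∧ ix w L = k := by
  unfold ix
  obtain ⟨hlt, hkw⟩ := List.getElem?_eq_some_iff.1 hk
  refine ⟨hkw ▸ List.getElem_mem hlt, ?_⟩
  rw [← hkw]
  exact hL.idxOf_getElem k hlt

/-- the search step -/
def fcG (p : (List Bool × List Bool) × (List (List Bool) × List (ℕ × ℕ))) : Option ℕ :=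
  if p.1.1 ∈ p.2.1 ∧ p.1.2 ∈ p.2.1 then
    (p.2.2.filterMap (fun q => if (q.1, 2 * ix p.1.1 p.2.1) ∈ p.2.2 ∧ (q.1, 2 * ix p.1.2 p.2.1 + 1) ∈ p.2.2
      then some q.1 else none)).head?
  else none

theorem fcG_primrec : Primrec fcG := by
  unfold fcG
  have hx : Primrec (fun p : (List Bool × List Bool) × (List (List Bool) × List (ℕ × ℕ)) => p.1.1) :=
    Primrec.fst.comp Primrec.fst
  have hy : Primrec (fun p : (List Bool × List Bool) × (List (List Bool) × List (ℕ × ℕ)) => p.1.2) :=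
    Primrec.snd.comp Primrec.fst
  have hL : Primrec (fun p : (List Bool × List Bool) × (List (List Bool) × List (ℕ × ℕ)) => p.2.1) :=
    Primrec.fst.comp Primrec.snd
  have hC : Primrec (fun p : (List Bool × List Bool) × (List (List Bool) × List (ℕ × ℕ)) => p.2.2) :=
    Primrec.snd.comp Primrec.snd
  have hi : Primrec (fun p : (List Bool × List Bool) × (List (List Bool) × List (ℕ × ℕ)) => ix p.1.1 p.2.1) :=
    ix_primrec.comp hx hL
  have hj : Primrec (fun p : (List Bool × List Bool) × (List (List Bool) × List (ℕ × ℕ)) => ix p.1.2 p.2.1) :=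
    ix_primrec.comp hy hL
  refine Primrec.ite ((primrec_mem.comp hx hL).and (primrec_mem.comp hy hL)) ?_ (Primrec.const none)
  refine Primrec.list_head?.comp (Primrec.listFilterMap hC ?_)
  have h2i : Primrec (fun w : ((List Bool × List Bool) × (List (List Bool) × List (ℕ × ℕ))) × (ℕ × ℕ) =>
      (w.2.1, 2 * ix w.1.1.1 w.1.2.1)) :=
    Primrec.pair (Primrec.fst.comp Primrec.snd) (Primrec.nat_mul.comp (Primrec.const 2) (hi.comp Primrec.fst))
  have h2j : Primrec (fun w : ((List Bool × List Bool) × (List (List Bool) × List (ℕ × ℕ))) × (ℕ × ℕ) =>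
      (w.2.1, 2 * ix w.1.1.2 w.1.2.1 + 1)) :=
    Primrec.pair (Primrec.fst.comp Primrec.snd)
      (Primrec.succ.comp (Primrec.nat_mul.comp (Primrec.const 2) (hj.comp Primrec.fst)))
  exact (Primrec.ite ((primrec_mem.comp h2i (hC.comp Primrec.fst)).and (primrec_mem.comp h2j (hC.comp Primrec.fst)))
    (Primrec.option_some.comp (Primrec.fst.comp Primrec.snd)) (Primrec.const none)).to₂

theorem fcG_some {x y : List Bool} {L : List (List Bool)} {C : List (ℕ × ℕ)} {a : ℕ}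
    (h : fcG ((x, y), (L, C)) = some a) : x ∈ L ∧ y ∈ L ∧ ∃ q ∈ C, q.1 = a ∧ (q.1, 2 * ix x L) ∈ C ∧
      (q.1, 2 * ix y L + 1) ∈ C := by
  unfold fcG at h
  simp only at h
  split_ifs at h with hm
  refine ⟨hm.1, hm.2, ?_⟩
  have h1 := List.mem_of_head? h
  rw [List.mem_filterMap] at h1
  obtain ⟨q, hq, hq2⟩ := h1
  split_ifs at hq2 with hc
  cases hq2
  exact ⟨q, hq, rfl, hc.1, hc.2⟩

theorem fcG_exists {x y : List Bool} {L : List (List Bool)} {C : List (ℕ × ℕ)} (hx : x ∈ L) (hy : y ∈ L)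
    {q : ℕ × ℕ} (hq : q ∈ C) (h1 : (q.1, 2 * ix x L) ∈ C) (h2 : (q.1, 2 * ix y L + 1) ∈ C) :
    ∃ a, fcG ((x, y), (L, C)) = some a := by
  unfold fcG
  simp only
  rw [if_pos ⟨hx, hy⟩]
  have hmem : q.1 ∈ C.filterMap (fun q => if (q.1, 2 * ix x L) ∈ C ∧ (q.1, 2 * ix y L + 1) ∈ C
      then some q.1 else none) := by
    rw [List.mem_filterMap]
    exact ⟨q, hq, if_pos ⟨h1, h2⟩⟩
  cases hc : C.filterMap (fun q => if (q.1, 2 * ix x L) ∈ C ∧ (q.1, 2 * ix y L + 1) ∈ C
      then some q.1 else none) with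
  | nil => rw [hc] at hmem; simp at hmem
  | cons b l => exact ⟨b, by simp⟩

theorem first_cluster {α : Type*} [Primcodable α] (cl : α → ℕ → List (ℕ × ℕ))
    (hcl : Computable₂ cl) :
    ∃ c : ℕ, ∀ (z : α) (N t i j : ℕ) (x y : List Bool),
      (Pool.Agent.Helper760.GW.lab N t)[i]? = some x →
      (Pool.Agent.Helper760.GW.lab N t)[j]? = some y →
      (∃ q ∈ cl z t, (q.1, 2 * i) ∈ cl z t ∧ (q.1, 2 * j + 1) ∈ cl z t) →
      ∃ (t' i' j' : ℕ) (q : ℕ × ℕ), (Pool.Agent.Helper760.GW.lab N t')[i']? = some x ∧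
        (Pool.Agent.Helper760.GW.lab N t')[j']? = some y ∧ q ∈ cl z t' ∧
        (q.1, 2 * i') ∈ cl z t' ∧ (q.1, 2 * j' + 1) ∈ cl z t' ∧
        K q.1 (x, y) ≤ 2 * Nat.size (encode (z, N)) + c := by
  have hlab : Primrec₂ (fun N t : ℕ => Pool.Agent.Helper760.GW.lab N t) :=
    (primrec_collect primrec_enX).comp Primrec.fst Primrec.snd
  have hφ : Partrec (fun w : (α × ℕ) × List Bool × (List Bool × List Bool) =>
      Nat.rfindOpt (fun t => fcG ((w.2.2.1, w.2.2.2), (Pool.Agent.Helper760.GW.lab w.1.2 t, cl w.1.1 t)))) := by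
    refine Partrec.rfindOpt ?_
    have hxy : Computable (fun v : ((α × ℕ) × List Bool × (List Bool × List Bool)) × ℕ => (v.1.2.2.1, v.1.2.2.2)) :=
      (Primrec.snd.comp (Primrec.snd.comp Primrec.fst)).to_comp
    have hL : Computable (fun v : ((α × ℕ) × List Bool × (List Bool × List Bool)) × ℕ =>
        Pool.Agent.Helper760.GW.lab v.1.1.2 v.2) :=
      (hlab.comp (Primrec.snd.comp (Primrec.fst.comp Primrec.fst)) Primrec.snd).to_comp
    have hC : Computable (fun v : ((α × ℕ) × List Bool × (List Bool × List Bool)) × ℕ => cl v.1.1.1 v.2) :=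
      hcl.comp (Primrec.fst.comp (Primrec.fst.comp Primrec.fst)).to_comp Computable.snd
    exact (fcG_primrec.to_comp.comp (Computable.pair hxy (Computable.pair hL hC))).to₂
  obtain ⟨c, hc⟩ := K_param (γ := α × ℕ) (β := List Bool × List Bool) (α := ℕ) _ hφ
  refine ⟨c, ?_⟩
  intro z N t i j x y hi hj hq
  obtain ⟨q, hq1, hq2, hq3⟩ := hq
  obtain ⟨hx, hxi⟩ := ix_eq x _ (nodup_collect _ _) i hi
  obtain ⟨hy, hyj⟩ := ix_eq y _ (nodup_collect _ _) j hj
  obtain ⟨a, ha⟩ := fcG_exists hx hy hq1 (by rw [hxi]; exact hq2) (by rw [hyj]; exact hq3)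
  have hdom : (Nat.rfindOpt (fun t => fcG ((x, y), (Pool.Agent.Helper760.GW.lab N t, cl z t)))).Dom :=
    Nat.rfindOpt_dom.2 ⟨t, a, ha⟩
  obtain ⟨b, hb⟩ := Part.dom_iff_mem.mp hdom
  obtain ⟨t', ht'⟩ := Nat.rfindOpt_spec hb
  obtain ⟨hx', hy', q', hq'1, hq'2, hq'3, hq'4⟩ := fcG_some ht'
  refine ⟨t', ix x (Pool.Agent.Helper760.GW.lab N t'), ix y (Pool.Agent.Helper760.GW.lab N t'), q',
    ix_get x _ hx', ix_get y _ hy', hq'1, hq'3, hq'4, ?_⟩
  have h1 := hc (z, N) [] (x, y) b hb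
  rw [hq'2]
  simpa using h1

end Pool.Agent.Helper760.EP.J4314
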