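import Mathlib
import Pool.Agent.Helper760.EP.J4278
import Pool.Agent.Helper760.EP.J4279
import Pool.Agent.Helper760.EP.J4280
import Pool.Agent.Helper760.EP.J4281
import Pool.Agent.Helper760.EP.J4283
import Pool.Agent.Helper760.EP.J4284
import Pool.Agent.Helper760.EP.J4300
import Pool.Agent.Helper760.EP.J4305
import Pool.Agent.Helper760.EP.J4311
import Pool.Agent.Helper760.EP.J4312
import Pool.Agent.Helper760.EP.J4314

set_option autoImplicit false

namespace Pool.Agent.Helper760.EP

alias tup_a := J4278.tup_a
alias tup_b := J4278.tup_b
alias tup_c := J4278.tup_c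
alias tup_d := J4278.tup_d
alias tup_bd := J4279.tup_bd
alias tup_conv := J4280.tup_conv
alias lam_le := J4281.lam_le
alias lam_facts := J4281.lam_facts
alias enc_conv := J4283.enc_conv
alias column_count := J4284.column_count
alias edge_bound := J4300.edge_bound
alias plain_K := J4305.plain_K
alias cond_K := J4305.cond_K
alias pair_K := J4305.pair_K
alias exist_all := J4305.exist_all
alias weak_of_strong := J4311.weak_of_strong
alias Gf_facts := J4312.Gf_facts
alias first_cluster := J4314.first_cluster

end Pool.Agent.Helper760.EP
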