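import Mathlib
import Pool.Agent.Helper760.EP.Base1

set_option autoImplicit false

namespace Pool.Agent.Helper760.EP.J4282

open Encodable
open Pool.Agent.Helper760.Kolm

theorem toolkit : ∃ C : ℕ, ∀ (N : ℕ) (W : Fin 5 → List Bool), (∀ i, K (W i) () ≤ N) →
    Tk (C * lam N) (C * (N + 1)) W := by
  obtain ⟨Ca, hCa⟩ := tup_a (β := Unit)
  obtain ⟨Ca', hCa'⟩ := tup_a (β := List (Option (List Bool)))
  obtain ⟨Cb, hCb⟩ := tup_b (β := List (Option (List Bool)))
  obtain ⟨Cc, hCc⟩ := tup_c
  obtain ⟨Cd, hCd⟩ := tup_d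
  obtain ⟨Cbd, hCbd⟩ := tup_bd
  obtain ⟨Cv, hCv⟩ := tup_conv
  obtain ⟨Cch, hCch⟩ := K_chain0 (α := List (Option (List Bool))) (β := List (Option (List Bool)))
  obtain ⟨l1, l2, l3, l4⟩ := lam_facts
  obtain ⟨D, hD⟩ : ∃ D, D = Nat.size Cbd + 2 := ⟨_, rfl⟩
  refine ⟨Ca + Cb + 2 * (Cc + 8 * D + Cch + Cd + Ca') + Cv + Cbd, ?_⟩
  intro N W hW
  have hL := l1 N
  have hsz : ∀ S, Nat.size (H W S) ≤ D * lam N := by
    intro S
    have h1 := Nat.size_le_size (hCbd N W hW S)
    have h2 : Nat.size (Cbd * (N + 1)) + 1 ≤ (Nat.size Cbd + 2) * lam N := lam_le Cbd N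
    rw [← hD] at h2
    omega
  generalize lam N = L at hL hsz
  have key : ∀ c : ℕ, c ≤ c * L := fun c => Nat.le_mul_of_pos_right c hL
  have kCa := key Ca
  have kCa' := key Ca'
  have kCb := key Cb
  have kCc := key Cc
  have kCd := key Cd
  have kCv := key Cv
  have kCch := key Cch
  have hE : (Cc + 8 * D + Cch + Cd + Ca') * L =
      Cc * L + 8 * (D * L) + Cch * L + Cd * L + Ca' * L := by ring
  have hF : (Ca + Cb + 2 * (Cc + 8 * D + Cch + Cd + Ca') + Cv + Cbd) * L =
      Ca * L + Cb * L + 2 * (Cc * L + 8 * (D * L) + Cch * L + Cd * L + Ca' * L) + Cv * L +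
        Cbd * L := by ring
  have cd : ∀ S T : Finset (Fin 5), ap (Cc * L + 8 * (D * L) + Cch * L + Cd * L + Ca' * L)
      (K (tup W S) (tup W T) + H W T) (H W (S ∪ T)) := by
    intro S T
    have h1 := hCch (tup W T) (tup W (S ∪ T))
    have h2 := hCc W S T
    have h3 := hCd W T (S ∪ T) Finset.subset_union_right
    have h4 := hCa' W S (S ∪ T) Finset.subset_union_left (tup W T)
    have h5 := hsz T
    have h6 := hsz (S ∪ T)
    unfold H at h5 h6
    unfold ap H
    constructor <;> omega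
  have hHdef : ∀ S, K (tup W S) () = H W S := fun S => rfl
  obtain ⟨v1, v2, v3, v4, v5, v6, v7⟩ := hCv W
  refine ⟨?_, ?_, ?_, ?_, ?_, ?_, ?_, ?_, ?_, ?_, ?_⟩
  · intro S T hST
    have h := hCa W S T hST ()
    rw [hHdef, hHdef] at h
    rw [hF]
    omega
  · intro S T
    have h1 := cd S T
    have h2 := cd S (S ∩ T)
    have h3 := hCb W (S ∩ T) T Finset.inter_subset_right (tup W S)
    have h4 : S ∪ (S ∩ T) = S := by
      ext x; simp only [Finset.mem_union, Finset.mem_inter]; tauto
    rw [h4] at h2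
    unfold ap at h1 h2
    rw [hF]
    omega
  · intro S
    refine (hCbd N W hW S).trans ?_
    exact Nat.mul_le_mul_right _ (by omega)
  · intro S T
    have h1 := cd S T
    unfold ap at h1 ⊢
    rw [hF]
    omega
  · intro i
    have h := v1 i
    rw [hHdef] at h
    unfold ap at h ⊢
    rw [hF]
    omega
  · intro i j
    have h := v2 i j
    rw [hHdef] at h
    unfold ap at h ⊢
    rw [hF]
    omega
  · intro i j k
    have h := v3 i j k
    rw [hHdef] at h
    unfold ap at h ⊢
    rw [hF]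
    omega
  · intro i j
    have h := v4 i j
    have h1 := cd {i} {j}
    have h2 : ({i} ∪ {j} : Finset (Fin 5)) = {i, j} := by ext x; simp
    rw [h2] at h1
    unfold ap at h h1 ⊢
    rw [hF]
    omega
  · intro i j k
    have h := v5 i j k
    have h1 := cd {i, j} {k}
    have h2 : ({i, j} ∪ {k} : Finset (Fin 5)) = {i, j, k} := by
      ext x; simp only [Finset.mem_union, Finset.mem_insert, Finset.mem_singleton] <;> try tauto
    rw [h2] at h1
    unfold ap at h h1 ⊢
    rw [hF]
    omega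
  · intro i j k
    have h := v6 i j k
    have h1 := cd {i} {j, k}
    have h2 : ({i} ∪ {j, k} : Finset (Fin 5)) = {i, j, k} := by
      ext x; simp only [Finset.mem_union, Finset.mem_insert, Finset.mem_singleton] <;> try tauto
    rw [h2] at h1
    unfold ap at h h1 ⊢
    rw [hF]
    omega
  · intro i j k l
    have h := v7 i j k l
    have h1 := cd {i, j} {k, l}
    have h2 : ({i, j} ∪ {k, l} : Finset (Fin 5)) = {i, j, k, l} := by
      ext x; simp only [Finset.mem_union, Finset.mem_insert, Finset.mem_singleton] <;> try tauto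
    rw [h2] at h1
    unfold ap at h h1 ⊢
    rw [hF]
    omega

end Pool.Agent.Helper760.EP.J4282
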