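import Mathlib
import Pool.Agent.Helper760.EP.Base1

set_option autoImplicit false

namespace Pool.Agent.Helper760.EP.J4285


theorem hash_exists (N t : ℕ) : ∃ h : ℕ → ℕ → ℕ, (∀ i j, h i j < 2 ^ t) ∧ GoodH N t h := by
  classical
  have h2t : 0 < 2 ^ t := by positivity
  rcases Nat.lt_or_ge N t with hNt | hNt
  · refine ⟨fun _ _ => 0, fun _ _ => h2t, ?_⟩
    intro S l hS hl
    calc (badset N t l (fun _ _ => 0) S).card ≤ S.card := Finset.card_filter_le _ _
      _ ≤ (Finset.range (2 ^ N)).card := Finset.card_le_card hS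
      _ = 2 ^ N := Finset.card_range _
      _ < 2 ^ t := Nat.pow_lt_pow_right (by norm_num) hNt
  · -- union bound
    obtain ⟨H, hH⟩ : ∃ H : Fin (2 ^ N) → (Fin (N + 1) → Fin (2 ^ t)),
        ∀ B : Finset (Fin (2 ^ N)), B.card = 2 ^ t → ∀ Hs : Fin (N + 1) → Finset (Fin (2 ^ t)),
          (∀ i, (Hs i).card * 2 ^ 12 ≤ 2 ^ t) →
          ∃ j ∈ B, ¬ (N + 1 ≤
            4 * ((Finset.univ : Finset (Fin (N + 1))).filter (fun i => H j i ∈ Hs i)).card) := by
      by_contra hcon
      push Not at hcon
      set badcols : (Fin (N + 1) → Finset (Fin (2 ^ t))) → Finset (Fin (N + 1) → Fin (2 ^ t)) :=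
        fun Hs => (Finset.univ : Finset (Fin (N + 1) → Fin (2 ^ t))).filter (fun c => N + 1 ≤
          4 * ((Finset.univ : Finset (Fin (N + 1))).filter (fun i => c i ∈ Hs i)).card)
        with hbc
      set BF : Finset (Fin (2 ^ N)) → (Fin (N + 1) → Finset (Fin (2 ^ t))) →
          Finset (Fin (2 ^ N) → (Fin (N + 1) → Fin (2 ^ t))) :=
        fun B Hs => Fintype.piFinset (fun j => if j ∈ B then badcols Hs else Finset.univ)
        with hBF
      set HsSet : Finset (Fin (N + 1) → Finset (Fin (2 ^ t))) :=
        Finset.univ.filter (fun Hs => ∀ i, (Hs i).card * 2 ^ 12 ≤ 2 ^ t) with hHsSet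
      set Bs : Finset (Finset (Fin (2 ^ N))) := Finset.powersetCard (2 ^ t) Finset.univ with hBs
      have hcover : (Finset.univ : Finset (Fin (2 ^ N) → (Fin (N + 1) → Fin (2 ^ t)))) ⊆
          (Bs ×ˢ HsSet).biUnion (fun p => BF p.1 p.2) := by
        intro H _
        obtain ⟨B, hB, Hs, hHs, hall⟩ := hcon H
        rw [Finset.mem_biUnion]
        refine ⟨(B, Hs), ?_, ?_⟩
        · rw [Finset.mem_product]
          refine ⟨?_, ?_⟩
          · rw [hBs, Finset.mem_powersetCard]
            exact ⟨Finset.subset_univ _, hB⟩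
          · rw [hHsSet, Finset.mem_filter]
            exact ⟨Finset.mem_univ _, hHs⟩
        · rw [hBF]
          simp only [Fintype.mem_piFinset]
          intro j
          by_cases hj : j ∈ B
          · rw [if_pos hj, hbc]
            simp only [Finset.mem_filter, Finset.mem_univ, true_and]
            exact hall j hj
          · rw [if_neg hj]
            exact Finset.mem_univ _
      set K : ℕ := (2 ^ t) ^ (N + 1) with hK
      obtain ⟨b, hb⟩ : ∃ b : ℕ, b = 2 ^ t := ⟨_, rfl⟩
      have hKcard : (Finset.univ : Finset (Fin (N + 1) → Fin (2 ^ t))).card = K := by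
        rw [Finset.card_univ, Fintype.card_fun, Fintype.card_fin, Fintype.card_fin]
      have htot : (Finset.univ : Finset (Fin (2 ^ N) → (Fin (N + 1) → Fin (2 ^ t)))).card
          = K ^ (2 ^ N) := by
        rw [Finset.card_univ, Fintype.card_fun, Fintype.card_fin]
        congr 1
      have hKpos : 0 < K := by positivity
      have hb1 : 1 ≤ b := by rw [hb]; exact h2t
      have hbN : b ≤ 2 ^ N := by rw [hb]; exact Nat.pow_le_pow_right (by norm_num) hNt
      have hone : ∀ p ∈ Bs ×ˢ HsSet, (BF p.1 p.2).card * 2 ^ (2 * (N + 1) * b) ≤ K ^ (2 ^ N) := by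
        rintro ⟨B, Hs⟩ hp
        rw [Finset.mem_product] at hp
        obtain ⟨hB, hHs⟩ := hp
        simp only at hB hHs ⊢
        rw [hBs, Finset.mem_powersetCard] at hB
        rw [hHsSet, Finset.mem_filter] at hHs
        have hc := column_count N t Hs hHs.2
        have hcard : (BF B Hs).card = (badcols Hs).card ^ b * K ^ (2 ^ N - b) := by
          rw [hBF]
          simp only [Fintype.card_piFinset]
          have : ∀ j : Fin (2 ^ N), (if j ∈ B then badcols Hs else Finset.univ).card =
              if j ∈ B then (badcols Hs).card else K := by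
            intro j
            split_ifs
            · rfl
            · exact hKcard
          simp only [this]
          rw [Finset.prod_ite, Finset.prod_const, Finset.prod_const]
          congr 2
          · rw [Finset.filter_mem_eq_inter, Finset.univ_inter]
            rw [hB.2, hb]
          · rw [Finset.filter_not, Finset.filter_mem_eq_inter, Finset.univ_inter,
              Finset.card_sdiff_of_subset (Finset.subset_univ _), Finset.card_univ,
              Fintype.card_fin, hB.2, hb]
        rw [hcard, pow_mul]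
        calc (badcols Hs).card ^ b * K ^ (2 ^ N - b) * (2 ^ (2 * (N + 1))) ^ b
            = ((badcols Hs).card * 2 ^ (2 * (N + 1))) ^ b * K ^ (2 ^ N - b) := by
              rw [mul_pow]; ring
          _ ≤ K ^ b * K ^ (2 ^ N - b) :=
              Nat.mul_le_mul_right _ (Nat.pow_le_pow_left hc b)
          _ = K ^ (2 ^ N) := by rw [← pow_add, Nat.add_sub_cancel' hbN]
      have hBscard : Bs.card ≤ (2 ^ N) ^ b := by
        rw [hBs, Finset.card_powersetCard, Finset.card_univ, Fintype.card_fin, ← hb]
        exact Nat.choose_le_pow _ _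
      have hHscard : HsSet.card ≤ (2 ^ b) ^ (N + 1) := by
        calc HsSet.card ≤ (Finset.univ : Finset (Fin (N + 1) → Finset (Fin (2 ^ t)))).card :=
              Finset.card_filter_le _ _
          _ = (2 ^ b) ^ (N + 1) := by
              rw [Finset.card_univ, Fintype.card_fun, Fintype.card_finset, Fintype.card_fin,
                Fintype.card_fin, hb]
      have h1 : K ^ (2 ^ N) * 2 ^ (2 * (N + 1) * b) ≤
          ((2 ^ N) ^ b * (2 ^ b) ^ (N + 1)) * K ^ (2 ^ N) := by
        calc K ^ (2 ^ N) * 2 ^ (2 * (N + 1) * b)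
            = (Finset.univ : Finset (Fin (2 ^ N) → (Fin (N + 1) → Fin (2 ^ t)))).card *
                2 ^ (2 * (N + 1) * b) := by rw [htot]
          _ ≤ ((Bs ×ˢ HsSet).biUnion (fun p => BF p.1 p.2)).card * 2 ^ (2 * (N + 1) * b) :=
              Nat.mul_le_mul_right _ (Finset.card_le_card hcover)
          _ ≤ (∑ p ∈ Bs ×ˢ HsSet, (BF p.1 p.2).card) * 2 ^ (2 * (N + 1) * b) :=
              Nat.mul_le_mul_right _ Finset.card_biUnion_le
          _ = ∑ p ∈ Bs ×ˢ HsSet, (BF p.1 p.2).card * 2 ^ (2 * (N + 1) * b) :=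
              Finset.sum_mul _ _ _
          _ ≤ ∑ p ∈ Bs ×ˢ HsSet, K ^ (2 ^ N) := Finset.sum_le_sum hone
          _ = (Bs.card * HsSet.card) * K ^ (2 ^ N) := by
              rw [Finset.sum_const, Finset.card_product, smul_eq_mul]
          _ ≤ ((2 ^ N) ^ b * (2 ^ b) ^ (N + 1)) * K ^ (2 ^ N) :=
              Nat.mul_le_mul_right _ (Nat.mul_le_mul hBscard hHscard)
      have h2 : ((2 : ℕ) ^ N) ^ b * (2 ^ b) ^ (N + 1) = 2 ^ (N * b + b * (N + 1)) := by
        rw [← pow_mul, ← pow_mul, ← pow_add]
      rw [h2, mul_comm (K ^ (2 ^ N))] at h1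
      have h3 : 2 ^ (2 * (N + 1) * b) ≤ 2 ^ (N * b + b * (N + 1)) :=
        Nat.le_of_mul_le_mul_right h1 (by positivity)
      have h4 : 2 * (N + 1) * b ≤ N * b + b * (N + 1) :=
        (Nat.pow_le_pow_iff_right (by norm_num)).1 h3
      nlinarith
    set h : ℕ → ℕ → ℕ := fun i j => if hj : j < 2 ^ N then
      (if hi : i < N + 1 then ((H ⟨j, hj⟩ ⟨i, hi⟩ : Fin (2 ^ t)) : ℕ) else 0) else 0 with hh
    refine ⟨h, ?_, ?_⟩
    · intro i j
      rw [hh]
      simp only
      split_ifs
      · exact Fin.isLt _
      · exact h2t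
      · exact h2t
    · intro S l hS hl
      by_contra hge
      push Not at hge
      obtain ⟨B0, hB0, hB0c⟩ := Finset.exists_subset_card_eq hge
      have hlt : ∀ m ∈ B0, m < 2 ^ N := fun m hm =>
        Finset.mem_range.1 (hS (Finset.mem_filter.1 (hB0 hm)).1)
      set Hs : Fin (N + 1) → Finset (Fin (2 ^ t)) := fun i =>
        Finset.univ.filter (fun v => 2 ^ (12 + l) < 2 ^ t *
          (S.filter (fun j' => h (i : ℕ) j' = (v : ℕ))).card) with hHs
      have hHsc : ∀ i, (Hs i).card * 2 ^ 12 ≤ 2 ^ t := by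
        intro i
        have e1 : (Hs i).card * 2 ^ (12 + l) ≤
            ∑ v ∈ Hs i, 2 ^ t * (S.filter (fun j' => h (i : ℕ) j' = (v : ℕ))).card := by
          rw [← smul_eq_mul, ← Finset.sum_const]
          apply Finset.sum_le_sum
          intro v hv
          rw [hHs] at hv
          simp only [Finset.mem_filter, Finset.mem_univ, true_and] at hv
          exact hv.le
        have e2 : ∑ v ∈ Hs i, (S.filter (fun j' => h (i : ℕ) j' = (v : ℕ))).card ≤ S.card := by
          rw [← Finset.card_biUnion]
          · apply Finset.card_le_card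
            intro x hx
            rw [Finset.mem_biUnion] at hx
            obtain ⟨v, _, hx⟩ := hx
            exact (Finset.mem_filter.1 hx).1
          · intro v _ v' _ hvv
            rw [Function.onFun, Finset.disjoint_left]
            intro x hx hx'
            apply hvv
            apply Fin.ext
            rw [← (Finset.mem_filter.1 hx).2, ← (Finset.mem_filter.1 hx').2]
        rw [← Finset.mul_sum] at e1
        have e3 : (Hs i).card * 2 ^ 12 * 2 ^ l ≤ 2 ^ t * 2 ^ l := by
          calc (Hs i).card * 2 ^ 12 * 2 ^ l = (Hs i).card * 2 ^ (12 + l) := by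
                rw [pow_add]; ring
            _ ≤ 2 ^ t * ∑ v ∈ Hs i, (S.filter (fun j' => h (i : ℕ) j' = (v : ℕ))).card := e1
            _ ≤ 2 ^ t * 2 ^ l := Nat.mul_le_mul_left _ (e2.trans hl)
        exact Nat.le_of_mul_le_mul_right e3 (by positivity)
      obtain ⟨j, hj, hjn⟩ := hH (B0.attachFin hlt) (by rw [Finset.card_attachFin, hB0c]) Hs hHsc
      rw [Finset.mem_attachFin] at hj
      apply hjn
      have hjb := (Finset.mem_filter.1 (hB0 hj)).2
      refine hjb.trans (Nat.mul_le_mul_left _ (le_of_eq ?_))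
      rw [Finset.card_filter, Finset.card_filter, Finset.sum_range]
      apply Finset.sum_congr rfl
      intro i _
      have key : h (i : ℕ) (j : ℕ) = ((H j i : Fin (2 ^ t)) : ℕ) := by
        rw [hh]
        simp only [Fin.is_lt, dif_pos, Fin.eta]
      have : (2 ^ (12 + l) < 2 ^ t * (S.filter (fun j' => h (i : ℕ) j' = h (i : ℕ) (j : ℕ))).card)
          ↔ (H j i ∈ Hs i) := by
        rw [hHs]
        simp only [Finset.mem_filter, Finset.mem_univ, true_and]
        rw [key]
      simp only [this]

end Pool.Agent.Helper760.EP.J4285
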