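import Mathlib
import Pool.Agent.Helper760.EP.Base1

set_option autoImplicit false

namespace Pool.Agent.Helper760.EP.J4289

open Encodable
open Pool.Agent.Helper760.Kolm

/-- search for a shortest program -/
def pathStep (x : ℕ × List Bool) (t : ℕ) : Option (List Bool) :=
  (decode (α := ℕ × List Bool) t).bind fun z =>
    if z.2.length = x.1 ∧ MS z.1 z.2 (encode ()) = some (encode x.2) then some z.2 else none

/-- search for a shortest program -/
def pathS (x : ℕ × List Bool) : Part (List Bool) := Nat.rfindOpt (pathStep x)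

theorem primrec_pathStep : Primrec₂ pathStep := by
  unfold pathStep
  refine Primrec.option_bind (Primrec.decode.comp Primrec.snd) ?_
  refine Primrec.ite (PrimrecPred.and ?_ ?_) ?_ (Primrec.const none)
  · exact Primrec.eq.comp (Primrec.list_length.comp (Primrec.snd.comp Primrec.snd))
      (Primrec.fst.comp (Primrec.fst.comp Primrec.fst))
  · refine Primrec.eq.comp ?_ ?_
    · exact primrec_MS.comp (Primrec.pair (Primrec.fst.comp Primrec.snd)
        (Primrec.pair (Primrec.snd.comp Primrec.snd) (Primrec.const (encode ()))))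
    · exact Primrec.option_some.comp (Primrec.encode.comp (Primrec.snd.comp (Primrec.fst.comp Primrec.fst)))
  · exact Primrec.option_some.comp (Primrec.snd.comp Primrec.snd)

theorem partrec_pathS : Partrec pathS := Partrec.rfindOpt primrec_pathStep.to_comp

theorem pathS_spec (q : List Bool) : ∃ p ∈ pathS (K q (), q), p.length = K q () ∧
    encode q ∈ M p (encode ()) := by
  obtain ⟨p0, hp0, hl0⟩ := K_spec q ()
  obtain ⟨t, ht⟩ := (mem_M_iff _ _ _).1 hp0
  have hdom : (pathS (K q (), q)).Dom := by
    unfold pathS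
    rw [Nat.rfindOpt_dom]
    refine ⟨encode (t, p0), p0, ?_⟩
    unfold pathStep
    simp only [encodek, Option.bind_some]
    rw [if_pos ⟨hl0, ht⟩]
    rfl
  obtain ⟨p, hp⟩ := Part.dom_iff_mem.1 hdom
  refine ⟨p, hp, ?_⟩
  obtain ⟨n, hn⟩ := Nat.rfindOpt_spec hp
  have hn' : pathStep (K q (), q) n = some p := hn
  unfold pathStep at hn'
  simp only [Option.bind_eq_some_iff] at hn'
  obtain ⟨z, _, hz⟩ := hn'
  split_ifs at hz with h
  cases hz
  exact ⟨h.1, (mem_M_iff _ _ _).2 ⟨_, h.2⟩⟩

theorem path_A : ∃ c : ℕ, ∀ (q p : List Bool) (m s0 : ℕ), p ∈ pathS (m, q) →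
    K (p.take s0) q ≤ 2 * Nat.size (encode ((m, s0) : ℕ × ℕ)) + c := by
  let φ : (ℕ × ℕ) × List Bool × List Bool →. List Bool := fun x =>
    (pathS (x.1.1, x.2.2)).map fun r => r.take x.1.2
  have hφ : Partrec φ := by
    refine Partrec.map ?_ ?_
    · exact partrec_pathS.comp ((Computable.fst.comp Computable.fst).pair
        (Computable.snd.comp Computable.snd))
    · exact (Primrec.list_take.comp (Primrec.snd.comp (Primrec.fst.comp Primrec.fst))
        Primrec.snd).to_comp.to₂
  obtain ⟨c, hc⟩ := K_param φ hφ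
  refine ⟨c, fun q p m s0 hp => ?_⟩
  have h := hc (m, s0) [] q (p.take s0) (by
    simp only [φ, Part.mem_map_iff]
    exact ⟨p, hp, rfl⟩)
  simpa using h

theorem path_1 : ∃ c : ℕ, ∀ (p : List Bool), K p () ≤ p.length + c := by
  let φ : Unit × List Bool × Unit →. List Bool := fun x => Part.some x.2.1
  have hφ : Partrec φ := (Computable.fst.comp Computable.snd).partrec
  obtain ⟨c, hc⟩ := K_param φ hφ
  refine ⟨c, fun p => ?_⟩
  have h := hc () p () p (by simp [φ])
  simpa using h

theorem path_2 : ∃ c : ℕ, ∀ (x u : List Bool) (b : Bool), K x u ≤ K x (u ++ [b]) + c := by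
  let φ : Bool × List Bool × List Bool →. List Bool := fun x =>
    (M x.2.1 (encode (x.2.2 ++ [x.1]))).bind fun n => Part.ofOption (decode (α := List Bool) n)
  have hφ : Partrec φ := by
    refine Partrec.bind ?_ ?_
    · refine partrec_M.comp (Computable.fst.comp Computable.snd) ?_
      refine (Primrec.encode.comp ?_).to_comp
      exact Primrec.list_concat.comp (Primrec.snd.comp Primrec.snd) Primrec.fst
    · exact (Computable.decode.comp Computable.snd).ofOption
  obtain ⟨c, hc⟩ := K_param φ hφ
  refine ⟨c + 2, fun x u b => ?_⟩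
  obtain ⟨p, hp, hl⟩ := K_spec x (u ++ [b])
  have h := hc b p u x (by
    simp only [φ, Part.mem_bind_iff]
    exact ⟨encode x, hp, by simp⟩)
  have hs : Nat.size (encode b) ≤ 1 := by
    rw [Nat.size_le]
    cases b <;> simp
  omega

theorem path_3 : ∃ c : ℕ, ∀ (x p q : List Bool), encode q ∈ M p (encode ()) → K x p ≤ K x q + c := by
  let φ : Unit × List Bool × List Bool →. List Bool := fun x =>
    (M x.2.2 (encode ())).bind fun n => (M x.2.1 n).bind fun k =>
      Part.ofOption (decode (α := List Bool) k)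
  have hφ : Partrec φ := by
    refine Partrec.bind ?_ (Partrec.bind ?_ ?_)
    · exact partrec_M.comp (Computable.snd.comp Computable.snd) (Computable.const _)
    · exact partrec_M.comp (Computable.fst.comp (Computable.snd.comp Computable.fst)) Computable.snd
    · exact (Computable.decode.comp Computable.snd).ofOption
  obtain ⟨c, hc⟩ := K_param φ hφ
  refine ⟨c, fun x p q hq => ?_⟩
  obtain ⟨w, hw, hl⟩ := K_spec x q
  have h := hc () w p x (by
    simp only [φ, Part.mem_bind_iff]
    exact ⟨encode q, hq, encode x, hw, by simp⟩)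
  simp only [size_encode_unit] at h
  omega

theorem path_4 : ∃ c : ℕ, ∀ (x : List Bool), K x () ≤ K x ([] : List Bool) + c := by
  obtain ⟨c, hc⟩ := K_comp (fun (d : List Bool) (_ : Unit) => d) (Computable.fst).to₂
    (fun _ : Unit => ([] : List Bool)) (Computable.const [])
  exact ⟨c, fun x => hc x ()⟩

theorem path_lemma : ∃ C : ℕ, ∀ (N s a b : ℕ) (x y q : List Bool), K q () ≤ N →
    K x q ≤ a + s → K y q ≤ b + s → a ≤ K x () + s → b ≤ K y () + s →
    ∃ u : List Bool, K u () ≤ K q () + C * lam N ∧ K u q ≤ C * lam N ∧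
      a ≤ K x u + (s + C) ∧ b ≤ K y u + (s + C) ∧
      (K x u ≤ a + (s + C) ∨ K y u ≤ b + (s + C)) := by
  classical
  obtain ⟨cA, hA⟩ := path_A
  obtain ⟨c1, h1⟩ := path_1
  obtain ⟨c2, h2⟩ := path_2
  obtain ⟨c3, h3⟩ := path_3
  obtain ⟨c4, h4⟩ := path_4
  refine ⟨4 + cA + c1 + c2 + c3 + c4, ?_⟩
  intro N s a b x y q hqN hxq hyq hax hby
  obtain ⟨p, hp, hpl, hpM⟩ := pathS_spec q
  set C := 4 + cA + c1 + c2 + c3 + c4 with hC
  set m := K q () with hm
  have hlam : lam N = Nat.size N + 1 := rfl
  let P : ℕ → Prop := fun i => a ≤ K x (p.take i) + (s + C) ∧ b ≤ K y (p.take i) + (s + C)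
  have hP0 : P 0 := by
    have e1 := h4 x
    have e2 := h4 y
    simp only [P, List.take_zero]
    constructor <;> omega
  obtain ⟨i, hi, hPi, hcase⟩ : ∃ i, i ≤ m ∧ P i ∧ (i = m ∨ (i < m ∧ ¬ P (i + 1))) := by
    refine ⟨Nat.findGreatest P m, Nat.findGreatest_le m, ?_, ?_⟩
    · exact Nat.findGreatest_spec (P := P) (Nat.zero_le m) hP0
    · rcases (Nat.findGreatest_le m : Nat.findGreatest P m ≤ m).eq_or_lt with h | h
      · exact Or.inl h
      · exact Or.inr ⟨h, Nat.findGreatest_is_greatest (P := P) (Nat.lt_succ_self _) h⟩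
  have hClam : C ≤ C * lam N := by
    rw [hlam]; exact Nat.le_mul_of_pos_right _ (Nat.succ_pos _)
  refine ⟨p.take i, ?_, ?_, hPi.1, hPi.2, ?_⟩
  · have e1 := h1 (p.take i)
    rw [List.length_take] at e1
    have : min i p.length ≤ m := (min_le_left _ _).trans hi
    omega
  · have e1 := hA q p m i hp
    have e2 : Nat.size (encode ((m, i) : ℕ × ℕ)) ≤ 2 * Nat.size N := by
      rw [encode_prod_val]
      simp only [encode_nat]
      refine (size_pair_le _ _).trans ?_
      have e3 := size_mono hqN
      have e4 := size_mono (hi.trans hqN)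
      omega
    have e5 : 4 * Nat.size N + cA ≤ C * lam N := by
      rw [hlam]
      nlinarith [Nat.zero_le (Nat.size N), Nat.zero_le (c1 + c2 + c3 + c4), Nat.zero_le cA,
        Nat.zero_le ((cA + c1 + c2 + c3 + c4) * Nat.size N)]
    omega
  · rcases hcase with h | ⟨hlt, hnP⟩
    · left
      have e1 : p.take i = p := List.take_of_length_le (by omega)
      rw [e1]
      have e2 := h3 x p q hpM
      omega
    · have hlen : i < p.length := by omega
      have etake : p.take (i + 1) = p.take i ++ [p[i]] := by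
        rw [List.take_add_one, List.getElem?_eq_getElem hlen]
        rfl
      have e1 := h2 x (p.take i) p[i]
      have e2 := h2 y (p.take i) p[i]
      rw [← etake] at e1 e2
      by_cases hx : a ≤ K x (p.take (i + 1)) + (s + C)
      · by_cases hy : b ≤ K y (p.take (i + 1)) + (s + C)
        · exact absurd ⟨hx, hy⟩ hnP
        · right
          omega
      · left
        omega

end Pool.Agent.Helper760.EP.J4289
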