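import Mathlib
import Pool.Agent.Helper760.EP.Base1

set_option autoImplicit false

namespace Pool.Agent.Helper760.EP.J4297

open Encodable
open Pool.Agent.Helper760.Kolm

theorem sub_profile : ∃ C : ℕ, ∀ (n s : ℕ) (x y x' y' : List Bool), x.length ≤ n →
    y.length ≤ n → x'.length ≤ n → y'.length ≤ n → GWsub s x y x' y' →
    K x' () ≤ K x () + C * (s + lam n) ∧ K y' () ≤ K y () + C * (s + lam n) ∧
      K (x', y') () ≤ K (x, y) () + C * (s + lam n) := by
  obtain ⟨c1, h1⟩ := K_comp (fun (d : List Bool) (_ : List Bool) => d) (Computable.fst).to₂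
    (fun _ : List Bool => ()) (Computable.const ())
  obtain ⟨c2, h2⟩ := K_chain0 (α := List Bool) (β := List Bool)
  obtain ⟨c3, h3⟩ := K_comp (fun (d : List Bool × List Bool) (_ : Unit) => enc d.1 d.2)
    (by
      unfold enc
      refine Primrec.to_comp ?_
      refine Primrec.list_map ?_ (Primrec.const true).to₂
      exact Primrec.list_range.comp (Primrec.encode.comp
        (Primrec.pair (Primrec.fst.comp Primrec.fst) (Primrec.snd.comp Primrec.fst))))
    (fun b : Unit => b) Computable.id
  have hdec : Primrec (fun b : List Bool => (decode (α := List Bool × List Bool) b.length).getD ([], [])) := 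
    Primrec.option_getD.comp (Primrec.decode.comp Primrec.list_length) (Primrec.const ([], []))
  obtain ⟨c4, h4⟩ := K_comp (fun (_ : Unit) (b : List Bool) => ((decode (α := List Bool × List Bool) b.length).getD ([], [])).1)
    (Primrec.fst.comp (hdec.comp Primrec.snd)).to_comp.to₂
    (fun _ : List Bool => ()) (Computable.const ())
  obtain ⟨c5, h5⟩ := K_comp (fun (_ : Unit) (b : List Bool) => ((decode (α := List Bool × List Bool) b.length).getD ([], [])).2)
    (Primrec.snd.comp (hdec.comp Primrec.snd)).to_comp.to₂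
    (fun _ : List Bool => ()) (Computable.const ())
  obtain ⟨c6, h6⟩ := K_chain0 (α := List Bool) (β := List Bool × List Bool)
  obtain ⟨c7, h7⟩ := K_chain (α := List Bool) (β := List Bool × List Bool) (γ := List Bool)
  obtain ⟨c8, h8⟩ := K_comp (fun (d : List Bool) (b : List Bool × List Bool) => (b.1, d))
    (Computable.pair (Computable.fst.comp Computable.snd) Computable.fst).to₂
    (fun b : List Bool × List Bool => b.2) Computable.snd
  obtain ⟨c9, h9⟩ := K_comp (fun (d : List Bool) (b : List Bool) => (b, d))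
    (Computable.pair Computable.snd Computable.fst).to₂
    (fun _ : List Bool => ()) (Computable.const ())
  obtain ⟨c10, h10⟩ := K_param (fun x : Unit × List Bool × Unit => (Part.some x.2.1 : Part (List Bool)))
    (Computable.fst.comp Computable.snd).partrec
  have hlen : ∀ x : List Bool, K x () ≤ x.length + c10 := by
    intro x
    have := h10 () x () x (by simp)
    simpa using this
  set k0 := K ([] : List Bool) () with hk0
  set k1 := K () () with hk1
  obtain ⟨hlam1, hlamm, hlama, hlams⟩ := lam_facts
  have hsz : ∀ m, Nat.size m ≤ lam m := fun m => by unfold lam; omega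
  set D := c3 + c6 + c7 + c8 + c9 + c10 + c4 + c5 + k1 with hD
  refine ⟨100 * (k0 + c1 + c2 + D + 10), ?_⟩
  intro n s x y x' y' hx hy hx' hy' hG
  have hl1 := hlam1 n
  have key : ∀ A B : ℕ, B ≤ 100 * (k0 + c1 + c2 + D + 10) * s + 100 * (k0 + c1 + c2 + D + 10) * lam n → A + B ≤ A + 100 * (k0 + c1 + c2 + D + 10) * (s + lam n) := by
    intro A B h
    rw [Nat.mul_add]; omega
  have lin1 : 100 * (k0 + c1 + c2 + D + 10) ≤ 100 * (k0 + c1 + c2 + D + 10) * lam n := Nat.le_mul_of_pos_right _ hl1
  have lin2 : 1000 * lam n + 100 * (k0 + c1 + c2 + D) ≤ 100 * (k0 + c1 + c2 + D + 10) * lam n := by nlinarith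
  have lin3 : 1000 * s ≤ 100 * (k0 + c1 + c2 + D + 10) * s := by nlinarith
  obtain ⟨q1, hq1, hxq1, hyq1⟩ := hG []
  have e1 : K x [] ≤ K x () + c1 := h1 x []
  have e2 : K y [] ≤ K y () + c1 := h1 y []
  have e3 := h2 q1 x'
  have e4 := h2 q1 y'
  have e5 := size_le_self (K q1 ())
  refine ⟨?_, ?_, ?_⟩
  · refine le_trans ?_ (key (K x ()) (4 * s + 3 * k0 + c1 + c2) (by omega))
    omega
  · refine le_trans ?_ (key (K y ()) (4 * s + 3 * k0 + c1 + c2) (by omega))
    omega
  · obtain ⟨q2, hq2, hxq2, hyq2⟩ := hG (enc x y)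
    have f1 : K (enc x y) () ≤ K (x, y) () + c3 := h3 (x, y) ()
    have hlenc : (enc x y).length = encode (x, y) := by simp [enc]
    have f2 : K x (enc x y) ≤ k1 + c4 := by
      have := h4 () (enc x y)
      simp only [hlenc, encodek, Option.getD_some] at this
      exact this
    have f3 : K y (enc x y) ≤ k1 + c5 := by
      have := h5 () (enc x y)
      simp only [hlenc, encodek, Option.getD_some] at this
      exact this
    have f4 := h6 q2 (x', y')
    have f5 := h7 x' (x', y') q2
    have f6 : K (x', y') (x', q2) ≤ K y' q2 + c8 := h8 y' (x', q2)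
    have f7 := h6 x (x, y)
    have f8 : K (x, y) x ≤ K y () + c9 := h9 y x
    have f9 := hlen x
    have f10 := hlen y
    have f11 := size_le_self (K x ())
    have f12 := size_le_self (K x' q2)
    have f13 : K (x, y) () ≤ 4 * n + (4 * c10 + c9 + c6) := by omega
    have f14 : K q2 () ≤ 4 * n + (4 * c10 + c9 + c6 + c3) + s := by omega
    have f15 : Nat.size (K q2 ()) ≤ lam (4 * (n + 1)) + (4 * c10 + c9 + c6 + c3 + 1) + (s + 1) := by
      have g1 := hsz (K q2 ())
      have g2 := hlamm _ _ f14
      have g3 := hlama (4 * n + (4 * c10 + c9 + c6 + c3)) s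
      have g4 := hlama (4 * n) (4 * c10 + c9 + c6 + c3)
      have g5 := hlams (4 * c10 + c9 + c6 + c3)
      have g6 := hlams s
      have g7 := hlamm (4 * n) (4 * (n + 1)) (by omega)
      omega
    have f16 : lam (4 * (n + 1)) ≤ 5 * lam n := by
      have := lam_le 4 n
      have h4 : Nat.size 4 = 3 := by decide
      rw [h4] at this
      exact this
    refine le_trans ?_ (key (K (x, y) ()) (8 * s + 10 * lam n + 20 * D + 10) (by omega))
    omega

end Pool.Agent.Helper760.EP.J4297
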