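import Mathlib
import Pool.Agent.Helper760.EP.Base1

set_option autoImplicit false

namespace Pool.Agent.Helper760.EP.J4301

open Encodable
open Pool.Agent.Helper760.Kolm

theorem asym_count : ∃ C : ℕ, ∀ (n al be τ s v r y0 y1 : ℕ) (q : List Bool),
    v = y0 + s * y1 → r < 2 ^ n → K (s, v, r) q ≤ al → K (y0, y1) q ≤ be → 2 * τ + 3 ≤ be →
    K ((s, v, r), (y0, y1)) q ≤ max (al + 1 + (be - τ)) (τ + n + be + 3) +
      C * lam (n + al + be) := by
  classical
  let en : (ℕ × ℕ × ℕ) × List Bool → ℕ → Option ((ℕ × ℕ × ℕ) × (ℕ × ℕ)) := fun x u =>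
    (decode (α := ℕ × ((ℕ × ℕ × ℕ) × (ℕ × ℕ))) u).bind fun z =>
      if (z.2.1.2.1 = z.2.2.1 + z.2.1.1 * z.2.2.2 ∧ z.2.1.2.2 < 2 ^ x.1.1) ∧
        (Kle z.1 x.1.2.1 z.2.1 x.2 ∧ Kle z.1 x.1.2.2 z.2.2 x.2) then some z.2 else none
  have hen : Primrec₂ en := by
    refine Primrec.option_bind (Primrec.decode.comp Primrec.snd) ?_
    have hz : Primrec (fun y : (((ℕ × ℕ × ℕ) × List Bool) × ℕ) × (ℕ × ((ℕ × ℕ × ℕ) × (ℕ × ℕ))) =>
        y.2.2) := Primrec.snd.comp Primrec.snd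
    have hX : Primrec (fun y : (((ℕ × ℕ × ℕ) × List Bool) × ℕ) × (ℕ × ((ℕ × ℕ × ℕ) × (ℕ × ℕ))) =>
        y.2.2.1) := Primrec.fst.comp hz
    have hY : Primrec (fun y : (((ℕ × ℕ × ℕ) × List Bool) × ℕ) × (ℕ × ((ℕ × ℕ × ℕ) × (ℕ × ℕ))) =>
        y.2.2.2) := Primrec.snd.comp hz
    have ht : Primrec (fun y : (((ℕ × ℕ × ℕ) × List Bool) × ℕ) × (ℕ × ((ℕ × ℕ × ℕ) × (ℕ × ℕ))) =>
        y.2.1) := Primrec.fst.comp Primrec.snd
    have hg : Primrec (fun y : (((ℕ × ℕ × ℕ) × List Bool) × ℕ) × (ℕ × ((ℕ × ℕ × ℕ) × (ℕ × ℕ))) =>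
        y.1.1.1) := Primrec.fst.comp (Primrec.fst.comp Primrec.fst)
    have hq : Primrec (fun y : (((ℕ × ℕ × ℕ) × List Bool) × ℕ) × (ℕ × ((ℕ × ℕ × ℕ) × (ℕ × ℕ))) =>
        y.1.1.2) := Primrec.snd.comp (Primrec.fst.comp Primrec.fst)
    refine Primrec.ite (PrimrecPred.and (PrimrecPred.and ?_ ?_) (PrimrecPred.and ?_ ?_)) ?_
      (Primrec.const none)
    · exact Primrec.eq.comp (Primrec.fst.comp (Primrec.snd.comp hX))
        (Primrec.nat_add.comp (Primrec.fst.comp hY)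
          (Primrec.nat_mul.comp (Primrec.fst.comp hX) (Primrec.snd.comp hY)))
    · exact Primrec.nat_lt.comp (Primrec.snd.comp (Primrec.snd.comp hX))
        (primrec_pow.comp (Primrec.const 2) (Primrec.fst.comp hg))
    · exact primrec_Kle.comp (Primrec.pair ht (Primrec.pair (Primrec.fst.comp (Primrec.snd.comp hg))
        (Primrec.pair hX hq)))
    · exact primrec_Kle.comp (Primrec.pair ht (Primrec.pair (Primrec.snd.comp (Primrec.snd.comp hg))
        (Primrec.pair hY hq)))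
    · exact Primrec.option_some.comp hz
  obtain ⟨c, hc⟩ := K_index hen
  refine ⟨c + 9, ?_⟩
  intro n al be τ s v r y0 y1 q hv hr h1 h2 hτ
  have hmem : ∀ e : (ℕ × ℕ × ℕ) × (ℕ × ℕ), (∃ t, en ((n, al, be), q) t = some e) →
      (e.1.2.1 = e.2.1 + e.1.1 * e.2.2 ∧ e.1.2.2 < 2 ^ n) ∧ (K e.1 q ≤ al ∧ K e.2 q ≤ be) := by
    rintro e ⟨t, ht⟩
    simp only [en, Option.bind_eq_some_iff] at ht
    obtain ⟨z, _, hz⟩ := ht
    split_ifs at hz with h
    cases hz
    exact ⟨h.1, (K_le_iff _ _ _).2 ⟨_, h.2.1⟩, (K_le_iff _ _ _).2 ⟨_, h.2.2⟩⟩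
  have hcard : ∀ S : Finset ((ℕ × ℕ × ℕ) × (ℕ × ℕ)),
      (∀ a ∈ S, ∃ t, en ((n, al, be), q) t = some a) →
      S.card ≤ 2 ^ (max (al + 1 + (be - τ)) (τ + n + be + 3) + 1) := by
    intro S hS
    have hA := card_le q al (S.image Prod.fst) (by
      intro a ha
      rw [Finset.mem_image] at ha
      obtain ⟨e, he, rfl⟩ := ha
      exact (hmem e (hS e he)).2.1)
    have hB := card_le q be (S.image Prod.snd) (by
      intro a ha
      rw [Finset.mem_image] at ha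
      obtain ⟨e, he, rfl⟩ := ha
      exact (hmem e (hS e he)).2.2)
    have h3 := edge_bound n be τ (S.image Prod.fst) (S.image Prod.snd) (by
      intro a ha
      rw [Finset.mem_image] at ha
      obtain ⟨e, he, rfl⟩ := ha
      exact (hmem e (hS e he)).1.2) hB.le hτ
    have h4 : S ⊆ ((S.image Prod.fst) ×ˢ (S.image Prod.snd)).filter
        (fun e => e.1.2.1 = e.2.1 + e.1.1 * e.2.2) := by
      intro e he
      rw [Finset.mem_filter, Finset.mem_product]
      exact ⟨⟨Finset.mem_image_of_mem _ he, Finset.mem_image_of_mem _ he⟩, (hmem e (hS e he)).1.1⟩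
    have h5 := Finset.card_le_card h4
    have h6 : (S.image Prod.fst).card * 2 ^ (be - τ) ≤ 2 ^ (al + 1 + (be - τ)) := by
      rw [pow_add 2 (al + 1) (be - τ)]
      exact Nat.mul_le_mul_right _ hA.le
    have h7 : 2 ^ (τ + 2) * 2 ^ n * 2 ^ (be + 1) = 2 ^ (τ + n + be + 3) := by
      rw [← pow_add, ← pow_add]; congr 1; omega
    have h8 : 2 ^ (al + 1 + (be - τ)) ≤ 2 ^ (max (al + 1 + (be - τ)) (τ + n + be + 3)) :=
      Nat.pow_le_pow_right (by norm_num) (le_max_left _ _)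
    have h9 : 2 ^ (τ + n + be + 3) ≤ 2 ^ (max (al + 1 + (be - τ)) (τ + n + be + 3)) :=
      Nat.pow_le_pow_right (by norm_num) (le_max_right _ _)
    rw [pow_succ]
    rw [h7] at h3
    omega
  have hex : ∃ t, en ((n, al, be), q) t = some ((s, v, r), (y0, y1)) := by
    obtain ⟨t1, ht1⟩ := (K_le_iff _ _ _).1 h1
    obtain ⟨t2, ht2⟩ := (K_le_iff _ _ _).1 h2
    refine ⟨encode (max t1 t2, ((s, v, r), (y0, y1))), ?_⟩
    simp only [en, encodek, Option.bind_some]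
    rw [if_pos ⟨⟨hv, hr⟩, Kle_mono (le_max_left _ _) ht1, Kle_mono (le_max_right _ _) ht2⟩]
  have h10 := hc (n, al, be) q _ hcard _ hex
  have h11 : Nat.size (encode ((n, al, be) : ℕ × ℕ × ℕ)) ≤ 4 * Nat.size (n + al + be) := by
    rw [encode_prod_val, encode_prod_val]
    simp only [encode_nat]
    have e1 := size_pair_le n (Nat.pair al be)
    have e2 := size_pair_le al be
    have e3 : Nat.size n ≤ Nat.size (n + al + be) := size_mono (by omega)
    have e4 : Nat.size al ≤ Nat.size (n + al + be) := size_mono (by omega)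
    have e5 : Nat.size be ≤ Nat.size (n + al + be) := size_mono (by omega)
    omega
  have h12 : (c + 9) * lam (n + al + be) =
      c * Nat.size (n + al + be) + c + 9 * Nat.size (n + al + be) + 9 := by
    unfold lam; ring
  rw [h12]
  have h13 : 0 ≤ c * Nat.size (n + al + be) := Nat.zero_le _
  omega

end Pool.Agent.Helper760.EP.J4301
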