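import Mathlib
import Pool.Agent.Helper760.EP.Base1

set_option autoImplicit false

namespace Pool.Agent.Helper760.EP.J4303

open Encodable
open Pool.Agent.Helper760.Kolm

theorem bw_val (l : List Bool) : bw l.length (val l) = l := by
  unfold bw
  apply List.ext_getElem
  · simp
  · intro i h1 h2
    simp only [List.getElem_map, List.getElem_range]
    have key : ∀ (l : List Bool) (i : ℕ) (h : i < l.length), (val l).testBit i = l[i] := by
      intro l
      induction l with
      | nil => intro i h; simp at h
      | cons b l ih =>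
        intro i h
        have hb : val (b :: l) = Nat.bit b (val l) := by
          rw [val_cons, Nat.bit_val]
        rw [hb]
        cases i with
        | zero => simp
        | succ i =>
          rw [Nat.testBit_bit_succ]
          simpa using ih i (by simpa using h)
    exact key l i h2

theorem primrec_bw : Primrec₂ bw := by
  have h1 : Primrec₂ (fun (x : ℕ × ℕ) (i : ℕ) => decide ((x.2 / 2 ^ i) % 2 = 1)) := by
    have hp : PrimrecPred (fun y : (ℕ × ℕ) × ℕ => (y.1.2 / 2 ^ y.2) % 2 = 1) := by
      refine Primrec.eq.comp (Primrec.nat_mod.comp (Primrec.nat_div.comp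
        (Primrec.snd.comp Primrec.fst) ?_) (Primrec.const 2)) (Primrec.const 1)
      exact primrec_pow.comp (Primrec.const 2) Primrec.snd
    exact hp.decide.to₂
  have h2 : Primrec (fun x : ℕ × ℕ => (List.range x.1).map
      (fun i => decide ((x.2 / 2 ^ i) % 2 = 1))) :=
    Primrec.list_map (Primrec.list_range.comp Primrec.fst) h1
  have h3 : Primrec (fun x : ℕ × ℕ => bw x.1 x.2) := h2.of_eq (by
    rintro ⟨w, a⟩
    show (List.range w).map (fun i => decide ((a / 2 ^ i) % 2 = 1)) = bw w a
    unfold bw
    apply List.map_congr_left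
    intro i _
    rw [Nat.testBit_eq_decide_div_mod_eq])
  exact h3.to₂

theorem lt_of_div_mul {n v k : ℕ} (_hn : 1 ≤ n) (h1 : 4 * n * v ≤ k) (h2 : k < 4 * n * v + 4 * n) :
    k / (4 * n) = v := by
  apply Nat.div_eq_of_lt_le
  · rw [mul_comm]; exact h1
  · rw [Nat.succ_mul, mul_comm v]
    exact h2

/-- reading `x` off the length of a shortest program -/
theorem K_read : ∃ c : ℕ, ∀ (n : ℕ) (x q : List Bool), 1 ≤ n → x.length = n →
    4 * n * val x ≤ K q () → K q () < 4 * n * val x + 4 * n →
    K (x, q) () ≤ K q () + 2 * Nat.size n + c := by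
  let φ : ℕ × List Bool × Unit →. (List Bool × List Bool) := fun y =>
    (M y.2.1 (encode y.2.2)).bind fun d =>
      (Part.ofOption (decode (α := List Bool) d)).map fun q =>
        (bw y.1 (y.2.1.length / (4 * y.1)), q)
  have hφ : Partrec φ := by
    refine Partrec.bind ?_ ?_
    · exact partrec_M.comp (Computable.fst.comp Computable.snd)
        (Computable.encode.comp (Computable.snd.comp Computable.snd))
    · refine Partrec.map ?_ ?_
      · exact (Computable.decode.comp Computable.snd).ofOption
      · have g1 : Primrec (fun z : ((ℕ × List Bool × Unit) × ℕ) × List Bool => z.1.1.1) :=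
          Primrec.fst.comp (Primrec.fst.comp Primrec.fst)
        have g2 : Primrec (fun z : ((ℕ × List Bool × Unit) × ℕ) × List Bool =>
            z.1.1.2.1.length) :=
          Primrec.list_length.comp (Primrec.fst.comp (Primrec.snd.comp
            (Primrec.fst.comp Primrec.fst)))
        have g3 : Primrec (fun z : ((ℕ × List Bool × Unit) × ℕ) × List Bool => 4 * z.1.1.1) :=
          Primrec.nat_mul.comp (Primrec.const 4) g1
        have g4 : Primrec (fun z : ((ℕ × List Bool × Unit) × ℕ) × List Bool =>
            z.1.1.2.1.length / (4 * z.1.1.1)) := Primrec.nat_div.comp g2 g3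
        have g5 : Primrec (fun z : ((ℕ × List Bool × Unit) × ℕ) × List Bool =>
            bw z.1.1.1 (z.1.1.2.1.length / (4 * z.1.1.1))) := primrec_bw.comp g1 g4
        exact (Primrec.pair g5 Primrec.snd).to_comp.to₂
  obtain ⟨c, hc⟩ := K_param φ hφ
  refine ⟨c, ?_⟩
  intro n x q hn hx h1 h2
  obtain ⟨p, hp, hl⟩ := K_spec q ()
  have hdiv : p.length / (4 * n) = val x := lt_of_div_mul hn (by rw [hl]; exact h1) (by rw [hl]; exact h2)
  have h := hc n p () (x, q) (by
    simp only [φ, Part.mem_bind_iff]
    refine ⟨encode q, hp, ?_⟩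
    simp only [encodek, Part.coe_some, Part.map_some, Part.mem_some_iff, hdiv]
    rw [← hx, bw_val])
  rw [hl, encode_nat] at h
  exact h

/-- trivial upper bound with a parameter -/
theorem K_str {β : Type*} [Primcodable β] : ∃ c : ℕ, ∀ (x : List Bool) (b : β),
    K x b ≤ x.length + c := by
  obtain ⟨c, hc⟩ := K_param (γ := Unit) (β := β) (α := List Bool)
    (fun y => Part.some y.2.1) (Computable.fst.comp Computable.snd).partrec
  refine ⟨c, fun x b => ?_⟩
  have h := hc () x b x (by simp)
  simpa using h

theorem exists_random (n : ℕ) : ∃ x : List Bool, x.length = n ∧ n ≤ K x () := by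
  by_contra hcon
  push Not at hcon
  have h1 := card_lt () n (allLen n).toFinset (by
    intro a ha
    exact hcon a ((mem_allLen n a).1 (List.mem_toFinset.1 ha)))
  rw [List.toFinset_card_of_nodup (nodup_allLen n), length_allLen] at h1
  exact lt_irrefl _ h1

theorem exists_random_pair (n m : ℕ) : ∃ x r : List Bool, x.length = n ∧ r.length = m ∧
    n + m ≤ K (x, r) () := by
  by_contra hcon
  push Not at hcon
  have h1 := card_lt () (n + m) ((allLen n).toFinset ×ˢ (allLen m).toFinset) (by
    rintro ⟨a, b⟩ hab
    rw [Finset.mem_product] at hab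
    exact hcon a b ((mem_allLen n a).1 (List.mem_toFinset.1 hab.1))
      ((mem_allLen m b).1 (List.mem_toFinset.1 hab.2)))
  rw [Finset.card_product, List.toFinset_card_of_nodup (nodup_allLen n), length_allLen,
    List.toFinset_card_of_nodup (nodup_allLen m), length_allLen, ← pow_add] at h1
  exact lt_irrefl _ h1

theorem huge_pair : ∃ C : ℕ, ∀ n : ℕ, 1 ≤ n → ∃ (x x' r : List Bool) (m : ℕ),
    x.length ≤ n ∧ x'.length ≤ n ∧ n ≤ K x () + C * lam n ∧ n ≤ K x' () + C * lam n ∧
    ap (C * lam n) (K r ()) m ∧ n + m ≤ K (x', r) () + C * lam n ∧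
    ∀ q : List Bool, m ≤ K q () + n → K q () ≤ m + n → K (x, q) () ≤ K q () + C * lam n := by
  obtain ⟨c1, h1⟩ := K_read
  obtain ⟨c2, h2⟩ := K_str (β := Unit)
  obtain ⟨c3, h3⟩ := K_chain0 (α := List Bool) (β := List Bool × List Bool)
  obtain ⟨c4, h4⟩ := K_comp (fun (r : List Bool) (x : List Bool) => (x, r))
    (Computable.pair Computable.snd Computable.fst).to₂ (fun _ : List Bool => ())
    (Computable.const ())
  refine ⟨c1 + 3 * c2 + c3 + c4 + 2 * Nat.size c2 + 10, ?_⟩
  intro n hn
  obtain ⟨x, hxl, hxK⟩ := exists_random n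
  obtain ⟨x', r, hx'l, hrl, hpair⟩ := exists_random_pair n (4 * n * val x + 2 * n)
  set m := 4 * n * val x + 2 * n with hm
  set C := c1 + 3 * c2 + c3 + c4 + 2 * Nat.size c2 + 10 with hC
  have e1 := h2 x' ()
  have e2 := h2 r ()
  have e3 := h3 x' (x', r)
  have e4 : K (x', r) x' ≤ K r () + c4 := h4 r x'
  have e5 : Nat.size (K x' ()) ≤ Nat.size n + Nat.size c2 + 1 := by
    have f1 : Nat.size (K x' ()) ≤ Nat.size (n + c2) := size_mono (by omega)
    have f2 := size_add_le n c2
    have f3 : max (Nat.size n) (Nat.size c2) ≤ Nat.size n + Nat.size c2 := by omega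
    omega
  have e6 : c1 + 3 * c2 + c3 + c4 + 2 * Nat.size c2 + 10 + 2 * Nat.size n ≤ C * lam n := by
    unfold lam
    rw [mul_add, mul_one]
    have : 2 * Nat.size n ≤ C * Nat.size n := Nat.mul_le_mul_right _ (by omega)
    omega
  refine ⟨x, x', r, m, hxl.le, hx'l.le, by omega, by omega, ⟨by omega, by omega⟩, by omega, ?_⟩
  intro q hq1 hq2
  have := h1 n x q hn hxl (by omega) (by omega)
  omega

end Pool.Agent.Helper760.EP.J4303
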