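import Mathlib
import Pool.Agent.Helper760.EP.Base1

set_option autoImplicit false

namespace Pool.Agent.Helper760.EP.J4304

open Encodable
open Pool.Agent.Helper760.Kolm

theorem gw_random : ∃ C : ℕ, ∀ (n s : ℕ) (x x' : List Bool), x'.length ≤ n →
    n ≤ K x () + s → GWsub (C * (s + lam n)) x [] x' [] := by
  -- F1
  obtain ⟨c1, h1⟩ := K_param (γ := Unit) (α := List Bool) (β := Unit)
    (fun x : Unit × List Bool × Unit => (Part.some x.2.1 : Part (List Bool)))
    ((Computable.fst.comp Computable.snd).partrec)
  -- F2
  obtain ⟨c2, h2⟩ := K_param (γ := Unit) (α := List Bool) (β := List Bool)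
    (fun x : Unit × List Bool × List Bool => (Part.some x.2.2 : Part (List Bool)))
    ((Computable.snd.comp Computable.snd).partrec)
  -- F3
  obtain ⟨c3, h3⟩ := K_param (γ := Unit) (α := List Bool) (β := List Bool)
    (fun _ : Unit × List Bool × List Bool => (Part.some ([] : List Bool) : Part (List Bool)))
    ((Computable.const []).partrec)
  -- F4
  obtain ⟨c4, h4⟩ := K_param (γ := Unit) (α := List Bool) (β := List Bool)
    (fun x : Unit × List Bool × List Bool => (Part.some (x.2.2 ++ x.2.1) : Part (List Bool)))
    (((Primrec.list_append (α := Bool)).comp (Primrec.snd.comp Primrec.snd)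
      (Primrec.fst.comp Primrec.snd)).to_comp.partrec)
  obtain ⟨c5, h5⟩ := K_chain0 (α := List Bool) (β := List Bool)
  have F1 : ∀ p : List Bool, K p () ≤ p.length + c1 := by
    intro p
    have := h1 () p () p (by simp)
    simpa using this
  have F2 : ∀ p : List Bool, K p p ≤ c2 := by
    intro p
    have := h2 () [] p p (by simp)
    simpa using this
  have F3 : ∀ p : List Bool, K ([] : List Bool) p ≤ c3 := by
    intro p
    have := h3 () [] p [] (by simp)
    simpa using this
  have F4 : ∀ u v : List Bool, K (u ++ v) u ≤ v.length + c4 := by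
    intro u v
    have := h4 () v u (u ++ v) (by simp)
    simpa using this
  refine ⟨c1 + c2 + c3 + c4 + c5 + 2, ?_⟩
  intro n s x x' hx' hn q
  have hlam : Nat.size n + 1 = lam n := rfl
  have hb : c1 + c2 + c3 + c4 + c5 + s + 2 * lam n ≤
      (c1 + c2 + c3 + c4 + c5 + 2) * (s + lam n) := by
    have hl : 1 ≤ lam n := by omega
    nlinarith
  by_cases hj : n ≤ K q ()
  · refine ⟨x', ?_, ?_, ?_⟩
    · have := F1 x'
      omega
    · have := F2 x'
      omega
    · have := F3 x'
      omega
  · push Not at hj
    refine ⟨x'.take (K q ()), ?_, ?_, ?_⟩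
    · have := F1 (x'.take (K q ()))
      have h6 : (x'.take (K q ())).length ≤ K q () := List.length_take_le _ _
      omega
    · have h6 := F4 (x'.take (K q ())) (x'.drop (K q ()))
      rw [List.take_append_drop, List.length_drop] at h6
      have h7 := h5 q x
      have h8 : Nat.size (K q ()) ≤ Nat.size n := size_mono hj.le
      omega
    · have := F3 (x'.take (K q ()))
      omega

end Pool.Agent.Helper760.EP.J4304
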