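import Mathlib
import Pool.Agent.Helper760.EP.Base1

set_option autoImplicit false

namespace Pool.Agent.Helper760.EP.J4306

open Encodable
open Pool.Agent.Helper760.Kolm

theorem subiff_aux1 (U : List Bool →. List Bool) (D : List Bool → List Bool →. List Bool)
    (c : ℕ) (h1 : ∀ s : List Bool, ap c (CU U s) (K s ()))
    (h2 : ∀ s y : List Bool, ap c (CD D s y) (K s y)) (s : ℕ) (x y x' y' : List Bool)
    (h : ∀ t ∈ GWp U D x y, ∃ t' ∈ GWp U D x' y', ∀ i, |(t i : ℝ) - (t' i : ℝ)| ≤ (s : ℝ)) :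
    GWsub (s + 2 * c) x y x' y' := by
  intro q
  obtain ⟨t', ⟨q', hq1, hq2, hq3⟩, hi⟩ := h ![(CD D x q : ℤ), (CD D y q : ℤ), (CU U q : ℤ)]
    ⟨q, by simp, by simp, by simp⟩
  have key : ∀ (i : Fin 3) (m : ℕ), (![(CD D x q : ℤ), (CD D y q : ℤ), (CU U q : ℤ)] i) = (m : ℤ) →
      t' i ≤ (m : ℤ) + s := by
    intro i m hm
    have h3 := hi i
    rw [hm, abs_le] at h3
    have h4 : (t' i : ℝ) ≤ ((m : ℤ) : ℝ) + (s : ℝ) := by linarith [h3.1]
    exact_mod_cast h4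
  have e2 := key 2 (CU U q) (by simp)
  have e0 := key 0 (CD D x q) (by simp)
  have e1 := key 1 (CD D y q) (by simp)
  refine ⟨q', ?_, ?_, ?_⟩
  · have a1 := (h1 q').2
    have a2 := (h1 q).1
    omega
  · have a1 := (h2 x' q').2
    have a2 := (h2 x q).1
    omega
  · have a1 := (h2 y' q').2
    have a2 := (h2 y q).1
    omega

theorem subiff_aux2 (U : List Bool →. List Bool) (D : List Bool → List Bool →. List Bool)
    (c : ℕ) (h1 : ∀ s : List Bool, ap c (CU U s) (K s ()))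
    (h2 : ∀ s y : List Bool, ap c (CD D s y) (K s y)) (s : ℕ) (x y x' y' : List Bool)
    (h : GWsub s x y x' y') :
    ∀ t ∈ GWp U D x y, ∃ t' ∈ GWp U D x' y',
      ∀ i, |(t i : ℝ) - (t' i : ℝ)| ≤ (s : ℝ) + ((2 * c : ℕ) : ℝ) := by
  rintro t ⟨q, hq1, hq2, hq3⟩
  obtain ⟨q', k1, k2, k3⟩ := h q
  refine ⟨fun i => t i + ((s : ℤ) + ((2 * c : ℕ) : ℤ)), ⟨q', ?_, ?_, ?_⟩, ?_⟩
  · have a1 := (h1 q').1
    have a2 := (h1 q).2
    change (CU U q' : ℤ) ≤ t 2 + ((s : ℤ) + ((2 * c : ℕ) : ℤ))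
    push_cast
    omega
  · have a1 := (h2 x' q').1
    have a2 := (h2 x q).2
    change (CD D x' q' : ℤ) ≤ t 0 + ((s : ℤ) + ((2 * c : ℕ) : ℤ))
    push_cast
    omega
  · have a1 := (h2 y' q').1
    have a2 := (h2 y q).2
    change (CD D y' q' : ℤ) ≤ t 1 + ((s : ℤ) + ((2 * c : ℕ) : ℤ))
    push_cast
    omega
  · intro i
    rw [abs_sub_comm, abs_le]
    push_cast
    have hs : (0 : ℝ) ≤ s := Nat.cast_nonneg s
    have hc : (0 : ℝ) ≤ c := Nat.cast_nonneg c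
    constructor <;> linarith

theorem sub_iff_close (U : List Bool →. List Bool) (D : List Bool → List Bool →. List Bool)
    (hU : OptPlain U) (hD : OptCond D) : ∃ C : ℕ, ∀ x y x' y' : List Bool,
      (∀ s : ℕ, Close (s : ℝ) (GWp U D x y) (GWp U D x' y') →
        GWsub (s + C) x y x' y' ∧ GWsub (s + C) x' y' x y) ∧
      ∀ s : ℕ, GWsub s x y x' y' → GWsub s x' y' x y →
        Close ((s : ℝ) + C) (GWp U D x y) (GWp U D x' y') := by
  obtain ⟨c1, hc1⟩ := plain_K U hU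
  obtain ⟨c2, hc2⟩ := cond_K D hD
  have h1 : ∀ s : List Bool, ap (c1 + c2) (CU U s) (K s ()) := fun s =>
    ⟨by have := (hc1 s).1; omega, by have := (hc1 s).2; omega⟩
  have h2 : ∀ s y : List Bool, ap (c1 + c2) (CD D s y) (K s y) := fun s y =>
    ⟨by have := (hc2 s y).1; omega, by have := (hc2 s y).2; omega⟩
  refine ⟨2 * (c1 + c2), fun x y x' y' => ⟨fun s hcl => ⟨?_, ?_⟩, fun s g1 g2 => ⟨?_, ?_⟩⟩⟩
  · exact subiff_aux1 U D _ h1 h2 s x y x' y' hcl.1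
  · refine subiff_aux1 U D _ h1 h2 s x' y' x y fun t ht => ?_
    obtain ⟨t', ht', hi⟩ := hcl.2 t ht
    exact ⟨t', ht', fun i => by rw [abs_sub_comm]; exact hi i⟩
  · exact subiff_aux2 U D _ h1 h2 s x y x' y' g1
  · intro t ht
    obtain ⟨t', ht', hi⟩ := subiff_aux2 U D _ h1 h2 s x' y' x y g2 t ht
    exact ⟨t', ht', fun i => by rw [abs_sub_comm]; exact hi i⟩

end Pool.Agent.Helper760.EP.J4306
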