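import Mathlib
import Pool.Agent.Helper760.EP.Base1
import Pool.Agent.Helper760.EP.UDefs

set_option autoImplicit false

namespace Pool.Agent.Helper760.EP.J4313

open Encodable
open Pool.Agent.Helper760.Kolm

theorem len_code_aux (g : ℕ) (p : List Bool) (hp : p.length ≤ g) :
    (Pool.Agent.Helper760.GW.code g p).length = g + 1 := by
  unfold Pool.Agent.Helper760.GW.code
  simp
  omega

theorem dec_code_aux (g : ℕ) (p : List Bool) :
    Pool.Agent.Helper760.GW.dec (Pool.Agent.Helper760.GW.code g p) = p := by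
  unfold Pool.Agent.Helper760.GW.dec Pool.Agent.Helper760.GW.code
  generalize g - p.length = n
  induction n with
  | zero => simp
  | succ n ih => simpa [List.replicate_succ] using ih

theorem mem_half_aux (G : List Bool → List Bool × List Bool → Option (List Bool))
    (ρ q : List Bool) (a : ℕ) (L : List (List Bool)) (i : ℕ) (x : List Bool) (hi : L[i]? = some x)
    (w : List Bool) (hw : w ∈ allLe a) (h : G ρ (w, q) = some x) :
    i ∈ Pool.Agent.Helper760.GW.half G ρ q a L := by
  unfold Pool.Agent.Helper760.GW.half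
  rw [List.mem_filter]
  refine ⟨?_, ?_⟩
  · rw [List.mem_range]
    exact (List.getElem?_eq_some_iff.1 hi).1
  · rw [decide_eq_true_eq]
    exact ⟨w, hw, by rw [h, hi]⟩

theorem Gf_eval_aux (ρ p q : List Bool) (x : List Bool) (t : ℕ) (ht : t ≤ ρ.length)
    (h : MS t p (encode q) = some (encode x)) : Gf ρ (p, q) = some x := by
  unfold Gf
  have h1 := MS_mono ht h
  simp only [h1, Option.bind_some, encodek]

theorem count_U (N a b g h : ℕ) (x y : List Bool) (F : Finset (List Bool))
    (hF : ∀ p ∈ F, p.length ≤ g ∧ ∃ q1 : List Bool, encode q1 ∈ M p 0 ∧ K x q1 ≤ a ∧ K y q1 ≤ b)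
    (hc : 2 ^ (g + 1) ≤ 2 ^ h * F.card) :
    ∃ k0, ∀ k, k0 ≤ k → ∀ i j, (Pool.Agent.Helper760.GW.lab N (g + 1 + k))[i]? = some x →
      (Pool.Agent.Helper760.GW.lab N (g + 1 + k))[j]? = some y →
      2 ^ (g + 1 + k) ≤ 2 ^ h * ((allLen (g + 1 + k)).filter (fun σ =>
        2 * i ∈ Pool.Agent.Helper760.GW.fGW Gf (N, a, b, g, h) σ ∧
        2 * j + 1 ∈ Pool.Agent.Helper760.GW.fGW Gf (N, a, b, g, h) σ)).length := by
  classical
  have hF' : ∀ p ∈ F, ∃ (q1 : List Bool) (t : ℕ) (w v : List Bool),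
      MS t p (encode ([] : List Bool)) = some (encode q1) ∧
      w ∈ allLe a ∧ MS t w (encode q1) = some (encode x) ∧
      v ∈ allLe b ∧ MS t v (encode q1) = some (encode y) := by
    intro p hp
    obtain ⟨-, q1, h1, h2, h3⟩ := hF p hp
    obtain ⟨t1, ht1⟩ := (mem_M_iff _ _ _).1 h1
    obtain ⟨t2, w, hw, ht2⟩ := (K_le_iff _ _ _).1 h2
    obtain ⟨t3, v, hv, ht3⟩ := (K_le_iff _ _ _).1 h3
    refine ⟨q1, max t1 (max t2 t3), w, v, ?_, hw, ?_, hv, ?_⟩
    · have h0 : encode ([] : List Bool) = 0 := rfl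
      rw [h0]
      exact MS_mono (le_max_left _ _) ht1
    · exact MS_mono ((le_max_left _ _).trans (le_max_right _ _)) ht2
    · exact MS_mono ((le_max_right _ _).trans (le_max_right _ _)) ht3
  choose! q1 t w v h1 h2 h3 h4 h5 using hF'
  refine ⟨F.sup t, ?_⟩
  intro k hk i j hi hj
  have hlen : ∀ p ∈ F, (Pool.Agent.Helper760.GW.code g p).length = g + 1 :=
    fun p hp => len_code_aux g p (hF p hp).1
  have hkey : ∀ p ∈ F, ∀ ρ ∈ allLen k,
      2 * i ∈ Pool.Agent.Helper760.GW.fGW Gf (N, a, b, g, h)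
        (Pool.Agent.Helper760.GW.code g p ++ ρ) ∧
      2 * j + 1 ∈ Pool.Agent.Helper760.GW.fGW Gf (N, a, b, g, h)
        (Pool.Agent.Helper760.GW.code g p ++ ρ) := by
    intro p hp ρ hρ
    have hρl : ρ.length = k := (mem_allLen _ _).1 hρ
    have htk : t p ≤ ρ.length := by
      rw [hρl]
      exact (Finset.le_sup (f := t) hp).trans hk
    have hσl : (Pool.Agent.Helper760.GW.code g p ++ ρ).length = g + 1 + k := by
      rw [List.length_append, hlen p hp, hρl]
    have htake : (Pool.Agent.Helper760.GW.code g p ++ ρ).take (g + 1) =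
        Pool.Agent.Helper760.GW.code g p := List.take_left' (hlen p hp)
    have hdrop : (Pool.Agent.Helper760.GW.code g p ++ ρ).drop (g + 1) = ρ :=
      List.drop_left' (hlen p hp)
    have hG1 : Gf ρ (p, []) = some (q1 p) := Gf_eval_aux ρ p [] (q1 p) (t p) htk (h1 p hp)
    have hG2 : Gf ρ (w p, q1 p) = some x := Gf_eval_aux ρ (w p) (q1 p) x (t p) htk (h3 p hp)
    have hG3 : Gf ρ (v p, q1 p) = some y := Gf_eval_aux ρ (v p) (q1 p) y (t p) htk (h5 p hp)
    have hf : Pool.Agent.Helper760.GW.fGW Gf (N, a, b, g, h)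
        (Pool.Agent.Helper760.GW.code g p ++ ρ) =
        (Pool.Agent.Helper760.GW.half Gf ρ (q1 p) a
          (Pool.Agent.Helper760.GW.lab N (g + 1 + k))).map (fun j => 2 * j) ++
        (Pool.Agent.Helper760.GW.half Gf ρ (q1 p) b
          (Pool.Agent.Helper760.GW.lab N (g + 1 + k))).map (fun j => 2 * j + 1) := by
      unfold Pool.Agent.Helper760.GW.fGW
      dsimp only
      rw [if_neg (by rw [hσl]; omega), htake, hdrop, dec_code_aux, hG1, hσl]
    rw [hf]
    constructor
    · rw [List.mem_append]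
      left
      rw [List.mem_map]
      exact ⟨i, mem_half_aux Gf ρ (q1 p) a _ i x hi (w p) (h2 p hp) hG2, rfl⟩
    · rw [List.mem_append]
      right
      rw [List.mem_map]
      exact ⟨j, mem_half_aux Gf ρ (q1 p) b _ j y hj (v p) (h4 p hp) hG3, rfl⟩
  set Lf := (allLen (g + 1 + k)).filter (fun σ =>
        2 * i ∈ Pool.Agent.Helper760.GW.fGW Gf (N, a, b, g, h) σ ∧
        2 * j + 1 ∈ Pool.Agent.Helper760.GW.fGW Gf (N, a, b, g, h) σ) with hLf
  have hcard : F.card * 2 ^ k ≤ Lf.length := by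
    have e1 : (F ×ˢ (allLen k).toFinset).card = F.card * 2 ^ k := by
      rw [Finset.card_product, List.toFinset_card_of_nodup (nodup_allLen k), length_allLen]
    rw [← e1]
    refine le_trans ?_ (List.toFinset_card_le Lf)
    refine Finset.card_le_card_of_injOn
      (fun z : List Bool × List Bool => Pool.Agent.Helper760.GW.code g z.1 ++ z.2) ?_ ?_
    · intro z hz
      rw [Finset.mem_coe, Finset.mem_product, List.mem_toFinset] at hz
      obtain ⟨hz1, hz2⟩ := hz
      rw [Finset.mem_coe, List.mem_toFinset, hLf, List.mem_filter]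
      refine ⟨?_, ?_⟩
      · rw [mem_allLen, List.length_append, hlen z.1 hz1, (mem_allLen _ _).1 hz2]
      · rw [decide_eq_true_eq]
        exact hkey z.1 hz1 z.2 hz2
    · intro z hz z' hz' hzz
      rw [Finset.mem_coe, Finset.mem_product, List.mem_toFinset] at hz hz'
      have hl : (Pool.Agent.Helper760.GW.code g z.1).length =
          (Pool.Agent.Helper760.GW.code g z'.1).length := by
        rw [hlen z.1 hz.1, hlen z'.1 hz'.1]
      obtain ⟨e1, e2⟩ := List.append_inj hzz hl
      have e3 : z.1 = z'.1 := by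
        have := congrArg Pool.Agent.Helper760.GW.dec e1
        rwa [dec_code_aux, dec_code_aux] at this
      exact Prod.ext e3 e2
  calc 2 ^ (g + 1 + k) = 2 ^ (g + 1) * 2 ^ k := pow_add _ _ _
    _ ≤ (2 ^ h * F.card) * 2 ^ k := Nat.mul_le_mul_right _ hc
    _ = 2 ^ h * (F.card * 2 ^ k) := by ring
    _ ≤ 2 ^ h * Lf.length := Nat.mul_le_mul_left _ hcard

end Pool.Agent.Helper760.EP.J4313
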