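import Mathlib
import Pool.Agent.Helper760.EP.Base1
import Pool.Agent.Helper760.EP.J4282
import Pool.Agent.Helper760.EP.J4285
import Pool.Agent.Helper760.EP.J4289
import Pool.Agent.Helper760.EP.J4301
import Pool.Agent.Helper760.EP.J4297
import Pool.Agent.Helper760.EP.J4303
import Pool.Agent.Helper760.EP.J4304
import Pool.Agent.Helper760.EP.J4306
import Pool.Agent.Helper760.EP.J4313

set_option autoImplicit false

namespace Pool.Agent.Helper760.EP

alias toolkit := J4282.toolkit
alias hash_exists := J4285.hash_exists
alias path_lemma := J4289.path_lemma
alias asym_count := J4301.asym_count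
alias sub_profile := J4297.sub_profile
alias huge_pair := J4303.huge_pair
alias gw_random := J4304.gw_random
alias sub_iff_close := J4306.sub_iff_close
alias count_U := J4313.count_U

end Pool.Agent.Helper760.EP
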