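import Mathlib
import Pool.Agent.Helper760.EP.Base2

set_option autoImplicit false

namespace Pool.Agent.Helper760.EP.J4286

open Encodable
open Pool.Agent.Helper760.Kolm

/-- filtering with a parameter -/
theorem prim_filter {α β : Type} [Primcodable α] [Primcodable β] {f : α → List β}
    {p : α → β → Bool} (hf : Primrec f) (hp : Primrec₂ p) :
    Primrec (fun a => (f a).filter (p a)) := by
  have h : Primrec₂ (fun (a : α) (b : β) => bif p a b then some b else none) :=
    Primrec.cond hp (Primrec.option_some.comp Primrec.snd) (Primrec.const none)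
  refine (Primrec.listFilterMap hf h).of_eq (fun a => ?_)
  rw [← List.filterMap_eq_filter]
  congr 1
  funext b
  cases hb : p a b <;> simp [Option.guard, hb]

theorem prim_cnt {α β : Type} [Primcodable α] [Primcodable β] {f : α → List β}
    {p : α → β → Bool} (hf : Primrec f) (hp : Primrec₂ p) :
    Primrec (fun a => ((f a).filter (p a)).length) :=
  Primrec.list_length.comp (prim_filter hf hp)

/-- comparison of numbers as a boolean -/
def bLt (a b : ℕ) : Bool := decide (a < b)
def bLe (a b : ℕ) : Bool := decide (a ≤ b)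
def bEq (a b : ℕ) : Bool := decide (a = b)

theorem prim_bLt : Primrec₂ bLt := Primrec.nat_lt.decide
theorem prim_bLe : Primrec₂ bLe := Primrec.nat_le.decide
theorem prim_bEq : Primrec₂ bEq := (Primrec.eq (α := ℕ)).decide

theorem bLt_iff (a b : ℕ) : bLt a b = true ↔ a < b := decide_eq_true_iff
theorem bLe_iff (a b : ℕ) : bLe a b = true ↔ a ≤ b := decide_eq_true_iff
theorem bEq_iff (a b : ℕ) : bEq a b = true ↔ a = b := decide_eq_true_iff

attribute [local irreducible] bLt bLe bEq

/-- power of two -/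
def p2 (n : ℕ) : ℕ := 2 ^ n

theorem prim_p2 : Primrec p2 := primrec_pow.comp (Primrec.const 2) Primrec.id

theorem p2_eq (n : ℕ) : p2 n = 2 ^ n := rfl

attribute [local irreducible] p2

/-- the function coded by a table -/
def hT (t : ℕ) (T : List (List ℕ)) (i j : ℕ) : ℕ := ((T.getD i []).getD j 0) % p2 t

theorem prim_hT : Primrec (fun y : (ℕ × List (List ℕ)) × (ℕ × ℕ) => hT y.1.1 y.1.2 y.2.1 y.2.2) := by
  unfold hT
  refine Primrec.nat_mod.comp ?_ ?_
  · refine (Primrec.list_getD 0).comp ?_ (Primrec.snd.comp Primrec.snd)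
    exact (Primrec.list_getD []).comp (Primrec.snd.comp Primrec.fst) (Primrec.fst.comp Primrec.snd)
  · exact prim_p2.comp (Primrec.fst.comp Primrec.fst)

attribute [local irreducible] hT

/-- the subset coded by a string -/
def Sl (N : ℕ) (σ : List Bool) : List ℕ :=
  (List.range (p2 N)).filter (fun j => σ.getD j false)

theorem prim_Sl : Primrec (fun x : ℕ × List Bool => Sl x.1 x.2) := by
  unfold Sl
  refine prim_filter (p := fun (x : ℕ × List Bool) (j : ℕ) => x.2.getD j false) ?_ ?_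
  · exact Primrec.list_range.comp (prim_p2.comp Primrec.fst)
  · exact ((Primrec.list_getD false).comp (Primrec.snd.comp Primrec.fst)
      Primrec.snd)

attribute [local irreducible] Sl

/-- list version of the fibre count -/
def fib (h : ℕ → ℕ → ℕ) (S : List ℕ) (i j : ℕ) : ℕ :=
  (S.filter (fun j' => bEq (h i j') (h i j))).length

/-- number of hash functions with a large fibre -/
def nbig (N t l : ℕ) (h : ℕ → ℕ → ℕ) (S : List ℕ) (j : ℕ) : ℕ :=
  ((List.range (N + 1)).filter (fun i => bLt (p2 (12 + l)) (p2 t * fib h S i j))).length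

/-- number of bad elements -/
def nbad (N t l : ℕ) (h : ℕ → ℕ → ℕ) (S : List ℕ) : ℕ :=
  (S.filter (fun j => bLe (N + 1) (4 * nbig N t l h S j))).length

/-- number of violations for one set -/
def nviol (N t : ℕ) (h : ℕ → ℕ → ℕ) (S : List ℕ) : ℕ :=
  ((List.range (N + 1)).filter
    (fun l => bLe S.length (p2 l) && bLe (p2 t) (nbad N t l h S))).length

/-- the contexts -/
abbrev C0 := (ℕ × ℕ) × List (List ℕ)

/-- the number of violating sets -/
def tot (x : C0) : ℕ :=
  ((allLen (p2 x.1.1)).filter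
    (fun σ => bLt 0 (nviol x.1.1 x.1.2 (hT x.1.2 x.2) (Sl x.1.1 σ)))).length

/-- the checker -/
def Chk (x : C0) : Prop := tot x = 0

instance : DecidablePred Chk := fun x => by unfold Chk; infer_instance

theorem pN : Primrec (fun x : C0 => x.1.1) := Primrec.fst.comp Primrec.fst
theorem pt : Primrec (fun x : C0 => x.1.2) := Primrec.snd.comp Primrec.fst
theorem pT : Primrec (fun x : C0 => x.2) := Primrec.snd

/-- evaluation of the table in a context -/
theorem prim_ev : Primrec (fun y : C0 × (ℕ × ℕ) => hT y.1.1.2 y.1.2 y.2.1 y.2.2) :=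
  prim_hT.comp (Primrec.pair (Primrec.pair (pt.comp Primrec.fst) (pT.comp Primrec.fst))
    Primrec.snd)

theorem prim_fib : Primrec (fun y : (C0 × List ℕ) × (ℕ × ℕ) =>
    fib (hT y.1.1.1.2 y.1.1.2) y.1.2 y.2.1 y.2.2) := by
  have px : Primrec (fun z : ((C0 × List ℕ) × (ℕ × ℕ)) × ℕ => z.1.1.1) :=
    Primrec.fst.comp (Primrec.fst.comp Primrec.fst)
  have pij : Primrec (fun z : ((C0 × List ℕ) × (ℕ × ℕ)) × ℕ => z.1.2) :=
    Primrec.snd.comp Primrec.fst
  have g1 := Primrec.pair px (Primrec.pair (Primrec.fst.comp pij) Primrec.snd)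
  have g2 := Primrec.pair px pij
  have e1 := prim_ev.comp g1
  have e2 := prim_ev.comp g2
  have e3 : Primrec₂ (fun (y : (C0 × List ℕ) × (ℕ × ℕ)) (j' : ℕ) =>
    bEq (hT y.1.1.1.2 y.1.1.2 y.2.1 j') (hT y.1.1.1.2 y.1.1.2 y.2.1 y.2.2)) := prim_bEq.comp e1 e2
  have e4 : Primrec (fun y : (C0 × List ℕ) × (ℕ × ℕ) => y.1.2) := Primrec.snd.comp Primrec.fst
  have e5 := prim_cnt e4 e3
  exact e5

attribute [local irreducible] fib

theorem prim_nbig : Primrec (fun y : (C0 × List ℕ) × (ℕ × ℕ) =>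
    nbig y.1.1.1.1 y.1.1.1.2 y.2.1 (hT y.1.1.1.2 y.1.1.2) y.1.2 y.2.2) := by
  have q0 : Primrec (fun z : ((C0 × List ℕ) × (ℕ × ℕ)) × ℕ => z.1.1) :=
    Primrec.fst.comp Primrec.fst
  have q1 : Primrec (fun z : ((C0 × List ℕ) × (ℕ × ℕ)) × ℕ => z.1.2.1) :=
    Primrec.fst.comp (Primrec.snd.comp Primrec.fst)
  have q2 : Primrec (fun z : ((C0 × List ℕ) × (ℕ × ℕ)) × ℕ => z.1.2.2) :=
    Primrec.snd.comp (Primrec.snd.comp Primrec.fst)
  have q3 : Primrec (fun z : ((C0 × List ℕ) × (ℕ × ℕ)) × ℕ => z.1.1.1) :=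
    Primrec.fst.comp q0
  have a1 := Primrec.nat_add.comp (Primrec.const 12) q1
  have e1 := prim_p2.comp a1
  have e2 := prim_p2.comp (pt.comp q3)
  have a2 := Primrec.pair q0 (Primrec.pair (Primrec.snd (α := (C0 × List ℕ) × (ℕ × ℕ)) (β := ℕ)) q2)
  have e3 := prim_fib.comp a2
  have e4 := Primrec.nat_mul.comp e2 e3
  have e5 : Primrec₂ (fun (y : (C0 × List ℕ) × (ℕ × ℕ)) (i : ℕ) =>
    bLt (p2 (12 + y.2.1)) (p2 y.1.1.1.2 * fib (hT y.1.1.1.2 y.1.1.2) y.1.2 i y.2.2)) :=
    prim_bLt.comp e1 e4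
  have r0 : Primrec (fun y : (C0 × List ℕ) × (ℕ × ℕ) => y.1.1) := Primrec.fst.comp Primrec.fst
  have r1 : Primrec (fun y : (C0 × List ℕ) × (ℕ × ℕ) => List.range (y.1.1.1.1 + 1)) :=
    Primrec.list_range.comp (Primrec.succ.comp (pN.comp r0))
  have e6 := prim_cnt r1 e5
  exact e6

attribute [local irreducible] nbig

theorem prim_nbad : Primrec (fun y : (C0 × List ℕ) × ℕ =>
    nbad y.1.1.1.1 y.1.1.1.2 y.2 (hT y.1.1.1.2 y.1.1.2) y.1.2) := by
  have q0 : Primrec (fun z : ((C0 × List ℕ) × ℕ) × ℕ => z.1.1) := Primrec.fst.comp Primrec.fst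
  have q1 : Primrec (fun z : ((C0 × List ℕ) × ℕ) × ℕ => z.1.1.1) := Primrec.fst.comp q0
  have q2 : Primrec (fun z : ((C0 × List ℕ) × ℕ) × ℕ => z.1.2) := Primrec.snd.comp Primrec.fst
  have e1 := Primrec.succ.comp (pN.comp q1)
  have a1 := Primrec.pair q0 (Primrec.pair q2 (Primrec.snd (α := (C0 × List ℕ) × ℕ) (β := ℕ)))
  have e2 := prim_nbig.comp a1
  have e3 := Primrec.nat_mul.comp (Primrec.const 4) e2
  have e4 : Primrec₂ (fun (y : (C0 × List ℕ) × ℕ) (j : ℕ) =>
    bLe (y.1.1.1.1 + 1) (4 * nbig y.1.1.1.1 y.1.1.1.2 y.2 (hT y.1.1.1.2 y.1.1.2) y.1.2 j)) :=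
    prim_bLe.comp e1 e3
  have r0 : Primrec (fun y : (C0 × List ℕ) × ℕ => y.1.2) := Primrec.snd.comp Primrec.fst
  have e5 := prim_cnt r0 e4
  exact e5

attribute [local irreducible] nbad

theorem prim_nviol : Primrec (fun y : C0 × List ℕ =>
    nviol y.1.1.1 y.1.1.2 (hT y.1.1.2 y.1.2) y.2) := by
  have q0 : Primrec (fun z : (C0 × List ℕ) × ℕ => z.1.1) := Primrec.fst.comp Primrec.fst
  have e1 : Primrec (fun z : (C0 × List ℕ) × ℕ => z.1.2.length) :=
    Primrec.list_length.comp (Primrec.snd.comp Primrec.fst)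
  have e2 : Primrec (fun z : (C0 × List ℕ) × ℕ => p2 z.2) := prim_p2.comp Primrec.snd
  have e3 : Primrec (fun z : (C0 × List ℕ) × ℕ => p2 z.1.1.1.2) :=
    prim_p2.comp (pt.comp q0)
  have a1 := prim_bLe.comp e1 e2
  have a2 := prim_bLe.comp e3 prim_nbad
  have a3 : Primrec₂ (fun (y : C0 × List ℕ) (l : ℕ) =>
    bLe y.2.length (p2 l) && bLe (p2 y.1.1.2) (nbad y.1.1.1 y.1.1.2 l (hT y.1.1.2 y.1.2) y.2)) :=
    Primrec.and.comp a1 a2
  have r1 : Primrec (fun y : C0 × List ℕ => List.range (y.1.1.1 + 1)) :=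
    Primrec.list_range.comp (Primrec.succ.comp (pN.comp Primrec.fst))
  have e5 := prim_cnt r1 a3
  exact e5

attribute [local irreducible] nviol

theorem prim_tot : Primrec tot := by
  have q0 : Primrec (fun z : C0 × List Bool => z.1) := Primrec.fst
  have e1 := prim_Sl.comp (Primrec.pair (pN.comp q0) Primrec.snd)
  have e2 := prim_nviol.comp (Primrec.pair q0 e1)
  have e3 : Primrec₂ (fun (x : C0) (σ : List Bool) =>
      bLt 0 (nviol x.1.1 x.1.2 (hT x.1.2 x.2) (Sl x.1.1 σ))) :=
    prim_bLt.comp (Primrec.const 0) e2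
  have r1 : Primrec (fun x : C0 => allLen (p2 x.1.1)) := primrec_allLen.comp (prim_p2.comp pN)
  have e5 := prim_cnt r1 e3
  exact e5

attribute [local irreducible] tot

theorem prim_Chk : PrimrecPred Chk := Primrec.eq.comp prim_tot (Primrec.const 0)

attribute [local irreducible] Chk

/-! ### correctness of the checker -/

theorem length_filter_eq {L : List ℕ} (hL : L.Nodup) (b : ℕ → Bool) (p : ℕ → Prop)
    [DecidablePred p] (h : ∀ j, b j = true ↔ p j) :
    (L.filter b).length = (L.toFinset.filter p).card := by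
  rw [← List.toFinset_card_of_nodup (hL.filter _), List.toFinset_filter]
  congr 1
  ext a
  simp [h]

theorem range_toFinset (n : ℕ) : (List.range n).toFinset = Finset.range n := by
  ext a; simp

theorem fib_eq (h : ℕ → ℕ → ℕ) {S : List ℕ} (hS : S.Nodup) (i j : ℕ) :
    fib h S i j = (S.toFinset.filter (fun j' => h i j' = h i j)).card := by
  unfold fib
  exact length_filter_eq hS _ _ (fun j' => bEq_iff _ _)

theorem nbig_eq (N t l : ℕ) (h : ℕ → ℕ → ℕ) {S : List ℕ} (hS : S.Nodup) (j : ℕ) :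
    nbig N t l h S j = ((Finset.range (N + 1)).filter (fun i => 2 ^ (12 + l) <
      2 ^ t * (S.toFinset.filter (fun j' => h i j' = h i j)).card)).card := by
  unfold nbig
  rw [length_filter_eq List.nodup_range _ (fun i => 2 ^ (12 + l) <
      2 ^ t * (S.toFinset.filter (fun j' => h i j' = h i j)).card), range_toFinset]
  intro i
  rw [bLt_iff, p2_eq, p2_eq, fib_eq h hS]

theorem nbad_eq (N t l : ℕ) (h : ℕ → ℕ → ℕ) {S : List ℕ} (hS : S.Nodup) :
    nbad N t l h S = (badset N t l h S.toFinset).card := by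
  unfold nbad badset
  refine length_filter_eq hS _ _ (fun j => ?_)
  rw [bLe_iff, nbig_eq N t l h hS]

theorem Chk_iff (N t : ℕ) (T : List (List ℕ)) : Chk ((N, t), T) ↔
    ∀ σ ∈ allLen (2 ^ N), ∀ l < N + 1, (Sl N σ).length ≤ 2 ^ l →
      nbad N t l (hT t T) (Sl N σ) < 2 ^ t := by
  unfold Chk tot
  rw [List.length_eq_zero_iff, List.filter_eq_nil_iff, p2_eq]
  refine forall₂_congr (fun σ _ => ?_)
  rw [bLt_iff, not_lt, Nat.le_zero]
  unfold nviol
  rw [List.length_eq_zero_iff, List.filter_eq_nil_iff]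
  simp only [List.mem_range, Bool.and_eq_true, bLe_iff, not_and, not_le, p2_eq]

theorem Sl_nodup (N : ℕ) (σ : List Bool) : (Sl N σ).Nodup := by
  unfold Sl
  exact List.nodup_range.filter _

theorem Sl_surj (N : ℕ) (S : Finset ℕ) (hS : S ⊆ Finset.range (2 ^ N)) :
    ∃ σ ∈ allLen (2 ^ N), (Sl N σ).toFinset = S := by
  refine ⟨(List.range (2 ^ N)).map (fun j => decide (j ∈ S)), ?_, ?_⟩
  · rw [mem_allLen]; simp
  · ext j
    unfold Sl
    rw [p2_eq]
    simp only [List.mem_toFinset, List.mem_filter, List.mem_range]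
    constructor
    · rintro ⟨h1, h2⟩
      rw [List.getD_eq_getElem?_getD, List.getElem?_map, List.getElem?_range h1] at h2
      simpa using h2
    · intro h
      have h1 : j < 2 ^ N := Finset.mem_range.mp (hS h)
      refine ⟨h1, ?_⟩
      rw [List.getD_eq_getElem?_getD, List.getElem?_map, List.getElem?_range h1]
      simpa using h

theorem badset_mono (N t : ℕ) {l l' : ℕ} (hl : l ≤ l') (h : ℕ → ℕ → ℕ) (S : Finset ℕ) :
    badset N t l' h S ⊆ badset N t l h S := by
  intro j hj
  unfold badset at hj ⊢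
  rw [Finset.mem_filter] at hj ⊢
  refine ⟨hj.1, hj.2.trans (Nat.mul_le_mul_left 4 (Finset.card_le_card ?_))⟩
  intro i hi
  rw [Finset.mem_filter] at hi ⊢
  refine ⟨hi.1, lt_of_le_of_lt ?_ hi.2⟩
  exact Nat.pow_le_pow_right (by norm_num) (by omega)

theorem good_of_Chk (N t : ℕ) (T : List (List ℕ)) (hC : Chk ((N, t), T)) :
    GoodH N t (hT t T) := by
  rw [Chk_iff] at hC
  have key : ∀ (S : Finset ℕ) (l : ℕ), l ≤ N → S ⊆ Finset.range (2 ^ N) → S.card ≤ 2 ^ l →
      (badset N t l (hT t T) S).card < 2 ^ t := by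
    intro S l hl hS hc
    obtain ⟨σ, hσ, hσS⟩ := Sl_surj N S hS
    have h1 := hC σ hσ l (by omega) (by
      rw [← List.toFinset_card_of_nodup (Sl_nodup N σ), hσS]; exact hc)
    rw [nbad_eq _ _ _ _ (Sl_nodup N σ), hσS] at h1
    exact h1
  intro S l hS hc
  rcases le_or_gt l N with hl | hl
  · exact key S l hl hS hc
  · have h1 : S.card ≤ 2 ^ N := by
      have := Finset.card_le_card hS
      rwa [Finset.card_range] at this
    exact lt_of_le_of_lt (Finset.card_le_card (badset_mono N t hl.le _ S)) (key S N le_rfl hS h1)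

theorem exists_Chk (N t : ℕ) : ∃ T, Chk ((N, t), T) := by
  obtain ⟨h, hlt, hgood⟩ := hash_exists N t
  set T : List (List ℕ) := (List.range (N + 1)).map (fun i => (List.range (2 ^ N)).map (fun j => h i j))
    with hT'
  have hval : ∀ i < N + 1, ∀ j < 2 ^ N, hT t T i j = h i j := by
    intro i hi j hj
    unfold hT
    have e1 : T.getD i [] = (List.range (2 ^ N)).map (fun j => h i j) := by
      rw [hT', List.getD_eq_getElem?_getD, List.getElem?_map, List.getElem?_range hi]
      rfl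
    rw [e1, List.getD_eq_getElem?_getD, List.getElem?_map, List.getElem?_range hj]
    show h i j % p2 t = h i j
    rw [p2_eq]
    exact Nat.mod_eq_of_lt (hlt i j)
  refine ⟨T, ?_⟩
  rw [Chk_iff]
  intro σ _ l _ hl2
  have hSr : (Sl N σ).toFinset ⊆ Finset.range (2 ^ N) := by
    intro j hj
    unfold Sl at hj
    rw [p2_eq] at hj
    simp only [List.mem_toFinset, List.mem_filter, List.mem_range] at hj
    exact Finset.mem_range.mpr hj.1
  have h1 := hgood (Sl N σ).toFinset l hSr (by
    rw [List.toFinset_card_of_nodup (Sl_nodup N σ)]; exact hl2)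
  rw [nbad_eq _ _ _ _ (Sl_nodup N σ)]
  have h2 : badset N t l (hT t T) (Sl N σ).toFinset = badset N t l h (Sl N σ).toFinset := by
    unfold badset
    refine Finset.filter_congr (fun j hj => ?_)
    have e : (Finset.range (N + 1)).filter (fun i => 2 ^ (12 + l) <
        2 ^ t * ((Sl N σ).toFinset.filter (fun j' => hT t T i j' = hT t T i j)).card) =
        (Finset.range (N + 1)).filter (fun i => 2 ^ (12 + l) <
        2 ^ t * ((Sl N σ).toFinset.filter (fun j' => h i j' = h i j)).card) := by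
      refine Finset.filter_congr (fun i hi => ?_)
      have e2 : (Sl N σ).toFinset.filter (fun j' => hT t T i j' = hT t T i j) =
          (Sl N σ).toFinset.filter (fun j' => h i j' = h i j) := by
        refine Finset.filter_congr (fun j' hj' => ?_)
        rw [hval i (Finset.mem_range.mp hi) j' (Finset.mem_range.mp (hSr hj')),
          hval i (Finset.mem_range.mp hi) j (Finset.mem_range.mp (hSr hj))]
      rw [e2]
    rw [e]
  rw [h2]
  exact h1

/-- the search -/
def srch (p : ℕ × ℕ) (n : ℕ) : Option (List (List ℕ)) :=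
  (decode (α := List (List ℕ)) n).bind (fun T => if Chk (p, T) then some T else none)

theorem prim_srch : Primrec₂ srch := by
  unfold srch
  refine Primrec.option_bind (Primrec.decode.comp Primrec.snd) ?_
  refine Primrec.ite ?_ (Primrec.option_some.comp Primrec.snd) (Primrec.const none)
  exact prim_Chk.comp (Primrec.pair (Primrec.fst.comp Primrec.fst) Primrec.snd)

theorem srch_some (p : ℕ × ℕ) (n : ℕ) (T : List (List ℕ)) (h : srch p n = some T) :
    Chk (p, T) := by
  unfold srch at h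
  rw [Option.bind_eq_some_iff] at h
  obtain ⟨T', _, h⟩ := h
  split_ifs at h with hc
  cases h
  exact hc

theorem srch_dom (p : ℕ × ℕ) : (Nat.rfindOpt (srch p)).Dom := by
  rw [Nat.rfindOpt_dom]
  obtain ⟨T, hT⟩ := exists_Chk p.1 p.2
  refine ⟨encode T, T, ?_⟩
  unfold srch
  rw [encodek, Option.bind_some, if_pos hT]
  rfl

/-- the table found -/
def tab (p : ℕ × ℕ) : List (List ℕ) := (Nat.rfindOpt (srch p)).get (srch_dom p)

theorem comp_tab : Computable tab := by
  have h : Partrec (fun p : ℕ × ℕ => Nat.rfindOpt (srch p)) := Partrec.rfindOpt prim_srch.to_comp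
  refine h.of_eq (fun p => ?_)
  exact (Part.some_get (srch_dom p)).symm

theorem tab_Chk (p : ℕ × ℕ) : Chk (p, tab p) := by
  have h1 : tab p ∈ Nat.rfindOpt (srch p) := Part.get_mem _
  obtain ⟨n, hn⟩ := Nat.rfindOpt_spec h1
  exact srch_some p n _ hn

attribute [local irreducible] tab

theorem hash_comp : ∃ hh : ℕ × ℕ → ℕ × ℕ → ℕ, Computable₂ hh ∧ ∀ N t : ℕ,
    (∀ i j, hh (N, t) (i, j) < 2 ^ t) ∧ GoodH N t (fun i j => hh (N, t) (i, j)) := by
  refine ⟨fun p ij => hT p.2 (tab p) ij.1 ij.2, ?_, fun N t => ⟨fun i j => ?_, ?_⟩⟩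
  · have h1 : Computable (fun x : (ℕ × ℕ) × (ℕ × ℕ) => ((x.1.2, tab x.1), x.2)) :=
      Computable.pair (Computable.pair (Computable.snd.comp Computable.fst)
        (comp_tab.comp Computable.fst)) Computable.snd
    exact prim_hT.to_comp.comp h1
  · show hT t (tab (N, t)) i j < 2 ^ t
    unfold hT
    rw [p2_eq]
    exact Nat.mod_lt _ (Nat.two_pow_pos t)
  · exact good_of_Chk N t (tab (N, t)) (tab_Chk (N, t))

end Pool.Agent.Helper760.EP.J4286
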