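import Mathlib
import Pool.Agent.Helper760.EP.Base2

set_option autoImplicit false

namespace Pool.Agent.Helper760.EP.J4292

open Encodable
open Pool.Agent.Helper760.Kolm

theorem K_len : ∃ c : ℕ, ∀ r : List Bool, K r () ≤ r.length + c := by
  obtain ⟨c, hc⟩ := K_param (α := List Bool) (β := Unit) (γ := Unit)
    (fun x : Unit × List Bool × Unit => (Part.some x.2.1 : Part (List Bool)))
    ((Primrec.fst.comp Primrec.snd).to_comp.partrec)
  refine ⟨c, fun r => ?_⟩
  have := hc () r () r (by simp)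
  simp only [size_encode_unit] at this
  omega

theorem K_read : ∃ c : ℕ, ∀ x y w r : List Bool,
    K r ((x, y), w) ≤ K (tup ![x, y, w, r, []] {3}) (tup ![x, y, w, r, []] {0, 1, 2}) + c := by
  obtain ⟨c, hc⟩ := K_comp (α := List Bool) (β := (List Bool × List Bool) × List Bool)
    (γ := List (Option (List Bool))) (δ := List (Option (List Bool)))
    (fun d _ => ((d[3]?).bind id).getD [])
    (by
      refine (Primrec.option_getD.comp ?_ (Primrec.const [])).to_comp
      exact Primrec.option_bind (Primrec.list_getElem?.comp Primrec.fst (Primrec.const 3))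
        Primrec.snd.to₂)
    (fun b => [some b.1.1, some b.1.2, some b.2, none, none])
    (by
      refine Primrec.to_comp ?_
      refine Primrec.list_cons.comp (Primrec.option_some.comp (Primrec.fst.comp Primrec.fst)) ?_
      refine Primrec.list_cons.comp (Primrec.option_some.comp (Primrec.snd.comp Primrec.fst)) ?_
      exact Primrec.list_cons.comp (Primrec.option_some.comp Primrec.snd) (Primrec.const _))
  refine ⟨c, fun x y w r => ?_⟩
  have h1 : tup ![x, y, w, r, []] {3} = [none, none, none, some r, none] := by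
    rfl
  have h2 : tup ![x, y, w, r, []] {0, 1, 2} = [some x, some y, some w, none, none] := by
    rfl
  have h3 := hc (tup ![x, y, w, r, []] {3}) ((x, y), w)
  rw [h1] at h3
  rw [h1, h2]
  exact h3

/-- strings of every length that are incompressible -/
theorem exists_random (b : (List Bool × List Bool) × List Bool) (l : ℕ) :
    ∃ r : List Bool, r.length = l ∧ l ≤ K r b := by
  by_contra hcon
  push Not at hcon
  have h1 := card_lt b l (allLen l).toFinset (by
    intro a ha
    rw [List.mem_toFinset, mem_allLen] at ha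
    exact hcon a ha)
  rw [List.toFinset_card_of_nodup (nodup_allLen l), length_allLen] at h1
  exact lt_irrefl _ h1

theorem add_noise : ∃ C : ℕ, ∀ (N m : ℕ) (x y w : List Bool), K x () ≤ N → K y () ≤ N →
    K w () ≤ N → m ≤ N →
    ∃ q : List Bool, K q () ≤ C * (N + 1) ∧ ap (C * lam N) (K x q) (K x w) ∧
      ap (C * lam N) (K y q) (K y w) ∧ ap (C * lam N) (K (x, y) q) (K (x, y) w) ∧
      m ≤ K q () + C * lam N ∧ (K q () ≤ m ∨ K q () ≤ K w () + C * lam N) := by
  obtain ⟨C0, hTk⟩ := toolkit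
  obtain ⟨Ce, hCe⟩ := enc_conv
  obtain ⟨cr, hcr⟩ := K_len
  obtain ⟨cF, hcF⟩ := K_read
  obtain ⟨lam1, lammono, lamadd, lamle⟩ := lam_facts
  set A : ℕ := C0 * (1 + lam cr) with hA
  set C1 : ℕ := 10 * A + 2 * (cF + cr) + 2 * Ce with hC1
  refine ⟨2 * C1 + (2 * C0 * (cr + 2) + Ce), ?_⟩
  intro N m x y w hx hy hw hm
  obtain ⟨r, hrl, hrK⟩ := exists_random ((x, y), w) (m - K w () - C1 * lam N)
  set l := m - K w () - C1 * lam N with hl
  have hL := lam1 N
  have hrK0 : K r () ≤ l + cr := by rw [← hrl]; exact hcr r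
  have hnil : K ([] : List Bool) () ≤ cr := by simpa using hcr []
  have hTkW := hTk (N + cr) ![x, y, w, r, []] (by
    intro i
    fin_cases i
    · exact hx.trans (by omega)
    · exact hy.trans (by omega)
    · exact hw.trans (by omega)
    · exact hrK0.trans (by omega)
    · exact hnil.trans (by omega))
  have he : C0 * lam (N + cr) ≤ A * lam N := by
    rw [hA, mul_assoc]
    apply Nat.mul_le_mul_left
    calc lam (N + cr) ≤ lam N + lam cr := lamadd _ _
      _ ≤ (1 + lam cr) * lam N := by nlinarith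
  set e := C0 * lam (N + cr) with hedef
  set W : Fin 5 → List Bool := ![x, y, w, r, []] with hW
  have hread := hcF x y w r
  rw [← hW] at hread
  have hcd := hTkW.cd {3} {0, 1, 2}
  have hs3 : ({3} : Finset (Fin 5)) ∪ {0, 1, 2} = {0, 1, 2, 3} := by decide
  rw [hs3] at hcd
  have hc13 := hTkW.c1 3
  have hc12' := hTkW.c1 2
  have key : ∀ T T' : Finset (Fin 5), T' = T ∪ {3} → ({0, 1, 2} : Finset (Fin 5)) ∪ T' = {0, 1, 2, 3} →
      ({0, 1, 2} : Finset (Fin 5)) ∩ T' = T → T' = T ∪ {3} →
      ap (4 * e + cF + cr) (H W T') (H W T + l) := by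
    intro T T' h0 h1 h2 h3
    have s1 := hTkW.sub {0, 1, 2} T'
    rw [h1, h2] at s1
    have s2 := hTkW.sub T {3}
    rw [← h0] at s2
    have s3 : K (W 3) () = K r () := rfl
    unfold ap at hcd hc13 ⊢
    rw [s3] at hc13
    omega
  have k2 := key {2} {2, 3} (by decide) (by decide) (by decide) (by decide)
  have k02 := key {0, 2} {0, 2, 3} (by decide) (by decide) (by decide) (by decide)
  have k12 := key {1, 2} {1, 2, 3} (by decide) (by decide) (by decide) (by decide)
  have k012 := key {0, 1, 2} {0, 1, 2, 3} (by decide) (by decide) (by decide) (by decide)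
  have q1 : ap e (K x (w, r) + H W {2, 3}) (H W {0, 2, 3}) := hTkW.c12 0 2 3
  have q2 : ap e (K y (w, r) + H W {2, 3}) (H W {1, 2, 3}) := hTkW.c12 1 2 3
  have q3 : ap e (K (x, y) (w, r) + H W {2, 3}) (H W {0, 1, 2, 3}) := hTkW.c22 0 1 2 3
  have q4 : ap e (K x w + H W {2}) (H W {0, 2}) := hTkW.c11 0 2
  have q5 : ap e (K y w + H W {2}) (H W {1, 2}) := hTkW.c11 1 2
  have q6 : ap e (K (x, y) w + H W {2}) (H W {0, 1, 2}) := hTkW.c21 0 1 2
  have q7 : ap e (K (w, r) ()) (H W {2, 3}) := hTkW.c2 2 3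
  have q8 : ap e (K w ()) (H W {2}) := hTkW.c1 2
  have q9 : H W {2, 3} ≤ C0 * (N + cr + 1) := hTkW.bd {2, 3}
  obtain ⟨e1, e2, e3, e4, e5⟩ := hCe w r
  have r1 := e4 x
  have r2 := e4 y
  have r3 := e5 (x, y)
  have hbig : 10 * e + 2 * (cF + cr) + 2 * Ce ≤ C1 * lam N := by
    rw [hC1]
    nlinarith
  have hfin : 2 * (C1 * lam N) ≤ (2 * C1 + (2 * C0 * (cr + 2) + Ce)) * lam N := by
    nlinarith [Nat.zero_le ((2 * C0 * (cr + 2) + Ce) * lam N)]
  have hN1 : C0 * (N + cr + 1) + e + Ce ≤ (2 * C1 + (2 * C0 * (cr + 2) + Ce)) * (N + 1) := by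
    have h1 : e ≤ C0 * (N + cr + 1) := by
      rw [hedef]
      exact Nat.mul_le_mul_left _ (lamle _)
    have h2 : C0 * (N + cr + 1) ≤ C0 * ((cr + 2) * (N + 1)) := by
      apply Nat.mul_le_mul_left
      nlinarith [Nat.zero_le (cr * N)]
    have h3 : Ce ≤ Ce * (N + 1) := Nat.le_mul_of_pos_right _ (Nat.succ_pos _)
    calc C0 * (N + cr + 1) + e + Ce ≤ 2 * (C0 * ((cr + 2) * (N + 1))) + Ce * (N + 1) := by omega
      _ = (2 * C0 * (cr + 2) + Ce) * (N + 1) := by ring
      _ ≤ (2 * C1 + (2 * C0 * (cr + 2) + Ce)) * (N + 1) := by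
        apply Nat.mul_le_mul_right; omega
  unfold ap at *
  generalize (2 * C1 + (2 * C0 * (cr + 2) + Ce)) * lam N = Z at *
  generalize (2 * C1 + (2 * C0 * (cr + 2) + Ce)) * (N + 1) = Z' at *
  generalize C1 * lam N = Y at *
  generalize C0 * (N + cr + 1) = Y' at *
  refine ⟨enc w r, ?_, ?_, ?_, ?_, ?_, ?_⟩
  · omega
  · omega
  · omega
  · omega
  · omega
  · rcases Nat.eq_zero_or_pos l with h | h
    · right; omega
    · left; omega

end Pool.Agent.Helper760.EP.J4292
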