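import Mathlib
import Pool.Agent.Helper760.EP.Base2

set_option autoImplicit false

namespace Pool.Agent.Helper760.EP.J4295

open Encodable
open Pool.Agent.Helper760.Kolm

/-- enumeration of the good programs -/
def enG (x : (ℕ × ℕ × ℕ) × (List Bool × List Bool)) (t : ℕ) : Option (List Bool) :=
  (decode (α := ℕ × List Bool × List Bool) t).bind fun z =>
    if z.2.1.length ≤ x.1.1 ∧ MS z.1 z.2.1 0 = some (encode z.2.2) ∧
      Kle z.1 x.1.2.1 x.2.1 z.2.2 ∧ Kle z.1 x.1.2.2 x.2.2 z.2.2 then some z.2.1 else none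

/-- the argument type of the tests -/
abbrev EGT := (((ℕ × ℕ × ℕ) × (List Bool × List Bool)) × ℕ) × (ℕ × List Bool × List Bool)

theorem primrec_enG_aux1 : PrimrecPred (fun w : EGT => w.2.2.1.length ≤ w.1.1.1.1) :=
  Primrec.nat_le.comp
    (Primrec.list_length.comp (Primrec.fst.comp (Primrec.snd.comp Primrec.snd)))
    (Primrec.fst.comp (Primrec.fst.comp (Primrec.fst.comp Primrec.fst)))

theorem primrec_enG_aux2 :
    PrimrecPred (fun w : EGT => MS w.2.1 w.2.2.1 0 = some (encode w.2.2.2)) := by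
  have e1 : Primrec (fun w : EGT => ((w.2.1, w.2.2.1, 0) : ℕ × List Bool × ℕ)) :=
    Primrec.pair (Primrec.fst.comp Primrec.snd)
      (Primrec.pair (Primrec.fst.comp (Primrec.snd.comp Primrec.snd)) (Primrec.const 0))
  have e2 : Primrec (fun w : EGT => MS w.2.1 w.2.2.1 0) := by
    refine (primrec_MS.comp e1).of_eq ?_
    intro n
    with_reducible rfl
  have e3 : Primrec (fun w : EGT => some (encode w.2.2.2)) :=
    Primrec.option_some.comp (Primrec.encode.comp (Primrec.snd.comp (Primrec.snd.comp Primrec.snd)))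
  exact Primrec.eq.comp e2 e3

theorem primrec_enG_aux3 : PrimrecPred (fun w : EGT => Kle w.2.1 w.1.1.1.2.1 w.1.1.2.1 w.2.2.2) := by
  have e1 : Primrec (fun w : EGT =>
      ((w.2.1, w.1.1.1.2.1, w.1.1.2.1, w.2.2.2) : ℕ × ℕ × List Bool × List Bool)) :=
    Primrec.pair (Primrec.fst.comp Primrec.snd)
      (Primrec.pair (Primrec.fst.comp (Primrec.snd.comp (Primrec.fst.comp (Primrec.fst.comp
        Primrec.fst))))
      (Primrec.pair (Primrec.fst.comp (Primrec.snd.comp (Primrec.fst.comp Primrec.fst)))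
        (Primrec.snd.comp (Primrec.snd.comp Primrec.snd))))
  exact primrec_Kle.comp e1

theorem primrec_enG_aux4 : PrimrecPred (fun w : EGT => Kle w.2.1 w.1.1.1.2.2 w.1.1.2.2 w.2.2.2) := by
  have e1 : Primrec (fun w : EGT =>
      ((w.2.1, w.1.1.1.2.2, w.1.1.2.2, w.2.2.2) : ℕ × ℕ × List Bool × List Bool)) :=
    Primrec.pair (Primrec.fst.comp Primrec.snd)
      (Primrec.pair (Primrec.snd.comp (Primrec.snd.comp (Primrec.fst.comp (Primrec.fst.comp
        Primrec.fst))))
      (Primrec.pair (Primrec.snd.comp (Primrec.snd.comp (Primrec.fst.comp Primrec.fst)))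
        (Primrec.snd.comp (Primrec.snd.comp Primrec.snd))))
  exact primrec_Kle.comp e1

theorem primrec_enG : Primrec₂ enG := by
  have h5 : Primrec (fun w : EGT => some w.2.2.1) :=
    Primrec.option_some.comp (Primrec.fst.comp (Primrec.snd.comp Primrec.snd))
  have h6 := Primrec.ite (PrimrecPred.and primrec_enG_aux1 (PrimrecPred.and primrec_enG_aux2
    (PrimrecPred.and primrec_enG_aux3 primrec_enG_aux4))) h5 (Primrec.const none)
  exact Primrec.option_bind (Primrec.decode.comp Primrec.snd) h6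

theorem mem_enG (g a b : ℕ) (x y p : List Bool) :
    (∃ t, enG ((g, a, b), (x, y)) t = some p) ↔
      (p.length ≤ g ∧ ∃ q1 : List Bool, encode q1 ∈ M p 0 ∧ K x q1 ≤ a ∧ K y q1 ≤ b) := by
  constructor
  · rintro ⟨t, ht⟩
    simp only [enG, Option.bind_eq_some_iff] at ht
    obtain ⟨z, _, hz⟩ := ht
    split_ifs at hz with h
    cases hz
    exact ⟨h.1, z.2.2, (mem_M_iff _ _ _).2 ⟨_, h.2.1⟩, (K_le_iff _ _ _).2 ⟨_, h.2.2.1⟩,
      (K_le_iff _ _ _).2 ⟨_, h.2.2.2⟩⟩
  · rintro ⟨hg, q1, h1, h2, h3⟩
    obtain ⟨t1, ht1⟩ := (mem_M_iff _ _ _).1 h1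
    obtain ⟨t2, ht2⟩ := (K_le_iff _ _ _).1 h2
    obtain ⟨t3, ht3⟩ := (K_le_iff _ _ _).1 h3
    refine ⟨encode ((max t1 (max t2 t3), p, q1) : ℕ × List Bool × List Bool), ?_⟩
    simp only [enG, encodek, Option.bind_some]
    rw [if_pos]
    refine ⟨hg, MS_mono (le_max_left _ _) ht1, Kle_mono ?_ ht2, Kle_mono ?_ ht3⟩
    · exact (le_max_left _ _).trans (le_max_right _ _)
    · exact (le_max_right _ _).trans (le_max_right _ _)

theorem K_run : ∃ c : ℕ, ∀ (q p : List Bool) (z : List Bool × List Bool), encode q ∈ M p 0 →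
    K q z ≤ K p z + c := by
  let φ : Unit × List Bool × (List Bool × List Bool) →. List Bool := fun x =>
    (M x.2.1 (encode x.2.2)).bind fun p' =>
      (Part.ofOption (decode (α := List Bool) p')).bind fun p =>
        (M p 0).bind fun s => Part.ofOption (decode (α := List Bool) s)
  have hφ : Partrec φ := by
    refine Partrec.bind ?_ (Partrec.bind ?_ (Partrec.bind ?_ ?_))
    · exact partrec_M.comp (Computable.fst.comp Computable.snd)
        (Computable.encode.comp (Computable.snd.comp Computable.snd))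
    · exact (Computable.decode.comp Computable.snd).ofOption
    · exact partrec_M.comp Computable.snd (Computable.const 0)
    · exact (Computable.decode.comp Computable.snd).ofOption
  obtain ⟨c, hc⟩ := K_param φ hφ
  refine ⟨c, fun q p z hq => ?_⟩
  obtain ⟨w, hw, hl⟩ := K_spec p z
  have h := hc () w z q (by
    simp only [φ, Part.mem_bind_iff]
    refine ⟨encode p, hw, p, by simp, encode q, hq, by simp⟩)
  simp only [size_encode_unit] at h
  omega

theorem good_count : ∃ C : ℕ, ∀ (N : ℕ) (x y q : List Bool), K x () ≤ N → K y () ≤ N →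
    K q () ≤ N → ∃ F : Finset (List Bool), (∀ p ∈ F, p.length ≤ K q () ∧ ∃ q1 : List Bool,
      encode q1 ∈ M p 0 ∧ K x q1 ≤ K x q ∧ K y q1 ≤ K y q) ∧
      2 ^ (K q () + K (x, y) q) ≤ 2 ^ (K (x, y) () + C * lam N) * F.card := by
  obtain ⟨Ct, hCt⟩ := toolkit
  obtain ⟨c1, hc1⟩ := K_index primrec_enG
  obtain ⟨c2, hc2⟩ := K_run
  obtain ⟨c3, hc3⟩ := K_comp (fun (d : List Bool) (_ : List Bool) => d)
    (Computable.fst).to₂ (fun _ : List Bool => ()) (Computable.const ())
  obtain ⟨l1, l2, l3, -⟩ := lam_facts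
  set c0 := K ([] : List Bool) () with hc0
  refine ⟨(8 * (1 + lam c3) + c1 + c2) + 4 * Ct * (1 + lam c0) + 1, ?_⟩
  intro N x y q hx hy hq
  have hlam := l1 N
  -- sizes
  set C1 := 8 * (1 + lam c3) + c1 + c2 with hC1
  have ha : K x q ≤ N + c3 := by
    have := hc3 x q
    omega
  have hb : K y q ≤ N + c3 := by
    have := hc3 y q
    omega
  have hsize : 2 * Nat.size (encode ((K q (), K x q, K y q) : ℕ × ℕ × ℕ)) + c1 + c2 ≤
      C1 * lam N := by
    have e1 : Nat.size (encode ((K q (), K x q, K y q) : ℕ × ℕ × ℕ)) ≤ 4 * lam (N + c3) := by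
      rw [encode_prod_val, encode_prod_val]
      simp only [encode_nat]
      have s1 := size_pair_le (K q ()) (Nat.pair (K x q) (K y q))
      have s2 := size_pair_le (K x q) (K y q)
      have s3 : Nat.size (K q ()) ≤ lam (N + c3) := by
        have := size_mono (show K q () ≤ N + c3 by omega)
        unfold lam
        omega
      have s4 : Nat.size (K x q) ≤ lam (N + c3) := by
        have := size_mono ha
        unfold lam
        omega
      have s5 : Nat.size (K y q) ≤ lam (N + c3) := by
        have := size_mono hb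
        unfold lam
        omega
      have s6 : max (Nat.size (K x q)) (Nat.size (K y q)) ≤ lam (N + c3) := max_le s4 s5
      have s7 : max (Nat.size (K q ())) (Nat.size (Nat.pair (K x q) (K y q))) ≤
          2 * lam (N + c3) := max_le (by omega) (by omega)
      omega
    have e2 : lam (N + c3) ≤ (1 + lam c3) * lam N := by
      have := l3 N c3
      nlinarith
    have e3 : c1 + c2 ≤ (c1 + c2) * lam N := by nlinarith
    have e4 : C1 * lam N = 8 * ((1 + lam c3) * lam N) + (c1 + c2) * lam N := by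
      rw [hC1]; ring
    omega
  -- a shortest program
  obtain ⟨ps, hps, hpl⟩ := K_spec q ()
  have henc : encode (() : Unit) = 0 := rfl
  rw [henc] at hps
  have hgood : ∃ t, enG ((K q (), K x q, K y q), (x, y)) t = some ps :=
    (mem_enG _ _ _ _ _ _).2 ⟨hpl.le, q, hps, le_rfl, le_rfl⟩
  have hF : ∃ F : Finset (List Bool), (∀ p ∈ F, ∃ t, enG ((K q (), K x q, K y q), (x, y)) t =
      some p) ∧ 2 ^ (K q (x, y)) ≤ 2 ^ (C1 * lam N + 1) * F.card := by
    by_cases hk : K q (x, y) ≤ C1 * lam N + 1
    · refine ⟨{ps}, ?_, ?_⟩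
      · intro p hp
        rw [Finset.mem_singleton] at hp
        rw [hp]
        exact hgood
      · rw [Finset.card_singleton, mul_one]
        exact Nat.pow_le_pow_right (by norm_num) hk
    · push Not at hk
      obtain ⟨m, hm⟩ : ∃ m, K q (x, y) = m + (C1 * lam N + 1) :=
        ⟨K q (x, y) - (C1 * lam N + 1), by omega⟩
      by_contra hcon
      push Not at hcon
      have h1 : ∀ S : Finset (List Bool), (∀ a ∈ S, ∃ t,
          enG ((K q (), K x q, K y q), (x, y)) t = some a) → S.card ≤ 2 ^ m := by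
        intro S hS
        have h2 := hcon S hS
        rw [hm, pow_add 2 m, mul_comm] at h2
        exact (Nat.lt_of_mul_lt_mul_right h2).le
      have h3 := hc1 (K q (), K x q, K y q) (x, y) m h1 ps hgood
      have h4 := hc2 q ps (x, y) hps
      omega
  obtain ⟨F, hF1, hF2⟩ := hF
  -- symmetry of information
  have hsoi : K q () + K (x, y) q ≤ K (x, y) () + K q (x, y) + 4 * Ct * (1 + lam c0) * lam N := by
    have hW : ∀ i : Fin 5, K ((![x, y, q, [], []] : Fin 5 → List Bool) i) () ≤ N + c0 := by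
      intro i
      fin_cases i
      · show K x () ≤ N + c0
        omega
      · show K y () ≤ N + c0
        omega
      · show K q () ≤ N + c0
        omega
      · show K ([] : List Bool) () ≤ N + c0
        omega
      · show K ([] : List Bool) () ≤ N + c0
        omega
    have T := hCt (N + c0) _ hW
    have t1 := T.c21 0 1 2
    have t2 := T.c12 2 0 1
    have t3 := T.c1 2
    have t4 := T.c2 0 1
    have hset : ({2, 0, 1} : Finset (Fin 5)) = {0, 1, 2} := by decide
    rw [hset] at t2
    have w0 : (![x, y, q, [], []] : Fin 5 → List Bool) 0 = x := rfl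
    have w1 : (![x, y, q, [], []] : Fin 5 → List Bool) 1 = y := rfl
    have w2 : (![x, y, q, [], []] : Fin 5 → List Bool) 2 = q := rfl
    rw [w0, w1, w2] at t1 t2
    rw [w2] at t3
    rw [w0, w1] at t4
    unfold ap at t1 t2 t3 t4
    have e1 : 4 * (Ct * lam (N + c0)) ≤ 4 * Ct * (1 + lam c0) * lam N := by
      have e2 : lam (N + c0) ≤ (1 + lam c0) * lam N := by
        have := l3 N c0
        nlinarith
      calc 4 * (Ct * lam (N + c0)) = 4 * Ct * lam (N + c0) := by ring
        _ ≤ 4 * Ct * ((1 + lam c0) * lam N) := Nat.mul_le_mul_left _ e2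
        _ = _ := by ring
    omega
  refine ⟨F, ?_, ?_⟩
  · intro p hp
    exact (mem_enG _ _ _ _ _ _).1 (hF1 p hp)
  · calc 2 ^ (K q () + K (x, y) q)
        ≤ 2 ^ (K (x, y) () + K q (x, y) + 4 * Ct * (1 + lam c0) * lam N) :=
          Nat.pow_le_pow_right (by norm_num) hsoi
      _ = 2 ^ (K (x, y) () + 4 * Ct * (1 + lam c0) * lam N) * 2 ^ (K q (x, y)) := by
          rw [← pow_add]; congr 1; ring
      _ ≤ 2 ^ (K (x, y) () + 4 * Ct * (1 + lam c0) * lam N) *
          (2 ^ (C1 * lam N + 1) * F.card) := Nat.mul_le_mul_left _ hF2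
      _ = 2 ^ (K (x, y) () + 4 * Ct * (1 + lam c0) * lam N + (C1 * lam N + 1)) * F.card := by
          rw [← mul_assoc, ← pow_add]
      _ ≤ _ := by
          refine Nat.mul_le_mul_right _ (Nat.pow_le_pow_right (by norm_num) ?_)
          have : (C1 + 4 * Ct * (1 + lam c0) + 1) * lam N =
              C1 * lam N + 4 * Ct * (1 + lam c0) * lam N + lam N := by ring
          rw [this]
          omega

end Pool.Agent.Helper760.EP.J4295
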