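import Mathlib
import Pool.Agent.Helper760.EP.Base2

set_option autoImplicit false

namespace Pool.Agent.Helper760.EP.J4302

open Encodable
open Pool.Agent.Helper760.Kolm

theorem testBit_primrec : Primrec₂ (fun (a i : ℕ) => a.testBit i) := by
  have h : Primrec₂ (fun (a i : ℕ) => decide ((a / 2 ^ i) % 2 = 1)) := by
    have h1 : Primrec (fun x : ℕ × ℕ => (x.1 / 2 ^ x.2) % 2) :=
      Primrec.nat_mod.comp (Primrec.nat_div.comp Primrec.fst
        (primrec_pow.comp (Primrec.const 2) Primrec.snd)) (Primrec.const 2)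
    exact (Primrec.beq.comp h1 (Primrec.const 1)).of_eq (fun x => by simp [Bool.beq_eq_decide_eq])
  exact h.of_eq (fun a i => by rw [Nat.testBit_eq_decide_div_mod_eq])

theorem bw_primrec : Primrec₂ bw := by
  have h : Primrec (fun x : ℕ × ℕ => (List.range x.1).map (fun i => x.2.testBit i)) :=
    Primrec.list_map (Primrec.list_range.comp Primrec.fst)
      (testBit_primrec.comp (Primrec.snd.comp Primrec.fst) Primrec.snd).to₂
  exact h

theorem length_bw (w a : ℕ) : (bw w a).length = w := by simp [bw]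

theorem val_bw (w : ℕ) : ∀ a : ℕ, a < 2 ^ w → val (bw w a) = a := by
  induction w with
  | zero => intro a h; simp at h; subst h; simp [bw]
  | succ w ih =>
    intro a h
    have h1 : bw (w + 1) a = a.testBit 0 :: bw w (a / 2) := by
      unfold bw
      rw [List.range_succ_eq_map, List.map_cons, List.map_map]
      congr 1
      apply List.map_congr_left
      intro i _
      simp [Nat.testBit_succ]
    rw [h1, val_cons, ih (a / 2) (by rw [pow_succ] at h; omega)]
    rw [Nat.testBit_zero]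
    rcases Nat.mod_two_eq_zero_or_one a with h2 | h2 <;> simp [h2] <;> omega

/-- programs with a parameter -/
theorem K_prog {α β : Type*} [Primcodable α] [Primcodable β] (F : ℕ × List Bool × β → α)
    (hF : Primrec F) : ∃ c : ℕ, ∀ n p b, K (F (n, p, b)) b ≤ p.length + 2 * Nat.size n + c := by
  obtain ⟨c, hc⟩ := K_param (fun x : ℕ × List Bool × β => (Part.some (F x) : Part α))
    hF.to_comp.partrec
  refine ⟨c, fun n p b => ?_⟩
  have := hc n p b (F (n, p, b)) (by simp)
  simpa using this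

/-- postprocessing with a parameter -/
theorem K_post {α β δ : Type*} [Primcodable α] [Primcodable β] [Primcodable δ]
    (F : ℕ × δ → α) (hF : Primrec F) : ∃ c : ℕ, ∀ (n : ℕ) (d : δ) (b : β),
      K (F (n, d)) b ≤ K d b + 2 * Nat.size n + c := by
  let φ : ℕ × List Bool × β →. α := fun x =>
    (M x.2.1 (encode x.2.2)).bind fun d' =>
      (Part.ofOption (decode (α := δ) d')).map fun d => F (x.1, d)
  have hφ : Partrec φ := by
    refine Partrec.bind ?_ ?_
    · exact partrec_M.comp (Computable.fst.comp Computable.snd)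
        (Computable.encode.comp (Computable.snd.comp Computable.snd))
    · refine Partrec.map ?_ ?_
      · exact (Computable.decode.comp Computable.snd).ofOption
      · exact (hF.to_comp.comp (Computable.pair
          (Computable.fst.comp (Computable.fst.comp Computable.fst)) Computable.snd)).to₂
  obtain ⟨c, hc⟩ := K_param φ hφ
  refine ⟨c, fun n d b => ?_⟩
  obtain ⟨p, hp, hl⟩ := K_spec d b
  have h := hc n p b (F (n, d)) (by
    simp only [φ, Part.mem_bind_iff]
    refine ⟨encode d, hp, ?_⟩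
    simp)
  rw [hl] at h
  simpa using h

theorem exists_hard (n : ℕ) : ∃ s y0 y1 r : ℕ, s < 2 ^ n ∧ y0 < 2 ^ (3 * n) ∧ y1 < 2 ^ (2 * n) ∧
    r < 2 ^ n ∧ 7 * n ≤ K (s, y0, y1, r) () := by
  by_contra hcon
  push Not at hcon
  let S : Finset (ℕ × ℕ × ℕ × ℕ) := Finset.range (2 ^ n) ×ˢ Finset.range (2 ^ (3 * n)) ×ˢ
    Finset.range (2 ^ (2 * n)) ×ˢ Finset.range (2 ^ n)
  have hS : ∀ a ∈ S, K a () < 7 * n := by
    rintro ⟨s, y0, y1, r⟩ h
    simp only [S, Finset.mem_product, Finset.mem_range] at h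
    exact hcon s y0 y1 r h.1 h.2.1 h.2.2.1 h.2.2.2
  have h1 := card_lt () (7 * n) S hS
  have h2 : S.card = 2 ^ (7 * n) := by
    simp only [S, Finset.card_product, Finset.card_range]
    rw [← pow_add, ← pow_add, ← pow_add]
    congr 1
    ring
  omega

/-! the strings -/

def mkx (n s v r : ℕ) : List Bool := bw n s ++ (bw (3 * n + 1) v ++ bw n r)

def mky (n y0 y1 : ℕ) : List Bool := bw (3 * n) y0 ++ bw (2 * n) y1

def mkq (n s v : ℕ) : List Bool := bw n s ++ bw (3 * n + 1) v

def gs (n : ℕ) (x : List Bool) : ℕ := val (x.take n)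

def gv (n : ℕ) (x : List Bool) : ℕ := val ((x.drop n).take (3 * n + 1))

def gr (n : ℕ) (x : List Bool) : ℕ := val (x.drop (n + (3 * n + 1)))

def g0 (n : ℕ) (y : List Bool) : ℕ := val (y.take (3 * n))

def g1 (n : ℕ) (y : List Bool) : ℕ := val (y.drop (3 * n))

theorem mkx_eq (n s v r : ℕ) : mkx n s v r = mkq n s v ++ bw n r := by
  simp [mkx, mkq]

theorem take_bw (n a : ℕ) (l : List Bool) : (bw n a ++ l).take n = bw n a :=
  List.take_left' (length_bw n a)

theorem drop_bw (n a : ℕ) (l : List Bool) : (bw n a ++ l).drop n = l :=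
  List.drop_left' (length_bw n a)

theorem gs_mkx (n s v r : ℕ) (h : s < 2 ^ n) : gs n (mkx n s v r) = s := by
  rw [gs, mkx, take_bw, val_bw _ _ h]

theorem gs_mkq (n s v : ℕ) (h : s < 2 ^ n) : gs n (mkq n s v) = s := by
  rw [gs, mkq, take_bw, val_bw _ _ h]

theorem gv_mkx (n s v r : ℕ) (h : v < 2 ^ (3 * n + 1)) : gv n (mkx n s v r) = v := by
  rw [gv, mkx, drop_bw, take_bw, val_bw _ _ h]

theorem gv_mkq (n s v : ℕ) (h : v < 2 ^ (3 * n + 1)) : gv n (mkq n s v) = v := by
  rw [gv, mkq, drop_bw]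
  have : (bw (3 * n + 1) v).take (3 * n + 1) = bw (3 * n + 1) v :=
    List.take_of_length_le (length_bw _ _).le
  rw [this, val_bw _ _ h]

theorem gr_mkx (n s v r : ℕ) (h : r < 2 ^ n) : gr n (mkx n s v r) = r := by
  rw [gr, mkx, ← List.drop_drop, drop_bw, drop_bw, val_bw _ _ h]

theorem g0_mky (n y0 y1 : ℕ) (h : y0 < 2 ^ (3 * n)) : g0 n (mky n y0 y1) = y0 := by
  rw [g0, mky, take_bw, val_bw _ _ h]

theorem g1_mky (n y0 y1 : ℕ) (h : y1 < 2 ^ (2 * n)) : g1 n (mky n y0 y1) = y1 := by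
  rw [g1, mky, drop_bw, val_bw _ _ h]

theorem p3n : Primrec (fun n : ℕ => 3 * n) := Primrec.nat_mul.comp (Primrec.const 3) Primrec.id

theorem p2n : Primrec (fun n : ℕ => 2 * n) := Primrec.nat_mul.comp (Primrec.const 2) Primrec.id

theorem p3n1 : Primrec (fun n : ℕ => 3 * n + 1) := Primrec.succ.comp p3n

theorem gs_primrec : Primrec₂ gs :=
  primrec_val.comp (Primrec.list_take.comp Primrec.fst Primrec.snd)

theorem gv_primrec : Primrec₂ gv :=
  primrec_val.comp (Primrec.list_take.comp (p3n1.comp Primrec.fst)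
    (Primrec.list_drop.comp Primrec.fst Primrec.snd))

theorem gr_primrec : Primrec₂ gr :=
  primrec_val.comp (Primrec.list_drop.comp
    (Primrec.nat_add.comp Primrec.fst (p3n1.comp Primrec.fst)) Primrec.snd)

theorem g0_primrec : Primrec₂ g0 :=
  primrec_val.comp (Primrec.list_take.comp (p3n.comp Primrec.fst) Primrec.snd)

theorem g1_primrec : Primrec₂ g1 :=
  primrec_val.comp (Primrec.list_drop.comp (p3n.comp Primrec.fst) Primrec.snd)

theorem mkx_primrec {α : Type*} [Primcodable α] {n s v r : α → ℕ} (hn : Primrec n)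
    (hs : Primrec s) (hv : Primrec v) (hr : Primrec r) :
    Primrec (fun a => mkx (n a) (s a) (v a) (r a)) :=
  Primrec.list_append.comp (bw_primrec.comp hn hs)
    (Primrec.list_append.comp (bw_primrec.comp (p3n1.comp hn) hv) (bw_primrec.comp hn hr))

theorem mky_primrec {α : Type*} [Primcodable α] {n s v : α → ℕ} (hn : Primrec n)
    (hs : Primrec s) (hv : Primrec v) :
    Primrec (fun a => mky (n a) (s a) (v a)) :=
  Primrec.list_append.comp (bw_primrec.comp (p3n.comp hn) hs) (bw_primrec.comp (p2n.comp hn) hv)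

theorem size_bound (c n A : ℕ) (h : A ≤ c * (n + 1)) :
    Nat.size A ≤ (Nat.size c + 2) * lam n := by
  have h1 := lam_le c n
  have h2 := lam_facts.2.1 _ _ h
  unfold lam at h1 h2 ⊢
  omega

/-- all the facts -/
theorem facts : ∃ c : ℕ, ∀ n : ℕ, ∃ s v y0 y1 r : ℕ, ∃ x y q : List Bool,
    v = y0 + s * y1 ∧ r < 2 ^ n ∧ x.length ≤ 5 * n + 1 ∧
    y.length ≤ 5 * n + 1 ∧ 
    K x () ≤ 5 * n + 2 * Nat.size n + c ∧ 
    K y () ≤ 5 * n + 2 * Nat.size n + c ∧ 
    K q () ≤ 4 * n + 2 * Nat.size n + c ∧ 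
    K x q ≤ n + 2 * Nat.size n + c ∧ 
    K y q ≤ 2 * n + 2 * Nat.size n + c ∧ 
    K y x ≤ 2 * n + 2 * Nat.size n + c ∧ 
    K x y ≤ 2 * n + 2 * Nat.size n + c ∧ 
    7 * n ≤ K ((s, v, r), (y0, y1)) () + c ∧
    K ((s, v, r), (y0, y1)) () ≤ K (x, y) () + 2 * Nat.size n + c ∧
    K (x, y) () ≤ K q () + K (x, y) q + 2 * Nat.size (K q ()) + c ∧
    K (x, y) q ≤ K x q + K (x, y) (x, q) + 2 * Nat.size (K x q) + c ∧
    K (x, y) (x, q) ≤ K y q + c ∧
    K (x, y) () ≤ K x () + K (x, y) x + 2 * Nat.size (K x ()) + c ∧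
    K (x, y) x ≤ K y x + c ∧
    K (x, y) () ≤ K y () + K (x, y) y + 2 * Nat.size (K y ()) + c ∧
    K (x, y) y ≤ K x y + c ∧ 
    ∀ q' : List Bool, K (s, v, r) q' ≤ K x q' + 2 * Nat.size n + c ∧
      K (y0, y1) q' ≤ K y q' + 2 * Nat.size n + c ∧
      K ((s, v, r), (y0, y1)) () ≤ K q' () + K ((s, v, r), (y0, y1)) q' +
        2 * Nat.size (K q' ()) + c := by
  obtain ⟨c1, h1⟩ := K_prog (fun x : ℕ × List Bool × Unit => x.2.1)
    (Primrec.fst.comp Primrec.snd)
  obtain ⟨c2, h2⟩ := K_prog (fun x : ℕ × List Bool × List Bool => x.2.2 ++ x.2.1)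
    (Primrec.list_append.comp (Primrec.snd.comp Primrec.snd) (Primrec.fst.comp Primrec.snd))
  obtain ⟨c3, h3⟩ := K_prog (fun x : ℕ × List Bool × List Bool =>
      mky x.1 (gv x.1 x.2.2 - gs x.1 x.2.2 * val x.2.1) (val x.2.1))
    (mky_primrec Primrec.fst (Primrec.nat_sub.comp
      (gv_primrec.comp Primrec.fst (Primrec.snd.comp Primrec.snd))
      (Primrec.nat_mul.comp (gs_primrec.comp Primrec.fst (Primrec.snd.comp Primrec.snd))
        (primrec_val.comp (Primrec.fst.comp Primrec.snd))))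
      (primrec_val.comp (Primrec.fst.comp Primrec.snd)))
  obtain ⟨c4, h4⟩ := K_prog (fun x : ℕ × List Bool × List Bool =>
      mkx x.1 (gs x.1 x.2.1) (g0 x.1 x.2.2 + gs x.1 x.2.1 * g1 x.1 x.2.2)
        (val (x.2.1.drop x.1)))
    (mkx_primrec Primrec.fst (gs_primrec.comp Primrec.fst (Primrec.fst.comp Primrec.snd))
      (Primrec.nat_add.comp (g0_primrec.comp Primrec.fst (Primrec.snd.comp Primrec.snd))
        (Primrec.nat_mul.comp (gs_primrec.comp Primrec.fst (Primrec.fst.comp Primrec.snd))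
          (g1_primrec.comp Primrec.fst (Primrec.snd.comp Primrec.snd))))
      (primrec_val.comp (Primrec.list_drop.comp Primrec.fst (Primrec.fst.comp Primrec.snd))))
  have hx3 : Primrec (fun x : ℕ × List Bool => (gs x.1 x.2, gv x.1 x.2, gr x.1 x.2)) :=
    Primrec.pair (gs_primrec.comp Primrec.fst Primrec.snd)
      (Primrec.pair (gv_primrec.comp Primrec.fst Primrec.snd)
        (gr_primrec.comp Primrec.fst Primrec.snd))
  have hy2 : Primrec (fun x : ℕ × List Bool => (g0 x.1 x.2, g1 x.1 x.2)) :=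
    Primrec.pair (g0_primrec.comp Primrec.fst Primrec.snd)
      (g1_primrec.comp Primrec.fst Primrec.snd)
  obtain ⟨c5, h5⟩ := K_post (β := Unit) (fun x : ℕ × (List Bool × List Bool) =>
      ((gs x.1 x.2.1, gv x.1 x.2.1, gr x.1 x.2.1), (g0 x.1 x.2.2, g1 x.1 x.2.2)))
    (Primrec.pair (hx3.comp (Primrec.pair Primrec.fst (Primrec.fst.comp Primrec.snd)))
      (hy2.comp (Primrec.pair Primrec.fst (Primrec.snd.comp Primrec.snd))))
  obtain ⟨c6, h6⟩ := K_post (β := List Bool) _ hx3
  obtain ⟨c7, h7⟩ := K_post (β := List Bool) _ hy2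
  obtain ⟨c8, h8⟩ := K_chain0 (α := List Bool) (β := List Bool × List Bool)
  obtain ⟨c9, h9⟩ := K_chain (α := List Bool) (β := List Bool × List Bool) (γ := List Bool)
  obtain ⟨c10, h10⟩ := K_comp (fun (d : List Bool) (b : List Bool × List Bool) => (b.1, d))
    (Primrec.pair (Primrec.fst.comp Primrec.snd) Primrec.fst).to_comp.to₂
    (fun b : List Bool × List Bool => b.2) Computable.snd
  obtain ⟨c11, h11⟩ := K_comp (fun (d : List Bool) (b : List Bool) => (b, d))
    (Primrec.pair Primrec.snd Primrec.fst).to_comp.to₂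
    (fun b : List Bool => b) Computable.id
  obtain ⟨c12, h12⟩ := K_comp (fun (d : List Bool) (b : List Bool) => (d, b))
    (Primrec.pair Primrec.fst Primrec.snd).to_comp.to₂
    (fun b : List Bool => b) Computable.id
  obtain ⟨c13, h13⟩ := K_chain0 (α := List Bool) (β := (ℕ × ℕ × ℕ) × (ℕ × ℕ))
  obtain ⟨c14, h14⟩ := K_comp (fun (d : (ℕ × ℕ × ℕ) × (ℕ × ℕ)) (_ : Unit) =>
      (d.1.1, d.2.1, d.2.2, d.1.2.2))
    ((Primrec.pair (Primrec.fst.comp (Primrec.fst.comp Primrec.fst))
      (Primrec.pair (Primrec.fst.comp (Primrec.snd.comp Primrec.fst))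
        (Primrec.pair (Primrec.snd.comp (Primrec.snd.comp Primrec.fst))
          (Primrec.snd.comp (Primrec.snd.comp (Primrec.fst.comp Primrec.fst))))))).to_comp.to₂
    (fun b : Unit => b) Computable.id
  refine ⟨c1 + c2 + c3 + c4 + c5 + c6 + c7 + c8 + c9 + c10 + c11 + c12 + c13 + c14 + 1, fun n => ?_⟩
  obtain ⟨s, y0, y1, r, hs, hy0, hy1, hr, h70⟩ := exists_hard n
  have hv : y0 + s * y1 < 2 ^ (3 * n + 1) := by
    have e1 : s * y1 ≤ 2 ^ n * 2 ^ (2 * n) := Nat.mul_le_mul hs.le hy1.le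
    have e2 : 2 ^ n * 2 ^ (2 * n) = 2 ^ (3 * n) := by rw [← pow_add]; congr 1; ring
    rw [pow_succ]
    omega
  refine ⟨s, y0 + s * y1, y0, y1, r, mkx n s (y0 + s * y1) r, mky n y0 y1,
    mkq n s (y0 + s * y1), rfl, hr, ?_, ?_, ?_, ?_, ?_, ?_, ?_, ?_, ?_, ?_, ?_, ?_, ?_, ?_, ?_,
    ?_, ?_, ?_, ?_⟩
  · simp only [mkx, List.length_append, length_bw]; omega
  · simp only [mky, List.length_append, length_bw]; omega
  · have := h1 n (mkx n s (y0 + s * y1) r) ()
    simp only [mkx, List.length_append, length_bw] at this ⊢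
    omega
  · have := h1 n (mky n y0 y1) ()
    simp only [mky, List.length_append, length_bw] at this ⊢
    omega
  · have := h1 n (mkq n s (y0 + s * y1)) ()
    simp only [mkq, List.length_append, length_bw] at this ⊢
    omega
  · have := h2 n (bw n r) (mkq n s (y0 + s * y1))
    simp only [length_bw] at this
    rw [mkx_eq]
    omega
  · have := h3 n (bw (2 * n) y1) (mkq n s (y0 + s * y1))
    simp only [length_bw, gs_mkq _ _ _ hs, gv_mkq _ _ _ hv, val_bw _ _ hy1,
      Nat.add_sub_cancel] at this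
    omega
  · have := h3 n (bw (2 * n) y1) (mkx n s (y0 + s * y1) r)
    simp only [length_bw, gs_mkx _ _ _ _ hs, gv_mkx _ _ _ _ hv, val_bw _ _ hy1,
      Nat.add_sub_cancel] at this
    omega
  · have := h4 n (bw n s ++ bw n r) (mky n y0 y1)
    simp only [List.length_append, length_bw, g0_mky _ _ _ hy0, g1_mky _ _ _ hy1, gs, take_bw,
      drop_bw, val_bw _ _ hs, val_bw _ _ hr] at this
    omega
  · have := h14 ((s, y0 + s * y1, r), (y0, y1)) ()
    simp only at this
    omega
  · have := h5 n (mkx n s (y0 + s * y1) r, mky n y0 y1) ()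
    simp only [gs_mkx _ _ _ _ hs, gv_mkx _ _ _ _ hv, gr_mkx _ _ _ _ hr, g0_mky _ _ _ hy0,
      g1_mky _ _ _ hy1] at this
    omega
  · have := h8 (mkq n s (y0 + s * y1)) (mkx n s (y0 + s * y1) r, mky n y0 y1)
    omega
  · have := h9 (mkx n s (y0 + s * y1) r) (mkx n s (y0 + s * y1) r, mky n y0 y1)
      (mkq n s (y0 + s * y1))
    omega
  · have := h10 (mky n y0 y1) (mkx n s (y0 + s * y1) r, mkq n s (y0 + s * y1))
    simp only at this
    omega
  · have := h8 (mkx n s (y0 + s * y1) r) (mkx n s (y0 + s * y1) r, mky n y0 y1)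
    omega
  · have := h11 (mky n y0 y1) (mkx n s (y0 + s * y1) r)
    omega
  · have := h8 (mky n y0 y1) (mkx n s (y0 + s * y1) r, mky n y0 y1)
    omega
  · have := h12 (mkx n s (y0 + s * y1) r) (mky n y0 y1)
    omega
  · intro q'
    refine ⟨?_, ?_, ?_⟩
    · have := h6 n (mkx n s (y0 + s * y1) r) q'
      simp only [gs_mkx _ _ _ _ hs, gv_mkx _ _ _ _ hv, gr_mkx _ _ _ _ hr] at this
      omega
    · have := h7 n (mky n y0 y1) q'
      simp only [g0_mky _ _ _ hy0, g1_mky _ _ _ hy1] at this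
      omega
    · have := h13 q' ((s, y0 + s * y1, r), (y0, y1))
      omega

theorem asym_pair : ∃ C : ℕ, ∀ n : ℕ, ∃ x y q : List Bool, x.length ≤ 5 * n + 1 ∧
    y.length ≤ 5 * n + 1 ∧ ap (C * lam n) (K x ()) (5 * n) ∧ ap (C * lam n) (K y ()) (5 * n) ∧
    ap (C * lam n) (K q ()) (4 * n) ∧ ap (C * lam n) (K x q) n ∧
    ap (C * lam n) (K y q) (2 * n) ∧
    ∀ (e : ℕ) (q' : List Bool), K q' () ≤ 4 * n + e → K x q' ≤ 2 * n + e → K y q' ≤ n + e →
      n ≤ C * (e + lam n) := by
  obtain ⟨c, hc⟩ := facts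
  obtain ⟨A, hA⟩ := asym_count
  set D := Nat.size (8 + c) + 2 with hD
  refine ⟨100 * (c + 1 + D + A + A * D), fun n => ?_⟩
  obtain ⟨s, v, y0, y1, r, x, y, q, hv, hr, hlx, hly, i1, i2, i3, i4, i5, i6, i7, i8, i9, i10,
    i11, i12, i13, i14, i15, i16, hq⟩ := hc n
  have hL : lam n = Nat.size n + 1 := rfl
  have hL1 : 1 ≤ lam n := lam_facts.1 n
  have hsn : Nat.size n ≤ n := size_le_self n
  have hbig : 5 * n + 2 * Nat.size n + c ≤ (8 + c) * (n + 1) := by
    have : (8 + c) * (n + 1) = 8 * n + 8 + c * n + c := by ring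
    have h0 : 0 ≤ c * n := Nat.zero_le _
    omega
  have z1 := size_bound (8 + c) n (K q ()) (by omega)
  have z2 := size_bound (8 + c) n (K x q) (by omega)
  have z3 := size_bound (8 + c) n (K x ()) (by omega)
  have z4 := size_bound (8 + c) n (K y ()) (by omega)
  rw [← hD] at z1 z2 z3 z4
  set L := lam n with hLdef
  have hcL : c ≤ c * L := Nat.le_mul_of_pos_right c hL1
  have hCL : 100 * (c + 1 + D + A + A * D) * L =
      100 * (c * L) + 100 * L + 100 * (D * L) + 100 * (A * L) + 100 * (A * D * L) := by ring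
  refine ⟨x, y, q, hlx, hly, ?_, ?_, ?_, ?_, ?_, ?_⟩
  · unfold ap; rw [hCL]; constructor <;> omega
  · unfold ap; rw [hCL]; constructor <;> omega
  · unfold ap; rw [hCL]; constructor <;> omega
  · unfold ap; rw [hCL]; constructor <;> omega
  · unfold ap; rw [hCL]; constructor <;> omega
  · intro e q' hq1 hq2 hq3
    obtain ⟨j1, j2, j3⟩ := hq q'
    have hCeL : 100 * (c + 1 + D + A + A * D) * (e + L) =
      100 * (c * L) + 100 * L + 100 * (D * L) + 100 * (A * L) + 100 * (A * D * L) +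
      (100 * (c * e) + 100 * e + 100 * (D * e) + 100 * (A * e) + 100 * (A * D * e)) := by ring
    rw [hCeL]
    by_cases hn : n < 16
    · omega
    have hlam : ∀ B, B ≤ (8 + c) * (n + 1) + 2 * e → lam B ≤ D * L + (2 * e + 1) := by
      intro B hB
      have e1 := lam_facts.2.1 _ _ hB
      have e2 := lam_facts.2.2.1 ((8 + c) * (n + 1)) (2 * e)
      have e3 := lam_le (8 + c) n
      have e4 := lam_facts.2.2.2 (2 * e)
      rw [← hD, ← hLdef] at e3
      omega
    have k1 := hA n (2 * n + e + 2 * Nat.size n + c) (n + e + 2 * Nat.size n + c) (n / 2 - 2)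
      s v r y0 y1 q' hv hr (by omega) (by omega) (by omega)
    have k2 := hlam (n + (2 * n + e + 2 * Nat.size n + c) + (n + e + 2 * Nat.size n + c)) (by
      have : (8 + c) * (n + 1) = 8 * n + 8 + c * n + c := by ring
      have h16 : c * 16 ≤ c * n := Nat.mul_le_mul_left c (by omega)
      omega)
    have k3 := Nat.mul_le_mul_left A k2
    have k4 : A * (D * L + (2 * e + 1)) = A * D * L + 2 * (A * e) + A := by ring
    have hAL : A ≤ A * L := Nat.le_mul_of_pos_right A hL1
    have k5 := hlam (K q' ()) (by omega)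
    have k6 : Nat.size (K q' ()) ≤ lam (K q' ()) := by unfold lam; omega
    rw [max_def] at k1
    split_ifs at k1 <;> omega

end Pool.Agent.Helper760.EP.J4302
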