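import Mathlib
import Pool.Agent.Helper760.EP.Base2

set_option autoImplicit false

namespace Pool.Agent.Helper760.EP.J4309

open Encodable
open Pool.Agent.Helper760.Kolm

theorem partNA (U : List Bool →. List Bool) (D : List Bool → List Bool →. List Bool)
    (pr : List Bool → List Bool → List Bool) (hU : OptPlain U) (hD : OptCond D)
    (hpr : PairCode pr) : ¬ Determines (fun _ => GWp U D) (fun _ => Ep U pr) := by
  intro hdet
  obtain ⟨C1, h1⟩ := huge_pair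
  obtain ⟨C2, h2⟩ := gw_random
  obtain ⟨C3, h3⟩ := sub_iff_close U D hU hD
  obtain ⟨c4, h4⟩ := plain_K U hU
  obtain ⟨c5, h5⟩ := pair_K pr hpr
  have hc0 : (0 : ℝ) < (3 * C2 * (C1 + 1) + C3 + 1 : ℕ) := by positivity
  obtain ⟨c', hc', hmain⟩ := hdet _ hc0
  obtain ⟨A, hA⟩ := exists_nat_ge (9 * C1 + 4 * c4 + 2 * c5 + 2 * c' + 1 : ℝ)
  set j : ℕ := 2 * A + 1 with hj
  set k : ℕ := 2 * j with hk
  have hk1 : 1 ≤ k := by omega
  have hAk : A * k < 2 ^ k := by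
    have e1 : j < 2 ^ j := Nat.lt_two_pow_self
    have e2 : 2 * A < 2 ^ j := by omega
    have e3 : 2 ^ k = 2 ^ j * 2 ^ j := by rw [hk, two_mul, pow_add]
    rw [e3]
    calc A * k = 2 * A * j := by rw [hk]; ring
      _ < 2 ^ j * 2 ^ j := Nat.mul_lt_mul'' e2 e1
  set n : ℕ := 2 ^ k with hn
  have hn2 : 2 ≤ n := by
    calc 2 = 2 ^ 1 := by norm_num
      _ ≤ 2 ^ k := Nat.pow_le_pow_right (by norm_num) hk1
  have hL : Real.logb 2 (n : ℝ) = k := by
    rw [hn]; push_cast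
    rw [Real.logb_pow, Real.logb_self_eq_one (by norm_num), mul_one]
  have hlam : lam n = k + 2 := by
    unfold lam
    rw [hn, Nat.size_pow]
  have hlam3 : lam n ≤ 3 * k := by omega
  obtain ⟨x, x', r, m, hx, hx', hKx, hKx', hr, hxr, hq⟩ := h1 n (by omega)
  have g1 := h2 n (C1 * lam n) x x' hx' hKx
  have g2 := h2 n (C1 * lam n) x' x hx hKx'
  have hclose := (h3 x [] x' []).2 _ g1 g2
  have hclose' : Close ((3 * C2 * (C1 + 1) + C3 + 1 : ℕ) * Real.logb 2 (n : ℝ))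
      (GWp U D x []) (GWp U D x' []) := by
    have hle : ((C2 * (C1 * lam n + lam n) : ℕ) : ℝ) + C3 ≤
        ((3 * C2 * (C1 + 1) + C3 + 1 : ℕ) : ℝ) * Real.logb 2 (n : ℝ) := by
      rw [hL]
      have : C2 * (C1 * lam n + lam n) + C3 ≤ (3 * C2 * (C1 + 1) + C3 + 1) * k := by
        have e1 : C2 * (C1 * lam n + lam n) ≤ C2 * (C1 + 1) * (3 * k) := by
          calc C2 * (C1 * lam n + lam n) = C2 * (C1 + 1) * lam n := by ring
            _ ≤ C2 * (C1 + 1) * (3 * k) := Nat.mul_le_mul_left _ hlam3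
        have e2 : C3 ≤ (C3 + 1) * k := by nlinarith
        calc C2 * (C1 * lam n + lam n) + C3 ≤ C2 * (C1 + 1) * (3 * k) + (C3 + 1) * k := by omega
          _ = (3 * C2 * (C1 + 1) + C3 + 1) * k := by ring
      exact_mod_cast this
    constructor
    · intro s hs
      obtain ⟨t, ht, hst⟩ := hclose.1 s hs
      exact ⟨t, ht, fun i => (hst i).trans hle⟩
    · intro t ht
      obtain ⟨s, hs, hst⟩ := hclose.2 t ht
      exact ⟨s, hs, fun i => (hst i).trans hle⟩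
  have hE := hmain n hn2 x [] x' [] hx (by simp) hx' (by simp) hclose'
  rw [hL] at hE
  obtain ⟨s, ⟨q, hs⟩, hst⟩ := hE.2 (prof U pr x' [] r) ⟨r, rfl⟩
  have q2 := hst 2
  have q4 := hst 4
  rw [hs] at q2 q4
  simp only [prof, Matrix.cons_val] at q2 q4
  push_cast at q2 q4
  rw [abs_le] at q2 q4
  obtain ⟨u1, u2⟩ := h4 q
  obtain ⟨u3, u4⟩ := h4 r
  obtain ⟨u5, u6⟩ := h4 (pr x q)
  obtain ⟨u7, u8⟩ := h4 (pr x' r)
  obtain ⟨v1, v2⟩ := (h5 x q).1
  obtain ⟨v3, v4⟩ := (h5 x' r).1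
  obtain ⟨w1, w2⟩ := hr
  have hkr : (1 : ℝ) ≤ k := by exact_mod_cast hk1
  have hnr : (A : ℝ) * k < n := by exact_mod_cast hAk
  have hlr : (lam n : ℝ) ≤ 3 * k := by exact_mod_cast hlam3
  have hC : (0 : ℝ) ≤ C1 := Nat.cast_nonneg _
  have h40 : (0 : ℝ) ≤ c4 := Nat.cast_nonneg _
  have h50 : (0 : ℝ) ≤ c5 := Nat.cast_nonneg _
  have hCl : (C1 : ℝ) * lam n ≤ C1 * (3 * k) := mul_le_mul_of_nonneg_left hlr hC
  have hbig : 9 * C1 * (k : ℝ) + 4 * c4 + 2 * c5 + 2 * (c' * k) < n := by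
    have e1 : (9 * C1 + 4 * c4 + 2 * c5 + 2 * c' + 1 : ℝ) * k ≤ A * k :=
      mul_le_mul_of_nonneg_right hA (by linarith)
    nlinarith
  have hck : 0 ≤ c' * (k : ℝ) := by positivity
  have hCk : 0 ≤ (C1 : ℝ) * k := by positivity
  have t1 : (m : ℝ) ≤ K r () + C1 * lam n := by exact_mod_cast w2
  have t2 : (K r () : ℝ) ≤ m + C1 * lam n := by exact_mod_cast w1
  have r1 : (CU U q : ℝ) ≤ K q () + c4 := by exact_mod_cast u1
  have r2 : (K q () : ℝ) ≤ CU U q + c4 := by exact_mod_cast u2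
  have r3 : (CU U r : ℝ) ≤ K r () + c4 := by exact_mod_cast u3
  have r4 : (K r () : ℝ) ≤ CU U r + c4 := by exact_mod_cast u4
  have r5 : (CU U (pr x q) : ℝ) ≤ K (pr x q) () + c4 := by exact_mod_cast u5
  have r8 : (K (pr x' r) () : ℝ) ≤ CU U (pr x' r) + c4 := by exact_mod_cast u8
  have r9 : (K (pr x q) () : ℝ) ≤ K (x, q) () + c5 := by exact_mod_cast v1
  have r10 : (K (x', r) () : ℝ) ≤ K (pr x' r) () + c5 := by exact_mod_cast v4
  have r11 : (n : ℝ) + m ≤ K (x', r) () + C1 * lam n := by exact_mod_cast hxr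
  have f1 : m ≤ K q () + n := by
    have : (m : ℝ) ≤ K q () + n := by linarith [q2.1, q2.2]
    exact_mod_cast this
  have f2 : K q () ≤ m + n := by
    have : (K q () : ℝ) ≤ m + n := by linarith [q2.1, q2.2]
    exact_mod_cast this
  have r12 : (K (x, q) () : ℝ) ≤ K q () + C1 * lam n := by exact_mod_cast hq q f1 f2
  linarith [q2.1, q2.2, q4.1, q4.2]

end Pool.Agent.Helper760.EP.J4309
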