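import Mathlib
import Pool.Agent.Helper760.EP.Base2
import Pool.Agent.Helper760.EP.J4286
import Pool.Agent.Helper760.EP.J4292
import Pool.Agent.Helper760.EP.J4295
import Pool.Agent.Helper760.EP.J4302
import Pool.Agent.Helper760.EP.J4309

set_option autoImplicit false

namespace Pool.Agent.Helper760.EP

alias hash_comp := J4286.hash_comp
alias add_noise := J4292.add_noise
alias good_count := J4295.good_count
alias asym_pair := J4302.asym_pair
alias partNA := J4309.partNA

end Pool.Agent.Helper760.EP
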