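import Mathlib
import Pool.Agent.Helper760.EP.Base3

set_option autoImplicit false

namespace Pool.Agent.Helper760.EP.J4287

open Encodable
open Pool.Agent.Helper760.Kolm

section HK

/-- Index lemma for computable enumerations. -/
theorem hk_index {α β γ : Type*} [Primcodable α] [Primcodable β] [Primcodable γ] [DecidableEq α]
    {en : γ × β → ℕ → Option α} (hen : Computable₂ en) :
    ∃ c : ℕ, ∀ (g : γ) (b : β) (m : ℕ),
      (∀ S : Finset α, (∀ a ∈ S, ∃ t, en (g, b) t = some a) → S.card ≤ 2 ^ m) →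
      ∀ a, (∃ t, en (g, b) t = some a) → K a b ≤ m + 2 * Nat.size (encode g) + c := by
  have hp : Partrec (fun y : (γ × β) × ℕ => (Part.some (en y.1 y.2) : Part (Option α))) :=
    (show Computable (fun y : (γ × β) × ℕ => en y.1 y.2) from hen).partrec
  obtain ⟨F, hF1, hF2, -⟩ := exists_stepped hp
  let en' : γ × β → ℕ → Option α := fun x v =>
    (decode (α := ℕ × ℕ) v).bind fun q => (F q.1 (x, q.2)).bind fun s => s
  have hen' : Primrec₂ en' := by
    refine Primrec.option_bind (Primrec.decode.comp Primrec.snd) ?_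
    refine Primrec.option_bind ?_ ?_
    · exact hF1.comp (Primrec.fst.comp Primrec.snd)
        (Primrec.pair (Primrec.fst.comp Primrec.fst) (Primrec.snd.comp Primrec.snd))
    · exact Primrec.snd.to₂
  have hiff : ∀ x a, (∃ v, en' x v = some a) ↔ ∃ u, en x u = some a := by
    intro x a
    constructor
    · rintro ⟨v, hv⟩
      simp only [en', Option.bind_eq_some_iff] at hv
      obtain ⟨q, _, s, hs, hsa⟩ := hv
      have h1 := (hF2 _ _).2 ⟨_, hs⟩
      rw [Part.mem_some_iff] at h1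
      exact ⟨q.2, by rw [← hsa, h1]⟩
    · rintro ⟨u, hu⟩
      have h1 : some a ∈ (Part.some (en x u) : Part (Option α)) := by
        rw [Part.mem_some_iff, hu]
      obtain ⟨t, ht⟩ := (hF2 (x, u) (some a)).1 h1
      refine ⟨encode (t, u), ?_⟩
      simp only [en', encodek, Option.bind_some]
      rw [ht]
      rfl
  obtain ⟨c, hc⟩ := K_index hen'
  refine ⟨c, fun g b m hS a ha => hc g b m ?_ a ((hiff _ _).2 ha)⟩
  intro S hS'
  exact hS S fun a ha => (hiff _ _).1 (hS' a ha)

theorem hk_size_le (x D N : ℕ) (h : x ≤ D * (N + 1)) :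
    Nat.size x ≤ (Nat.size D + 2) * lam N := by
  have h1 := size_mono h
  have h2 := lam_le D N
  have h3 : Nat.size (D * (N + 1)) ≤ lam (D * (N + 1)) := Nat.le_succ _
  omega

theorem hk_nth {δ : Type*} [Primcodable δ] :
    Partrec (fun x : ℕ × List Bool × (ℕ × δ) => nth (enX x.1) x.2.2.1) := by
  have hg : Computable (fun x : ℕ × List Bool × (ℕ × δ) => ((x.1, x.2.2.1) : ℕ × ℕ)) :=
    Computable.pair Computable.fst
      (Computable.fst.comp (Computable.snd.comp Computable.snd))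
  have h0 := partrec_nth primrec_enX
  have h := Partrec.comp h0 hg
  exact h

theorem hk_idx {δ : Type*} [Primcodable δ] :
    Partrec (fun x : ℕ × List Bool × (List Bool × δ) => idxIn (enX x.1) x.2.2.1) := by
  have hg : Computable (fun x : ℕ × List Bool × (List Bool × δ) =>
      ((x.1, x.2.2.1) : ℕ × List Bool)) :=
    Computable.pair Computable.fst
      (Computable.fst.comp (Computable.snd.comp Computable.snd))
  have h0 := partrec_idxIn primrec_enX
  have h := Partrec.comp h0 hg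
  exact h

/-- complexities of a simple string and of its index -/
theorem hk_fact {δ : Type*} [Primcodable δ] : ∃ A : ℕ, ∀ (N j : ℕ) (w : List Bool),
    K w () ≤ N → (∃ T, (collect (enX N) T)[j]? = some w) → ∀ z : δ,
      K w z ≤ K j z + A * lam N ∧ K j z ≤ K w z + A * lam N ∧ K w z ≤ N + A := by
  obtain ⟨c0, h0⟩ := K_comp (fun (d : List Bool) (_ : δ) => d) (Computable.fst).to₂
    (fun _ : δ => ()) (Computable.const ())
  obtain ⟨c1, h1⟩ := K_chain (α := ℕ) (β := List Bool) (γ := δ)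
  obtain ⟨c3, h3⟩ := K_chain (α := List Bool) (β := ℕ) (γ := δ)
  obtain ⟨c2, h2⟩ := K_param _ (hk_nth (δ := δ))
  obtain ⟨c4, h4⟩ := K_param _ (hk_idx (δ := δ))
  obtain ⟨E1, hE1⟩ : ∃ E, E = Nat.size (1 + c0) + 2 := ⟨_, rfl⟩
  obtain ⟨A1, hA1⟩ : ∃ A, A = 2 + c4 + 2 * E1 + c3 := ⟨_, rfl⟩
  obtain ⟨E2, hE2⟩ : ∃ E, E = Nat.size (1 + c0 + A1) + 2 := ⟨_, rfl⟩
  refine ⟨A1 + (2 + c2 + 2 * E2 + c1) + c0, ?_⟩
  intro N j w hw hT z
  obtain ⟨T, hT⟩ := hT
  have hL1 : 1 ≤ lam N := lam_facts.1 N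
  have hLN : lam N ≤ N + 1 := lam_facts.2.2.2 N
  have hsN : Nat.size N ≤ lam N := Nat.le_succ _
  have e0 : K w z ≤ K w () + c0 := h0 w z
  have e1 := h1 j w z
  have e3 := h3 w j z
  have e2 : K w (j, z) ≤ 2 * Nat.size N + c2 := by
    have h := h2 N [] (j, z) w ((mem_nth _ _ _).2 ⟨T, hT⟩)
    rw [List.length_nil, encode_nat] at h
    omega
  have e4 : K j (w, z) ≤ 2 * Nat.size N + c4 := by
    have h := h4 N [] (w, z) j (mem_idxIn _ _ _ _ hT)
    rw [List.length_nil, encode_nat] at h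
    omega
  have x1 : ∀ x : ℕ, x ≤ x * lam N := fun x => Nat.le_mul_of_pos_right x hL1
  have s1 : Nat.size (K w z) ≤ E1 * lam N := by
    rw [hE1]
    apply hk_size_le
    nlinarith
  have a1 : K j z ≤ K w z + A1 * lam N := by
    have := x1 c4
    have := x1 c3
    rw [hA1]
    nlinarith
  have s2 : Nat.size (K j z) ≤ E2 * lam N := by
    rw [hE2]
    apply hk_size_le
    nlinarith [Nat.mul_le_mul_left A1 hLN]
  have a2 : K w z ≤ K j z + (2 + c2 + 2 * E2 + c1) * lam N := by
    have := x1 c2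
    have := x1 c1
    nlinarith
  refine ⟨?_, ?_, ?_⟩
  · nlinarith [Nat.zero_le (A1 * lam N), Nat.zero_le (c0 * lam N)]
  · nlinarith [Nat.zero_le ((2 + c2 + 2 * E2 + c1) * lam N), Nat.zero_le (c0 * lam N)]
  · omega


theorem hk_comp_map {α σ : Type*} [Primcodable α] [Primcodable σ] {f : α → ℕ → σ}
    (hf : Computable₂ f) {B : α → ℕ} (hB : Computable B) :
    Computable (fun a => (List.range (B a)).map (f a)) := by
  have hstep : Computable₂ (fun (a : α) (p : ℕ × List σ) => p.2 ++ [f a p.1]) := by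
    have h1 : Computable (fun y : α × (ℕ × List σ) => f y.1 y.2.1) :=
      hf.comp Computable.fst (Computable.fst.comp Computable.snd)
    have h2 : Computable (fun y : α × (ℕ × List σ) => y.2.2) :=
      Computable.snd.comp Computable.snd
    exact (Primrec.list_concat.to_comp.comp h2 h1)
  have h := Computable.nat_rec hB (Computable.const ([] : List σ)) hstep
  refine h.of_eq fun a => ?_
  induction B a with
  | zero => rfl
  | succ n ih =>
    rw [List.range_succ, List.map_append, List.map_singleton, ← ih]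

/-- table of the hash functions -/
def hkTab (hh : ℕ × ℕ → ℕ × ℕ → ℕ) (x : ℕ × ℕ) : List ℕ :=
  (List.range ((x.1 + 2 + 2 ^ (x.1 + 1)) ^ 2)).map (fun q => hh (x.1 + 1, x.2) (Nat.unpair q))

theorem hkTab_comp {hh : ℕ × ℕ → ℕ × ℕ → ℕ} (hc : Computable₂ hh) : Computable (hkTab hh) := by
  unfold hkTab
  refine hk_comp_map ?_ ?_
  · have h1 : Computable (fun y : (ℕ × ℕ) × ℕ => ((y.1.1 + 1, y.1.2) : ℕ × ℕ)) :=
      (Primrec.pair (Primrec.succ.comp (Primrec.fst.comp Primrec.fst))
        (Primrec.snd.comp Primrec.fst)).to_comp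
    have h2 : Computable (fun y : (ℕ × ℕ) × ℕ => Nat.unpair y.2) :=
      (Primrec.unpair.comp Primrec.snd).to_comp
    exact hc.comp h1 h2
  · have h1 : Primrec (fun x : ℕ × ℕ => (x.1 + 2 + 2 ^ (x.1 + 1)) ^ 2) := by
      refine primrec_pow.comp (Primrec.nat_add.comp (Primrec.nat_add.comp Primrec.fst
        (Primrec.const 2)) (primrec_pow.comp (Primrec.const 2) (Primrec.succ.comp Primrec.fst)))
        (Primrec.const 2)
    exact h1.to_comp

theorem hkTab_get (hh : ℕ × ℕ → ℕ × ℕ → ℕ) (N t r j : ℕ) (hr : r ≤ N + 1)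
    (hj : j < 2 ^ (N + 1)) : (hkTab hh (N, t)).getD (Nat.pair r j) 0 = hh (N + 1, t) (r, j) := by
  have hb : Nat.pair r j < (N + 2 + 2 ^ (N + 1)) ^ 2 := by
    refine (Nat.pair_lt_max_add_one_sq r j).trans_le (Nat.pow_le_pow_left ?_ 2)
    have : max r j ≤ N + 1 + 2 ^ (N + 1) := max_le (by omega) (by omega)
    omega
  unfold hkTab
  rw [List.getD_eq_getElem?_getD, List.getElem?_map, List.getElem?_range hb]
  simp

/-- parameters: table, time, `(N, t, a)`, condition, index -/
abbrev HY (β : Type*) := List ℕ × ℕ × (ℕ × ℕ × ℕ) × β × ℕ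

variable {β : Type*} [Primcodable β]

def fibR (j' : ℕ) (p : ℕ × HY β) : Prop :=
  Kle p.2.2.1 p.2.2.2.1.2.2 j' p.2.2.2.2.1 ∧
    p.2.1.getD (Nat.pair p.1 j') 0 = p.2.1.getD (Nat.pair p.1 p.2.2.2.2.2) 0

instance : DecidableRel (fibR (β := β)) := fun j' p => by unfold fibR; infer_instance

theorem fibR_prim : PrimrecRel (fibR (β := β)) := by
  unfold fibR
  have hj' : Primrec (fun v : ℕ × (ℕ × HY β) => v.1) := Primrec.fst
  have hr : Primrec (fun v : ℕ × (ℕ × HY β) => v.2.1) := Primrec.fst.comp Primrec.snd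
  have hy : Primrec (fun v : ℕ × (ℕ × HY β) => v.2.2) := Primrec.snd.comp Primrec.snd
  have hT : Primrec (fun y : HY β => y.1) := Primrec.fst
  have hτ : Primrec (fun y : HY β => y.2.1) := Primrec.fst.comp Primrec.snd
  have ha : Primrec (fun y : HY β => y.2.2.1.2.2) :=
    Primrec.snd.comp (Primrec.snd.comp (Primrec.fst.comp (Primrec.snd.comp Primrec.snd)))
  have hz : Primrec (fun y : HY β => y.2.2.2.1) :=
    Primrec.fst.comp (Primrec.snd.comp (Primrec.snd.comp Primrec.snd))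
  have hj : Primrec (fun y : HY β => y.2.2.2.2) :=
    Primrec.snd.comp (Primrec.snd.comp (Primrec.snd.comp Primrec.snd))
  refine PrimrecPred.and ?_ ?_
  · exact primrec_Kle.comp (Primrec.pair (hτ.comp hy) (Primrec.pair (ha.comp hy)
      (Primrec.pair hj' (hz.comp hy))))
  · exact Primrec.eq.comp
      ((Primrec.list_getD 0).comp (hT.comp hy) (Primrec₂.natPair.comp hr hj'))
      ((Primrec.list_getD 0).comp (hT.comp hy) (Primrec₂.natPair.comp hr (hj.comp hy)))

def heavyR (r : ℕ) (y : HY β) : Prop :=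
  2 ^ (12 + (y.2.2.1.2.2 + 1)) < 2 ^ y.2.2.1.2.1 *
    ((List.range (2 ^ (y.2.2.1.1 + 1))).filter (fun j' => fibR j' (r, y))).length

instance : DecidableRel (heavyR (β := β)) := fun r y => by unfold heavyR; infer_instance

theorem heavyR_prim : PrimrecRel (heavyR (β := β)) := by
  unfold heavyR
  have hN : Primrec (fun v : ℕ × HY β => v.2.2.2.1.1) :=
    Primrec.fst.comp (Primrec.fst.comp (Primrec.snd.comp (Primrec.snd.comp Primrec.snd)))
  have ht : Primrec (fun v : ℕ × HY β => v.2.2.2.1.2.1) :=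
    Primrec.fst.comp (Primrec.snd.comp (Primrec.fst.comp (Primrec.snd.comp
      (Primrec.snd.comp Primrec.snd))))
  have ha : Primrec (fun v : ℕ × HY β => v.2.2.2.1.2.2) :=
    Primrec.snd.comp (Primrec.snd.comp (Primrec.fst.comp (Primrec.snd.comp
      (Primrec.snd.comp Primrec.snd))))
  have hf := (fibR_prim (β := β)).listFilter
  have hf' : Primrec (fun v : ℕ × HY β =>
      (List.range (2 ^ (v.2.2.2.1.1 + 1))).filter (fun j' => fibR j' (v.1, v.2))) :=
    hf.comp (Primrec.list_range.comp (primrec_pow.comp (Primrec.const 2)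
      (Primrec.succ.comp hN))) (Primrec.pair Primrec.fst Primrec.snd)
  refine Primrec.nat_lt.comp ?_ ?_
  · exact primrec_pow.comp (Primrec.const 2)
      (Primrec.nat_add.comp (Primrec.const 12) (Primrec.succ.comp ha))
  · exact Primrec.nat_mul.comp (primrec_pow.comp (Primrec.const 2) ht)
      (Primrec.list_length.comp hf')

def condR (y : HY β) : Prop :=
  Kle y.2.1 y.2.2.1.2.2 y.2.2.2.2 y.2.2.2.1 ∧ y.2.2.2.2 < 2 ^ (y.2.2.1.1 + 1) ∧
    y.2.2.1.1 + 2 ≤ 4 * ((List.range (y.2.2.1.1 + 2)).filter (fun r => heavyR r y)).length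

instance : DecidablePred (condR (β := β)) := fun y => by unfold condR; infer_instance

theorem condR_prim : PrimrecPred (condR (β := β)) := by
  unfold condR
  have hτ : Primrec (fun y : HY β => y.2.1) := Primrec.fst.comp Primrec.snd
  have hN : Primrec (fun y : HY β => y.2.2.1.1) :=
    Primrec.fst.comp (Primrec.fst.comp (Primrec.snd.comp Primrec.snd))
  have ha : Primrec (fun y : HY β => y.2.2.1.2.2) :=
    Primrec.snd.comp (Primrec.snd.comp (Primrec.fst.comp (Primrec.snd.comp Primrec.snd)))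
  have hz : Primrec (fun y : HY β => y.2.2.2.1) :=
    Primrec.fst.comp (Primrec.snd.comp (Primrec.snd.comp Primrec.snd))
  have hj : Primrec (fun y : HY β => y.2.2.2.2) :=
    Primrec.snd.comp (Primrec.snd.comp (Primrec.snd.comp Primrec.snd))
  have hN2 : Primrec (fun y : HY β => y.2.2.1.1 + 2) :=
    Primrec.nat_add.comp hN (Primrec.const 2)
  have hf := (heavyR_prim (β := β)).listFilter
  have hf' : Primrec (fun y : HY β =>
      (List.range (y.2.2.1.1 + 2)).filter (fun r => heavyR r y)) :=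
    hf.comp (Primrec.list_range.comp hN2) Primrec.id
  refine PrimrecPred.and ?_ (PrimrecPred.and ?_ ?_)
  · exact primrec_Kle.comp (Primrec.pair hτ (Primrec.pair ha (Primrec.pair hj hz)))
  · exact Primrec.nat_lt.comp hj (primrec_pow.comp (Primrec.const 2) (Primrec.succ.comp hN))
  · exact Primrec.nat_le.comp hN2
      (Primrec.nat_mul.comp (Primrec.const 4) (Primrec.list_length.comp hf'))

/-- enumeration of the bad set -/
def hkEn (hh : ℕ × ℕ → ℕ × ℕ → ℕ) (x : (ℕ × ℕ × ℕ) × β) (u : ℕ) : Option ℕ :=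
  (decode (α := ℕ × ℕ) u).bind fun q =>
    if condR ((hkTab hh (x.1.1, x.1.2.1), q.1, x.1, x.2, q.2) : HY β) then some q.2 else none

theorem hkEn_comp {hh : ℕ × ℕ → ℕ × ℕ → ℕ} (hc : Computable₂ hh) :
    Computable₂ (hkEn (β := β) hh) := by
  have hG : Primrec (fun v : List ℕ × ((ℕ × ℕ × ℕ) × β) × ℕ =>
      (decode (α := ℕ × ℕ) v.2.2).bind fun q =>
        if condR ((v.1, q.1, v.2.1.1, v.2.1.2, q.2) : HY β) then some q.2 else none) := by
    refine Primrec.option_bind (Primrec.decode.comp (Primrec.snd.comp Primrec.snd)) ?_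
    refine Primrec.ite (condR_prim.comp ?_)
      (Primrec.option_some.comp (Primrec.snd.comp Primrec.snd)) (Primrec.const none)
    exact Primrec.pair (Primrec.fst.comp Primrec.fst)
      (Primrec.pair (Primrec.fst.comp Primrec.snd)
        (Primrec.pair (Primrec.fst.comp (Primrec.fst.comp (Primrec.snd.comp Primrec.fst)))
          (Primrec.pair (Primrec.snd.comp (Primrec.fst.comp (Primrec.snd.comp Primrec.fst)))
            (Primrec.snd.comp Primrec.snd))))
  have h1 : Computable (fun v : ((ℕ × ℕ × ℕ) × β) × ℕ =>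
      hkTab hh (v.1.1.1, v.1.1.2.1)) :=
    (hkTab_comp hc).comp ((Primrec.pair (Primrec.fst.comp (Primrec.fst.comp Primrec.fst))
      (Primrec.fst.comp (Primrec.snd.comp (Primrec.fst.comp Primrec.fst)))).to_comp)
  have h2 := hG.to_comp.comp (Computable.pair h1 (Computable.pair Computable.fst Computable.snd))
  exact h2


theorem hk_len (n : ℕ) (p : ℕ → Prop) [DecidablePred p] :
    ((List.range n).filter (fun i => p i)).length = ((Finset.range n).filter p).card := rfl

theorem hkEn_iff (hh : ℕ × ℕ → ℕ × ℕ → ℕ) (N t a : ℕ) (z : β) (j : ℕ) :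
    (∃ u, hkEn hh ((N, t, a), z) u = some j) ↔
      j ∈ badset (N + 1) t (a + 1) (fun i j => hh (N + 1, t) (i, j))
        ((Finset.range (2 ^ (N + 1))).filter (fun j' => K j' z ≤ a)) := by
  unfold badset
  rw [Finset.mem_filter, Finset.mem_filter, Finset.mem_range]
  constructor
  · rintro ⟨u, hu⟩
    simp only [hkEn, Option.bind_eq_some_iff] at hu
    obtain ⟨q, _, hq⟩ := hu
    split_ifs at hq with hc
    have hqj : q.2 = j := by simpa using hq
    obtain ⟨h1, h2, h3⟩ := hc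
    simp only at h1 h2 h3
    rw [hqj] at h1 h2 h3
    refine ⟨⟨h2, (K_le_iff _ _ _).2 ⟨_, h1⟩⟩, ?_⟩
    rw [hk_len] at h3
    refine h3.trans (Nat.mul_le_mul_left 4 (Finset.card_le_card ?_))
    intro r hr
    rw [Finset.mem_filter, Finset.mem_range] at hr ⊢
    refine ⟨hr.1, ?_⟩
    have h4 := hr.2
    unfold heavyR at h4
    simp only at h4
    rw [hk_len] at h4
    refine h4.trans_le (Nat.mul_le_mul_left _ (Finset.card_le_card ?_))
    intro j' hj'
    rw [Finset.mem_filter, Finset.mem_range] at hj'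
    rw [Finset.mem_filter, Finset.mem_filter, Finset.mem_range]
    obtain ⟨h5, h6, h7⟩ := hj'
    simp only at h6 h7
    rw [hkTab_get hh N t r j' (by omega) h5, hkTab_get hh N t r j (by omega) h2] at h7
    exact ⟨⟨h5, (K_le_iff _ _ _).2 ⟨_, h6⟩⟩, h7⟩
  · rintro ⟨⟨h1, h2⟩, h3⟩
    have hτ : ∃ τ, ∀ j' ∈ (Finset.range (2 ^ (N + 1))).filter (fun j' => K j' z ≤ a),
        Kle τ a j' z := by
      have : ∀ j' : ℕ, ∃ τ, K j' z ≤ a → Kle τ a j' z := by
        intro j'
        by_cases h : K j' z ≤ a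
        · obtain ⟨τ, hτ⟩ := (K_le_iff _ _ _).1 h
          exact ⟨τ, fun _ => hτ⟩
        · exact ⟨0, fun h' => absurd h' h⟩
      choose f hf using this
      refine ⟨((Finset.range (2 ^ (N + 1))).filter (fun j' => K j' z ≤ a)).sup f, ?_⟩
      intro j' hj'
      exact Kle_mono (Finset.le_sup (f := f) hj') (hf j' (Finset.mem_filter.1 hj').2)
    obtain ⟨τ, hτ⟩ := hτ
    refine ⟨encode (τ, j), ?_⟩
    simp only [hkEn, encodek, Option.bind_some]
    rw [if_pos]
    have hj : j ∈ (Finset.range (2 ^ (N + 1))).filter (fun j' => K j' z ≤ a) := by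
      rw [Finset.mem_filter, Finset.mem_range]
      exact ⟨h1, h2⟩
    refine ⟨hτ j hj, h1, ?_⟩
    simp only
    rw [hk_len]
    refine h3.trans (Nat.mul_le_mul_left 4 (Finset.card_le_card ?_))
    intro r hr
    rw [Finset.mem_filter, Finset.mem_range] at hr ⊢
    refine ⟨hr.1, ?_⟩
    have h4 := hr.2
    unfold heavyR
    simp only
    rw [hk_len]
    refine h4.trans_le (Nat.mul_le_mul_left _ (Finset.card_le_card ?_))
    intro j' hj'
    rw [Finset.mem_filter] at hj'
    obtain ⟨h5, h6⟩ := hj'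
    have h7 := Finset.mem_range.1 (Finset.mem_filter.1 h5).1
    rw [Finset.mem_filter, Finset.mem_range]
    refine ⟨h7, hτ j' h5, ?_⟩
    simp only
    rw [hkTab_get hh N t r j' (by omega) h7, hkTab_get hh N t r j (by omega) h1]
    exact h6

/-- enumeration of a fibre -/
def hkEn2 (hh : ℕ × ℕ → ℕ × ℕ → ℕ) (x : (ℕ × ℕ × ℕ) × (List Bool × β)) (u : ℕ) : Option ℕ :=
  (decode (α := ℕ × ℕ) u).bind fun q =>
    if Kle q.1 x.1.2.2 q.2 x.2.2 ∧ q.2 < 2 ^ (x.1.1 + 1) ∧
      hh (x.1.1 + 1, x.1.2.1) ((Nat.unpair x.2.1.length).1, q.2) =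
        (Nat.unpair x.2.1.length).2 then some q.2 else none

theorem hkEn2_comp {hh : ℕ × ℕ → ℕ × ℕ → ℕ} (hc : Computable₂ hh) :
    Computable₂ (hkEn2 (β := β) hh) := by
  have hG : Primrec (fun v : ℕ × ((ℕ × ℕ × ℕ) × (List Bool × β)) × (ℕ × ℕ) =>
      if Kle v.2.2.1 v.2.1.1.2.2 v.2.2.2 v.2.1.2.2 ∧ v.2.2.2 < 2 ^ (v.2.1.1.1 + 1) ∧
        v.1 = (Nat.unpair v.2.1.2.1.length).2 then some v.2.2.2 else none) := by
    have hq : Primrec (fun v : ℕ × ((ℕ × ℕ × ℕ) × (List Bool × β)) × (ℕ × ℕ) => v.2.2) :=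
      Primrec.snd.comp Primrec.snd
    have hx : Primrec (fun v : ℕ × ((ℕ × ℕ × ℕ) × (List Bool × β)) × (ℕ × ℕ) => v.2.1) :=
      Primrec.fst.comp Primrec.snd
    have hg := Primrec.fst.comp hx
    have hpz := Primrec.snd.comp hx
    refine Primrec.ite (PrimrecPred.and ?_ (PrimrecPred.and ?_ ?_))
      (Primrec.option_some.comp (Primrec.snd.comp hq)) (Primrec.const none)
    · exact primrec_Kle.comp (Primrec.pair (Primrec.fst.comp hq)
        (Primrec.pair (Primrec.snd.comp (Primrec.snd.comp hg))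
          (Primrec.pair (Primrec.snd.comp hq) (Primrec.snd.comp hpz))))
    · exact Primrec.nat_lt.comp (Primrec.snd.comp hq)
        (primrec_pow.comp (Primrec.const 2) (Primrec.succ.comp (Primrec.fst.comp hg)))
    · exact Primrec.eq.comp Primrec.fst
        (Primrec.snd.comp (Primrec.unpair.comp (Primrec.list_length.comp
          (Primrec.fst.comp hpz))))
  have hH : Computable (fun v : (((ℕ × ℕ × ℕ) × (List Bool × β)) × ℕ) × (ℕ × ℕ) =>
      hh (v.1.1.1.1 + 1, v.1.1.1.2.1) ((Nat.unpair v.1.1.2.1.length).1, v.2.2)) := by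
    have hx : Primrec (fun v : (((ℕ × ℕ × ℕ) × (List Bool × β)) × ℕ) × (ℕ × ℕ) => v.1.1) :=
      Primrec.fst.comp Primrec.fst
    have hg := Primrec.fst.comp hx
    have hpz := Primrec.snd.comp hx
    have h1 := Primrec.pair (Primrec.succ.comp (Primrec.fst.comp hg))
      (Primrec.fst.comp (Primrec.snd.comp hg))
    have h2 := Primrec.pair (Primrec.fst.comp (Primrec.unpair.comp (Primrec.list_length.comp
          (Primrec.fst.comp hpz)))) (Primrec.snd.comp (Primrec.snd (α := (((ℕ × ℕ × ℕ) × (List Bool × β)) × ℕ)) (β := ℕ × ℕ)))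
    exact hc.comp h1.to_comp h2.to_comp
  have hinner : Computable₂ (fun (y : ((ℕ × ℕ × ℕ) × (List Bool × β)) × ℕ) (q : ℕ × ℕ) =>
      if Kle q.1 y.1.1.2.2 q.2 y.1.2.2 ∧ q.2 < 2 ^ (y.1.1.1 + 1) ∧
        hh (y.1.1.1 + 1, y.1.1.2.1) ((Nat.unpair y.1.2.1.length).1, q.2) =
          (Nat.unpair y.1.2.1.length).2 then some q.2 else none) := by
    have h2 := hG.to_comp.comp (Computable.pair hH (Computable.pair
      (Computable.fst.comp Computable.fst) Computable.snd))
    exact h2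
  have hd : Computable (fun y : ((ℕ × ℕ × ℕ) × (List Bool × β)) × ℕ =>
      (decode (α := ℕ × ℕ) y.2)) := Computable.decode.comp Computable.snd
  exact Computable.option_bind hd hinner

theorem hkEn2_iff (hh : ℕ × ℕ → ℕ × ℕ → ℕ) (N t a : ℕ) (p : List Bool) (z : β) (j : ℕ) :
    (∃ u, hkEn2 hh ((N, t, a), (p, z)) u = some j) ↔
      K j z ≤ a ∧ j < 2 ^ (N + 1) ∧
        hh (N + 1, t) ((Nat.unpair p.length).1, j) = (Nat.unpair p.length).2 := by
  constructor
  · rintro ⟨u, hu⟩
    simp only [hkEn2, Option.bind_eq_some_iff] at hu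
    obtain ⟨q, _, hq⟩ := hu
    split_ifs at hq with hc
    have hqj : q.2 = j := by simpa using hq
    rw [hqj] at hc
    exact ⟨(K_le_iff _ _ _).2 ⟨_, hc.1⟩, hc.2.1, hc.2.2⟩
  · rintro ⟨h1, h2, h3⟩
    obtain ⟨τ, hτ⟩ := (K_le_iff _ _ _).1 h1
    refine ⟨encode (τ, j), ?_⟩
    simp only [hkEn2, encodek, Option.bind_some]
    rw [if_pos ⟨hτ, h2, h3⟩]

/-- unary string -/
def un (k : ℕ) : List Bool := (List.range k).map (fun _ => true)

theorem un_length (k : ℕ) : (un k).length = k := by simp [un]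

theorem un_prim : Primrec un := by
  unfold un
  exact Primrec.list_map Primrec.list_range (Primrec.const true).to₂

theorem hk_phi1 : Partrec (fun x : ℕ × List Bool × Unit =>
    (Part.some (un (Nat.pair x.1 (val x.2.1))) : Part (List Bool))) := by
  have h : Primrec (fun x : ℕ × List Bool × Unit => un (Nat.pair x.1 (val x.2.1))) :=
    un_prim.comp (Primrec₂.natPair.comp Primrec.fst
      (primrec_val.comp (Primrec.fst.comp Primrec.snd)))
  exact h.to_comp.partrec

theorem hk_phi2 {hh : ℕ × ℕ → ℕ × ℕ → ℕ} (hc : Computable₂ hh) :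
    Partrec (fun x : (ℕ × ℕ × ℕ) × List Bool × List Bool =>
      (idxIn (enX x.1.1) x.2.2).map
        (fun j => un (Nat.pair x.1.2.2 (hh (x.1.1 + 1, x.1.2.1) (x.1.2.2, j))))) := by
  refine Partrec.map ?_ ?_
  · have hg : Computable (fun x : (ℕ × ℕ × ℕ) × List Bool × List Bool =>
        ((x.1.1, x.2.2) : ℕ × List Bool)) :=
      Computable.pair (Computable.fst.comp Computable.fst)
        (Computable.snd.comp Computable.snd)
    have h0 := partrec_idxIn primrec_enX
    have h := Partrec.comp h0 hg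
    exact h
  · have hg : Primrec (fun v : ((ℕ × ℕ × ℕ) × List Bool × List Bool) × ℕ => v.1.1) :=
      Primrec.fst.comp Primrec.fst
    have hr := Primrec.snd.comp (Primrec.snd.comp hg)
    have h1 := Primrec.pair (Primrec.succ.comp (Primrec.fst.comp hg))
      (Primrec.fst.comp (Primrec.snd.comp hg))
    have h2 := Primrec.pair hr
      (Primrec.snd (α := (ℕ × ℕ × ℕ) × List Bool × List Bool) (β := ℕ))
    have h3 := hc.comp h1.to_comp h2.to_comp
    exact un_prim.to_comp.comp (Primrec₂.natPair.to_comp.comp hr.to_comp h3)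

end HK

theorem hashK {β : Type*} [Primcodable β] : ∃ C : ℕ, ∀ (N t : ℕ) (w : List Bool)
    (e : Fin 3 → β), K w () ≤ N → (∀ i, t + C * lam N ≤ K w (e i)) →
    ∃ p : List Bool, K p () ≤ t + C * lam N ∧ K p w ≤ C * lam N ∧
      ∀ i, K w (p, e i) + t ≤ K w (e i) + C * lam N := by
  obtain ⟨hh, hc, hG⟩ := hash_comp
  obtain ⟨A1, hA1⟩ := hk_fact (δ := β)
  obtain ⟨A2, hA2⟩ := hk_fact (δ := List Bool × β)
  obtain ⟨c3, h3⟩ := hk_index (hkEn_comp (β := β) hc)
  obtain ⟨c4, h4⟩ := hk_index (hkEn2_comp (β := β) hc)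
  obtain ⟨c5, h5⟩ := K_param _ hk_phi1
  obtain ⟨c6, h6⟩ := K_param _ (hk_phi2 hc)
  obtain ⟨E, hE⟩ : ∃ E, E = Nat.size (2 * A1 + 2) + 2 := ⟨_, rfl⟩
  obtain ⟨C, hC⟩ : ∃ C, C = 100 * E + c3 + c4 + c5 + c6 + 2 * A1 + 2 * A2 + 100 := ⟨_, rfl⟩
  refine ⟨C, ?_⟩
  intro N t w e hw hyp
  have hL1 : 1 ≤ lam N := lam_facts.1 N
  have hLN : lam N ≤ N + 1 := lam_facts.2.2.2 N
  have x1 : ∀ x : ℕ, x ≤ x * lam N := fun x => Nat.le_mul_of_pos_right x hL1
  have hCL : 100 * (E * lam N) + c3 + c4 + c5 + c6 + 2 * (A1 * lam N) + 2 * (A2 * lam N) + 100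
      ≤ C * lam N := by
    have y3 := x1 c3
    have y4 := x1 c4
    have y5 := x1 c5
    have y6 := x1 c6
    have y7 := x1 100
    rw [hC]
    nlinarith
  obtain ⟨T, j0, hT⟩ := exists_index (enX N) w ((mem_enX N w).2 hw)
  have hj0 : j0 < 2 ^ (N + 1) := by
    have h1 := card_le (α := List Bool) (β := Unit) () N (collect (enX N) T).toFinset (by
      intro a ha
      rw [List.mem_toFinset, mem_collect] at ha
      obtain ⟨i, _, hi⟩ := ha
      exact (mem_enX N a).1 ⟨i, hi⟩)
    rw [List.toFinset_card_of_nodup (nodup_collect _ _)] at h1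
    exact (List.getElem?_eq_some_iff.1 hT).1.trans h1
  have f1 := hA1 N j0 w hw ⟨T, hT⟩
  have f2 := hA2 N j0 w hw ⟨T, hT⟩
  have ht : t ≤ N + A1 := by
    have u1 := hyp 0
    have u2 := (f1 (e 0)).2.2
    omega
  have sz : ∀ x, x ≤ (2 * A1 + 2) * (N + 1) → Nat.size x ≤ E * lam N := by
    intro x hx
    rw [hE]
    exact hk_size_le x _ N hx
  have hexp : (2 * A1 + 2) * (N + 1) = 2 * (A1 * N) + 2 * A1 + 2 * N + 2 := by ring
  have htB : t ≤ (2 * A1 + 2) * (N + 1) := by rw [hexp]; omega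
  have hNB : N ≤ (2 * A1 + 2) * (N + 1) := by rw [hexp]; omega
  have haB : ∀ i, K j0 (e i) ≤ (2 * A1 + 2) * (N + 1) := by
    intro i
    have u1 := (f1 (e i)).2.1
    have u2 := (f1 (e i)).2.2
    have u3 : A1 * lam N ≤ A1 * (N + 1) := Nat.mul_le_mul_left _ hLN
    have u4 : A1 * (N + 1) = A1 * N + A1 := by ring
    rw [hexp]; omega
  have sz3 : ∀ x y z : ℕ, x ≤ (2 * A1 + 2) * (N + 1) → y ≤ (2 * A1 + 2) * (N + 1) →
      z ≤ (2 * A1 + 2) * (N + 1) →
      Nat.size (encode ((x, y, z) : ℕ × ℕ × ℕ)) ≤ 4 * (E * lam N) := by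
    intro x y z hx hy hz
    have e1 : encode ((x, y, z) : ℕ × ℕ × ℕ) = Nat.pair x (Nat.pair y z) := rfl
    rw [e1]
    have u1 := size_pair_le x (Nat.pair y z)
    have u2 := size_pair_le y z
    have u3 := sz x hx
    have u4 := sz y hy
    have u5 := sz z hz
    omega
  -- the finite sets
  let S : Fin 3 → Finset ℕ := fun i =>
    (Finset.range (2 ^ (N + 1))).filter (fun j' => K j' (e i) ≤ K j0 (e i))
  have hS0 : ∀ i, j0 ∈ S i := fun i =>
    Finset.mem_filter.2 ⟨Finset.mem_range.2 hj0, le_refl _⟩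
  have hScard : ∀ i, (S i).card ≤ 2 ^ (K j0 (e i) + 1) := fun i =>
    (card_le (e i) (K j0 (e i)) (S i) (fun a ha => (Finset.mem_filter.1 ha).2)).le
  have hgood : ∀ i, (badset (N + 1) t (K j0 (e i) + 1) (fun i j => hh (N + 1, t) (i, j))
      (S i)).card < 2 ^ t := fun i =>
    (hG (N + 1) t).2 (S i) (K j0 (e i) + 1) (Finset.filter_subset _ _) (hScard i)
  have hnb : ∀ i, j0 ∉ badset (N + 1) t (K j0 (e i) + 1) (fun i j => hh (N + 1, t) (i, j))
      (S i) := by
    intro i hmem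
    have hen := (hkEn_iff hh N t (K j0 (e i)) (e i) j0).2 hmem
    have h7 := h3 (N, t, K j0 (e i)) (e i) t (by
      intro S' hS'
      refine (Finset.card_le_card ?_).trans (hgood i).le
      intro a ha
      exact (hkEn_iff hh N t (K j0 (e i)) (e i) a).1 (hS' a ha)) j0 hen
    have u1 := sz3 N t (K j0 (e i)) hNB htB (haB i)
    have u2 := (f1 (e i)).1
    have u3 := hyp i
    omega
  -- a good seed
  let heavy : Fin 3 → Finset ℕ := fun i => (Finset.range (N + 2)).filter
    (fun r => 2 ^ (12 + (K j0 (e i) + 1)) < 2 ^ t *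
      ((S i).filter (fun j' => hh (N + 1, t) (r, j') = hh (N + 1, t) (r, j0))).card)
  have hheavy : ∀ i, 4 * (heavy i).card < N + 2 := by
    intro i
    by_contra hcon
    apply hnb i
    unfold badset
    rw [Finset.mem_filter]
    refine ⟨hS0 i, ?_⟩
    have := Nat.le_of_not_lt hcon
    exact this
  obtain ⟨r, hr, hrl⟩ : ∃ r ∈ Finset.range (N + 2), ∀ i, r ∉ heavy i := by
    by_contra hcon
    push Not at hcon
    have hsub : Finset.range (N + 2) ⊆ Finset.univ.biUnion heavy := by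
      intro r hr
      obtain ⟨i, hi⟩ := hcon r hr
      exact Finset.mem_biUnion.2 ⟨i, Finset.mem_univ i, hi⟩
    have u1 := Finset.card_le_card hsub
    have u2 := (Finset.card_biUnion_le (s := (Finset.univ : Finset (Fin 3))) (t := heavy))
    rw [Fin.sum_univ_three] at u2
    rw [Finset.card_range] at u1
    have v0 := hheavy 0
    have v1 := hheavy 1
    have v2 := hheavy 2
    omega
  have hr' : r < N + 2 := Finset.mem_range.1 hr
  have hfib : ∀ i, 2 ^ t * ((S i).filter (fun j' => hh (N + 1, t) (r, j') =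
      hh (N + 1, t) (r, j0))).card ≤ 2 ^ (12 + (K j0 (e i) + 1)) := by
    intro i
    by_contra hcon
    apply hrl i
    rw [Finset.mem_filter]
    exact ⟨hr, Nat.lt_of_not_le hcon⟩
  have hv : hh (N + 1, t) (r, j0) < 2 ^ t := (hG (N + 1) t).1 r j0
  obtain ⟨q, hq1, hq2⟩ := exists_val _ t hv
  have hrB : r ≤ (2 * A1 + 2) * (N + 1) := by rw [hexp]; omega
  refine ⟨un (Nat.pair r (hh (N + 1, t) (r, j0))), ?_, ?_, ?_⟩
  · have h7 := h5 r q () (un (Nat.pair r (hh (N + 1, t) (r, j0)))) (by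
      rw [Part.mem_some_iff]
      simp only [hq2])
    have u1 := sz r hrB
    rw [encode_nat] at h7
    omega
  · have h7 := h6 (N, t, r) [] w (un (Nat.pair r (hh (N + 1, t) (r, j0)))) (by
      rw [Part.mem_map_iff]
      exact ⟨j0, mem_idxIn _ _ _ _ hT, rfl⟩)
    have u1 := sz3 N t r hNB htB hrB
    rw [List.length_nil] at h7
    omega
  · intro i
    have hun : Nat.unpair (un (Nat.pair r (hh (N + 1, t) (r, j0)))).length =
        (r, hh (N + 1, t) (r, j0)) := by
      rw [un_length, Nat.unpair_pair]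
    have hj0f : j0 ∈ (S i).filter (fun j' => hh (N + 1, t) (r, j') =
        hh (N + 1, t) (r, j0)) := Finset.mem_filter.2 ⟨hS0 i, rfl⟩
    have hpos : 1 ≤ ((S i).filter (fun j' => hh (N + 1, t) (r, j') =
        hh (N + 1, t) (r, j0))).card := Finset.card_pos.2 ⟨j0, hj0f⟩
    have htl : t ≤ 12 + (K j0 (e i) + 1) := by
      have : 2 ^ t ≤ 2 ^ (12 + (K j0 (e i) + 1)) :=
        (Nat.le_mul_of_pos_right _ hpos).trans (hfib i)
      exact (Nat.pow_le_pow_iff_right (by norm_num)).1 this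
    have hcardf : ((S i).filter (fun j' => hh (N + 1, t) (r, j') =
        hh (N + 1, t) (r, j0))).card ≤ 2 ^ (12 + (K j0 (e i) + 1) - t) := by
      have h8 : 2 ^ t * ((S i).filter (fun j' => hh (N + 1, t) (r, j') =
          hh (N + 1, t) (r, j0))).card ≤ 2 ^ t * 2 ^ (12 + (K j0 (e i) + 1) - t) := by
        rw [← pow_add, Nat.add_sub_cancel' htl]
        exact hfib i
      exact Nat.le_of_mul_le_mul_left h8 (by positivity)
    have h7 := h4 (N, t, K j0 (e i)) (un (Nat.pair r (hh (N + 1, t) (r, j0))), e i)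
      (12 + (K j0 (e i) + 1) - t) (by
        intro S' hS'
        refine (Finset.card_le_card ?_).trans hcardf
        intro a ha
        obtain ⟨g1, g2, g3⟩ := (hkEn2_iff hh N t _ _ _ a).1 (hS' a ha)
        rw [hun] at g3
        exact Finset.mem_filter.2 ⟨Finset.mem_filter.2 ⟨Finset.mem_range.2 g2, g1⟩, g3⟩)
      j0 ((hkEn2_iff hh N t _ _ _ j0).2 ⟨le_refl _, hj0, by rw [hun]⟩)
    have u1 := sz3 N t (K j0 (e i)) hNB htB (haB i)
    have u2 := (f2 (un (Nat.pair r (hh (N + 1, t) (r, j0))), e i)).1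
    have u3 := (f1 (e i)).2.1
    omega

end Pool.Agent.Helper760.EP.J4287
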