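import Mathlib
import Pool.Agent.Helper760.EP.Base3

set_option autoImplicit false

namespace Pool.Agent.Helper760.EP.J4310

open Encodable
open Pool.Agent.Helper760.Kolm

theorem pbd_ar (X a l : ℕ) (h : a ≤ l) : X * l + a ≤ (X + 1) * l := by
  rw [Nat.add_one_mul]
  exact Nat.add_le_add_left h _

theorem pbd_exists_m (A : ℕ) : ∃ m : ℕ, 1 ≤ m ∧ A * lam (6 * m) < m := by
  refine ⟨2 ^ (2 * A + 10), Nat.one_le_two_pow, ?_⟩
  have h1 : Nat.size (6 * 2 ^ (2 * A + 10)) ≤ 2 * A + 13 := by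
    rw [Nat.size_le]
    have : 2 ^ (2 * A + 13) = 8 * 2 ^ (2 * A + 10) := by
      rw [show 2 * A + 13 = (2 * A + 10) + 3 by ring, pow_add]; ring
    rw [this]
    have : 0 < 2 ^ (2 * A + 10) := by positivity
    omega
  have h2 : lam (6 * 2 ^ (2 * A + 10)) ≤ 2 * A + 14 := by unfold lam; omega
  have h3 : A + 1 ≤ 2 ^ A := Nat.lt_two_pow_self
  have h4 : 2 ^ (2 * A + 10) = 1024 * (2 ^ A * 2 ^ A) := by
    rw [pow_add, two_mul, pow_add]; ring
  calc A * lam (6 * 2 ^ (2 * A + 10)) ≤ A * (2 * A + 14) := Nat.mul_le_mul_left _ h2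
    _ < 1024 * ((A + 1) * (A + 1)) := by nlinarith
    _ ≤ 1024 * (2 ^ A * 2 ^ A) := by gcongr
    _ = _ := h4.symm

theorem pbd_lam_log (n : ℕ) (hn : 2 ≤ n) : (lam n : ℝ) ≤ 3 * Real.logb 2 n := by
  have h0 : 0 < Nat.size n := Nat.size_pos.2 (by omega)
  have h1 : 2 ^ (Nat.size n - 1) ≤ n := Nat.lt_size.1 (by omega)
  have h2 : ((Nat.size n - 1 : ℕ) : ℝ) ≤ Real.logb 2 n := by
    rw [Real.le_logb_iff_rpow_le (by norm_num) (by exact_mod_cast (by omega : 0 < n))]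
    rw [Real.rpow_natCast]
    exact_mod_cast h1
  have h3 : (1 : ℝ) ≤ Real.logb 2 n := by
    rw [Real.le_logb_iff_rpow_le (by norm_num) (by exact_mod_cast (by omega : 0 < n))]
    rw [Real.rpow_one]
    exact_mod_cast hn
  unfold lam
  rw [Nat.cast_sub (by omega)] at h2
  push_cast at h2 ⊢
  linarith

theorem pbd_log_lam (n : ℕ) (hn : 1 ≤ n) : Real.logb 2 n ≤ (lam n : ℝ) := by
  have h1 : n < 2 ^ Nat.size n := Nat.lt_size_self n
  have h2 : Real.logb 2 n ≤ (Nat.size n : ℝ) := by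
    rw [Real.logb_le_iff_le_rpow (by norm_num) (by exact_mod_cast (by omega : 0 < n))]
    rw [Real.rpow_natCast]
    exact_mod_cast h1.le
  unfold lam
  push_cast
  linarith

theorem pbd_swap (U : List Bool →. List Bool) (D : List Bool → List Bool →. List Bool)
    (pr : List Bool → List Bool → List Bool) (hU : OptPlain U) (hD : OptCond D)
    (hpr : PairCode pr) : ∃ s : ℕ, ∀ x y : List Bool, CU U (pr x y) ≤ CU U (pr y x) + s ∧
      ∀ z, CD D (pr x y) z ≤ CD D (pr y x) z + s := by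
  obtain ⟨c1, h1⟩ := plain_K U hU
  obtain ⟨c2, h2⟩ := cond_K D hD
  obtain ⟨c3, h3⟩ := pair_K pr hpr
  obtain ⟨c4, h4⟩ := K_comp (β := List Bool) (fun (d : List Bool × List Bool) (_ : List Bool) => (d.2, d.1))
    ((Computable.pair (Computable.snd.comp Computable.fst)
      (Computable.fst.comp Computable.fst)).to₂) (fun z : List Bool => z) Computable.id
  obtain ⟨c5, h5⟩ := K_comp (β := Unit) (fun (d : List Bool × List Bool) (_ : Unit) => (d.2, d.1))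
    ((Computable.pair (Computable.snd.comp Computable.fst)
      (Computable.fst.comp Computable.fst)).to₂) (fun z : Unit => z) Computable.id
  refine ⟨2 * c1 + 2 * c2 + 2 * c3 + c4 + c5, fun x y => ⟨?_, fun z => ?_⟩⟩
  · have a1 := h1 (pr x y)
    have a2 := h1 (pr y x)
    have a3 := (h3 x y).1
    have a4 := (h3 y x).1
    have a5 : K (x, y) () ≤ K (y, x) () + c5 := h5 (y, x) ()
    unfold ap at a1 a2 a3 a4
    omega
  · have a1 := h2 (pr x y) z
    have a2 := h2 (pr y x) z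
    have a3 := (h3 x y).2.1 z
    have a4 := (h3 y x).2.1 z
    have a5 : K (x, y) z ≤ K (y, x) z + c4 := h4 (y, x) z
    unfold ap at a1 a2 a3 a4
    omega

/-- half of closeness of the WCp profiles -/
theorem pbd_half (U : List Bool →. List Bool) (D : List Bool → List Bool →. List Bool)
    (pr : List Bool → List Bool → List Bool) (s : ℕ)
    (hs : ∀ x y : List Bool, CU U (pr x y) ≤ CU U (pr y x) + s ∧
      ∀ z, CD D (pr x y) z ≤ CD D (pr y x) z + s) (x y : List Bool) (e : ℕ)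
    (h1 : CU U x ≤ CU U y + e) (h2 : CU U y ≤ CU U x + e) :
    ∀ t ∈ WCp U D pr x y, ∃ t' ∈ WCp U D pr y x, ∀ i, |t i - t' i| ≤ ((s + e : ℕ) : ℤ) := by
  rintro t ⟨⟨q, hq0, hq1⟩, ht2, ht3, ht4⟩
  have b1 := (hs x y).2 q
  have b2 := (hs y x).1
  have b3 := (hs x y).1
  refine ⟨![t 0, t 1 + s, CU U y, CU U x, CU U (pr y x)], ⟨⟨q, ?_, ?_⟩, ?_, ?_, ?_⟩, ?_⟩
  · simpa using hq0
  · simp only [Matrix.cons_val_one, Matrix.cons_val_zero] at hq1 ⊢
    have : ((CD D (pr x y) q : ℕ) : ℤ) ≤ CD D (pr y x) q + s := by exact_mod_cast b1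
    linarith
  · simp
  · simp
  · simp
  · intro i
    rw [abs_le]
    fin_cases i
    · simp
      omega
    · simp
      omega
    · simp [ht2]
      omega
    · simp [ht3]
      omega
    · simp [ht4]
      omega


theorem pbd_close {d : ℕ} {S T : Set (Fin d → ℤ)} (e : ℕ) (δ : ℝ) (hδ : (e : ℝ) ≤ δ)
    (h1 : ∀ s ∈ S, ∃ t ∈ T, ∀ i, |s i - t i| ≤ (e : ℤ))
    (h2 : ∀ t ∈ T, ∃ s ∈ S, ∀ i, |t i - s i| ≤ (e : ℤ)) : Close δ S T := by
  constructor
  · intro s hs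
    obtain ⟨t, ht, h⟩ := h1 s hs
    refine ⟨t, ht, fun i => ?_⟩
    have h3 : ((|s i - t i| : ℤ) : ℝ) ≤ ((e : ℤ) : ℝ) := by exact_mod_cast h i
    push_cast at h3
    exact h3.trans hδ
  · intro t ht
    obtain ⟨s, hs, h⟩ := h2 t ht
    refine ⟨s, hs, fun i => ?_⟩
    have h3 : ((|t i - s i| : ℤ) : ℝ) ≤ ((e : ℤ) : ℝ) := by exact_mod_cast h i
    push_cast at h3
    rw [abs_sub_comm] at h3
    exact h3.trans hδ

/-- from closeness at distance `c' L` get natural closeness -/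
theorem pbd_close' {d : ℕ} {S T : Set (Fin d → ℤ)} (c' : ℝ) (hc' : 0 < c') (n : ℕ) (hn : 1 ≤ n)
    (h : Close (c' * Real.logb 2 n) S T) :
    ∀ s ∈ S, ∃ t ∈ T, ∀ i, |s i - t i| ≤ ((⌈c'⌉₊ * lam n : ℕ) : ℤ) := by
  intro s hs
  obtain ⟨t, ht, hh⟩ := h.1 s hs
  refine ⟨t, ht, fun i => ?_⟩
  have h1 := hh i
  have h2 : c' * Real.logb 2 n ≤ (⌈c'⌉₊ : ℝ) * (lam n : ℝ) := by
    have a1 := pbd_log_lam n hn
    have a2 : c' ≤ (⌈c'⌉₊ : ℝ) := Nat.le_ceil c'
    have a3 : (0 : ℝ) ≤ Real.logb 2 n := Real.logb_nonneg (by norm_num) (by exact_mod_cast hn)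
    calc c' * Real.logb 2 n ≤ (⌈c'⌉₊ : ℝ) * Real.logb 2 n := by gcongr
      _ ≤ _ := by gcongr
  have h3 : ((|s i - t i| : ℤ) : ℝ) ≤ (((⌈c'⌉₊ * lam n : ℕ) : ℤ) : ℝ) := by
    push_cast
    exact h1.trans h2
  exact_mod_cast h3

theorem pbd_coreA (U : List Bool →. List Bool) (D : List Bool → List Bool →. List Bool)
    (hU : OptPlain U) (hD : OptCond D) (C A' : ℕ) :
    ∃ A : ℕ, ∀ m : ℕ, 1 ≤ m → A * lam (6 * m) < m → ∀ x y q : List Bool,
      ap (C * lam m) (K q ()) (4 * m) → ap (C * lam m) (K x q) m →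
      ap (C * lam m) (K y q) (2 * m) →
      (∀ (e : ℕ) (q' : List Bool), K q' () ≤ 4 * m + e → K x q' ≤ 2 * m + e → K y q' ≤ m + e →
        m ≤ C * (e + lam m)) →
      ∀ q' : List Bool, CU U q' ≤ CU U q + A' * lam (6 * m) →
        CD D y q' ≤ CD D x q + A' * lam (6 * m) → CD D x q' ≤ CD D y q + A' * lam (6 * m) →
        False := by
  obtain ⟨c1, h1⟩ := plain_K U hU
  obtain ⟨c2, h2⟩ := cond_K D hD
  refine ⟨C * (C + A' + 2 * c1 + 2 * c2 + 1), ?_⟩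
  intro m hm hA x y q hq hxq hyq hbad q' g1 g2 g3
  have hl : lam m ≤ lam (6 * m) := lam_facts.2.1 _ _ (by omega)
  have hl1 : 1 ≤ lam (6 * m) := lam_facts.1 _
  set ℓ := lam (6 * m) with hℓ
  have hCl : C * lam m ≤ C * ℓ := Nat.mul_le_mul_left _ hl
  have hc : 2 * c1 + 2 * c2 ≤ (2 * c1 + 2 * c2) * ℓ := Nat.le_mul_of_pos_right _ hl1
  have key := hbad ((C + A' + 2 * c1 + 2 * c2) * ℓ) q' ?_ ?_ ?_
  · have : C * ((C + A' + 2 * c1 + 2 * c2) * ℓ + lam m) ≤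
        C * (C + A' + 2 * c1 + 2 * c2 + 1) * ℓ := by
      rw [mul_assoc]
      apply Nat.mul_le_mul_left
      exact pbd_ar _ _ _ hl
    omega
  · have b1 := h1 q
    have b2 := h1 q'
    unfold ap at b1 b2 hq
    have e1 : (C + A' + 2 * c1 + 2 * c2) * ℓ = C * ℓ + A' * ℓ + (2 * c1 + 2 * c2) * ℓ := by ring
    rw [e1]
    omega
  · have b1 := h2 y q
    have b2 := h2 x q'
    unfold ap at b1 b2 hyq
    have e1 : (C + A' + 2 * c1 + 2 * c2) * ℓ = C * ℓ + A' * ℓ + (2 * c1 + 2 * c2) * ℓ := by ring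
    rw [e1]
    omega
  · have b1 := h2 x q
    have b2 := h2 y q'
    unfold ap at b1 b2 hxq
    have e1 : (C + A' + 2 * c1 + 2 * c2) * ℓ = C * ℓ + A' * ℓ + (2 * c1 + 2 * c2) * ℓ := by ring
    rw [e1]
    omega

theorem pbd_coreB (U : List Bool →. List Bool)
    (pr : List Bool → List Bool → List Bool) (hU : OptPlain U)
    (hpr : PairCode pr) (C A' : ℕ) :
    ∃ A : ℕ, ∀ m : ℕ, 1 ≤ m → A * lam (6 * m) < m → ∀ x y q : List Bool,
      ap (C * lam m) (K x ()) (5 * m) → ap (C * lam m) (K y ()) (5 * m) →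
      ap (C * lam m) (K q ()) (4 * m) → ap (C * lam m) (K x q) m →
      ap (C * lam m) (K y q) (2 * m) →
      (∀ (e : ℕ) (q' : List Bool), K q' () ≤ 4 * m + e → K x q' ≤ 2 * m + e → K y q' ≤ m + e →
        m ≤ C * (e + lam m)) →
      CU U q ≤ 6 * m ∧
      ∀ q' : List Bool, (∀ i, |prof U pr x y q i - prof U pr y x q' i| ≤
        ((A' * lam (6 * m) : ℕ) : ℤ)) → False := by
  obtain ⟨c1, h1⟩ := plain_K U hU
  obtain ⟨c3, h3⟩ := pair_K pr hpr
  obtain ⟨C0, hT⟩ := toolkit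
  -- the constant for the empty string
  set k0 := K ([] : List Bool) () with hk0
  refine ⟨C + A' + 2 * c1 + k0 + C * (C + 2 * A' + 4 * c1 + 2 * c3 + 6 * C0 + 1), ?_⟩
  intro m hm hA x y q hx hy hq hxq hyq hbad
  have hl : lam m ≤ lam (6 * m) := lam_facts.2.1 _ _ (by omega)
  have hl1 : 1 ≤ lam (6 * m) := lam_facts.1 _
  set ℓ := lam (6 * m) with hℓ
  have hCl : C * lam m ≤ C * ℓ := Nat.mul_le_mul_left _ hl
  have hc : 4 * c1 + 2 * c3 ≤ (4 * c1 + 2 * c3) * ℓ := Nat.le_mul_of_pos_right _ hl1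
  have hA1 : (C + A' + 2 * c1 + k0) * ℓ < m := by
    refine lt_of_le_of_lt ?_ hA
    apply Nat.mul_le_mul_right
    omega
  have hA2 : C * (C + 2 * A' + 4 * c1 + 2 * c3 + 6 * C0 + 1) * ℓ < m := by
    refine lt_of_le_of_lt ?_ hA
    apply Nat.mul_le_mul_right
    omega
  have hA3 : C * ℓ + A' * ℓ + (2 * c1 + k0) < m := by
    have : 2 * c1 + k0 ≤ (2 * c1 + k0) * ℓ := Nat.le_mul_of_pos_right _ hl1
    have e1 : (C + A' + 2 * c1 + k0) * ℓ = C * ℓ + A' * ℓ + (2 * c1 + k0) * ℓ := by ring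
    omega
  have a1 := h1 q
  unfold ap at hx hy hq hxq hyq a1
  refine ⟨by omega, ?_⟩
  intro q' hq'
  have p2 := hq' 2
  have p4 := hq' 4
  have p5 := hq' 5
  rw [abs_le] at p2 p4 p5
  have e2 : prof U pr x y q 2 = CU U q := rfl
  have e2' : prof U pr y x q' 2 = CU U q' := rfl
  have e4 : prof U pr x y q 4 = CU U (pr x q) := rfl
  have e4' : prof U pr y x q' 4 = CU U (pr y q') := rfl
  have e5 : prof U pr x y q 5 = CU U (pr y q) := rfl
  have e5' : prof U pr y x q' 5 = CU U (pr x q') := rfl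
  rw [e2, e2'] at p2
  rw [e4, e4'] at p4
  rw [e5, e5'] at p5
  have a2 := h1 q'
  have a3 := h1 (pr x q)
  have a4 := h1 (pr y q')
  have a5 := h1 (pr y q)
  have a6 := h1 (pr x q')
  have b3 := (h3 x q).1
  have b4 := (h3 y q').1
  have b5 := (h3 y q).1
  have b6 := (h3 x q').1
  unfold ap at a2 a3 a4 a5 a6 b3 b4 b5 b6
  -- toolkit
  have tk := hT (6 * m) ![x, y, q, q', []] (by
    intro i
    fin_cases i
    · show K x () ≤ 6 * m
      omega
    · show K y () ≤ 6 * m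
      omega
    · show K q () ≤ 6 * m
      omega
    · show K q' () ≤ 6 * m
      omega
    · show K ([] : List Bool) () ≤ 6 * m
      omega)
  rw [← hℓ] at tk
  set W : Fin 5 → List Bool := ![x, y, q, q', []] with hW
  have t1 := tk.c1 2
  have t2 := tk.c1 3
  have t3 := tk.c2 0 2
  have t4 := tk.c2 1 3
  have t5 := tk.c2 1 2
  have t6 := tk.c2 0 3
  have t7 := tk.c11 0 2
  have t8 := tk.c11 1 3
  have t9 := tk.c11 1 2
  have t10 := tk.c11 0 3
  have w0 : W 0 = x := rfl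
  have w1 : W 1 = y := rfl
  have w2 : W 2 = q := rfl
  have w3 : W 3 = q' := rfl
  rw [w2] at t1
  rw [w3] at t2
  rw [w0, w2] at t3
  rw [w1, w3] at t4
  rw [w1, w2] at t5
  rw [w0, w3] at t6
  rw [w0, w2] at t7
  rw [w1, w3] at t8
  rw [w1, w2] at t9
  rw [w0, w3] at t10
  unfold ap at t1 t2 t3 t4 t5 t6 t7 t8 t9 t10
  have e1 : (C + 2 * A' + 4 * c1 + 2 * c3 + 6 * C0) * ℓ =
    C * ℓ + 2 * (A' * ℓ) + (4 * c1 + 2 * c3) * ℓ + 6 * (C0 * ℓ) := by ring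
  have key := hbad ((C + 2 * A' + 4 * c1 + 2 * c3 + 6 * C0) * ℓ) q' ?_ ?_ ?_
  · have : C * ((C + 2 * A' + 4 * c1 + 2 * c3 + 6 * C0) * ℓ + lam m) ≤
        C * (C + 2 * A' + 4 * c1 + 2 * c3 + 6 * C0 + 1) * ℓ := by
      rw [mul_assoc]
      apply Nat.mul_le_mul_left
      exact pbd_ar _ _ _ hl
    omega
  · rw [e1]
    omega
  · rw [e1]
    omega
  · rw [e1]
    omega

theorem pbd_wc (U : List Bool →. List Bool) (D : List Bool → List Bool →. List Bool)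
    (pr : List Bool → List Bool → List Bool) (hU : OptPlain U) (hD : OptCond D)
    (hpr : PairCode pr) (C : ℕ) :
    ∃ c : ℝ, 0 < c ∧ ∀ m : ℕ, 1 ≤ m → ∀ x y : List Bool,
      ap (C * lam m) (K x ()) (5 * m) → ap (C * lam m) (K y ()) (5 * m) →
      Close (c * Real.logb 2 (6 * m : ℕ)) (WCp U D pr x y) (WCp U D pr y x) := by
  obtain ⟨c1, h1⟩ := plain_K U hU
  obtain ⟨s, hs⟩ := pbd_swap U D pr hU hD hpr
  refine ⟨3 * ((s + 2 * C + 2 * c1 : ℕ) : ℝ) + 1, by positivity, ?_⟩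
  intro m hm x y hx hy
  have hl : lam m ≤ lam (6 * m) := lam_facts.2.1 _ _ (by omega)
  have hl1 : 1 ≤ lam (6 * m) := lam_facts.1 _
  have a1 := h1 x
  have a2 := h1 y
  unfold ap at hx hy a1 a2
  have g1 : CU U x ≤ CU U y + (2 * (C * lam m) + 2 * c1) := by omega
  have g2 : CU U y ≤ CU U x + (2 * (C * lam m) + 2 * c1) := by omega
  refine pbd_close (s + (2 * (C * lam m) + 2 * c1)) _ ?_
    (pbd_half U D pr s hs x y _ g1 g2) (pbd_half U D pr s hs y x _ g2 g1)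
  have g3 : s + (2 * (C * lam m) + 2 * c1) ≤ (s + 2 * C + 2 * c1) * lam (6 * m) := by
    have k1 : C * lam m ≤ C * lam (6 * m) := Nat.mul_le_mul_left _ hl
    have k2 : s + 2 * c1 ≤ (s + 2 * c1) * lam (6 * m) := Nat.le_mul_of_pos_right _ hl1
    have k3 : (s + 2 * C + 2 * c1) * lam (6 * m) =
      (s + 2 * c1) * lam (6 * m) + 2 * (C * lam (6 * m)) := by ring
    omega
  have g4 : ((s + (2 * (C * lam m) + 2 * c1) : ℕ) : ℝ) ≤
      (((s + 2 * C + 2 * c1) * lam (6 * m) : ℕ) : ℝ) := by exact_mod_cast g3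
  have g5 := pbd_lam_log (6 * m) (by omega)
  have g6 : (0 : ℝ) ≤ Real.logb 2 (6 * m : ℕ) :=
    Real.logb_nonneg (by norm_num) (by exact_mod_cast (by omega : 1 ≤ 6 * m))
  refine g4.trans ?_
  rw [Nat.cast_mul]
  have g7 : ((s + 2 * C + 2 * c1 : ℕ) : ℝ) * (lam (6 * m) : ℝ) ≤
      ((s + 2 * C + 2 * c1 : ℕ) : ℝ) * (3 * Real.logb 2 (6 * m : ℕ)) :=
    mul_le_mul_of_nonneg_left g5 (Nat.cast_nonneg _)
  linarith

theorem partBD (U : List Bool →. List Bool) (D : List Bool → List Bool →. List Bool)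
    (pr : List Bool → List Bool → List Bool) (hU : OptPlain U) (hD : OptCond D)
    (hpr : PairCode pr) :
    ¬ Determines (fun _ => WCp U D pr) (fun _ => GWp U D) ∧
    ¬ Determines (fun _ => WCp U D pr) (fun _ => Ep U pr) ∧
    ∀ B : ℕ → ℕ, (∀ n, n ≤ B n) →
      ¬ Determines (fun _ => WCp U D pr) (fun n => EpB U pr (B n)) := by
  obtain ⟨C, hC⟩ := asym_pair
  obtain ⟨c, hc, hclose⟩ := pbd_wc U D pr hU hD hpr C
  refine ⟨?_, ?_, ?_⟩
  · intro hdet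
    obtain ⟨c', hc', h⟩ := hdet c hc
    obtain ⟨A, hA⟩ := pbd_coreA U D hU hD C ⌈c'⌉₊
    obtain ⟨m, hm, hmA⟩ := pbd_exists_m A
    obtain ⟨x, y, q, lx, ly, kx, ky, kq, kxq, kyq, hbad⟩ := hC m
    have h2 := h (6 * m) (by omega) x y y x (by omega) (by omega) (by omega) (by omega)
      (hclose m hm x y kx ky)
    obtain ⟨t, ⟨q', t2, t0, t1⟩, ht⟩ := pbd_close' c' hc' (6 * m) (by omega) h2
      ![(CD D x q : ℤ), (CD D y q : ℤ), (CU U q : ℤ)] ⟨q, by simp, by simp, by simp⟩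
    have p0 := abs_le.1 (ht 0)
    have p1 := abs_le.1 (ht 1)
    have p2 := abs_le.1 (ht 2)
    have e0 : (![(CD D x q : ℤ), (CD D y q : ℤ), (CU U q : ℤ)] : Fin 3 → ℤ) 0 = CD D x q := rfl
    have e1 : (![(CD D x q : ℤ), (CD D y q : ℤ), (CU U q : ℤ)] : Fin 3 → ℤ) 1 = CD D y q := rfl
    have e2 : (![(CD D x q : ℤ), (CD D y q : ℤ), (CU U q : ℤ)] : Fin 3 → ℤ) 2 = CU U q := rfl
    rw [e0] at p0
    rw [e1] at p1
    rw [e2] at p2
    exact hA m hm hmA x y q kq kxq kyq hbad q' (by omega) (by omega) (by omega)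
  · intro hdet
    obtain ⟨c', hc', h⟩ := hdet c hc
    obtain ⟨A, hA⟩ := pbd_coreB U pr hU hpr C ⌈c'⌉₊
    obtain ⟨m, hm, hmA⟩ := pbd_exists_m A
    obtain ⟨x, y, q, lx, ly, kx, ky, kq, kxq, kyq, hbad⟩ := hC m
    have h2 := h (6 * m) (by omega) x y y x (by omega) (by omega) (by omega) (by omega)
      (hclose m hm x y kx ky)
    obtain ⟨t, ⟨q', rfl⟩, ht⟩ := pbd_close' c' hc' (6 * m) (by omega) h2
      (prof U pr x y q) ⟨q, rfl⟩
    exact (hA m hm hmA x y q kx ky kq kxq kyq hbad).2 q' ht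
  · intro B hB hdet
    obtain ⟨c', hc', h⟩ := hdet c hc
    obtain ⟨A, hA⟩ := pbd_coreB U pr hU hpr C ⌈c'⌉₊
    obtain ⟨m, hm, hmA⟩ := pbd_exists_m A
    obtain ⟨x, y, q, lx, ly, kx, ky, kq, kxq, kyq, hbad⟩ := hC m
    have hA' := hA m hm hmA x y q kx ky kq kxq kyq hbad
    have h2 := h (6 * m) (by omega) x y y x (by omega) (by omega) (by omega) (by omega)
      (hclose m hm x y kx ky)
    obtain ⟨t, ⟨q', _, rfl⟩, ht⟩ := pbd_close' c' hc' (6 * m) (by omega) h2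
      (prof U pr x y q) ⟨q, hA'.1.trans (hB _), rfl⟩
    exact hA'.2 q' ht

end Pool.Agent.Helper760.EP.J4310
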