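import Mathlib
import Pool.Agent.Helper760.EP.Base3
import Pool.Agent.Helper760.EP.UDefs

set_option autoImplicit false

namespace Pool.Agent.Helper760.EP.J4315

open Encodable
open Pool.Agent.Helper760.Kolm









theorem EPup_SizeN_mono {a b a' b' N N' : ℕ} {l : List (ℕ × ℕ)} (ha : a ≤ a') (hb : b ≤ b')
    (hN : N ≤ N') (h : Pool.Agent.Helper760.Cov.SizeN a b N l) :
    Pool.Agent.Helper760.Cov.SizeN a' b' N' l :=
  ⟨fun q hq => ⟨((h.1 q hq).1).trans ha, ((h.1 q hq).2).trans hb⟩, h.2.trans hN⟩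

theorem upper_AK : ∃ C : ℕ, ∀ (N : ℕ) (x y q : List Bool), K x () ≤ N → K y () ≤ N →
    K q () ≤ N → ∃ q' : List Bool, K q' () + K (x, y) q ≤ K (x, y) () + C * lam N ∧
      K x q' ≤ K x q + C * lam N ∧ K y q' ≤ K y q + C * lam N ∧ K q' (x, y) ≤ C * lam N := by
  obtain ⟨hGp, hGm, hprm⟩ := Gf_facts
  obtain ⟨C1, hgood⟩ := good_count
  obtain ⟨cl, hcl, hcov⟩ := Pool.Agent.Helper760.GW.computable_cover
    (Pool.Agent.Helper760.GW.fGW Gf) (Pool.Agent.Helper760.GW.fGW_primrec Gf hGp).1 prm2 hprm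
  obtain ⟨cc, hcK⟩ := Pool.Agent.Helper760.GW.clusterK cl hcl
  obtain ⟨cg, hnG⟩ := Pool.Agent.Helper760.GW.nG_le
  obtain ⟨cL, hlabK⟩ := Pool.Agent.Helper760.GW.labK
  obtain ⟨cf, hfirst⟩ := first_cluster cl hcl
  obtain ⟨lam1, lam2, _, lam4⟩ := lam_facts
  obtain ⟨c2, h2⟩ := K_comp (fun (d : List Bool × List Bool) (_ : List Bool) => d)
    (Computable.fst).to₂ (fun _ : List Bool => ()) (Computable.const ())
  obtain ⟨ca, hca⟩ := K_comp (fun (d : List Bool) (_ : List Bool) => d)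
    (Computable.fst).to₂ (fun _ : List Bool => ()) (Computable.const ())
  obtain ⟨c8, h8⟩ := K_chain0 (α := List Bool) (β := List Bool × List Bool)
  obtain ⟨c9, h9⟩ := K_comp (fun (d : List Bool) (b : List Bool) => (b, d))
    (Computable.pair Computable.snd Computable.fst).to₂ (fun _ : List Bool => ())
    (Computable.const ())
  have hun : Primrec (fun n : ℕ => (List.range n).map (fun _ => true)) :=
    Primrec.list_map Primrec.list_range (Primrec.const true).to₂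
  obtain ⟨c3, h3⟩ := K_comp (fun (d : ℕ) (_ : Unit) => (List.range d).map (fun _ => true))
    (hun.comp Primrec.fst).to_comp.to₂ (fun _ : Unit => ()) (Computable.const ())
  obtain ⟨c4, h4⟩ := K_comp (fun (d : List Bool) (_ : List Bool) => d)
    (Computable.fst).to₂ (fun b : List Bool => b.length) Computable.list_length
  obtain ⟨c5, h5⟩ := K_comp (fun (d : ℕ) (_ : List Bool × List Bool) =>
      (List.range d).map (fun _ => true))
    (hun.comp Primrec.fst).to_comp.to₂ (fun b : List Bool × List Bool => b) Computable.id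
  -- constants
  obtain ⟨D, hD⟩ : ∃ D, D = 20 + 2 * ca + (c8 + c9) + C1 + c2 := ⟨_, rfl⟩
  obtain ⟨E, hE⟩ : ∃ E, E = Nat.size D + 2 := ⟨_, rfl⟩
  obtain ⟨D3, hD3⟩ : ∃ D3, D3 = D + 2 + 32 * E + cc := ⟨_, rfl⟩
  obtain ⟨E3, hE3⟩ : ∃ E3, E3 = Nat.size D3 + 2 := ⟨_, rfl⟩
  obtain ⟨C, hC⟩ : ∃ C, C = C1 + 2 + c2 + cg * (E + 1) + 64 * E + cc + c3 + 2 * E3 + 2 * E + cL
    + c4 + 2 + cf + c5 := ⟨_, rfl⟩
  refine ⟨C, ?_⟩
  intro N x y q hx hy hq
  obtain ⟨L, hL⟩ : ∃ L, L = lam N := ⟨_, rfl⟩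
  have hL1 : 1 ≤ L := hL ▸ lam1 N
  have hLN : L ≤ N + 1 := hL ▸ lam4 N
  have hsz : ∀ D' m, m ≤ D' * (N + 1) → Nat.size m ≤ (Nat.size D' + 2) * L := by
    intro D' m hm
    have e1 := lam2 m (D' * (N + 1)) hm
    have e2 := lam_le D' N
    have e3 : lam m = Nat.size m + 1 := rfl
    rw [hL]
    omega
  rw [← hL]
  obtain ⟨F, hF, hFc⟩ := hgood N x y q hx hy hq
  obtain ⟨g, hg⟩ : ∃ g, g = K q () := ⟨_, rfl⟩
  obtain ⟨a, ha⟩ : ∃ a, a = K x q := ⟨_, rfl⟩
  obtain ⟨b, hb⟩ : ∃ b, b = K y q := ⟨_, rfl⟩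
  obtain ⟨k, hk⟩ : ∃ k, k = K (x, y) () := ⟨_, rfl⟩
  obtain ⟨c0, hc0⟩ : ∃ c0, c0 = K (x, y) q := ⟨_, rfl⟩
  rw [← hg] at hq
  rw [← hg, ← hc0, ← hk, ← hL] at hFc
  rw [← hg, ← ha, ← hb] at hF
  rw [← ha, ← hb, ← hk, ← hc0]
  have hc0k : c0 ≤ k + c2 := by
    have := h2 (x, y) q
    rw [hc0, hk]
    exact this
  have haN : a ≤ N + ca := by
    have := hca x q
    omega
  have hbN : b ≤ N + ca := by
    have := hca y q
    omega
  have hkN : k ≤ 4 * N + (c8 + c9) := by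
    have e1 := h8 x (x, y)
    have e2 : K (x, y) x ≤ K y () + c9 := h9 y x
    have e3 := size_le_self (K x ())
    omega
  obtain ⟨h, hh⟩ : ∃ h, h + c0 = k + C1 * L + 1 + c2 := ⟨k + C1 * L + 1 + c2 - c0, by omega⟩
  have hC1L : C1 * L ≤ C1 * (N + 1) := Nat.mul_le_mul_left _ hLN
  have hhN : h ≤ (4 + (c8 + c9) + C1 + 1 + c2) * (N + 1) := by
    have e1 : (4 + (c8 + c9) + C1 + 1 + c2) * (N + 1) =
      4 * N + 4 + (c8 + c9) * N + (c8 + c9) + C1 * (N + 1) + N + 1 + c2 * N + c2 := by ring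
    rw [e1]
    omega
  have hcount : 2 ^ (g + 1) ≤ 2 ^ h * F.card := by
    have e1 : 2 ^ (g + 1) * 2 ^ c0 ≤ 2 ^ h * F.card * 2 ^ c0 := by
      calc 2 ^ (g + 1) * 2 ^ c0 = 2 * 2 ^ (g + c0) := by ring
        _ ≤ 2 * (2 ^ (k + C1 * L) * F.card) := Nat.mul_le_mul_left _ hFc
        _ = 2 ^ (k + C1 * L + 1) * F.card := by ring
        _ ≤ 2 ^ (h + c0) * F.card :=
          Nat.mul_le_mul_right _ (Nat.pow_le_pow_right (by norm_num) (by omega))
        _ = 2 ^ h * F.card * 2 ^ c0 := by ring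
    exact Nat.le_of_mul_le_mul_right e1 (by positivity)
  obtain ⟨k0, hk0⟩ := count_U N a b g h x y F hF hcount
  obtain ⟨tx, htx⟩ := Pool.Agent.Helper760.GW.mem_lab N x hx
  obtain ⟨ty, hty⟩ := Pool.Agent.Helper760.GW.mem_lab N y hy
  obtain ⟨kk, hkk⟩ : ∃ kk, kk = k0 + tx + ty := ⟨_, rfl⟩
  obtain ⟨i, hi⟩ := htx (g + 1 + kk) (by omega)
  obtain ⟨j, hj⟩ := hty (g + 1 + kk) (by omega)
  have hU := hk0 kk (by omega) i j hi hj
  obtain ⟨n, hn⟩ : ∃ n, n = N + a + b + g + h + 5 := ⟨_, rfl⟩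
  have hprmz : prm2 (N, a, b, g, h) = (n, a + 1, b + 1, h) := by
    simp only [prm2, hn]
  obtain ⟨hmono, hsize, hcover⟩ := hcov (N, a, b, g, h) n (a + 1) (b + 1) h hprmz (by omega)
    (by omega) (by omega) (fun σ b' => Pool.Agent.Helper760.GW.fGW_mono Gf hGm _ σ b')
    (fun σ e he => by
      have := Pool.Agent.Helper760.GW.fGW_lt Gf (N, a, b, g, h) σ e he
      simp only [Pool.Agent.Helper760.GW.prm] at this
      rw [hn]
      exact this)
    (fun σ => by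
      have := Pool.Agent.Helper760.GW.fGW_card Gf (N, a, b, g, h) σ
      simp only [Pool.Agent.Helper760.GW.prm] at this
      exact this)
  obtain ⟨t', i', j', q1, hi', hj', hq1, hqi, hqj, hKq⟩ :=
    hfirst (N, a, b, g, h) N (g + 1 + kk) i j x y hi hj (hcover _ i j hU)
  obtain ⟨NN, hNN⟩ : ∃ NN, NN = h + 1 + cg * (Nat.size n + 1) := ⟨_, rfl⟩
  have hS : ∀ t, Pool.Agent.Helper760.Cov.SizeN (2 ^ (a + 2)) (2 ^ (b + 2)) (2 ^ NN)
      (cl (N, a, b, g, h) t) := fun t =>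
    EPup_SizeN_mono (by rw [pow_succ 2 (a + 1), mul_comm]) (by rw [pow_succ 2 (b + 1), mul_comm])
      (by rw [hNN]; exact hnG n (h + 1)) (hsize t)
  obtain ⟨S, hSz⟩ : ∃ S, S = Nat.size (encode ((N, a, b, g, h) : ℕ × ℕ × ℕ × ℕ × ℕ)) := ⟨_, rfl⟩
  obtain ⟨hK1, hK2⟩ := hcK (N, a, b, g, h) (a + 2) (b + 2) NN hmono hS t' q1 hq1
  have hKi := (hK2 i').1 hqi
  have hKj := (hK2 j').2 hqj
  rw [← hSz] at hK1 hKi hKj
  -- sizes
  have hDge : ∀ m c, m ≤ c * (N + 1) → c ≤ D → m ≤ D * (N + 1) := fun m c hm hc =>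
    hm.trans (Nat.mul_le_mul_right _ hc)
  have sN : Nat.size N ≤ E * L := by
    rw [hE]
    exact hsz D N (hDge N 1 (by omega) (by omega))
  have sa : Nat.size a ≤ E * L := by
    rw [hE]
    refine hsz D a (hDge a (1 + ca) ?_ (by omega))
    have : (1 + ca) * (N + 1) = N + 1 + ca * N + ca := by ring
    omega
  have sb : Nat.size b ≤ E * L := by
    rw [hE]
    refine hsz D b (hDge b (1 + ca) ?_ (by omega))
    have : (1 + ca) * (N + 1) = N + 1 + ca * N + ca := by ring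
    omega
  have sg : Nat.size g ≤ E * L := by
    rw [hE]
    exact hsz D g (hDge g 1 (by omega) (by omega))
  have sh : Nat.size h ≤ E * L := by
    rw [hE]
    exact hsz D h (hDge h _ hhN (by omega))
  have sn : Nat.size n ≤ E * L := by
    rw [hE]
    refine hsz D n (hDge n (1 + 2 * (1 + ca) + 1 + (4 + (c8 + c9) + C1 + 1 + c2) + 5) ?_ (by omega))
    have e1 : (1 + 2 * (1 + ca) + 1 + (4 + (c8 + c9) + C1 + 1 + c2) + 5) * (N + 1) =
      9 * (N + 1) + 2 * (ca * N) + 2 * ca + (4 + (c8 + c9) + C1 + 1 + c2) * (N + 1) := by ring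
    rw [e1]
    omega
  have hS16 : S ≤ 16 * (E * L) := by
    rw [hSz, encode_prod_val, encode_prod_val, encode_prod_val, encode_prod_val]
    simp only [encode_nat]
    have e1 := size_pair_le g h
    have e2 := size_pair_le b (Nat.pair g h)
    have e3 := size_pair_le a (Nat.pair b (Nat.pair g h))
    have e4 := size_pair_le N (Nat.pair a (Nat.pair b (Nat.pair g h)))
    omega
  have hS32 : Nat.size (encode (((N, a, b, g, h) : ℕ × ℕ × ℕ × ℕ × ℕ), N)) ≤ 32 * (E * L) := by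
    rw [encode_prod_val]
    have e1 := size_pair_le (encode ((N, a, b, g, h) : ℕ × ℕ × ℕ × ℕ × ℕ)) (encode N)
    rw [← hSz] at e1
    simp only [encode_nat] at e1 ⊢
    omega
  have hELN : E * L ≤ E * (N + 1) := Nat.mul_le_mul_left _ hLN
  have sKi : Nat.size (K i' q1.1) ≤ E3 * L := by
    rw [hE3]
    refine hsz D3 _ (hKi.trans ?_)
    have e0 : a ≤ D * (N + 1) := by
      refine hDge a (1 + ca) ?_ (by omega)
      have : (1 + ca) * (N + 1) = N + 1 + ca * N + ca := by ring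
      omega
    have e1 : D3 * (N + 1) = D * (N + 1) + 2 * N + 2 + 32 * (E * (N + 1)) + cc * N + cc := by
      rw [hD3]; ring
    rw [e1]
    omega
  have sKj : Nat.size (K j' q1.1) ≤ E3 * L := by
    rw [hE3]
    refine hsz D3 _ (hKj.trans ?_)
    have e0 : b ≤ D * (N + 1) := by
      refine hDge b (1 + ca) ?_ (by omega)
      have : (1 + ca) * (N + 1) = N + 1 + ca * N + ca := by ring
      omega
    have e1 : D3 * (N + 1) = D * (N + 1) + 2 * N + 2 + 32 * (E * (N + 1)) + cc * N + cc := by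
      rw [hD3]; ring
    rw [e1]
    omega
  have hlx := hlabK N t' i' q1.1 x hi'
  have hly := hlabK N t' j' q1.1 y hj'
  -- the string
  have hlen : ((List.range q1.1).map (fun _ => true)).length = q1.1 := by simp
  have f1 : K ((List.range q1.1).map (fun _ => true)) () ≤ K q1.1 () + c3 := h3 q1.1 ()
  have f2 : K x ((List.range q1.1).map (fun _ => true)) ≤ K x q1.1 + c4 := by
    have := h4 x ((List.range q1.1).map (fun _ => true))
    rw [hlen] at this
    exact this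
  have f3 : K y ((List.range q1.1).map (fun _ => true)) ≤ K y q1.1 + c4 := by
    have := h4 y ((List.range q1.1).map (fun _ => true))
    rw [hlen] at this
    exact this
  have f4 : K ((List.range q1.1).map (fun _ => true)) (x, y) ≤ K q1.1 (x, y) + c5 := h5 q1.1 (x, y)
  have hcn : cg * (Nat.size n + 1) ≤ cg * (E * L + L) := Nat.mul_le_mul_left _ (by omega)
  have hCL : C * L = C1 * L + 2 * L + c2 * L + cg * (E * L + L) + 64 * (E * L) + cc * L + c3 * L +
      2 * (E3 * L) + 2 * (E * L) + cL * L + c4 * L + 2 * L + cf * L + c5 * L := by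
    rw [hC]; ring
  have g1 : c2 ≤ c2 * L := Nat.le_mul_of_pos_right _ hL1
  have g2 : cc ≤ cc * L := Nat.le_mul_of_pos_right _ hL1
  have g3 : c3 ≤ c3 * L := Nat.le_mul_of_pos_right _ hL1
  have g4 : cL ≤ cL * L := Nat.le_mul_of_pos_right _ hL1
  have g5 : c4 ≤ c4 * L := Nat.le_mul_of_pos_right _ hL1
  have g6 : cf ≤ cf * L := Nat.le_mul_of_pos_right _ hL1
  have g7 : c5 ≤ c5 * L := Nat.le_mul_of_pos_right _ hL1
  refine ⟨(List.range q1.1).map (fun _ => true), ?_, ?_, ?_, ?_⟩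
  · rw [hCL]
    omega
  · rw [hCL]
    omega
  · rw [hCL]
    omega
  · rw [hCL]
    omega

end Pool.Agent.Helper760.EP.J4315
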