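import Mathlib
import Pool.Agent.Helper760.EP.Base3
import Pool.Agent.Helper760.EP.J4287
import Pool.Agent.Helper760.EP.J4315
import Pool.Agent.Helper760.EP.J4310

set_option autoImplicit false

namespace Pool.Agent.Helper760.EP

alias hashK := J4287.hashK
alias upper_AK := J4315.upper_AK
alias partBD := J4310.partBD

end Pool.Agent.Helper760.EP
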