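import Mathlib
import Pool.Agent.Helper760.EP.Base4

set_option autoImplicit false

namespace Pool.Agent.Helper760.EP.J4288

open Encodable
open Pool.Agent.Helper760.Kolm

/-- tuple type -/
abbrev LT := List (Option (List Bool))

/-- code of a tuple as a string -/
def hcode (l : LT) : List Bool := (List.range (encode l)).map (fun _ => true)

/-- inverse -/
def hdec (s : List Bool) : LT := (decode (α := LT) s.length).getD []

theorem hdec_hcode (l : LT) : hdec (hcode l) = l := by
  unfold hdec hcode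
  rw [List.length_map, List.length_range, encodek]
  rfl

theorem hcode_primrec : Primrec hcode := by
  unfold hcode
  exact Primrec.list_map (Primrec.list_range.comp Primrec.encode) (Primrec.const true).to₂

theorem hdec_primrec : Primrec hdec := by
  unfold hdec
  exact Primrec.option_getD.comp (Primrec.decode.comp Primrec.list_length) (Primrec.const [])

/-- split off the entry 4 -/
def hsplit (l : LT) : List Bool × LT := ((l.getD 4 none).getD [], l.take 4 ++ [none])

theorem hsplit_primrec : Primrec hsplit := by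
  unfold hsplit
  refine Primrec.pair ?_ ?_
  · exact Primrec.option_getD.comp ((Primrec.list_getD none).comp Primrec.id (Primrec.const 4))
      (Primrec.const [])
  · exact Primrec.list_append.comp (Primrec.list_take.comp (Primrec.const 4) Primrec.id)
      (Primrec.const [none])

theorem tup_eq (W : Fin 5 → List Bool) (S : Finset (Fin 5)) : tup W S =
    [if (0 : Fin 5) ∈ S then some (W 0) else none, if (1 : Fin 5) ∈ S then some (W 1) else none,
     if (2 : Fin 5) ∈ S then some (W 2) else none, if (3 : Fin 5) ∈ S then some (W 3) else none,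
     if (4 : Fin 5) ∈ S then some (W 4) else none] := rfl

theorem tup_upd (W : Fin 5 → List Bool) (p : List Bool) (S : Finset (Fin 5)) (h : 4 ∉ S) :
    tup (Function.update W 4 p) S = tup W S := by
  unfold tup
  apply List.map_congr_left
  intro i _
  by_cases hi : i ∈ S
  · rw [if_pos hi, if_pos hi, Function.update_of_ne]
    rintro rfl
    exact h hi
  · rw [if_neg hi, if_neg hi]

theorem tup_four (W : Fin 5 → List Bool) (p : List Bool) :
    tup (Function.update W 4 p) {4} = [none, none, none, none, some p] := by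
  rw [tup_eq]
  simp

theorem hsplit_tup (W : Fin 5 → List Bool) (p : List Bool) (S : Finset (Fin 5)) (h : 4 ∉ S) :
    hsplit (tup (Function.update W 4 p) (insert 4 S)) = (p, tup W S) := by
  rw [tup_eq, tup_eq, if_neg h]
  unfold hsplit
  simp

theorem Tk_mono {e e' M M' : ℕ} {W : Fin 5 → List Bool} (h : Tk e M W) (he : e ≤ e')
    (hM : M ≤ M') : Tk e' M' W where
  mono S T hST := le_trans (h.mono S T hST) (by omega)
  sub S T := le_trans (h.sub S T) (by omega)
  bd S := le_trans (h.bd S) hM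
  cd S T := ⟨le_trans (h.cd S T).1 (by omega), le_trans (h.cd S T).2 (by omega)⟩
  c1 i := ⟨le_trans (h.c1 i).1 (by omega), le_trans (h.c1 i).2 (by omega)⟩
  c2 i j := ⟨le_trans (h.c2 i j).1 (by omega), le_trans (h.c2 i j).2 (by omega)⟩
  c3 i j k := ⟨le_trans (h.c3 i j k).1 (by omega), le_trans (h.c3 i j k).2 (by omega)⟩
  c11 i j := ⟨le_trans (h.c11 i j).1 (by omega), le_trans (h.c11 i j).2 (by omega)⟩
  c21 i j k := ⟨le_trans (h.c21 i j k).1 (by omega), le_trans (h.c21 i j k).2 (by omega)⟩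
  c12 i j k := ⟨le_trans (h.c12 i j k).1 (by omega), le_trans (h.c12 i j k).2 (by omega)⟩
  c22 i j k l := ⟨le_trans (h.c22 i j k l).1 (by omega), le_trans (h.c22 i j k l).2 (by omega)⟩

theorem hash_tup : ∃ C : ℕ, ∀ (N t : ℕ) (W : Fin 5 → List Bool) (A : Finset (Fin 5))
    (T : Fin 3 → Finset (Fin 5)), (∀ i, K (W i) () ≤ N) → 4 ∉ A → (∀ i, 4 ∉ T i) →
    (∀ i, H W (T i) + t + C * lam N ≤ H W (A ∪ T i)) →
    ∃ p : List Bool, K p () ≤ C * (N + 1) ∧
      Tk (C * lam N) (C * (N + 1)) (Function.update W 4 p) ∧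
      (∀ S : Finset (Fin 5), 4 ∉ S → H (Function.update W 4 p) S = H W S) ∧
      H (Function.update W 4 p) {4} ≤ t + C * lam N ∧
      H (Function.update W 4 p) (insert 4 A) ≤ H W A + C * lam N ∧
      ∀ i, H W (T i) + t ≤ H (Function.update W 4 p) (insert 4 (T i)) + C * lam N := by
  obtain ⟨C1, htk⟩ := toolkit
  obtain ⟨C2, hhash⟩ := hashK (β := LT)
  obtain ⟨hlam1, -, -, -⟩ := lam_facts
  obtain ⟨ca, hca⟩ := K_comp (fun (l : LT) (_ : Unit) => hcode l)
    ((hcode_primrec.comp Primrec.fst).to_comp.to₂) (fun u : Unit => u) Computable.id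
  obtain ⟨ch, hch⟩ := K_comp (fun (l : LT) (_ : LT) => hcode l)
    ((hcode_primrec.comp Primrec.fst).to_comp.to₂) (fun u : LT => u) Computable.id
  obtain ⟨cd, hcd⟩ := K_comp (fun (s : List Bool) (_ : LT) => hdec s)
    ((hdec_primrec.comp Primrec.fst).to_comp.to₂) (fun u : LT => u) Computable.id
  obtain ⟨ce, hce⟩ := K_comp (fun (s : List Bool) (_ : LT) => s)
    (Computable.fst.to₂) (fun _ : LT => ()) (Computable.const ())
  obtain ⟨cf, hcf⟩ := K_comp (fun (p : List Bool) (_ : LT) =>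
      ([none, none, none, none, some p] : LT))
    ((Primrec.list_cons.comp (Primrec.const none) (Primrec.list_cons.comp (Primrec.const none)
      (Primrec.list_cons.comp (Primrec.const none) (Primrec.list_cons.comp (Primrec.const none)
      (Primrec.list_cons.comp (Primrec.option_some.comp Primrec.fst) (Primrec.const [])))))).to_comp.to₂)
    hcode hcode_primrec.to_comp
  obtain ⟨cg, hcg⟩ := K_comp (fun (s : List Bool) (_ : LT) => hdec s)
    ((hdec_primrec.comp Primrec.fst).to_comp.to₂) hsplit hsplit_primrec.to_comp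
  obtain ⟨C3, hC3⟩ : ∃ C3, C3 = C1 + ca + ce + 1 := ⟨_, rfl⟩
  obtain ⟨s1, hs1⟩ : ∃ s1, s1 = Nat.size (C1 + ca) + 2 := ⟨_, rfl⟩
  obtain ⟨s3, hs3⟩ : ∃ s3, s3 = Nat.size C3 + 2 := ⟨_, rfl⟩
  refine ⟨C1 + cd + C2 * s1 + C1 * s3 + C1 * s3 + ch + cg + cf + C1 * (C3 + 1) + C3, ?_⟩
  intro N t W A T hW hA hT hgap
  have hΛ := hlam1 N
  obtain ⟨Λ, hΛd⟩ : ∃ Λ, Λ = lam N := ⟨_, rfl⟩
  rw [← hΛd] at hΛ hgap ⊢
  have hexp : (C1 + cd + C2 * s1 + C1 * s3 + C1 * s3 + ch + cg + cf + C1 * (C3 + 1) + C3) * Λ =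
      C1 * Λ + cd * Λ + C2 * s1 * Λ + C1 * s3 * Λ + C1 * s3 * Λ + ch * Λ + cg * Λ + cf * Λ +
        C1 * (C3 + 1) * Λ + C3 * Λ := by ring
  have hexp2 : (C1 + cd + C2 * s1 + C1 * s3 + C1 * s3 + ch + cg + cf + C1 * (C3 + 1) + C3) * (N + 1) =
      (C1 + cd + C2 * s1 + C1 * s3 + C1 * s3 + ch + cg + cf) * (N + 1) +
        C1 * (C3 + 1) * (N + 1) + C3 * (N + 1) := by ring
  rw [hexp] at hgap ⊢
  rw [hexp2]
  have hcd' : cd ≤ cd * Λ := Nat.le_mul_of_pos_right _ hΛ
  have hch' : ch ≤ ch * Λ := Nat.le_mul_of_pos_right _ hΛ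
  have hcg' : cg ≤ cg * Λ := Nat.le_mul_of_pos_right _ hΛ
  have hcf' : cf ≤ cf * Λ := Nat.le_mul_of_pos_right _ hΛ
  have htkW := htk N W hW
  rw [← hΛd] at htkW
  obtain ⟨w, hw⟩ : ∃ w, w = hcode (tup W A) := ⟨_, rfl⟩
  obtain ⟨N1, hN1⟩ : ∃ N1, N1 = (C1 + ca) * (N + 1) := ⟨_, rfl⟩
  have hwN1 : K w () ≤ N1 := by
    have h1 := hca (tup W A) ()
    have h2 := htkW.bd A
    have h3 : ca ≤ ca * (N + 1) := Nat.le_mul_of_pos_right _ (by omega)
    rw [hw, hN1, add_mul]
    unfold H at h2
    omega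
  have hlamN1 : C2 * lam N1 ≤ C2 * s1 * Λ := by
    rw [hN1, hs1, hΛd, mul_assoc]
    exact Nat.mul_le_mul_left _ (lam_le _ _)
  have hdw : hdec w = tup W A := by rw [hw, hdec_hcode]
  have hhyp : ∀ i, t + C2 * lam N1 ≤ K w (tup W (T i)) := by
    intro i
    have h1 := hcd w (tup W (T i))
    rw [hdw] at h1
    have h2 := (htkW.cd A (T i)).2
    have h3 := hgap i
    omega
  obtain ⟨p, hp1, hp2, hp3⟩ := hhash N1 t w (fun i => tup W (T i)) hwN1 hhyp
  have hpN : K p () ≤ N1 + ce := by
    have h1 := hhyp 0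
    have h2 := hce w (tup W (T 0))
    omega
  have hpN3 : K p () ≤ C3 * (N + 1) := by
    have h3 : ce ≤ ce * (N + 1) := Nat.le_mul_of_pos_right _ (by omega)
    have h4 : C3 * (N + 1) = (C1 + ca) * (N + 1) + ce * (N + 1) + (N + 1) := by
      rw [hC3]
      ring
    rw [h4, ← hN1]
    omega
  have hW' : ∀ i, K (Function.update W 4 p i) () ≤ C3 * (N + 1) := by
    intro i
    by_cases hi : i = 4
    · subst hi
      rw [Function.update_self]
      exact hpN3
    · rw [Function.update_of_ne hi]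
      have h1 := hW i
      have h4 : C3 * (N + 1) = (C1 + ca + ce) * (N + 1) + (N + 1) := by
        rw [hC3]
        ring
      omega
  have htk' := htk (C3 * (N + 1)) (Function.update W 4 p) hW'
  have he' : C1 * lam (C3 * (N + 1)) ≤ C1 * s3 * Λ := by
    rw [hs3, hΛd, mul_assoc]
    exact Nat.mul_le_mul_left _ (lam_le _ _)
  have hM' : C1 * (C3 * (N + 1) + 1) ≤ C1 * (C3 + 1) * (N + 1) := by
    have : C1 * (C3 + 1) * (N + 1) = C1 * (C3 * (N + 1) + 1) + C1 * N := by ring
    omega
  have htk3 := Tk_mono htk' he' hM'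
  have htupA : tup (Function.update W 4 p) A = tup W A := tup_upd W p A hA
  have hHS : ∀ S : Finset (Fin 5), 4 ∉ S → H (Function.update W 4 p) S = H W S := by
    intro S hS
    unfold H
    rw [tup_upd W p S hS]
  refine ⟨p, ?_, ?_, hHS, ?_, ?_, ?_⟩
  · omega
  · exact Tk_mono htk3 (by omega) (by omega)
  · have h1 := (htk3.c1 4).2
    rw [Function.update_self] at h1
    omega
  · have h1 := (htk3.cd {4} A).2
    have h2 := hcf p (tup W A)
    rw [← hw] at h2
    rw [tup_four, htupA, hHS A hA, ← Finset.insert_eq] at h1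
    omega
  · intro i
    have h1 := (htk3.cd A (insert 4 (T i))).2
    have h2 := hcg w (tup (Function.update W 4 p) (insert 4 (T i)))
    rw [hdw, hsplit_tup W p (T i) (hT i)] at h2
    rw [htupA] at h1
    have h3 := htk3.mono (A ∪ T i) (A ∪ insert 4 (T i))
      (Finset.union_subset_union_right (Finset.subset_insert _ _))
    have h4 : 4 ∉ A ∪ T i := by
      rw [Finset.mem_union]
      exact fun h => h.elim hA (hT i)
    rw [hHS _ h4] at h3
    have h5 := (htkW.cd A (T i)).1
    have h6 := hch (tup W A) (tup W (T i))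
    rw [← hw] at h6
    have h7 := hp3 i
    omega

end Pool.Agent.Helper760.EP.J4288
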