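import Mathlib
import Pool.Agent.Helper760.EP.Base4
import Pool.Agent.Helper760.EP.J4288

set_option autoImplicit false

namespace Pool.Agent.Helper760.EP

alias hash_tup := J4288.hash_tup

end Pool.Agent.Helper760.EP
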