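import Mathlib
import Pool.Agent.Helper760.EP.Base5

set_option autoImplicit false

namespace Pool.Agent.Helper760.EP.J4290

open Encodable
open Pool.Agent.Helper760.Kolm

-- TARGET
theorem fix_one : ∃ C : ℕ, ∀ (N s a b c : ℕ) (x y q u : List Bool), K x () ≤ N → K y () ≤ N →
    K q () ≤ N → K u () ≤ N → K u q ≤ s → K q (x, y) ≤ s → K y q ≤ b + s →
    K q () + c ≤ K (x, y) () + s → a ≤ K x u + s → K x u ≤ a + s → b ≤ K y u + s → a ≤ c + s →
    ∃ v : List Bool, K v () ≤ C * (N + s + 1) ∧ K v (x, y) ≤ C * (s + lam N) ∧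
      ap (C * (s + lam N)) (K x v) a ∧ ap (C * (s + lam N)) (K y v) b ∧
      K v () + c ≤ K (x, y) () + C * (s + lam N) := by
  obtain ⟨C1, hC1⟩ := toolkit
  obtain ⟨C3, hC3⟩ := enc_conv
  obtain ⟨C2, hC2⟩ := hash_tup
  obtain ⟨lf1, lf2, lf3, lf4⟩ := lam_facts
  obtain ⟨c0, hc0⟩ : ∃ c0, K ([] : List Bool) () = c0 := ⟨_, rfl⟩
  set D : ℕ := (C1 + C2) * (1 + lam c0) + C3 + c0 + 1 with hD
  refine ⟨(1000 * D) + (C1 + C2) * (c0 + 1) + 1, ?_⟩
  intro N s a b c x y q u hx hy hq hu huq hqxy hyq hqc hxu1 hxu2 hyu hac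
  have hL1 : 1 ≤ lam N := lf1 N
  set L := lam N with hL
  obtain ⟨E, hE⟩ : ∃ E, E = D * L := ⟨_, rfl⟩
  -- error bounds
  have hlamN1 : lam (N + c0) ≤ (1 + lam c0) * L := by
    have h1 := lf3 N c0
    have h2 : lam c0 * 1 ≤ lam c0 * L := Nat.mul_le_mul_left _ hL1
    have h3 : (1 + lam c0) * L = L + lam c0 * L := by ring
    omega
  have he1 : C1 * lam (N + c0) ≤ E := by
    calc C1 * lam (N + c0) ≤ C1 * ((1 + lam c0) * L) := Nat.mul_le_mul_left _ hlamN1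
      _ = (C1 * (1 + lam c0)) * L := by ring
      _ ≤ D * L := by
        apply Nat.mul_le_mul_right
        rw [hD]
        nlinarith [Nat.zero_le (C2 * (1 + lam c0))]
      _ = E := hE.symm
  have he2 : C2 * lam (N + c0) ≤ E := by
    calc C2 * lam (N + c0) ≤ C2 * ((1 + lam c0) * L) := Nat.mul_le_mul_left _ hlamN1
      _ = (C2 * (1 + lam c0)) * L := by ring
      _ ≤ D * L := by
        apply Nat.mul_le_mul_right
        rw [hD]
        nlinarith [Nat.zero_le (C1 * (1 + lam c0))]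
      _ = E := hE.symm
  have hDE : D ≤ E := by
    rw [hE]
    exact Nat.le_mul_of_pos_right D hL1
  have hcD : C3 + c0 + 1 ≤ D := by
    rw [hD]
    have := Nat.zero_le ((C1 + C2) * (1 + lam c0))
    omega
  -- the final constants
  obtain ⟨F, hF⟩ : ∃ F, F = ((1000 * D) + (C1 + C2) * (c0 + 1) + 1) * (s + L) := ⟨_, rfl⟩
  obtain ⟨G, hG⟩ : ∃ G, G = ((1000 * D) + (C1 + C2) * (c0 + 1) + 1) * (N + s + 1) := ⟨_, rfl⟩
  have hF1 : 1000 * s + 1000 * E ≤ F := by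
    have h1 : (1000 * D) * (s + L) ≤ ((1000 * D) + (C1 + C2) * (c0 + 1) + 1) * (s + L) :=
      Nat.mul_le_mul_right _ (by omega)
    have h2 : (1000 * D) * (s + L) = 1000 * (D * s) + 1000 * E := by rw [hE]; ring
    have h3 : s ≤ D * s := Nat.le_mul_of_pos_left s (by omega)
    omega
  have hG1 : C2 * (N + c0 + 1) + D + N ≤ G := by
    have h1 : C2 * (N + c0 + 1) ≤ (C1 + C2) * (c0 + 1) * (N + s + 1) := by
      have h4 : N + c0 + 1 ≤ (c0 + 1) * (N + s + 1) := by nlinarith [Nat.zero_le (c0 * N), Nat.zero_le (c0 * s)]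
      calc C2 * (N + c0 + 1) ≤ (C1 + C2) * ((c0 + 1) * (N + s + 1)) :=
            Nat.mul_le_mul (by omega) h4
        _ = _ := by ring
    have h2 : D ≤ 1000 * D * (N + s + 1) := by
      calc D ≤ 1000 * D := by omega
        _ = 1000 * D * 1 := by ring
        _ ≤ _ := Nat.mul_le_mul_left _ (by omega)
    have h3 : G = (1000 * D) * (N + s + 1) + (C1 + C2) * (c0 + 1) * (N + s + 1) + (N + s + 1) := by
      rw [hG]; ring
    omega
  rw [← hF, ← hG]
  clear_value D L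
  -- the toolkit
  set W : Fin 5 → List Bool := ![x, y, u, q, []] with hW
  have hWN : ∀ i, K (W i) () ≤ N + c0 := by
    intro i
    fin_cases i
    · show K x () ≤ N + c0; omega
    · show K y () ≤ N + c0; omega
    · show K u () ≤ N + c0; omega
    · show K q () ≤ N + c0; omega
    · show K ([] : List Bool) () ≤ N + c0; omega
  have hT := hC1 (N + c0) W hWN
  have W0 : W 0 = x := rfl
  have W1 : W 1 = y := rfl
  have W2 : W 2 = u := rfl
  have W3 : W 3 = q := rfl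
  -- basic facts
  have e301 : ({3, 0, 1} : Finset (Fin 5)) = {0, 1, 3} := by decide
  have e201 : ({2, 0, 1} : Finset (Fin 5)) = {0, 1, 2} := by decide
  have eu1 : ({0, 1, 3} : Finset (Fin 5)) ∪ {2, 3} = {0, 1, 2, 3} := by decide
  have ei1 : ({0, 1, 3} : Finset (Fin 5)) ∩ {2, 3} = {3} := by decide
  have eu2 : ({1, 3} : Finset (Fin 5)) ∪ {2, 3} = {1, 2, 3} := by decide
  have ei2 : ({1, 3} : Finset (Fin 5)) ∩ {2, 3} = {3} := by decide
  have f1 : ap (C1 * lam (N + c0)) (K u q + H W {3}) (H W {2, 3}) := hT.c11 2 3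
  have f2 : ap (C1 * lam (N + c0)) (K q (x, y) + H W {0, 1}) (H W {3, 0, 1}) := hT.c12 3 0 1
  have f3 := hT.sub {0, 1, 3} {2, 3}
  have f4 := hT.mono {0, 1, 2} {0, 1, 2, 3} (by decide)
  have f5 := hT.mono {0, 1} {0, 1, 2} (by decide)
  have f6 : ap (C1 * lam (N + c0)) (K y q + H W {3}) (H W {1, 3}) := hT.c11 1 3
  have f7 : ap (C1 * lam (N + c0)) (K q ()) (H W {3}) := hT.c1 3
  have f8 : ap (C1 * lam (N + c0)) (K (x, y) ()) (H W {0, 1}) := hT.c2 0 1
  have f9 : ap (C1 * lam (N + c0)) (K x u + H W {2}) (H W {0, 2}) := hT.c11 0 2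
  have f10 : ap (C1 * lam (N + c0)) (K y u + H W {2}) (H W {1, 2}) := hT.c11 1 2
  have f11 := hT.mono {2} {2, 3} (by decide)
  have f12 := hT.mono {1, 2} {1, 2, 3} (by decide)
  have f13 := hT.sub {1, 3} {2, 3}
  have f14 : ap (C1 * lam (N + c0)) (K u (x, y) + H W {0, 1}) (H W {2, 0, 1}) := hT.c12 2 0 1
  have f15 : ap (C1 * lam (N + c0)) (K u ()) (H W {2}) := hT.c1 2
  rw [e301] at f2
  rw [eu1, ei1] at f3
  rw [eu2, ei2] at f13
  rw [e201] at f14
  obtain ⟨f1a, f1b⟩ := f1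
  obtain ⟨f2a, f2b⟩ := f2
  obtain ⟨f6a, f6b⟩ := f6
  obtain ⟨f7a, f7b⟩ := f7
  obtain ⟨f8a, f8b⟩ := f8
  obtain ⟨f9a, f9b⟩ := f9
  obtain ⟨f10a, f10b⟩ := f10
  obtain ⟨f14a, f14b⟩ := f14
  obtain ⟨f15a, f15b⟩ := f15
  obtain ⟨e1, hee1⟩ : ∃ e1, e1 = C1 * lam (N + c0) := ⟨_, rfl⟩
  obtain ⟨e2, hee2⟩ : ∃ e2, e2 = C2 * lam (N + c0) := ⟨_, rfl⟩
  rw [← hee1] at f1a f1b f2a f2b f3 f4 f5 f6a f6b f7a f7b f8a f8b f9a f9b f10a f10b f11 f12 f13 f14a f14b f15a f15b he1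
  rw [← hee2] at he2
  obtain ⟨t, ht⟩ : ∃ t, t = (H W {1, 2} - H W {2}) - b - 50 * (s + E) := ⟨_, rfl⟩
  by_cases ht0 : t = 0
  · refine ⟨u, ?_, ?_, ⟨?_, ?_⟩, ⟨?_, ?_⟩, ?_⟩ <;> omega
  · have eA1 : ({1} : Finset (Fin 5)) ∪ {2} = {1, 2} := by decide
    have eA2 : ({1} : Finset (Fin 5)) ∪ {0, 2} = {0, 1, 2} := by decide
    obtain ⟨p, hp1, hp2, hp3, hp4, hp5, hp6⟩ := hC2 (N + c0) t W {1} ![{2}, {0, 2}, {2}] hWN
      (by decide) (by decide) (by
        intro i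
        rw [← hee2]
        fin_cases i
        · show H W {2} + t + e2 ≤ H W ({1} ∪ {2})
          rw [eA1]; omega
        · show H W {0, 2} + t + e2 ≤ H W ({1} ∪ {0, 2})
          rw [eA2]; omega
        · show H W {2} + t + e2 ≤ H W ({1} ∪ {2})
          rw [eA1]; omega)
    rw [← hee2] at hp2 hp4 hp5 hp6
    set W' := Function.update W 4 p with hW'
    have V0 : W' 0 = x := rfl
    have V1 : W' 1 = y := rfl
    have V2 : W' 2 = u := rfl
    have V4 : W' 4 = p := by rw [hW']; simp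
    obtain ⟨n1, n2, n3, n4, n5⟩ := hC3 u p
    have r0 : H W {2} + t ≤ H W' {2, 4} + e2 := by
      have := hp6 0
      have e : insert (4 : Fin 5) ((![{2}, {0, 2}, {2}] : Fin 3 → Finset (Fin 5)) 0) = {2, 4} := by decide
      rw [e] at this
      exact this
    have r1 : H W {0, 2} + t ≤ H W' {0, 2, 4} + e2 := by
      have := hp6 1
      have e : insert (4 : Fin 5) ((![{2}, {0, 2}, {2}] : Fin 3 → Finset (Fin 5)) 1) = {0, 2, 4} := by decide
      rw [e] at this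
      exact this
    have e14 : (insert 4 {1} : Finset (Fin 5)) = {1, 4} := by decide
    rw [e14] at hp5
    have r2 := hp2.sub {2} {4}
    rw [show ({2} : Finset (Fin 5)) ∪ {4} = {2, 4} by decide] at r2
    have r3 := hp2.sub {0, 2} {2, 4}
    rw [show ({0, 2} : Finset (Fin 5)) ∪ {2, 4} = {0, 2, 4} by decide,
      show ({0, 2} : Finset (Fin 5)) ∩ {2, 4} = {2} by decide] at r3
    have r4 := hp2.sub {1, 2} {1, 4}
    rw [show ({1, 2} : Finset (Fin 5)) ∪ {1, 4} = {1, 2, 4} by decide,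
      show ({1, 2} : Finset (Fin 5)) ∩ {1, 4} = {1} by decide] at r4
    have r5 := hp2.sub {0, 1, 2} {1, 4}
    rw [show ({0, 1, 2} : Finset (Fin 5)) ∪ {1, 4} = {0, 1, 2, 4} by decide,
      show ({0, 1, 2} : Finset (Fin 5)) ∩ {1, 4} = {1} by decide] at r5
    have r6 := hp2.mono {1, 2} {1, 2, 4} (by decide)
    have q1 := hp3 {2} (by decide)
    have q2 := hp3 {0, 2} (by decide)
    have q3 := hp3 {1, 2} (by decide)
    have q4 := hp3 {1} (by decide)
    have q5 := hp3 {0, 1, 2} (by decide)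
    have q6 := hp3 {0, 1} (by decide)
    have g1 : ap e2 (K (u, p) ()) (H W' {2, 4}) := by
      have := hp2.c2 2 4
      rw [V4, V2] at this
      exact this
    have g2 : ap e2 (K x (u, p) + H W' {2, 4}) (H W' {0, 2, 4}) := by
      have := hp2.c12 0 2 4
      rw [V4, V2] at this
      exact this
    have g3 : ap e2 (K y (u, p) + H W' {2, 4}) (H W' {1, 2, 4}) := by
      have := hp2.c12 1 2 4
      rw [V4, V2] at this
      exact this
    have g4 : ap e2 (K (u, p) (x, y) + H W' {0, 1}) (H W' {0, 1, 2, 4}) := by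
      have := hp2.c22 2 4 0 1
      rw [V4, V2] at this
      rw [show ({2, 4, 0, 1} : Finset (Fin 5)) = {0, 1, 2, 4} by decide] at this
      exact this
    have g5 := hp2.bd {2, 4}
    obtain ⟨g1a, g1b⟩ := g1
    obtain ⟨g2a, g2b⟩ := g2
    obtain ⟨g3a, g3b⟩ := g3
    obtain ⟨g4a, g4b⟩ := g4
    obtain ⟨n1a, n1b⟩ := n1
    obtain ⟨n2a, n2b⟩ := n2 (x, y)
    obtain ⟨n4a, n4b⟩ := n4 x
    obtain ⟨n5a, n5b⟩ := n4 y
    refine ⟨enc u p, ?_, ?_, ⟨?_, ?_⟩, ⟨?_, ?_⟩, ?_⟩ <;> omega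

end Pool.Agent.Helper760.EP.J4290
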