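import Mathlib
import Pool.Agent.Helper760.EP.Base5

set_option autoImplicit false

namespace Pool.Agent.Helper760.EP.J4291

open Encodable
open Pool.Agent.Helper760.Kolm

theorem fix_joint : ∃ C : ℕ, ∀ (N s a b c : ℕ) (x y v : List Bool), K x () ≤ N → K y () ≤ N →
    K v () ≤ N → K v (x, y) ≤ s → ap s (K x v) a → ap s (K y v) b →
    K v () + c ≤ K (x, y) () + s → a ≤ c + s → b ≤ c + s →
    ∃ w : List Bool, K w () ≤ C * (N + s + 1) ∧ K w (x, y) ≤ C * (s + lam N) ∧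
      ap (C * (s + lam N)) (K x w) a ∧ ap (C * (s + lam N)) (K y w) b ∧
      ap (C * (s + lam N)) (K (x, y) w) c := by
  obtain ⟨CT, hCT⟩ := toolkit
  obtain ⟨CE, hCE⟩ := enc_conv
  obtain ⟨CH, hCH⟩ := hash_tup
  obtain ⟨hl1, hl2, hl3, hl4⟩ := lam_facts
  obtain ⟨c0, hc0⟩ : ∃ c0 : ℕ, K ([] : List Bool) () = c0 := ⟨_, rfl⟩
  obtain ⟨l0, hl0⟩ : ∃ l0 : ℕ, lam c0 = l0 := ⟨_, rfl⟩
  obtain ⟨k1, hk1⟩ : ∃ k1 : ℕ, k1 = CT * (1 + l0) := ⟨_, rfl⟩
  obtain ⟨k2, hk2⟩ : ∃ k2 : ℕ, k2 = CH * (1 + l0) := ⟨_, rfl⟩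
  refine ⟨10 + 10 * k1 + 10 * k2 + CE + 2 * CH * (c0 + 1), ?_⟩
  intro N s a b c x y v hx hy hv hvxy hxa hyb hvc hac hbc
  obtain ⟨L, hL⟩ : ∃ L : ℕ, lam N = L := ⟨_, rfl⟩
  have hL1 : 1 ≤ L := by rw [← hL]; exact hl1 N
  have hLN : L ≤ N + 1 := by rw [← hL]; exact hl4 N
  obtain ⟨e1, he1⟩ : ∃ e1 : ℕ, CT * lam (N + c0) = e1 := ⟨_, rfl⟩
  obtain ⟨e2, he2⟩ : ∃ e2 : ℕ, CH * lam (N + c0) = e2 := ⟨_, rfl⟩
  have hlam : lam (N + c0) ≤ (1 + l0) * L := by
    have h1 := hl3 N c0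
    rw [hL, hl0] at h1
    nlinarith
  have hee1 : e1 ≤ k1 * L := by
    rw [← he1, hk1, mul_assoc]; exact Nat.mul_le_mul_left _ hlam
  have hee2 : e2 ≤ k2 * L := by
    rw [← he2, hk2, mul_assoc]; exact Nat.mul_le_mul_left _ hlam
  have hCEL : CE ≤ CE * L := Nat.le_mul_of_pos_right _ hL1
  have hCs : 10 * s + (10 * (k1 * L) + 10 * (k2 * L) + CE * L + 10 * L) ≤
      (10 + 10 * k1 + 10 * k2 + CE + 2 * CH * (c0 + 1)) * (s + L) := by
    have : (10 + 10 * k1 + 10 * k2 + CE + 2 * CH * (c0 + 1)) * (s + L) =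
      10 * s + (10 * (k1 * L) + 10 * (k2 * L) + CE * L + 10 * L) +
      ((10 * k1 + 10 * k2 + CE + 2 * CH * (c0 + 1)) * s + 2 * CH * (c0 + 1) * L) := by ring
    rw [this]
    exact Nat.le_add_right _ _
  rw [hL]
  obtain ⟨Z, hZ⟩ : ∃ Z : ℕ, (10 + 10 * k1 + 10 * k2 + CE + 2 * CH * (c0 + 1)) * (s + L) = Z :=
    ⟨_, rfl⟩
  rw [hZ] at hCs ⊢
  set W : Fin 5 → List Bool := ![x, y, v, [], []] with hW
  have hWN : ∀ i, K (W i) () ≤ N + c0 := by
    intro i
    fin_cases i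
    · show K x () ≤ _; omega
    · show K y () ≤ _; omega
    · show K v () ≤ _; omega
    · show K ([] : List Bool) () ≤ _; omega
    · show K ([] : List Bool) () ≤ _; omega
  have tk := hCT (N + c0) W hWN
  rw [he1] at tk
  have w0 : W 0 = x := rfl
  have w1 : W 1 = y := rfl
  have w2 : W 2 = v := rfl
  -- facts on the initial tuple
  have f1 := tk.c11 0 2
  have f2 := tk.c11 1 2
  have f3 := tk.c21 0 1 2
  have f4 := tk.c12 2 0 1
  have f5 := tk.c1 2
  have f6 := tk.c2 0 1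
  rw [w0, w2] at f1
  rw [w1, w2] at f2
  rw [w0, w1, w2] at f3 f4
  rw [w2] at f5
  rw [w0, w1] at f6
  have s201 : ({2, 0, 1} : Finset (Fin 5)) = {0, 1, 2} := by decide
  rw [s201] at f4
  unfold ap at hxa hyb f1 f2 f3 f4 f5 f6
  obtain ⟨D, hD⟩ : ∃ D : ℕ, D = 2 * s + e1 + e2 := ⟨_, rfl⟩
  by_cases ht : H W {0, 1, 2} ≤ H W {2} + c + D
  · refine ⟨v, ?_, ?_, ?_, ?_, ?_⟩
    · have : N + s + 1 ≤ (10 + 10 * k1 + 10 * k2 + CE + 2 * CH * (c0 + 1)) * (N + s + 1) := by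
        apply Nat.le_mul_of_pos_left; omega
      omega
    · omega
    · unfold ap; omega
    · unfold ap; omega
    · unfold ap; omega
  · push Not at ht
    obtain ⟨t, ht'⟩ : ∃ t : ℕ, H W {0, 1, 2} = H W {2} + c + D + t :=
      ⟨H W {0, 1, 2} - (H W {2} + c + D), by omega⟩
    have a1 : ({0, 1} ∪ {2} : Finset (Fin 5)) = {0, 1, 2} := by decide
    have a2 : ({0, 1} ∪ {0, 2} : Finset (Fin 5)) = {0, 1, 2} := by decide
    have a3 : ({0, 1} ∪ {1, 2} : Finset (Fin 5)) = {0, 1, 2} := by decide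
    obtain ⟨p, hp1, tk', hold, hp4, hpA, hpT⟩ := hCH (N + c0) t W {0, 1} ![{2}, {0, 2}, {1, 2}] hWN
      (by decide) (by decide) (by
        intro i
        rw [he2]
        fin_cases i
        · show H W {2} + t + e2 ≤ H W ({0, 1} ∪ {2})
          rw [a1]; omega
        · show H W {0, 2} + t + e2 ≤ H W ({0, 1} ∪ {0, 2})
          rw [a2]; omega
        · show H W {1, 2} + t + e2 ≤ H W ({0, 1} ∪ {1, 2})
          rw [a3]; omega)
    rw [he2] at tk' hp4 hpA hpT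
    have g0 : H W {2} + t ≤ H (Function.update W 4 p) {4, 2} + e2 := hpT 0
    have g1 : H W {0, 2} + t ≤ H (Function.update W 4 p) {4, 0, 2} + e2 := hpT 1
    have g2 : H W {1, 2} + t ≤ H (Function.update W 4 p) {4, 1, 2} + e2 := hpT 2
    clear hpT
    have o2 := hold {2} (by decide)
    have o02 := hold {0, 2} (by decide)
    have o12 := hold {1, 2} (by decide)
    have o012 := hold {0, 1, 2} (by decide)
    have o01 := hold {0, 1} (by decide)
    have u0 : Function.update W 4 p 0 = x := by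
      rw [Function.update_of_ne (by decide)]
      exact w0
    have u1 : Function.update W 4 p 1 = y := by
      rw [Function.update_of_ne (by decide)]
      exact w1
    have u2 : Function.update W 4 p 2 = v := by
      rw [Function.update_of_ne (by decide)]
      exact w2
    have u4 : Function.update W 4 p 4 = p := by
      rw [Function.update_self]
    set V := Function.update W 4 p with hV
    have q1 : ({2} ∪ {4} : Finset (Fin 5)) = {2, 4} := by decide
    have q2 : ({0, 2} ∪ {4} : Finset (Fin 5)) = {0, 2, 4} := by decide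
    have q3 : ({1, 2} ∪ {4} : Finset (Fin 5)) = {1, 2, 4} := by decide
    have q4 : ({0, 1, 2} ∪ {4, 0, 1} : Finset (Fin 5)) = {0, 1, 2, 4} := by decide
    have q5 : ({0, 1, 2} ∩ {4, 0, 1} : Finset (Fin 5)) = {0, 1} := by decide
    have q6 : ({4, 2} : Finset (Fin 5)) = {2, 4} := by decide
    have q7 : ({4, 0, 2} : Finset (Fin 5)) = {0, 2, 4} := by decide
    have q8 : ({4, 1, 2} : Finset (Fin 5)) = {1, 2, 4} := by decide
    have q9 : ({2, 4, 0, 1} : Finset (Fin 5)) = {0, 1, 2, 4} := by decide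
    have m1 := tk'.sub {2} {4}
    have m2 := tk'.sub {0, 2} {4}
    have m3 := tk'.sub {1, 2} {4}
    have m4 := tk'.sub {0, 1, 2} {4, 0, 1}
    have m5 := tk'.mono {0, 1, 2} {0, 1, 2, 4} (by decide)
    have m6 := tk'.c12 0 2 4
    have m7 := tk'.c12 1 2 4
    have m8 := tk'.c22 0 1 2 4
    have m9 := tk'.c22 2 4 0 1
    have m10 := tk'.c2 2 4
    have m11 := tk'.bd {2, 4}
    rw [q1] at m1
    rw [q2] at m2
    rw [q3] at m3
    rw [q4, q5] at m4
    rw [q6] at g0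
    rw [q7] at g1
    rw [q8] at g2
    rw [q9] at m9
    rw [u0, u2, u4] at m6
    rw [u1, u2, u4] at m7
    rw [u0, u1, u2, u4] at m8 m9
    rw [u2, u4] at m10
    have hpA' : H V {4, 0, 1} ≤ H W {0, 1} + e2 := hpA
    obtain ⟨n1, n2, n3, n4, n5⟩ := hCE v p
    have n1' := n1
    have n2' := n2 (x, y)
    have n4x := n4 x
    have n4y := n4 y
    have n5' := n5 (x, y)
    unfold ap at m6 m7 m8 m9 m10 n1' n2' n4x n4y n5'
    rw [o2] at m1
    rw [o02] at m2
    rw [o12] at m3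
    rw [o012, o01] at m4
    rw [o012] at m5
    rw [o01] at m9
    refine ⟨enc v p, ?_, ?_, ?_, ?_, ?_⟩
    · have h1 : e2 ≤ CH * (N + c0 + 1) := by
        rw [← he2]; exact Nat.mul_le_mul_left _ (hl4 _)
      have h2 : K (enc v p) () ≤ 2 * (CH * (N + c0 + 1)) + CE := by omega
      have h3 : 2 * (CH * (N + c0 + 1)) + CE ≤
          (10 + 10 * k1 + 10 * k2 + CE + 2 * CH * (c0 + 1)) * (N + s + 1) := by
        have : (10 + 10 * k1 + 10 * k2 + CE + 2 * CH * (c0 + 1)) * (N + s + 1) =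
          2 * (CH * (N + c0 + 1)) + CE + (2 * CH * c0 * N + CE * N +
            (CE + 2 * CH * (c0 + 1)) * s + (10 + 10 * k1 + 10 * k2) * (N + s + 1)) := by ring
        rw [this]
        exact Nat.le_add_right _ _
      exact h2.trans h3
    · omega
    · unfold ap; omega
    · unfold ap; omega
    · unfold ap; omega

end Pool.Agent.Helper760.EP.J4291
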