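import Mathlib
import Pool.Agent.Helper760.EP.Base5
import Pool.Agent.Helper760.EP.J4290
import Pool.Agent.Helper760.EP.J4291

set_option autoImplicit false

namespace Pool.Agent.Helper760.EP

alias fix_one := J4290.fix_one
alias fix_joint := J4291.fix_joint

end Pool.Agent.Helper760.EP
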