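import Mathlib
import Pool.Agent.Helper760.EP.Base6

set_option autoImplicit false

namespace Pool.Agent.Helper760.EP.J4293

open Encodable
open Pool.Agent.Helper760.Kolm

theorem swap_facts : ∃ c : ℕ, (∀ q x y : List Bool, K q (y, x) ≤ K q (x, y) + c) ∧
    (∀ x y : List Bool, K (y, x) () ≤ K (x, y) () + c) := by
  obtain ⟨c1, h1⟩ := K_comp (fun (d : List Bool) (_ : List Bool × List Bool) => d)
    (Computable.fst).to₂ (fun b : List Bool × List Bool => (b.2, b.1))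
    (Computable.pair Computable.snd Computable.fst)
  obtain ⟨c2, h2⟩ := K_comp (fun (d : List Bool × List Bool) (_ : Unit) => (d.2, d.1))
    (Computable.pair (Computable.snd.comp Computable.fst)
      (Computable.fst.comp Computable.fst)).to₂ (fun b : Unit => b) Computable.id
  refine ⟨c1 + c2, fun q x y => ?_, fun x y => ?_⟩
  · have h : K q (y, x) ≤ K q (x, y) + c1 := h1 q (y, x)
    omega
  · have h : K (y, x) () ≤ K (x, y) () + c2 := h2 (x, y) ()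
    omega

theorem ap_mono {e e' a b : ℕ} (h : ap e a b) (he : e ≤ e') : ap e' a b := by
  unfold ap at *
  omega

theorem ar1 (C1 N L : ℕ) (h : L ≤ N + 1) : N + C1 * L ≤ (C1 + 1) * (N + 1) := by
  have h1 := Nat.mul_le_mul_left C1 h
  have h2 : (C1 + 1) * (N + 1) = C1 * (N + 1) + N + 1 := by ring
  omega

theorem ar2 (C2 D1 D2 c0 s L L1 s1 : ℕ) (h1 : s1 = s + D1 * L) (h2 : L1 ≤ D2 * L)
    (h3 : 1 ≤ L) : C2 * (s1 + L1) + c0 + s1 ≤ (C2 * (1 + D1 + D2) + 1 + D1 + c0) * (s + L) := by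
  subst h1
  have k1 : s + D1 * L + L1 ≤ s + D1 * L + D2 * L := by omega
  have k2 := Nat.mul_le_mul_left C2 k1
  have k3 : c0 ≤ c0 * L := Nat.le_mul_of_pos_right _ h3
  have e1 : C2 * (s + D1 * L + D2 * L) = C2 * s + C2 * (D1 * L) + C2 * (D2 * L) := by ring
  have e2 : (C2 * (1 + D1 + D2) + 1 + D1 + c0) * (s + L) = C2 * s + C2 * (D1 * s) +
      C2 * (D2 * s) + s + D1 * s + c0 * s + (C2 * L + C2 * (D1 * L) + C2 * (D2 * L) + L +
      D1 * L + c0 * L) := by ring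
  omega

theorem ar3 (D1 s1 s N L : ℕ) (h1 : s1 = s + D1 * L) (h : L ≤ N + 1) :
    s1 ≤ s + D1 * (N + 1) := by
  have h2 := Nat.mul_le_mul_left D1 h
  omega

theorem ar4 (C1 D1 s s1 N N1 : ℕ) (h1 : s1 ≤ s + D1 * (N + 1)) (h2 : N1 = (C1 + 1) * (N + 1)) :
    N1 + s1 + 1 ≤ (C1 + D1 + 3) * (N + s + 1) ∧ N1 ≤ (C1 + 1) * (N + s + 1) := by
  subst h2
  have e1 : (C1 + 1) * (N + 1) = C1 * N + C1 + N + 1 := by ring
  have e2 : D1 * (N + 1) = D1 * N + D1 := by ring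
  have e3 : (C1 + D1 + 3) * (N + s + 1) = C1 * N + C1 * s + C1 + D1 * N + D1 * s + D1 + 3 * N +
      3 * s + 3 := by ring
  have e4 : (C1 + 1) * (N + s + 1) = C1 * N + C1 * s + C1 + N + s + 1 := by ring
  constructor <;> omega

theorem ar5 (D3 D4 D5 s2 l x : ℕ) (h1 : s2 ≤ D3 * x) (h2 : l ≤ D5 * x) :
    s2 + l ≤ (D3 + D4 + D5 + 1) * x := by
  have e : (D3 + D4 + D5 + 1) * x = D3 * x + D4 * x + D5 * x + x := by ring
  omega

theorem ar6 (D3 D4 D5 s2 N2 x : ℕ) (h1 : s2 ≤ D3 * x) (h2 : N2 ≤ D4 * x) (h3 : 1 ≤ x) :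
    N2 + s2 + 1 ≤ (D3 + D4 + D5 + 1) * x := by
  have e : (D3 + D4 + D5 + 1) * x = D3 * x + D4 * x + D5 * x + x := by ring
  omega

theorem shape : ∃ C : ℕ, ∀ (N s a b c : ℕ) (x y q : List Bool), K x () ≤ N → K y () ≤ N →
    K q () ≤ N → K q (x, y) ≤ s → K x q ≤ a + s → K y q ≤ b + s →
    K q () + c ≤ K (x, y) () + s → a ≤ K x () + s → b ≤ K y () + s → a ≤ c + s → b ≤ c + s →
    ∃ w : List Bool, K w () ≤ C * (N + s + 1) ∧ K w (x, y) ≤ C * (s + lam N) ∧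
      ap (C * (s + lam N)) (K x w) a ∧ ap (C * (s + lam N)) (K y w) b ∧
      ap (C * (s + lam N)) (K (x, y) w) c := by
  obtain ⟨C1, h1⟩ := path_lemma
  obtain ⟨C2, h2⟩ := fix_one
  obtain ⟨C3, h3⟩ := fix_joint
  obtain ⟨c0, hs1, hs2⟩ := swap_facts
  obtain ⟨l1, l2, l3, l4⟩ := lam_facts
  -- constants
  obtain ⟨D1, hD1⟩ : ∃ D1, D1 = 2 * C1 + c0 := ⟨_, rfl⟩
  obtain ⟨D2, hD2⟩ : ∃ D2, D2 = Nat.size (C1 + 1) + 2 := ⟨_, rfl⟩
  obtain ⟨D3, hD3⟩ : ∃ D3, D3 = C2 * (1 + D1 + D2) + 1 + D1 + c0 := ⟨_, rfl⟩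
  obtain ⟨D4, hD4⟩ : ∃ D4, D4 = C2 * (C1 + D1 + 3) + C1 + 1 := ⟨_, rfl⟩
  obtain ⟨D5, hD5⟩ : ∃ D5, D5 = 2 * (Nat.size D4 + 2) := ⟨_, rfl⟩
  refine ⟨C3 * (D3 + D4 + D5 + 1), ?_⟩
  intro N s a b c x y q hx hy hq hqs hxq hyq hqc ha hb hac hbc
  have hl1 := l1 N
  have hl4 := l4 N
  obtain ⟨u, hu1, hu2, hu3, hu4, hu5⟩ := h1 N s a b x y q hq hxq hyq ha hb
  obtain ⟨Λ, hΛ⟩ : ∃ Λ, Λ = lam N := ⟨_, rfl⟩
  rw [← hΛ] at hl1 hl4 hu1 hu2
  have hC1Λ : C1 ≤ C1 * Λ := Nat.le_mul_of_pos_right _ hl1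
  have hc0Λ : c0 ≤ c0 * Λ := Nat.le_mul_of_pos_right _ hl1
  obtain ⟨s1, hs1def⟩ : ∃ s1, s1 = s + D1 * Λ := ⟨_, rfl⟩
  have hs1e : s1 = s + 2 * (C1 * Λ) + c0 * Λ := by rw [hs1def, hD1]; ring
  obtain ⟨N1, hN1⟩ : ∃ N1, N1 = (C1 + 1) * (N + 1) := ⟨_, rfl⟩
  have hN1e : N + C1 * Λ ≤ N1 := by
    rw [hN1]; exact ar1 _ _ _ hl4
  have hΛ1 : lam N1 ≤ D2 * Λ := by
    rw [hN1, hD2, hΛ]; exact lam_le _ _
  -- v
  obtain ⟨v, hv1, hv2, hv3, hv4, hv5⟩ : ∃ v : List Bool, K v () ≤ C2 * (N1 + s1 + 1) ∧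
      K v (x, y) ≤ C2 * (s1 + lam N1) + c0 ∧
      ap (C2 * (s1 + lam N1)) (K x v) a ∧ ap (C2 * (s1 + lam N1)) (K y v) b ∧
      K v () + c ≤ K (x, y) () + (C2 * (s1 + lam N1) + c0) := by
    rcases hu5 with hu5 | hu5
    · obtain ⟨v, hv1, hv2, hv3, hv4, hv5⟩ := h2 N1 s1 a b c x y q u (by omega) (by omega)
        (by omega) (by omega) (by omega) (by omega) (by omega) (by omega) (by omega) (by omega)
        (by omega) (by omega)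
      exact ⟨v, hv1, by omega, hv3, hv4, by omega⟩
    · have e1 := hs1 q x y
      have e2 := hs2 y x
      obtain ⟨v, hv1, hv2, hv3, hv4, hv5⟩ := h2 N1 s1 b a c y x q u (by omega) (by omega)
        (by omega) (by omega) (by omega) (by omega) (by omega) (by omega) (by omega) (by omega)
        (by omega) (by omega)
      have e3 := hs1 v y x
      have e4 := hs2 x y
      exact ⟨v, hv1, by omega, hv4, hv3, by omega⟩
  obtain ⟨s2, hs2def⟩ : ∃ s2, s2 = C2 * (s1 + lam N1) + c0 + s1 := ⟨_, rfl⟩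
  obtain ⟨N2, hN2⟩ : ∃ N2, N2 = C2 * (N1 + s1 + 1) + N1 := ⟨_, rfl⟩
  obtain ⟨w, hw1, hw2, hw3, hw4, hw5⟩ := h3 N2 s2 a b c x y v (by omega) (by omega) (by omega)
    (by omega) (ap_mono hv3 (by omega)) (ap_mono hv4 (by omega)) (by omega) (by omega) (by omega)
  -- bounds
  have b1 : s2 ≤ D3 * (s + Λ) := by
    rw [hs2def, hD3]
    exact ar2 _ _ _ _ _ _ _ _ hs1def hΛ1 hl1
  have b2 : N2 ≤ D4 * (N + s + 1) := by
    have k0 : s1 ≤ s + D1 * (N + 1) := ar3 _ _ _ _ _ hs1def hl4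
    obtain ⟨k1, k3⟩ := ar4 C1 D1 s s1 N N1 k0 hN1
    have k2 := Nat.mul_le_mul_left C2 k1
    rw [hN2, hD4]
    calc C2 * (N1 + s1 + 1) + N1 ≤ C2 * ((C1 + D1 + 3) * (N + s + 1)) +
        (C1 + 1) * (N + s + 1) := Nat.add_le_add k2 k3
      _ = _ := by ring
  have b3 : lam N2 ≤ D5 * (s + Λ) := by
    have k1 : lam N2 ≤ lam (D4 * ((N + s) + 1)) := l2 _ _ b2
    have k2 := lam_le D4 (N + s)
    have k3 := l3 N s
    have k4 := l4 s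
    have k5 : lam (N + s) ≤ 2 * (s + Λ) := by omega
    have k6 := Nat.mul_le_mul_left (Nat.size D4 + 2) k5
    rw [hD5]
    calc lam N2 ≤ (Nat.size D4 + 2) * (2 * (s + Λ)) := by omega
      _ = _ := by ring
  have b4 : C3 * (s2 + lam N2) ≤ C3 * (D3 + D4 + D5 + 1) * (s + lam N) := by
    rw [mul_assoc, ← hΛ]
    apply Nat.mul_le_mul_left
    exact ar5 _ _ _ _ _ _ b1 b3
  refine ⟨w, hw1.trans ?_, hw2.trans b4, ap_mono hw3 b4, ap_mono hw4 b4, ap_mono hw5 b4⟩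
  rw [mul_assoc]
  apply Nat.mul_le_mul_left
  have b5 : s2 ≤ D3 * (N + s + 1) := b1.trans (Nat.mul_le_mul_left _ (by omega))
  exact ar6 _ _ _ _ _ _ b5 b2 (by omega)

end Pool.Agent.Helper760.EP.J4293
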