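import Mathlib
import Pool.Agent.Helper760.EP.Base6
import Pool.Agent.Helper760.EP.J4293

set_option autoImplicit false

namespace Pool.Agent.Helper760.EP

alias shape := J4293.shape

end Pool.Agent.Helper760.EP
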