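import Mathlib
import Pool.Agent.Helper760.EP.Base7

set_option autoImplicit false

namespace Pool.Agent.Helper760.EP.J4294

open Encodable
open Pool.Agent.Helper760.Kolm

theorem realize : ∃ C : ℕ, ∀ (N s a b c m : ℕ) (x y q : List Bool), K x () ≤ N → K y () ≤ N →
    K q () ≤ N → m ≤ N → K q (x, y) ≤ s → K x q ≤ a + s → K y q ≤ b + s →
    K q () + c ≤ K (x, y) () + s → a ≤ K x () + s → b ≤ K y () + s → a ≤ c + s → b ≤ c + s →
    K (x, y) () ≤ m + c + s →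
    ∃ w : List Bool, ap (C * (s + lam N)) (K w ()) m ∧
      ap (C * (s + lam N)) (K x w) a ∧ ap (C * (s + lam N)) (K y w) b ∧
      ap (C * (s + lam N)) (K (x, y) w) c ∧
      (K w () ≤ m ∨ K w () + c ≤ K (x, y) () + C * (s + lam N)) := by
  obtain ⟨C1, h1⟩ := shape
  obtain ⟨C2, h2⟩ := add_noise
  obtain ⟨C3, h3⟩ := toolkit
  obtain ⟨lf1, lf2, lf3, lf4⟩ := lam_facts
  obtain ⟨C4, hC4⟩ : ∃ C4, C4 = Nat.size (C1 + 1) + 2 := ⟨_, rfl⟩
  refine ⟨1 + 4 * C1 + 4 * (C3 * (2 * C4)) + 4 * (C2 * (2 * C4)), ?_⟩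
  intro N s a b c m x y q hx hy hq hm hqs hxa hyb hqc hax hby hac hbc hxy
  obtain ⟨w0, k1, k2, k3, k4, k5⟩ := h1 N s a b c x y q hx hy hq hqs hxa hyb hqc hax hby hac hbc
  obtain ⟨N2, hN2⟩ : ∃ N2, N2 = (C1 + 1) * ((N + s) + 1) := ⟨_, rfl⟩
  have hN2' : N2 = C1 * (N + s + 1) + (N + s + 1) := by rw [hN2]; ring
  have hlam : lam N2 ≤ 2 * C4 * (s + lam N) := by
    have e1 : lam N2 ≤ C4 * lam (N + s) := by
      rw [hN2, hC4]
      exact lam_le (C1 + 1) (N + s)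
    have e2 : lam (N + s) ≤ lam N + lam s := lf3 N s
    have e3 : lam s ≤ s + 1 := lf4 s
    have e4 : 1 ≤ lam N := lf1 N
    have e5 : lam (N + s) ≤ 2 * (s + lam N) := by omega
    calc lam N2 ≤ C4 * lam (N + s) := e1
      _ ≤ C4 * (2 * (s + lam N)) := Nat.mul_le_mul_left _ e5
      _ = 2 * C4 * (s + lam N) := by ring
  have hk : ∀ i, K ((![x, y, w0, x, x] : Fin 5 → List Bool) i) () ≤ N2 := by
    intro i
    fin_cases i
    · show K x () ≤ N2
      omega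
    · show K y () ≤ N2
      omega
    · show K w0 () ≤ N2
      omega
    · show K x () ≤ N2
      omega
    · show K x () ≤ N2
      omega
  have T := h3 N2 ![x, y, w0, x, x] hk
  have t1 := T.c21 0 1 2
  have t2 := T.c12 2 0 1
  have t3 := T.c1 2
  have t4 := T.c2 0 1
  have hset : ({2, 0, 1} : Finset (Fin 5)) = {0, 1, 2} := by decide
  rw [hset] at t2
  have t1' : ap (C3 * lam N2) (K (x, y) w0 + H ![x, y, w0, x, x] {2})
    (H ![x, y, w0, x, x] {0, 1, 2}) := t1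
  have t2' : ap (C3 * lam N2) (K w0 (x, y) + H ![x, y, w0, x, x] {0, 1})
    (H ![x, y, w0, x, x] {0, 1, 2}) := t2
  have t3' : ap (C3 * lam N2) (K w0 ()) (H ![x, y, w0, x, x] {2}) := t3
  have t4' : ap (C3 * lam N2) (K (x, y) ()) (H ![x, y, w0, x, x] {0, 1}) := t4
  obtain ⟨w, n1, n2, n3, n4, n5, n6⟩ := h2 N2 m x y w0 (by omega) (by omega) (by omega) (by omega)
  have hE3 : C3 * lam N2 ≤ C3 * (2 * C4) * (s + lam N) := by
    calc C3 * lam N2 ≤ C3 * (2 * C4 * (s + lam N)) := Nat.mul_le_mul_left _ hlam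
      _ = _ := by ring
  have hE2 : C2 * lam N2 ≤ C2 * (2 * C4) * (s + lam N) := by
    calc C2 * lam N2 ≤ C2 * (2 * C4 * (s + lam N)) := Nat.mul_le_mul_left _ hlam
      _ = _ := by ring
  have hexp : (1 + 4 * C1 + 4 * (C3 * (2 * C4)) + 4 * (C2 * (2 * C4))) * (s + lam N) =
      (s + lam N) + 4 * (C1 * (s + lam N)) + 4 * (C3 * (2 * C4) * (s + lam N)) +
        4 * (C2 * (2 * C4) * (s + lam N)) := by ring
  rw [hexp]
  unfold ap at *
  generalize C1 * (s + lam N) = P1 at *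
  generalize C3 * (2 * C4) * (s + lam N) = P3 at *
  generalize C2 * (2 * C4) * (s + lam N) = P2 at *
  generalize C3 * lam N2 = Q3 at *
  generalize C2 * lam N2 = Q2 at *
  refine ⟨w, ⟨?_, ?_⟩, ⟨?_, ?_⟩, ⟨?_, ?_⟩, ⟨?_, ?_⟩, ?_⟩
  · omega
  · omega
  · omega
  · omega
  · omega
  · omega
  · omega
  · omega
  · omega

end Pool.Agent.Helper760.EP.J4294
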