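import Mathlib
import Pool.Agent.Helper760.EP.Base7

set_option autoImplicit false

namespace Pool.Agent.Helper760.EP.J4296

open Encodable
open Pool.Agent.Helper760.Kolm

theorem ak_bounded : ∃ C : ℕ, ∀ (N : ℕ) (x y q : List Bool), K x () ≤ N → K y () ≤ N →
    K q () ≤ N → ∃ w : List Bool, ap (C * lam N) (K x w) (K x q) ∧
      ap (C * lam N) (K y w) (K y q) ∧ ap (C * lam N) (K (x, y) w) (K (x, y) q) ∧
      K w (x, y) ≤ C * lam N := by
  obtain ⟨A, hA⟩ := upper_AK
  obtain ⟨S, hS⟩ := shape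
  -- constants
  obtain ⟨c1, h1⟩ := K_comp (fun (d : List Bool) (_ : List Bool) => d) (Computable.fst).to₂
    (fun _ : List Bool => ()) (Computable.const ())
  obtain ⟨c2, h2⟩ := K_comp (fun (d : List Bool × List Bool) (_ : List Bool) => d.1)
    (Computable.fst.comp Computable.fst).to₂ (fun b : List Bool => b) Computable.id
  obtain ⟨c3, h3⟩ := K_comp (fun (d : List Bool × List Bool) (_ : List Bool) => d.2)
    (Computable.snd.comp Computable.fst).to₂ (fun b : List Bool => b) Computable.id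
  obtain ⟨c4, h4⟩ := K_comp (fun (d : List Bool) (b : List Bool) => (b, d))
    (Computable.pair Computable.snd Computable.fst).to₂ (fun b : List Bool => b) Computable.id
  obtain ⟨c5, h5⟩ := K_chain0 (α := List Bool) (β := List Bool × List Bool)
  obtain ⟨hl1, -, -, hl4⟩ := lam_facts
  set D : ℕ := 5 + c1 + c4 + c5 + A with hD
  set C' : ℕ := A + c1 + c2 + c3 with hC'
  refine ⟨S * (C' + (Nat.size D + 2)), fun N x y q hx hy hq => ?_⟩
  obtain ⟨q', hq1, hq2, hq3, hq4⟩ := hA N x y q hx hy hq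
  have hlam := hl1 N
  have hlamN := hl4 N
  have hs1 : A * lam N ≤ C' * lam N := Nat.mul_le_mul_right _ (by omega)
  have hc1 : c1 ≤ C' * lam N := by
    calc c1 ≤ C' := by omega
      _ = C' * 1 := (mul_one _).symm
      _ ≤ C' * lam N := Nat.mul_le_mul_left _ hlam
  have hc2 : c2 ≤ C' * lam N := by
    calc c2 ≤ C' := by omega
      _ = C' * 1 := (mul_one _).symm
      _ ≤ C' * lam N := Nat.mul_le_mul_left _ hlam
  have hc3 : c3 ≤ C' * lam N := by
    calc c3 ≤ C' := by omega
      _ = C' * 1 := (mul_one _).symm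
      _ ≤ C' * lam N := Nat.mul_le_mul_left _ hlam
  have e1 : K x q ≤ K x () + c1 := h1 x q
  have e2 : K y q ≤ K y () + c1 := h1 y q
  have e3 : K x q ≤ K (x, y) q + c2 := h2 (x, y) q
  have e4 : K y q ≤ K (x, y) q + c3 := h3 (x, y) q
  have e5 : K (x, y) x ≤ K y x + c4 := h4 y x
  have e6 : K y x ≤ K y () + c1 := h1 y x
  have e7 : K (x, y) () ≤ K x () + K (x, y) x + 2 * Nat.size (K x ()) + c5 := h5 x (x, y)
  have e8 : Nat.size (K x ()) ≤ K x () := size_le_self _
  have hDN : D * (N + 1) = D * N + D := by ring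
  have hAN : A * lam N ≤ A * (N + 1) := Nat.mul_le_mul_left _ hlamN
  have hDge : 5 * N + A * N ≤ D * N := by
    rw [← add_mul]; exact Nat.mul_le_mul_right _ (by omega)
  have hAN1 : A * (N + 1) = A * N + A := by ring
  have hqN : K q' () ≤ D * (N + 1) := by
    rw [hDN]
    omega
  obtain ⟨w, -, hw1, hw2, hw3, hw4⟩ := hS (D * (N + 1)) (C' * lam N) (K x q) (K y q) (K (x, y) q)
    x y q' (by rw [hDN]; omega) (by rw [hDN]; omega) hqN (by omega) (by omega) (by omega)
    (by omega) (by omega) (by omega) (by omega) (by omega)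
  have hfin : S * (C' * lam N + lam (D * (N + 1))) ≤ S * (C' + (Nat.size D + 2)) * lam N := by
    calc S * (C' * lam N + lam (D * (N + 1)))
        ≤ S * (C' * lam N + (Nat.size D + 2) * lam N) :=
          Nat.mul_le_mul_left _ (Nat.add_le_add_left (lam_le D N) _)
      _ = S * (C' + (Nat.size D + 2)) * lam N := by ring
  have hmono : ∀ a b : ℕ, ap (S * (C' * lam N + lam (D * (N + 1)))) a b →
      ap (S * (C' + (Nat.size D + 2)) * lam N) a b := by
    rintro a b ⟨u, v⟩
    exact ⟨by omega, by omega⟩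
  exact ⟨w, hmono _ _ hw2, hmono _ _ hw3, hmono _ _ hw4, hw1.trans hfin⟩

end Pool.Agent.Helper760.EP.J4296
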