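import Mathlib
import Pool.Agent.Helper760.EP.Base7

set_option autoImplicit false

namespace Pool.Agent.Helper760.EP.J4298

open Encodable
open Pool.Agent.Helper760.Kolm

theorem aux_str : ∃ c : ℕ, ∀ u : List Bool, K u () ≤ u.length + c := by
  obtain ⟨c, hc⟩ := K_param (γ := Unit) (β := Unit) (α := List Bool)
    (fun x => Part.some x.2.1) ((Computable.fst.comp Computable.snd).partrec)
  refine ⟨c, fun u => ?_⟩
  have h := hc () u () u (by simp)
  simp only [size_encode_unit] at h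
  omega

theorem aux_pair : ∃ c : ℕ, ∀ u v : List Bool, K (u, v) () ≤ 3 * u.length + v.length + c := by
  obtain ⟨c, hc⟩ := K_param (γ := ℕ) (β := Unit) (α := List Bool × List Bool)
    (fun x => Part.some (x.2.1.take x.1, x.2.1.drop x.1))
    ((Primrec.pair (Primrec.list_take.comp Primrec.fst (Primrec.fst.comp Primrec.snd))
      (Primrec.list_drop.comp Primrec.fst (Primrec.fst.comp Primrec.snd))).to_comp.partrec)
  refine ⟨c, fun u v => ?_⟩
  have h := hc u.length (u ++ v) () (u, v) (by simp)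
  simp only [encode_nat, List.length_append] at h
  have := size_le_self u.length
  omega

theorem aux_cond : ∃ c : ℕ, ∀ u q : List Bool, K u q ≤ K u () + c := by
  obtain ⟨c, hc⟩ := K_comp (fun (d : List Bool) (_ : List Bool) => d) (Computable.fst).to₂
    (fun _ : List Bool => ()) (Computable.const ())
  exact ⟨c, fun u q => hc u q⟩

theorem primrec_enc : Primrec (fun p : List Bool × List Bool => enc p.1 p.2) := by
  unfold enc
  exact Primrec.list_map (Primrec.list_range.comp Primrec.encode) (Primrec.const true).to₂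

theorem aux_enc1 : ∃ c : ℕ, ∀ a b : List Bool, K (enc a b) () ≤ K (a, b) () + c := by
  obtain ⟨c, hc⟩ := K_comp (fun (d : List Bool × List Bool) (_ : Unit) => enc d.1 d.2)
    (primrec_enc.to_comp.comp Computable.fst).to₂
    (fun _ : Unit => ()) Computable.id
  exact ⟨c, fun a b => hc (a, b) ()⟩

theorem length_enc (a b : List Bool) : (enc a b).length = encode (a, b) := by
  unfold enc
  simp

theorem aux_enc2 : ∃ c : ℕ, ∀ a b : List Bool, K a (enc a b) ≤ c ∧ K b (enc a b) ≤ c := by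
  have hd : Partrec (fun x : Unit × List Bool × List Bool =>
      (Part.ofOption (decode (α := List Bool × List Bool) x.2.2.length) :
        Part (List Bool × List Bool))) :=
    ((Primrec.decode.comp (Primrec.list_length.comp (Primrec.snd.comp Primrec.snd))).to_comp).ofOption
  obtain ⟨c, hc⟩ := K_param (γ := Unit) (β := List Bool) (α := List Bool)
    (fun x => (Part.ofOption (decode (α := List Bool × List Bool) x.2.2.length)).map
      (fun z => z.1))
    (Partrec.map hd (Computable.fst.comp Computable.snd).to₂)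
  obtain ⟨c', hc'⟩ := K_param (γ := Unit) (β := List Bool) (α := List Bool)
    (fun x => (Part.ofOption (decode (α := List Bool × List Bool) x.2.2.length)).map
      (fun z => z.2))
    (Partrec.map hd (Computable.snd.comp Computable.snd).to₂)
  refine ⟨c + c', fun a b => ⟨?_, ?_⟩⟩
  · have h := hc () [] (enc a b) a (by
      simp only [length_enc, encodek, Part.coe_some, Part.map_some, Part.mem_some_iff])
    simp only [size_encode_unit, List.length_nil] at h
    omega
  · have h := hc' () [] (enc a b) b (by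
      simp only [length_enc, encodek, Part.coe_some, Part.map_some, Part.mem_some_iff])
    simp only [size_encode_unit, List.length_nil] at h
    omega

theorem aux_ch : ∃ c : ℕ, ∀ x y q : List Bool,
    K (x, y) q ≤ K x q + K y q + 2 * Nat.size (K x q) + c := by
  obtain ⟨c1, h1⟩ := K_chain (α := List Bool) (β := List Bool × List Bool) (γ := List Bool)
  obtain ⟨c2, h2⟩ := K_comp (fun (d : List Bool) (b : List Bool × List Bool) => (b.1, d))
    (Computable.pair (Computable.fst.comp Computable.snd) Computable.fst).to₂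
    (fun b : List Bool × List Bool => b.2) Computable.snd
  refine ⟨c1 + c2, fun x y q => ?_⟩
  have e1 := h1 x (x, y) q
  have e2 : K (x, y) (x, q) ≤ K y q + c2 := h2 y (x, q)
  omega

theorem size_le_lam {a N : ℕ} (h : a ≤ N) : Nat.size a ≤ lam N := by
  unfold lam
  have := size_mono h
  omega

/-- first case -/
theorem caseA : ∃ C : ℕ, ∀ (N n s : ℕ) (x y x' y' : List Bool), 1 ≤ N → x.length ≤ n →
    y.length ≤ n → x'.length ≤ n → y'.length ≤ n → K x () ≤ N → K y () ≤ N → K x' () ≤ N →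
    K y' () ≤ N → K (x, y) () ≤ N → K (x', y') () ≤ N →
    GWsub s x y x' y' → GWsub s x' y' x y →
    ∀ q : List Bool, K q () ≤ N → ∃ q' : List Bool, K q' () ≤ K q () + C * (s + lam N + lam n) ∧
      K x' q' + K y' q' + K (x, y) q ≤
        K x q + K y q + K (x', y') q' + C * (s + lam N + lam n) := by
  obtain ⟨C1, hup⟩ := upper_AK
  obtain ⟨C2, hpr⟩ := sub_profile
  obtain ⟨c3, hch⟩ := K_chain0 (α := List Bool) (β := List Bool × List Bool)
  obtain ⟨l1, l2, l3, l4⟩ := lam_facts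
  obtain ⟨D, hD⟩ : ∃ D, D = Nat.size C1 + 4 := ⟨_, rfl⟩
  refine ⟨2 * c3 + 6 * C1 + 6 * (C1 * D) + C2 + 10 + 10 * D + 2 * (D * D), ?_⟩
  intro N n s x y x' y' hN hx hy hx' hy' kx ky kx' ky' kxy kxy' g1 g2 q hq
  obtain ⟨T, hT⟩ : ∃ T, T = s + lam N + lam n := ⟨_, rfl⟩
  rw [← hT]
  obtain ⟨q1, a1, a2, a3, -⟩ := hup N x y q kx ky hq
  obtain ⟨q2, b1, b2, b3⟩ := g1 q1
  obtain ⟨N2, hN2⟩ : ∃ N2, N2 = N + C1 * (N + 1) + s := ⟨_, rfl⟩
  have m1 : C1 * lam N ≤ C1 * (N + 1) := Nat.mul_le_mul le_rfl (l4 N)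
  have hq2 : K q2 () ≤ N2 := by omega
  obtain ⟨q3, d1, d2, d3, -⟩ := hup N2 x' y' q2 (by omega) (by omega) hq2
  have e1 := hch q2 (x', y')
  have e2 := hch q3 (x', y')
  have e3 := hch q (x, y)
  obtain ⟨-, -, p3⟩ := hpr n s x' y' x y hx' hy' hx hy g2
  have s1 : Nat.size (K q ()) ≤ lam N := size_le_lam hq
  have s2 : Nat.size (K q2 ()) ≤ lam N2 := size_le_lam hq2
  have m2 : C1 * lam N2 ≤ C1 * (N2 + 1) := Nat.mul_le_mul le_rfl (l4 N2)
  have s3 : Nat.size (K q3 ()) ≤ lam (N + C1 * (N2 + 1)) := size_le_lam (by omega)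
  have t1 := l3 N (C1 * (N2 + 1))
  have t2 := lam_le C1 N2
  have t3 : lam N2 ≤ lam N + lam (C1 * (N + 1)) + lam s := by
    rw [hN2]
    have := l3 (N + C1 * (N + 1)) s
    have := l3 N (C1 * (N + 1))
    omega
  have t4 := lam_le C1 N
  have t5 := l4 s
  have t6 := l1 n
  have t7 : lam N ≤ T := by omega
  have t8 : lam N2 ≤ D * T := by
    have : (Nat.size C1 + 2) * lam N ≤ (Nat.size C1 + 2) * T := Nat.mul_le_mul le_rfl t7
    have h : D * T = (Nat.size C1 + 2) * T + 2 * T := by rw [hD]; ring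
    omega
  have t9 : Nat.size (K q3 ()) ≤ T + D * (D * T) := by
    have h1 : (Nat.size C1 + 2) * lam N2 ≤ D * (D * T) := by
      refine Nat.mul_le_mul ?_ t8
      omega
    omega
  have f1 : C1 * lam N ≤ C1 * T := Nat.mul_le_mul le_rfl t7
  have f2 : C1 * lam N2 ≤ C1 * (D * T) := Nat.mul_le_mul le_rfl t8
  have f3 : C2 * (s + lam n) ≤ C2 * T := Nat.mul_le_mul le_rfl (by omega)
  have f4 : c3 ≤ c3 * T := Nat.le_mul_of_pos_right _ (by omega)
  have f5 : s ≤ T := by omega
  have hC : (2 * c3 + 6 * C1 + 6 * (C1 * D) + C2 + 10 + 10 * D + 2 * (D * D)) * T =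
      2 * (c3 * T) + 6 * (C1 * T) + 6 * (C1 * (D * T)) + C2 * T + 10 * T + 10 * (D * T) +
        2 * (D * (D * T)) := by ring
  rw [hC]
  refine ⟨q3, ?_, ?_⟩
  · omega
  · omega

theorem GW_W_K : ∃ C : ℕ, ∀ (n s : ℕ) (x y x' y' : List Bool), x.length ≤ n →
    y.length ≤ n → x'.length ≤ n → y'.length ≤ n → GWsub s x y x' y' → GWsub s x' y' x y →
    ∀ q : List Bool, ∃ q' : List Bool, K q' () ≤ K q () + C * (s + lam n) ∧
      K x' q' + K y' q' + K (x, y) q ≤ K x q + K y q + K (x', y') q' + C * (s + lam n) := by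
  obtain ⟨c1, h1⟩ := aux_str
  obtain ⟨c2, h2⟩ := aux_pair
  obtain ⟨c3, h3⟩ := aux_cond
  obtain ⟨c4, h4⟩ := aux_enc1
  obtain ⟨c5, h5⟩ := aux_enc2
  obtain ⟨c6, h6⟩ := aux_ch
  obtain ⟨CA, hA⟩ := caseA
  obtain ⟨l1, l2, l3, l4⟩ := lam_facts
  obtain ⟨C0, hC0⟩ : ∃ C0, C0 = c1 + c2 + c3 + 4 := ⟨_, rfl⟩
  obtain ⟨D, hD⟩ : ∃ D, D = Nat.size C0 + 3 := ⟨_, rfl⟩
  refine ⟨CA * D + c4 + 2 * c5 + c6 + 2 * D, ?_⟩
  intro n s x y x' y' hx hy hx' hy' g1 g2 q
  obtain ⟨N, hN⟩ : ∃ N, N = C0 * (n + 1) := ⟨_, rfl⟩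
  obtain ⟨T, hT⟩ : ∃ T, T = s + lam n := ⟨_, rfl⟩
  rw [← hT]
  have t1 := l1 n
  have hNN : c1 + c2 + c3 + 4 + 4 * n ≤ N := by
    rw [hN, hC0]
    have : (c1 + c2 + c3 + 4) * (n + 1) = (c1 + c2 + c3) * n + (c1 + c2 + c3) + 4 * n + 4 := by
      ring
    omega
  have hl : lam N ≤ (Nat.size C0 + 2) * lam n := by
    rw [hN]; exact lam_le C0 n
  have hl2 : (Nat.size C0 + 2) * lam n ≤ (Nat.size C0 + 2) * T :=
    Nat.mul_le_mul le_rfl (by omega)
  have hDT : D * T = (Nat.size C0 + 2) * T + T := by rw [hD]; ring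
  have hC : (CA * D + c4 + 2 * c5 + c6 + 2 * D) * T =
      CA * (D * T) + c4 * T + 2 * (c5 * T) + c6 * T + 2 * (D * T) := by ring
  have f4 : c4 ≤ c4 * T := Nat.le_mul_of_pos_right _ (by omega)
  have f5 : c5 ≤ c5 * T := Nat.le_mul_of_pos_right _ (by omega)
  have f6 : c6 ≤ c6 * T := Nat.le_mul_of_pos_right _ (by omega)
  rw [hC]
  have b1 := h1 x
  have b2 := h1 y
  have b3 := h1 x'
  have b4 := h1 y'
  have b5 := h2 x y
  have b6 := h2 x' y'
  by_cases hq : K q () ≤ N
  · obtain ⟨q', r1, r2⟩ := hA N n s x y x' y' (by omega) hx hy hx' hy' (by omega) (by omega)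
      (by omega) (by omega) (by omega) (by omega) g1 g2 q hq
    have f7 : CA * (s + lam N + lam n) ≤ CA * (D * T) := Nat.mul_le_mul le_rfl (by omega)
    exact ⟨q', by omega, by omega⟩
  · push Not at hq
    have k1 := h4 x' y'
    obtain ⟨k2, k3⟩ := h5 x' y'
    have k4 := h6 x y q
    have k5 := h3 x q
    have k6 : Nat.size (K x q) ≤ lam N := size_le_lam (by omega)
    exact ⟨enc x' y', by omega, by omega⟩

end Pool.Agent.Helper760.EP.J4298
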