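import Mathlib
import Pool.Agent.Helper760.EP.Base7
import Pool.Agent.Helper760.EP.J4294
import Pool.Agent.Helper760.EP.J4296
import Pool.Agent.Helper760.EP.J4298

set_option autoImplicit false

namespace Pool.Agent.Helper760.EP

alias realize := J4294.realize
alias ak_bounded := J4296.ak_bounded
alias GW_W_K := J4298.GW_W_K

end Pool.Agent.Helper760.EP
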