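import Mathlib
import Pool.Agent.Helper760.EP.Base8

set_option autoImplicit false

namespace Pool.Agent.Helper760.EP.J4299

open Encodable
open Pool.Agent.Helper760.Kolm

theorem K_len : ∃ c : ℕ, ∀ u : List Bool, K u () ≤ u.length + c := by
  obtain ⟨c, hc⟩ := K_param (γ := Unit) (β := Unit) (α := List Bool)
    (fun x => Part.some x.2.1) (by
      have : Computable (fun x : Unit × List Bool × Unit => x.2.1) :=
        Computable.fst.comp Computable.snd
      exact this.partrec)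
  refine ⟨c, fun u => ?_⟩
  have := hc () u () u (by simp)
  simp only [size_encode_unit] at this
  omega

theorem K_to0 {α β : Type*} [Primcodable α] [Primcodable β] :
    ∃ c : ℕ, ∀ (a : α) (b : β), K a b ≤ K a () + c := by
  obtain ⟨c, hc⟩ := K_comp (fun (a : α) (_ : β) => a) (Computable.fst).to₂
    (fun _ : β => ()) (Computable.const ())
  exact ⟨c, fun a b => hc a b⟩

theorem K_pair0 : ∃ c : ℕ, ∀ x y : List Bool,
    K (x, y) () ≤ K x () + K y () + 2 * Nat.size (K x ()) + c := by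
  obtain ⟨c1, h1⟩ := K_chain0 (α := List Bool) (β := List Bool × List Bool)
  obtain ⟨c2, h2⟩ := K_comp (fun (d : List Bool) (b : List Bool) => (b, d))
    (Computable.pair Computable.snd Computable.fst).to₂
    (fun _ : List Bool => ()) (Computable.const ())
  refine ⟨c1 + c2, fun x y => ?_⟩
  have e1 := h1 x (x, y)
  have e2 := h2 y x
  omega

theorem K_fst : ∃ c : ℕ, ∀ x y q : List Bool, K x q ≤ K (x, y) q + c := by
  obtain ⟨c, hc⟩ := K_comp (fun (d : List Bool × List Bool) (_ : List Bool) => d.1)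
    (Computable.fst.comp Computable.fst).to₂ (fun q : List Bool => q) Computable.id
  exact ⟨c, fun x y q => hc (x, y) q⟩

theorem K_snd : ∃ c : ℕ, ∀ x y q : List Bool, K y q ≤ K (x, y) q + c := by
  obtain ⟨c, hc⟩ := K_comp (fun (d : List Bool × List Bool) (_ : List Bool) => d.2)
    (Computable.snd.comp Computable.fst).to₂ (fun q : List Bool => q) Computable.id
  exact ⟨c, fun x y q => hc (x, y) q⟩

theorem prof_aux : ∃ C : ℕ, ∀ (N : ℕ) (x y q : List Bool), K x () ≤ N → K y () ≤ N →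
    K q () ≤ N → ap (C * lam N) (K (x, q) ()) (K q () + K x q) ∧
      ap (C * lam N) (K (y, q) ()) (K q () + K y q) ∧
      ap (C * lam N) (K (x, y, q) ()) (K q () + K (x, y) q) := by
  obtain ⟨c0, h0⟩ := K_len
  obtain ⟨C, hC⟩ := toolkit
  refine ⟨3 * (C * (Nat.size (c0 + 1) + 2)), fun N x y q hx hy hq => ?_⟩
  set N' := (c0 + 1) * (N + 1) with hN'
  have hNN : N + c0 ≤ N' := by rw [hN']; nlinarith
  have hT := hC N' ![x, y, q, [], []] (by
    have hnil := h0 []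
    simp only [List.length_nil] at hnil
    intro i
    fin_cases i
    · show K x () ≤ N'
      omega
    · show K y () ≤ N'
      omega
    · show K q () ≤ N'
      omega
    · show K ([] : List Bool) () ≤ N'
      omega
    · show K ([] : List Bool) () ≤ N'
      omega)
  have hlam : C * lam N' ≤ C * (Nat.size (c0 + 1) + 2) * lam N := by
    rw [mul_assoc]
    exact Nat.mul_le_mul_left _ (lam_le (c0 + 1) N)
  set e0 := C * lam N' with he0
  have a1 := hT.c1 2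
  have a2 := hT.c2 0 2
  have a3 := hT.c11 0 2
  have b2 := hT.c2 1 2
  have b3 := hT.c11 1 2
  have d2 := hT.c3 0 1 2
  have d3 := hT.c21 0 1 2
  have e0' : (![x, y, q, [], []] : Fin 5 → List Bool) 0 = x := rfl
  have e1' : (![x, y, q, [], []] : Fin 5 → List Bool) 1 = y := rfl
  have e2' : (![x, y, q, [], []] : Fin 5 → List Bool) 2 = q := rfl
  rw [e2'] at a1
  rw [e0', e2'] at a2 a3
  rw [e1', e2'] at b2 b3
  rw [e0', e1', e2'] at d2 d3
  have hh : 3 * (C * (Nat.size (c0 + 1) + 2)) * lam N = 3 * (C * (Nat.size (c0 + 1) + 2) * lam N) := by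
    ring
  rw [hh]
  unfold ap at *
  refine ⟨⟨?_, ?_⟩, ⟨?_, ?_⟩, ⟨?_, ?_⟩⟩ <;> omega

/-- TARGET -/
theorem GW_E_K : ∃ C : ℕ, ∀ (n N s e : ℕ) (x y x' y' : List Bool), x.length ≤ n →
    y.length ≤ n → x'.length ≤ n → y'.length ≤ n → n ≤ N → GWsub s x y x' y' →
    GWsub s x' y' x y → ∀ q : List Bool, K q () ≤ N → ∃ q' : List Bool,
      (∀ i, ap (C * (s + e + lam N)) (profK x' y' q' i) (profK x y q i)) ∧
      (K q' () + e ≤ K q () ∨ K q' () ≤ 2 * n + C * (s + e + lam N)) := by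
  obtain ⟨c0, hlen⟩ := K_len
  obtain ⟨cp, hpair⟩ := K_pair0
  obtain ⟨cf, hfst⟩ := K_fst
  obtain ⟨cs, hsnd⟩ := K_snd
  obtain ⟨cz, hto0⟩ := K_to0 (α := List Bool) (β := List Bool)
  obtain ⟨cc, hchain⟩ := K_chain0 (α := List Bool) (β := List Bool × List Bool)
  obtain ⟨CA, hAK⟩ := upper_AK
  obtain ⟨CS, hsub⟩ := sub_profile
  obtain ⟨CR, hreal⟩ := realize
  obtain ⟨CP, hprof⟩ := prof_aux
  obtain ⟨lam1, lam2, lam3, lam4⟩ := lam_facts
  -- constants
  obtain ⟨Λ, hΛ⟩ : ∃ Λ : ℕ → ℕ, Λ = fun k => (Nat.size k + 2) * 2 := ⟨_, rfl⟩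
  obtain ⟨A0, hA0⟩ : ∃ A0, A0 = Λ (c0 + 1) := ⟨_, rfl⟩
  obtain ⟨B0, hB0⟩ : ∃ B0, B0 = CA * A0 := ⟨_, rfl⟩
  obtain ⟨k1, hk1⟩ : ∃ k1, k1 = 4 * (c0 + 1) + cp + B0 + 1 := ⟨_, rfl⟩
  obtain ⟨A1, hA1⟩ : ∃ A1, A1 = Λ k1 := ⟨_, rfl⟩
  obtain ⟨B1, hB1⟩ : ∃ B1, B1 = CA * A1 := ⟨_, rfl⟩
  obtain ⟨k2, hk2⟩ : ∃ k2, k2 = k1 + B1 + 2 * A1 + cc + 1 := ⟨_, rfl⟩
  obtain ⟨A2, hA2⟩ : ∃ A2, A2 = Λ k2 := ⟨_, rfl⟩
  obtain ⟨σ, hσ⟩ : ∃ σ, σ = B0 + B1 + 2 * A1 + cc + CS + cz + cf + cs + 5 := ⟨_, rfl⟩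
  obtain ⟨τ, hτ⟩ : ∃ τ, τ = CR * (σ + A2) := ⟨_, rfl⟩
  obtain ⟨k3, hk3⟩ : ∃ k3, k3 = c0 + 2 + τ := ⟨_, rfl⟩
  obtain ⟨P0, hP0⟩ : ∃ P0, P0 = CP * A0 := ⟨_, rfl⟩
  obtain ⟨P3, hP3⟩ : ∃ P3, P3 = CP * Λ k3 := ⟨_, rfl⟩
  refine ⟨CS + 2 * τ + P0 + P3 + 2 * c0 + cp + 2 * A0 + 5, ?_⟩
  intro n N s e x y x' y' hx hy hx' hy' hnN hG1 hG2 q hq
  obtain ⟨E, hE⟩ : ∃ E, E = s + e + lam N := ⟨_, rfl⟩
  obtain ⟨Q, hQ⟩ : ∃ Q, Q = N + s + e + 1 := ⟨_, rfl⟩
  have l1N := lam1 N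
  have l4N := lam4 N
  have hE1 : 1 ≤ E := by omega
  have hsE : s ≤ E := by omega
  have heE : e ≤ E := by omega
  have hlE : lam N ≤ E := by omega
  have hEQ : E ≤ Q := by omega
  have hNQ : N + 1 ≤ Q := by omega
  have hlamQ : lam (N + s + e) ≤ 2 * E := by
    have h1 := lam3 N (s + e)
    have h2 := lam4 (s + e)
    rw [← add_assoc] at h1
    omega
  have hΛE : ∀ k, lam (k * Q) ≤ Λ k * E := by
    intro k
    rw [hQ, hΛ]
    refine (lam_le k (N + s + e)).trans ?_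
    calc (Nat.size k + 2) * lam (N + s + e) ≤ (Nat.size k + 2) * (2 * E) :=
          Nat.mul_le_mul_left _ hlamQ
      _ = (Nat.size k + 2) * 2 * E := by ring
  have hcE : ∀ c : ℕ, c ≤ c * E := fun c => Nat.le_mul_of_pos_right c (by omega)
  have hcEQ : ∀ c : ℕ, c * E ≤ c * Q := fun c => Nat.mul_le_mul_left c hEQ
  have hcQ : ∀ c : ℕ, c ≤ c * Q := fun c => (hcE c).trans (hcEQ c)
  have hlamn : lam n ≤ lam N := lam2 n N hnN
  -- the bounds for the strings
  have hN0 : N + c0 ≤ (c0 + 1) * Q := by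
    have h1 := hcQ c0
    have h2 : (c0 + 1) * Q = c0 * Q + Q := by ring
    linarith only [h1, h2, hNQ]
  have Kx : K x () ≤ (c0 + 1) * Q := by linarith only [hlen x, hx, hnN, hN0]
  have Ky : K y () ≤ (c0 + 1) * Q := by linarith only [hlen y, hy, hnN, hN0]
  have Kx' : K x' () ≤ (c0 + 1) * Q := by linarith only [hlen x', hx', hnN, hN0]
  have Ky' : K y' () ≤ (c0 + 1) * Q := by linarith only [hlen y', hy', hnN, hN0]
  have Kq : K q () ≤ (c0 + 1) * Q := by linarith only [hq, hN0]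
  -- the sub_profile bounds
  have hCS : CS * (s + lam n) ≤ CS * E := Nat.mul_le_mul_left _ (by omega)
  have hCS' : ∀ a b : ℕ, a ≤ b + CS * (s + lam n) → a ≤ b + CS * E := fun a b h => by
    linarith only [h, hCS]
  obtain ⟨p1, p2, p3⟩ := hsub n s x y x' y' hx hy hx' hy' hG1
  obtain ⟨r1, r2, r3⟩ := hsub n s x' y' x y hx' hy' hx hy hG2
  replace p1 := hCS' _ _ p1
  replace p2 := hCS' _ _ p2
  replace p3 := hCS' _ _ p3
  replace r1 := hCS' _ _ r1
  replace r2 := hCS' _ _ r2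
  replace r3 := hCS' _ _ r3
  clear hCS hCS'
  -- first step
  obtain ⟨q1, u1, u2, u3, -⟩ := hAK ((c0 + 1) * Q) x y q Kx Ky Kq
  have hB0E : CA * lam ((c0 + 1) * Q) ≤ B0 * E := by
    rw [hB0, mul_assoc]
    refine Nat.mul_le_mul_left _ ?_
    rw [hA0]
    exact hΛE _
  have hxyQ : K (x, y) () ≤ (4 * (c0 + 1) + cp) * Q := by
    have h1 : (4 * (c0 + 1) + cp) * Q = 4 * ((c0 + 1) * Q) + cp * Q := by ring
    linarith only [h1, hcQ cp, hpair x y, size_le_self (K x ()), Kx, Ky]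
  -- second step
  obtain ⟨q2, v1, v2, v3⟩ := hG1 q1
  have hk1Q : k1 * Q = (4 * (c0 + 1) + cp) * Q + B0 * Q + Q := by rw [hk1]; ring
  have hq2 : K q2 () ≤ k1 * Q := by
    linarith only [hk1Q, hcEQ B0, v1, u1, hB0E, hxyQ, hsE, hEQ]
  have hk1' : (c0 + 1) * Q ≤ k1 * Q := Nat.mul_le_mul_right _ (by omega)
  obtain ⟨q3, w1, w2, w3, w4⟩ := hAK (k1 * Q) x' y' q2 (Kx'.trans hk1') (Ky'.trans hk1') hq2
  have hA1E : lam (k1 * Q) ≤ A1 * E := by rw [hA1]; exact hΛE _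
  have hB1E : CA * lam (k1 * Q) ≤ B1 * E := by
    rw [hB1, mul_assoc]
    exact Nat.mul_le_mul_left _ hA1E
  have z1 := hchain q2 (x', y')
  have z2 : Nat.size (K q2 ()) ≤ A1 * E := by
    have h1 : Nat.size (K q2 ()) ≤ Nat.size (k1 * Q) := size_mono hq2
    unfold lam at hA1E
    linarith only [h1, hA1E]
  have hq3 : K q3 () ≤ K q2 () + (B1 * E + 2 * (A1 * E) + cc * E) := by
    linarith only [w1, hB1E, z1, z2, hcE cc]
  have hk2Q : k2 * Q = k1 * Q + B1 * Q + 2 * (A1 * Q) + cc * Q + Q := by rw [hk2]; ring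
  have hq3Q : K q3 () ≤ k2 * Q := by
    linarith only [hq3, hq2, hk2Q, hcEQ B1, hcEQ A1, hcEQ cc]
  have hk12 : k1 * Q ≤ k2 * Q := Nat.mul_le_mul_right _ (by omega)
  have hk2' : (c0 + 1) * Q ≤ k2 * Q := hk1'.trans hk12
  have hA2E : lam (k2 * Q) ≤ A2 * E := by rw [hA2]; exact hΛE _
  -- realize
  have hσE : σ * E = B0 * E + B1 * E + 2 * (A1 * E) + cc * E + CS * E + cz * E + cf * E + cs * E
      + 5 * E := by rw [hσ]; ring
  have y1 := hto0 x q
  have y2 := hto0 y q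
  have y3 := hfst x y q
  have y4 := hsnd x y q
  have y5 := hchain q (x, y)
  have y6 : Nat.size (K q ()) + 1 ≤ E := by
    have := size_mono hq
    unfold lam at hlE
    linarith only [this, hlE]
  obtain ⟨m, hm⟩ : ∃ m, m = K q () - e := ⟨_, rfl⟩
  have hm1 : m ≤ K q () := by rw [hm]; exact Nat.sub_le _ _
  have hm2 : K q () ≤ m + e := by rw [hm]; clear * -; omega
  have z : ∀ v : ℕ, 0 ≤ v := fun v => Nat.zero_le v
  obtain ⟨w, t1, t2, t3, t4, t5⟩ := hreal (k2 * Q) (σ * E) (K x q) (K y q) (K (x, y) q)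
    m x' y' q3 (Kx'.trans hk2') (Ky'.trans hk2') hq3Q
    (by linarith only [hm1, Kq, hk2'])
    (by linarith only [w4, hB1E, hσE, hE1, z (B0 * E), z (B1 * E), z (A1 * E), z (cc * E), z (CS * E), z (cz * E), z (cf * E), z (cs * E)])
    (by linarith only [w2, v2, u2, hB0E, hB1E, hσE, hsE, hE1, z (B0 * E), z (B1 * E), z (A1 * E), z (cc * E), z (CS * E), z (cz * E), z (cf * E), z (cs * E)])
    (by linarith only [w3, v3, u3, hB0E, hB1E, hσE, hsE, hE1, z (B0 * E), z (B1 * E), z (A1 * E), z (cc * E), z (CS * E), z (cz * E), z (cf * E), z (cs * E)])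
    (by linarith only [hq3, v1, u1, hB0E, hσE, hsE, r3, hE1, z (B0 * E), z (B1 * E), z (A1 * E), z (cc * E), z (CS * E), z (cz * E), z (cf * E), z (cs * E)])
    (by linarith only [y1, r1, hσE, hcE cz, hE1, z (B0 * E), z (B1 * E), z (A1 * E), z (cc * E), z (CS * E), z (cz * E), z (cf * E), z (cs * E)])
    (by linarith only [y2, r2, hσE, hcE cz, hE1, z (B0 * E), z (B1 * E), z (A1 * E), z (cc * E), z (CS * E), z (cz * E), z (cf * E), z (cs * E)])
    (by linarith only [y3, hσE, hcE cf, hE1, z (B0 * E), z (B1 * E), z (A1 * E), z (cc * E), z (CS * E), z (cz * E), z (cf * E), z (cs * E)])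
    (by linarith only [y4, hσE, hcE cs, hE1, z (B0 * E), z (B1 * E), z (A1 * E), z (cc * E), z (CS * E), z (cz * E), z (cf * E), z (cs * E)])
    (by linarith only [p3, y5, y6, hm2, hσE, heE, hcE cc, hE1, z (B0 * E), z (B1 * E), z (A1 * E), z (cc * E), z (CS * E), z (cz * E), z (cf * E), z (cs * E)])
  have hτE : CR * (σ * E + lam (k2 * Q)) ≤ τ * E := by
    rw [hτ, mul_assoc]
    refine Nat.mul_le_mul_left _ ?_
    have h1 : (σ + A2) * E = σ * E + A2 * E := by ring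
    linarith only [h1, hA2E]
  clear hσE y1 y2 y3 y4 y5 y6 hq3 hq3Q w1 w2 w3 w4 z1 z2 v1 v2 v3 u1 u2 u3
  -- profiles
  unfold ap at t1 t2 t3 t4
  obtain ⟨t11, t12⟩ := t1
  obtain ⟨t21, t22⟩ := t2
  obtain ⟨t31, t32⟩ := t3
  obtain ⟨t41, t42⟩ := t4
  have hk3Q : k3 * Q = (c0 + 1) * Q + Q + τ * Q := by rw [hk3]; ring
  have hk3' : (c0 + 1) * Q ≤ k3 * Q := Nat.mul_le_mul_right _ (by omega)
  have hwQ : K w () ≤ k3 * Q := by
    linarith only [t11, hτE, hcEQ τ, hm1, Kq, hk3Q]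
  obtain ⟨⟨f11, f12⟩, ⟨f21, f22⟩, ⟨f31, f32⟩⟩ :=
    hprof (k3 * Q) x' y' w (Kx'.trans hk3') (Ky'.trans hk3') hwQ
  obtain ⟨⟨g11, g12⟩, ⟨g21, g22⟩, ⟨g31, g32⟩⟩ := hprof ((c0 + 1) * Q) x y q Kx Ky Kq
  have hP3E : CP * lam (k3 * Q) ≤ P3 * E := by
    rw [hP3, mul_assoc]
    exact Nat.mul_le_mul_left _ (hΛE _)
  have hP0E : CP * lam ((c0 + 1) * Q) ≤ P0 * E := by
    rw [hP0, mul_assoc, hA0]
    exact Nat.mul_le_mul_left _ (hΛE _)
  have hCE : (CS + 2 * τ + P0 + P3 + 2 * c0 + cp + 2 * A0 + 5) * (s + e + lam N) =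
      CS * E + 2 * (τ * E) + P0 * E + P3 * E + 2 * (c0 * E) + cp * E + 2 * (A0 * E) + 5 * E := by
    rw [hE]; ring
  refine ⟨w, ?_, ?_⟩
  · intro i
    rw [hCE]
    unfold ap profK
    fin_cases i
    · show K x' () ≤ K x () + _ ∧ K x () ≤ K x' () + _
      constructor <;> linarith only [p1, r1, z (τ * E), z (P0 * E), z (P3 * E), z (c0 * E),
        z (cp * E), z (A0 * E), z E]
    · show K y' () ≤ K y () + _ ∧ K y () ≤ K y' () + _
      constructor <;> linarith only [p2, r2, z (τ * E), z (P0 * E), z (P3 * E), z (c0 * E),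
        z (cp * E), z (A0 * E), z E]
    · show K w () ≤ K q () + _ ∧ K q () ≤ K w () + _
      constructor <;> linarith only [t11, t12, hτE, hm1, hm2, heE, z (CS * E), z (τ * E),
        z (P0 * E), z (P3 * E), z (c0 * E), z (cp * E), z (A0 * E), z E]
    · show K (x', y') () ≤ K (x, y) () + _ ∧ K (x, y) () ≤ K (x', y') () + _
      constructor <;> linarith only [p3, r3, z (τ * E), z (P0 * E), z (P3 * E), z (c0 * E),
        z (cp * E), z (A0 * E), z E]
    · show K (x', w) () ≤ K (x, q) () + _ ∧ K (x, q) () ≤ K (x', w) () + _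
      constructor <;> linarith only [f11, f12, g11, g12, t11, t12, t21, t22, hτE, hP3E, hP0E,
        hm1, hm2, heE, z (CS * E), z (c0 * E), z (cp * E), z (A0 * E), z E]
    · show K (y', w) () ≤ K (y, q) () + _ ∧ K (y, q) () ≤ K (y', w) () + _
      constructor <;> linarith only [f21, f22, g21, g22, t11, t12, t31, t32, hτE, hP3E, hP0E,
        hm1, hm2, heE, z (CS * E), z (c0 * E), z (cp * E), z (A0 * E), z E]
    · show K (x', y', w) () ≤ K (x, y, q) () + _ ∧ K (x, y, q) () ≤ K (x', y', w) () + _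
      constructor <;> linarith only [f31, f32, g31, g32, t11, t12, t41, t42, hτE, hP3E, hP0E,
        hm1, hm2, heE, z (CS * E), z (c0 * E), z (cp * E), z (A0 * E), z E]
  · rw [hCE]
    rcases t5 with t5 | t5
    · by_cases he : e ≤ K q ()
      · left
        rw [hm] at t5
        clear * - t5 he
        omega
      · right
        have hm0 : m = 0 := by rw [hm]; exact Nat.sub_eq_zero_of_le (by omega)
        rw [hm0] at t5
        exact t5.trans (Nat.zero_le _)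
    · right
      have hxy' := hpair x' y'
      have hsz : Nat.size (K x' ()) ≤ A0 * E := by
        have h1 : Nat.size (K x' ()) ≤ Nat.size ((c0 + 1) * Q) := size_mono Kx'
        have h2 := hΛE (c0 + 1)
        rw [← hA0] at h2
        unfold lam at h2
        linarith only [h1, h2]
      linarith only [t5, hτE, hxy', hsz, hcE c0, hcE cp, hlen x', hlen y', hx', hy',
        z (K (x, y) q), z (CS * E), z (τ * E), z (P0 * E), z (P3 * E), z (c0 * E), z (cp * E),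
        z (A0 * E), z E]

end Pool.Agent.Helper760.EP.J4299
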