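import Mathlib
import Pool.Agent.Helper760.EP.Base8

set_option autoImplicit false

namespace Pool.Agent.Helper760.EP.J4307

open Encodable
open Pool.Agent.Helper760.Kolm

theorem ap_mono {e e' a b : ℕ} (h : ap e a b) (he : e ≤ e') : ap e' a b :=
  ⟨by have := h.1; omega, by have := h.2; omega⟩

theorem Close_mono {d : ℕ} {δ δ' : ℝ} {S T : Set (Fin d → ℤ)} (h : Close δ S T) (hd : δ ≤ δ') :
    Close δ' S T := by
  refine ⟨fun s hs => ?_, fun t ht => ?_⟩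
  · obtain ⟨t, ht, h1⟩ := h.1 s hs
    exact ⟨t, ht, fun i => (h1 i).trans hd⟩
  · obtain ⟨s, hs, h1⟩ := h.2 t ht
    exact ⟨s, hs, fun i => (h1 i).trans hd⟩

theorem half_C (U : List Bool →. List Bool) (D : List Bool → List Bool →. List Bool)
    (pr : List Bool → List Bool → List Bool) (c2 : ℕ) (hU : ∀ s, ap c2 (CU U s) (K s ()))
    (hD : ∀ s y, ap c2 (CD D s y) (K s y))
    (hpr : ∀ x y z : List Bool, ap c2 (K (pr x y) z) (K (x, y) z)) (E : ℕ)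
    (x y x' y' : List Bool)
    (h : ∀ q : List Bool, ∃ q' : List Bool, K q' () ≤ K q () + E ∧
      K x' q' + K y' q' + K (x, y) q ≤ K x q + K y q + K (x', y') q' + E) :
    ∀ t ∈ Wp U D pr x y, ∃ t' ∈ Wp U D pr x' y',
      ∀ i, |(t i : ℝ) - (t' i : ℝ)| ≤ ((E + 10 * c2 : ℕ) : ℝ) := by
  rintro t ⟨q, hq1, hq2⟩
  obtain ⟨q', h1, h2⟩ := h q
  refine ⟨fun i => t i + ((E + 10 * c2 : ℕ) : ℤ), ⟨q', ?_, ?_⟩, ?_⟩
  · have e1 := (hU q').1
    have e2 := (hU q).2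
    have e3 : CU U q' ≤ CU U q + E + 2 * c2 := by omega
    show (CU U q' : ℤ) ≤ t 0 + ((E + 10 * c2 : ℕ) : ℤ)
    push_cast
    have e4 : (CU U q' : ℤ) ≤ CU U q + E + 2 * c2 := by exact_mod_cast e3
    linarith
  · show (CD D x' q' : ℤ) + (CD D y' q' : ℤ) - (CD D (pr x' y') q' : ℤ) ≤
      t 1 + ((E + 10 * c2 : ℕ) : ℤ)
    have a1 := (hD x' q').1
    have a2 := (hD y' q').1
    have a3 := (hD (pr x' y') q').2
    have a4 := (hpr x' y' q').2
    have b1 := (hD x q).2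
    have b2 := (hD y q).2
    have b3 := (hD (pr x y) q).1
    have b4 := (hpr x y q).1
    push_cast
    zify at a1 a2 a3 a4 b1 b2 b3 b4 h2
    linarith
  · intro i
    have e1 : (t i : ℝ) - ((t i + ((E + 10 * c2 : ℕ) : ℤ) : ℤ) : ℝ) = -((E + 10 * c2 : ℕ) : ℝ) := by
      push_cast
      ring
    show |(t i : ℝ) - ((t i + ((E + 10 * c2 : ℕ) : ℤ) : ℤ) : ℝ)| ≤ _
    rw [e1, abs_neg, abs_of_nonneg (Nat.cast_nonneg _)]

theorem size_le_logb (n : ℕ) (hn : 1 ≤ n) : (Nat.size n : ℝ) ≤ Real.logb 2 n + 1 := by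
  have h0 : 0 < Nat.size n := Nat.size_pos.mpr hn
  have h1 : 2 ^ (Nat.size n - 1) ≤ n := Nat.lt_size.mp (by omega)
  have h2 : ((Nat.size n - 1 : ℕ) : ℝ) ≤ Real.logb 2 n := by
    rw [Real.le_logb_iff_rpow_le (by norm_num) (by exact_mod_cast hn), Real.rpow_natCast]
    exact_mod_cast h1
  have h3 : ((Nat.size n - 1 : ℕ) : ℝ) = (Nat.size n : ℝ) - 1 := by
    rw [Nat.cast_sub h0, Nat.cast_one]
  linarith

theorem partC (U : List Bool →. List Bool) (D : List Bool → List Bool →. List Bool)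
    (pr : List Bool → List Bool → List Bool) (hU : OptPlain U) (hD : OptCond D)
    (hpr : PairCode pr) : Determines (fun _ => GWp U D) (fun _ => Wp U D pr) := by
  obtain ⟨cU, hcU⟩ := plain_K U hU
  obtain ⟨cD, hcD⟩ := cond_K D hD
  obtain ⟨cP, hcP⟩ := pair_K pr hpr
  obtain ⟨C0, hC0⟩ := sub_iff_close U D hU hD
  obtain ⟨C1, hC1⟩ := GW_W_K
  set c2 : ℕ := cU + cD + cP with hc2
  have hU' : ∀ s, ap c2 (CU U s) (K s ()) := fun s => ap_mono (hcU s) (by omega)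
  have hD' : ∀ s y, ap c2 (CD D s y) (K s y) := fun s y => ap_mono (hcD s y) (by omega)
  have hP' : ∀ x y z : List Bool, ap c2 (K (pr x y) z) (K (x, y) z) :=
    fun x y z => ap_mono ((hcP x y).2.1 z) (by omega)
  intro c hc
  refine ⟨C1 * (c + 4 + C0) + 10 * c2 + 1, by positivity, ?_⟩
  intro n hn x y x' y' hx hy hx' hy' hclose
  set L : ℝ := Real.logb 2 n with hL
  have hL1 : 1 ≤ L := by
    rw [hL, Real.le_logb_iff_rpow_le (by norm_num) (by positivity), Real.rpow_one]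
    exact_mod_cast hn
  have hclose' : Close (((⌈c * L⌉₊ : ℕ) : ℝ)) (GWp U D x y) (GWp U D x' y') :=
    Close_mono hclose (Nat.le_ceil _)
  obtain ⟨hs1, hs2⟩ := (hC0 x y x' y').1 _ hclose'
  have hG1 := hC1 n (⌈c * L⌉₊ + C0) x y x' y' hx hy hx' hy' hs1 hs2
  have hG2 := hC1 n (⌈c * L⌉₊ + C0) x' y' x y hx' hy' hx hy hs2 hs1
  set E : ℕ := C1 * (⌈c * L⌉₊ + C0 + lam n) with hE
  have hbound : ((E + 10 * c2 : ℕ) : ℝ) ≤ (C1 * (c + 4 + C0) + 10 * c2 + 1) * L := by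
    have h1 : ((⌈c * L⌉₊ : ℕ) : ℝ) ≤ c * L + 1 := (Nat.ceil_lt_add_one (by positivity)).le
    have h2 : ((lam n : ℕ) : ℝ) ≤ L + 2 := by
      unfold lam
      push_cast
      have := size_le_logb n (by omega)
      linarith
    have h3 : ((⌈c * L⌉₊ : ℕ) : ℝ) + C0 + lam n ≤ (c + 4 + C0) * L := by
      have h4 : (C0 : ℝ) ≤ C0 * L := le_mul_of_one_le_right (Nat.cast_nonneg _) hL1
      nlinarith
    have h5 : (C1 : ℝ) * (((⌈c * L⌉₊ : ℕ) : ℝ) + C0 + lam n) ≤ C1 * ((c + 4 + C0) * L) :=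
      mul_le_mul_of_nonneg_left h3 (Nat.cast_nonneg _)
    have h6 : (c2 : ℝ) ≤ c2 * L := le_mul_of_one_le_right (Nat.cast_nonneg _) hL1
    rw [hE]
    push_cast
    nlinarith
  constructor
  · intro t ht
    obtain ⟨t', ht', h1⟩ := half_C U D pr c2 hU' hD' hP' E x y x' y' hG1 t ht
    exact ⟨t', ht', fun i => (h1 i).trans hbound⟩
  · intro t ht
    obtain ⟨t', ht', h1⟩ := half_C U D pr c2 hU' hD' hP' E x' y' x y hG2 t ht
    refine ⟨t', ht', fun i => ?_⟩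
    rw [abs_sub_comm]
    exact (h1 i).trans hbound

end Pool.Agent.Helper760.EP.J4307
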