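import Mathlib
import Pool.Agent.Helper760.EP.Base9

set_option autoImplicit false

namespace Pool.Agent.Helper760.EP.J4308

open Encodable
open Pool.Agent.Helper760.Kolm

theorem partA_size_pow (n k : ℕ) : Nat.size (n ^ k) ≤ k * Nat.size n + 1 := by
  induction k with
  | zero => simp
  | succ k ih =>
    rw [pow_succ]
    have := size_mul_le (n ^ k) n
    have e : (k + 1) * Nat.size n = k * Nat.size n + Nat.size n := by ring
    omega

theorem partA_close_mono {d : ℕ} {δ δ' : ℝ} (h : δ ≤ δ') {S T : Set (Fin d → ℤ)}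
    (hc : Close δ S T) : Close δ' S T := by
  constructor
  · intro s hs
    obtain ⟨t, ht, hst⟩ := hc.1 s hs
    exact ⟨t, ht, fun i => (hst i).trans h⟩
  · intro t ht
    obtain ⟨s, hs, hst⟩ := hc.2 t ht
    exact ⟨s, hs, fun i => (hst i).trans h⟩

theorem partA_finite (m : ℕ) : {q : List Bool | K q () ≤ m}.Finite := by
  by_contra hcon
  obtain ⟨S, hS, hcard⟩ := Set.Infinite.exists_subset_card_eq hcon (2 ^ (m + 1))
  have := card_le () m S (fun a ha => hS ha)
  omega

theorem partA_finite_len (n : ℕ) : {q : List Bool | q.length ≤ n}.Finite := by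
  refine (allLe n).finite_toSet.subset ?_
  intro q hq
  exact (mem_allLe n q).2 hq

theorem partA_size_le (n : ℕ) (hn : 2 ≤ n) : (Nat.size n : ℝ) ≤ 2 * Real.logb 2 n ∧
    1 ≤ Real.logb 2 n := by
  have hn0 : (0 : ℝ) < n := by positivity
  have h1 : 1 ≤ Real.logb 2 n := by
    have h := Real.logb_le_logb_of_le (b := 2) (by norm_num) (by norm_num)
      (show (2 : ℝ) ≤ n by exact_mod_cast hn)
    rwa [Real.logb_self_eq_one (by norm_num)] at h
  refine ⟨?_, h1⟩
  obtain ⟨m, hm⟩ : ∃ m, Nat.size n = m + 1 := by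
    refine ⟨Nat.size n - 1, ?_⟩
    have : 0 < Nat.size n := Nat.size_pos.2 (by omega)
    omega
  have h2 : 2 ^ m ≤ n := Nat.lt_size.1 (by omega)
  have h3 : (m : ℝ) ≤ Real.logb 2 n := by
    have h := Real.logb_le_logb_of_le (b := 2) (by norm_num) (by positivity)
      (show (2 : ℝ) ^ m ≤ n by exact_mod_cast h2)
    rwa [Real.logb_pow, Real.logb_self_eq_one (by norm_num), mul_one] at h
  rw [hm]
  push_cast
  linarith

theorem partA (U : List Bool →. List Bool) (D : List Bool → List Bool →. List Bool)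
    (pr : List Bool → List Bool → List Bool) (hU : OptPlain U) (hD : OptCond D)
    (hpr : PairCode pr) (B : ℕ → ℕ) (d : ℕ)
    (hB : ∀ n, 2 ≤ n → 3 * n ≤ B n ∧ B n ≤ n ^ d) :
    Determines (fun _ => GWp U D) (fun n => EpB U pr (B n)) := by
  obtain ⟨a, ha⟩ := plain_K U hU
  obtain ⟨b, hb⟩ := pair_K pr hpr
  obtain ⟨C0, hC0⟩ := sub_iff_close U D hU hD
  obtain ⟨C1, hC1⟩ := GW_E_K
  obtain ⟨lf1, lf2, lf3, lf4⟩ := lam_facts
  -- profiles
  have hprof : ∀ x y q i, |(prof U pr x y q i : ℝ) - (profK x y q i : ℝ)| ≤ (a + b : ℕ) := by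
    intro x y q i
    have hx := ha x
    have hy := ha y
    have hq := ha q
    have h3 := ha (pr x y)
    have h4 := ha (pr x q)
    have h5 := ha (pr y q)
    have h6 := ha (pr x (pr y q))
    have k3 := (hb x y).1
    have k4 := (hb x q).1
    have k5 := (hb y q).1
    have k6 := (hb x y).2.2 q
    unfold ap at *
    have key : ∀ u v : ℕ, u ≤ v + (a + b) → v ≤ u + (a + b) →
        |((u : ℤ) : ℝ) - (v : ℝ)| ≤ (a + b : ℕ) := by
      intro u v h1 h2
      have h1' : (u : ℝ) ≤ v + (a + b : ℕ) := by exact_mod_cast h1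
      have h2' : (v : ℝ) ≤ u + (a + b : ℕ) := by exact_mod_cast h2
      rw [abs_le]
      constructor
      · push_cast at *; linarith
      · push_cast at *; linarith
    fin_cases i
    · exact key (CU U x) (K x ()) (by omega) (by omega)
    · exact key (CU U y) (K y ()) (by omega) (by omega)
    · exact key (CU U q) (K q ()) (by omega) (by omega)
    · exact key (CU U (pr x y)) (K (x, y) ()) (by omega) (by omega)
    · exact key (CU U (pr x q)) (K (x, q) ()) (by omega) (by omega)
    · exact key (CU U (pr y q)) (K (y, q) ()) (by omega) (by omega)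
    · exact key (CU U (pr x (pr y q))) (K (x, y, q) ()) (by omega) (by omega)
  intro c hc
  -- the growth constant
  set G : ℝ := C1 * (c + 1 + C0 + 2 * a + Nat.size (a + 2) + 2 + 2 * (d + 1)) with hG
  have hG0 : 0 ≤ G := by positivity
  obtain ⟨n0, hn0⟩ : ∃ n0 : ℕ, ∀ n : ℕ, n0 ≤ n → 2 ≤ n → G * Real.logb 2 n + a ≤ n := by
    have hlog2 : 0 < Real.log 2 := Real.log_pos (by norm_num)
    have hden : (0 : ℝ) < G + a + 1 := by positivity
    have h1 := Real.isLittleO_log_id_atTop.bound (c := Real.log 2 / (G + a + 1)) (by positivity)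
    have h2 := (tendsto_natCast_atTop_atTop (R := ℝ)).eventually h1
    obtain ⟨n0, hn0⟩ := Filter.eventually_atTop.1 h2
    refine ⟨n0, fun n hn hn2 => ?_⟩
    have h3 := hn0 n hn
    have hL1 := (partA_size_le n hn2).2
    have h4 : Real.log n ≤ Real.log 2 / (G + a + 1) * n := by
      have h5 := (le_abs_self (Real.log n)).trans h3
      simpa using h5
    have h6 : Real.logb 2 n ≤ n / (G + a + 1) := by
      rw [Real.logb, div_le_iff₀ hlog2]
      calc Real.log n ≤ Real.log 2 / (G + a + 1) * n := h4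
        _ = n / (G + a + 1) * Real.log 2 := by ring
    have h7 : (G + a + 1) * Real.logb 2 n ≤ n := by
      rw [le_div_iff₀ hden] at h6
      linarith
    have ha0 : (0 : ℝ) ≤ a := Nat.cast_nonneg _
    nlinarith
  -- the finite set
  obtain ⟨M0, hM00, hM0⟩ : ∃ M0 : ℝ, 0 ≤ M0 ∧ ∀ x y q : List Bool, x.length ≤ n0 → y.length ≤ n0 →
      K q () ≤ n0 ^ d + a → ∀ i, |(prof U pr x y q i : ℝ)| ≤ M0 := by
    have hfin : ({x : List Bool | x.length ≤ n0} ×ˢ ({y : List Bool | y.length ≤ n0} ×ˢ
        {q : List Bool | K q () ≤ n0 ^ d + a})).Finite :=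
      (partA_finite_len n0).prod ((partA_finite_len n0).prod (partA_finite _))
    obtain ⟨M0, hM0⟩ := (hfin.image (fun t : List Bool × List Bool × List Bool =>
      ∑ i, |(prof U pr t.1 t.2.1 t.2.2 i : ℝ)|)).bddAbove
    refine ⟨max M0 0, le_max_right _ _, fun x y q hx hy hq i => ?_⟩
    have h1 : ∑ i, |(prof U pr x y q i : ℝ)| ≤ M0 :=
      hM0 ⟨(x, y, q), ⟨hx, hy, hq⟩, rfl⟩
    refine le_trans ?_ (h1.trans (le_max_left _ _))
    exact Finset.single_le_sum (f := fun i => |(prof U pr x y q i : ℝ)|)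
      (fun i _ => abs_nonneg _) (Finset.mem_univ i)
  set c' : ℝ := G + 2 * (a + b : ℕ) + 2 * M0 + 1 with hc'
  refine ⟨c', by positivity, ?_⟩
  have step : ∀ n : ℕ, 2 ≤ n → ∀ x y x' y' : List Bool, x.length ≤ n → y.length ≤ n →
      x'.length ≤ n → y'.length ≤ n → ∀ s : ℕ, (s : ℝ) ≤ c * Real.logb 2 n + 1 →
      GWsub (s + C0) x y x' y' → GWsub (s + C0) x' y' x y → ∀ q, CU U q ≤ B n →
      ∃ q', CU U q' ≤ B n ∧
        ∀ i, |(prof U pr x y q i : ℝ) - (prof U pr x' y' q' i : ℝ)| ≤ c' * Real.logb 2 n := by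
    intro n hn x y x' y' hx hy hx' hy' s hs g1 g2 q hq
    obtain ⟨hsz, hL1⟩ := partA_size_le n hn
    set L : ℝ := Real.logb 2 n with hL
    have hKq : K q () ≤ n ^ d + a := by
      have h1 := (ha q).2
      have h2 := (hB n hn).2
      omega
    rcases Nat.lt_or_ge n n0 with hlt | hge
    · refine ⟨q, hq, fun i => ?_⟩
      have hKq' : K q () ≤ n0 ^ d + a :=
        hKq.trans (Nat.add_le_add_right (Nat.pow_le_pow_left hlt.le d) a)
      have e1 := hM0 x y q (hx.trans hlt.le) (hy.trans hlt.le) hKq' i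
      have e2 := hM0 x' y' q (hx'.trans hlt.le) (hy'.trans hlt.le) hKq' i
      have e3 : |(prof U pr x y q i : ℝ) - (prof U pr x' y' q i : ℝ)| ≤ M0 + M0 :=
        (abs_sub _ _).trans (add_le_add e1 e2)
      have hab : (0 : ℝ) ≤ (a + b : ℕ) := Nat.cast_nonneg _
      have e4 : 2 * M0 ≤ c' * L := by
        calc 2 * M0 ≤ c' := by rw [hc']; linarith
          _ = c' * 1 := by ring
          _ ≤ c' * L := mul_le_mul_of_nonneg_left hL1 (by positivity)
      linarith
    · set N : ℕ := n ^ d + a + n with hN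
      obtain ⟨q', hq1, hq2⟩ := hC1 n N (s + C0) (2 * a) x y x' y' hx hy hx' hy' (by omega) g1 g2 q
        (by omega)
      set E : ℕ := C1 * (s + C0 + 2 * a + lam N) with hE
      -- bound for lam N
      have hlamN : lam N ≤ Nat.size (a + 2) + 2 + (d + 1) * Nat.size n := by
        have h1 : N ≤ (a + 2) * n ^ (d + 1) := by
          have h2 : 1 ≤ n ^ d := Nat.one_le_pow _ _ (by omega)
          have h3 : n ^ (d + 1) = n ^ d * n := pow_succ _ _
          have h4 : n ^ d ≤ n ^ (d + 1) := Nat.pow_le_pow_right (by omega) (by omega)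
          have h5 : n ≤ n ^ (d + 1) := by rw [h3]; nlinarith
          have h6 : a ≤ a * n ^ (d + 1) := Nat.le_mul_of_pos_right _ (by positivity)
          calc N = n ^ d + a + n := hN
            _ ≤ n ^ (d + 1) + a * n ^ (d + 1) + n ^ (d + 1) := by omega
            _ = (a + 2) * n ^ (d + 1) := by ring
        have h2 := size_mono h1
        have h3 := size_mul_le (a + 2) (n ^ (d + 1))
        have h4 := partA_size_pow n (d + 1)
        unfold lam
        omega
      have hER : (E : ℝ) ≤ G * L := by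
        have h1 : (lam N : ℝ) ≤ Nat.size (a + 2) + 2 + (d + 1) * Nat.size n := by
          exact_mod_cast hlamN
        have h2 : (lam N : ℝ) ≤ Nat.size (a + 2) + 2 + (d + 1) * (2 * L) :=
          h1.trans (by
            have : ((d : ℝ) + 1) * Nat.size n ≤ (d + 1) * (2 * L) :=
              mul_le_mul_of_nonneg_left hsz (by positivity)
            linarith)
        have h3 : (s + C0 + 2 * a + lam N : ℝ) ≤
            (c + 1 + C0 + 2 * a + Nat.size (a + 2) + 2 + 2 * (d + 1)) * L := by
          have e1 : (C0 : ℝ) ≤ C0 * L := le_mul_of_one_le_right (Nat.cast_nonneg _) hL1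
          have e2 : (a : ℝ) ≤ a * L := le_mul_of_one_le_right (Nat.cast_nonneg _) hL1
          have e3 : (Nat.size (a + 2) : ℝ) ≤ Nat.size (a + 2) * L :=
            le_mul_of_one_le_right (Nat.cast_nonneg _) hL1
          have e4 : (s + C0 + 2 * a + lam N : ℝ) ≤
              (c * L + 1) + C0 + 2 * a + (Nat.size (a + 2) + 2 + (d + 1) * (2 * L)) := by linarith
          nlinarith
        rw [hE, hG]
        push_cast
        calc (C1 : ℝ) * (s + C0 + 2 * a + lam N) ≤
            C1 * ((c + 1 + C0 + 2 * a + Nat.size (a + 2) + 2 + 2 * (d + 1)) * L) :=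
              mul_le_mul_of_nonneg_left h3 (Nat.cast_nonneg _)
          _ = _ := by ring
      have hEn : E + a ≤ n := by
        have := hn0 n hge hn
        have : (E : ℝ) + a ≤ n := by linarith
        exact_mod_cast this
      refine ⟨q', ?_, fun i => ?_⟩
      · have h1 := (ha q').1
        have h2 := (ha q).2
        have h3 := (hB n hn).1
        rcases hq2 with hq2 | hq2
        · omega
        · omega
      · have e1 := hprof x y q i
        have e2 := hprof x' y' q' i
        have e3 : |(profK x y q i : ℝ) - (profK x' y' q' i : ℝ)| ≤ E := by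
          obtain ⟨f1, f2⟩ := hq1 i
          have f1' : (profK x' y' q' i : ℝ) ≤ profK x y q i + E := by exact_mod_cast f1
          have f2' : (profK x y q i : ℝ) ≤ profK x' y' q' i + E := by exact_mod_cast f2
          rw [abs_le]
          constructor <;> linarith
        have e4 : (2 * (a + b : ℕ) : ℝ) ≤ 2 * (a + b : ℕ) * L :=
          le_mul_of_one_le_right (by positivity) hL1
        have e5 : G * L + 2 * (a + b : ℕ) * L ≤ c' * L := by
          rw [← add_mul]
          apply mul_le_mul_of_nonneg_right _ (by linarith)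
          rw [hc']; linarith
        rw [abs_le] at e1 e2 e3 ⊢
        constructor
        · linarith [e1.1, e1.2, e2.1, e2.2, e3.1, e3.2]
        · linarith [e1.1, e1.2, e2.1, e2.2, e3.1, e3.2]
  intro n hn x y x' y' hx hy hx' hy' hcl
  have hL0 : 0 ≤ c * Real.logb 2 n := by
    have := (partA_size_le n hn).2
    positivity
  have hs : ((⌈c * Real.logb 2 n⌉₊ : ℕ) : ℝ) ≤ c * Real.logb 2 n + 1 :=
    (Nat.ceil_lt_add_one hL0).le
  obtain ⟨g1, g2⟩ := (hC0 x y x' y').1 _ (partA_close_mono (Nat.le_ceil _) hcl)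
  constructor
  · rintro t ⟨q, hq, rfl⟩
    obtain ⟨q', hq', h⟩ := step n hn x y x' y' hx hy hx' hy' _ hs g1 g2 q hq
    exact ⟨_, ⟨q', hq', rfl⟩, h⟩
  · rintro t ⟨q, hq, rfl⟩
    obtain ⟨q', hq', h⟩ := step n hn x' y' x y hx' hy' hx hy _ hs g2 g1 q hq
    refine ⟨_, ⟨q', hq', rfl⟩, fun i => ?_⟩
    rw [abs_sub_comm]
    exact h i

end Pool.Agent.Helper760.EP.J4308
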